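import Mathlib

set_option autoImplicit false

namespace Pool.Agent.H12.Bent

def W (m : ℕ) (f : (Fin m → ZMod 2) → ZMod 2) (y : Fin m → ZMod 2) : ℤ :=
  ∑ x : Fin m → ZMod 2, (-1 : ℤ) ^ (f x + ∑ i, x i * y i).val

def B (m : ℕ) : Set ((Fin m → ZMod 2) → ZMod 2) := {f | ∀ y, |W m f y| = 2 ^ (m / 2)}

lemma chi_add (a b : ZMod 2) : (-1 : ℤ) ^ (a + b).val = (-1) ^ a.val * (-1) ^ b.val := by
  revert a b; decide

lemma W_add_one (m : ℕ) (f : (Fin m → ZMod 2) → ZMod 2) (y : Fin m → ZMod 2) :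
    W m (f + 1) y = -W m f y := by
  unfold W
  rw [← Finset.sum_neg_distrib]
  refine Finset.sum_congr rfl fun x _ => ?_
  have : (f + 1) x + ∑ i, x i * y i = (f x + ∑ i, x i * y i) + 1 := by
    simp only [Pi.add_apply, Pi.one_apply]; ring
  rw [this, chi_add]
  have : (-1 : ℤ) ^ (1 : ZMod 2).val = -1 := by decide
  rw [this]; ring

lemma W_shift (m : ℕ) (f : (Fin m → ZMod 2) → ZMod 2) (a y : Fin m → ZMod 2) :
    W m (fun x => f x + ∑ i, x i * a i) y = W m f (a + y) := by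
  unfold W
  refine Finset.sum_congr rfl fun x _ => ?_
  congr 2
  simp only [Pi.add_apply, mul_add, Finset.sum_add_distrib]; ring

lemma sum_succ (m : ℕ) (F : (Fin (m + 1) → ZMod 2) → ℤ) :
    ∑ x, F x = ∑ a : ZMod 2, ∑ x : Fin m → ZMod 2, F (Fin.cons a x) := by
  rw [← Fintype.sum_prod_type']
  exact (Fintype.sum_equiv (Fin.consEquiv fun _ => ZMod 2) _ _ (fun _ => rfl)).symm

lemma exists_bent (k : ℕ) : ∃ f, f ∈ B (2 * k) := by
  induction k with
  | zero => exact ⟨0, fun y => by simp [W]⟩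
  | succ k ih =>
    obtain ⟨f, hf⟩ := ih
    refine ⟨fun x : Fin (2 * k + 1 + 1) → ZMod 2 =>
      x 0 * x 1 + f (Fin.tail (Fin.tail x)), fun y : Fin (2 * k + 1 + 1) → ZMod 2 => ?_⟩
    have h1 : W (2 * k + 1 + 1) (fun x => x 0 * x 1 + f (Fin.tail (Fin.tail x))) y =
        (∑ a : ZMod 2, ∑ b : ZMod 2, (-1 : ℤ) ^ (a * b + a * y 0 + b * y 1).val) *
          W (2 * k) f (Fin.tail (Fin.tail y)) := by
      unfold W
      rw [sum_succ, Finset.sum_mul]
      refine Finset.sum_congr rfl fun a _ => ?_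
      rw [sum_succ, Finset.sum_mul]
      refine Finset.sum_congr rfl fun b _ => ?_
      rw [Finset.mul_sum]
      refine Finset.sum_congr rfl fun x _ => ?_
      rw [← chi_add]
      congr 2
      simp only [Fin.sum_univ_succ, Fin.cons_zero, Fin.cons_succ, Fin.tail_cons, Fin.cons_one,
        Fin.tail, Fin.succ_zero_eq_one]
      ring
    have h2 : ∀ c d : ZMod 2,
        |∑ a : ZMod 2, ∑ b : ZMod 2, (-1 : ℤ) ^ (a * b + a * c + b * d).val| = 2 := by decide
    show |W (2 * k + 1 + 1) _ y| = _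
    rw [h1, abs_mul, h2, hf]
    have : 2 * (k + 1) / 2 = 2 * k / 2 + 1 := by omega
    rw [this]; ring

lemma card_ge (k : ℕ) : 2 ^ (2 * k) ≤ (B (2 * k)).ncard := by
  obtain ⟨f, hf⟩ := exists_bent k
  have := Set.ncard_le_ncard_of_injOn (s := (Set.univ : Set (Fin (2 * k) → ZMod 2)))
    (t := B (2 * k)) (fun a => fun x => f x + ∑ i, x i * a i)
    (fun a _ y => by rw [W_shift]; exact hf _)
    (fun a _ a' _ h => by
      funext i
      have := congrFun h (Pi.single i 1)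
      simpa [Pi.single_apply] using this) (Set.toFinite _)
  simpa [Set.ncard_univ] using this

lemma X_le (m : ℕ) : ({g | ∃ f ∈ B m, ∃ h ∈ B m, g = f + h} :
    Set ((Fin m → ZMod 2) → ZMod 2)).ncard ≤ (B m).ncard ^ 2 := by
  have h : ({g | ∃ f ∈ B m, ∃ h ∈ B m, g = f + h} : Set ((Fin m → ZMod 2) → ZMod 2)) =
      (fun p : ((Fin m → ZMod 2) → ZMod 2) × ((Fin m → ZMod 2) → ZMod 2) => p.1 + p.2) ''
        (B m ×ˢ B m) := by
    ext g
    constructor
    · rintro ⟨f, hf, h, hh, rfl⟩; exact ⟨(f, h), ⟨hf, hh⟩, rfl⟩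
    · rintro ⟨⟨f, h⟩, ⟨hf, hh⟩, rfl⟩; exact ⟨f, hf, h, hh, rfl⟩
  rw [h, sq, ← Set.ncard_prod]
  exact Set.ncard_image_le (Set.toFinite _)

lemma BI_le (m : ℕ) : ({t : Fin 4 → ((Fin m → ZMod 2) → ZMod 2) |
    (∀ i, t i ∈ B m) ∧ ∀ y, ∏ i, W m (t i) y = -(2 ^ (m / 2)) ^ 4}).ncard ≤ (B m).ncard ^ 4 := by
  have h : (Set.univ.pi fun _ : Fin 4 => B m).ncard = (B m).ncard ^ 4 := by
    classical
    rw [Set.ncard_eq_toFinset_card', Set.ncard_eq_toFinset_card']
    have : (Set.univ.pi fun _ : Fin 4 => B m).toFinset =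
        Fintype.piFinset fun _ : Fin 4 => (B m).toFinset := by
      ext t; simp
    rw [this, Fintype.card_piFinset]; simp
  rw [← h]
  exact Set.ncard_le_ncard (fun t ht i _ => ht.1 i) (Set.toFinite _)

lemma BI_ge (m : ℕ) : (B m).ncard ^ 2 ≤ ({t : Fin 4 → ((Fin m → ZMod 2) → ZMod 2) |
    (∀ i, t i ∈ B m) ∧ ∀ y, ∏ i, W m (t i) y = -(2 ^ (m / 2)) ^ 4}).ncard := by
  rw [sq, ← Set.ncard_prod]
  refine Set.ncard_le_ncard_of_injOn (fun p => ![p.1, p.2, p.1, p.2 + 1]) ?_ ?_ (Set.toFinite _)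
  · rintro ⟨f, g⟩ ⟨hf, hg⟩
    refine ⟨fun i => ?_, fun y => ?_⟩
    · fin_cases i
      · exact hf
      · exact hg
      · exact hf
      · intro y
        show |W m (g + 1) y| = _
        rw [W_add_one, abs_neg]; exact hg y
    · have h1 : W m f y ^ 2 = (2 ^ (m / 2)) ^ 2 := by rw [← sq_abs, hf y]
      have h2 : W m g y ^ 2 = (2 ^ (m / 2)) ^ 2 := by rw [← sq_abs, hg y]
      simp only [Fin.prod_univ_four, Matrix.cons_val_zero, Matrix.cons_val_one, Matrix.cons_val]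
      rw [W_add_one]
      linear_combination (-(W m g y ^ 2)) * h1 - ((2 : ℤ) ^ (m / 2)) ^ 2 * h2
  · rintro ⟨f, g⟩ _ ⟨f', g'⟩ _ h
    have h0 := congrFun h 0
    have h1 := congrFun h 1
    simp only [Matrix.cons_val_zero, Matrix.cons_val_one] at h0 h1
    rw [h0, h1]

lemma loglog_bounds (b x : ℝ) (hb : 2 ≤ b) (h1 : b ^ 2 ≤ x) (h2 : x ≤ b ^ 4) :
    1 + Real.logb 2 (Real.logb 2 b) ≤ Real.logb 2 (Real.logb 2 x) ∧
    Real.logb 2 (Real.logb 2 x) ≤ 2 + Real.logb 2 (Real.logb 2 b) := by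
  have hu : 1 ≤ Real.logb 2 b := by
    rw [Real.le_logb_iff_rpow_le (by norm_num) (by linarith)]; simpa using hb
  have hx : 0 < x := lt_of_lt_of_le (by positivity) h1
  have a1 : 2 * Real.logb 2 b ≤ Real.logb 2 x := by
    have := Real.logb_le_logb_of_le (b := 2) (by norm_num) (by positivity) h1
    rwa [Real.logb_pow] at this
  have a2 : Real.logb 2 x ≤ 2 ^ 2 * Real.logb 2 b := by
    have := Real.logb_le_logb_of_le (b := 2) (by norm_num) hx h2
    rw [Real.logb_pow] at this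
    norm_num at this ⊢; exact this
  constructor
  · have := Real.logb_le_logb_of_le (b := 2) (by norm_num) (by linarith) a1
    rwa [Real.logb_mul (by norm_num) (by linarith), Real.logb_self_eq_one (by norm_num)] at this
  · have := Real.logb_le_logb_of_le (b := 2) (by norm_num) (by linarith) a2
    rw [Real.logb_mul (by norm_num) (by linarith), Real.logb_pow,
      Real.logb_self_eq_one (by norm_num)] at this
    norm_num at this; exact this

lemma squeeze (b x y : ℕ → ℝ) (hb : Filter.Tendsto b Filter.atTop Filter.atTop)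
    (hx : ∀ k, b k ^ 2 ≤ x k ∧ x k ≤ b k ^ 4) (hy : ∀ k, b k ^ 2 ≤ y k ∧ y k ≤ b k ^ 4) :
    Filter.Tendsto (fun k => Real.logb 2 (Real.logb 2 (x k)) / Real.logb 2 (Real.logb 2 (y k)))
      Filter.atTop (nhds 1) := by
  have hl : Filter.Tendsto (Real.logb 2) Filter.atTop Filter.atTop :=
    Real.tendsto_logb_atTop (by norm_num)
  have hv : Filter.Tendsto (fun k => Real.logb 2 (Real.logb 2 (b k))) Filter.atTop Filter.atTop :=
    hl.comp (hl.comp hb)
  have hinv : Filter.Tendsto (fun k => (1 + Real.logb 2 (Real.logb 2 (b k)))⁻¹)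
      Filter.atTop (nhds 0) := (Filter.tendsto_atTop_add_const_left _ 1 hv).inv_tendsto_atTop
  have lo : Filter.Tendsto (fun k => 1 - (1 + Real.logb 2 (Real.logb 2 (b k)))⁻¹)
      Filter.atTop (nhds 1) := by simpa using hinv.const_sub 1
  have hi : Filter.Tendsto (fun k => 1 + (1 + Real.logb 2 (Real.logb 2 (b k)))⁻¹)
      Filter.atTop (nhds 1) := by simpa using hinv.const_add 1
  refine tendsto_of_tendsto_of_tendsto_of_le_of_le' lo hi ?_ ?_
  · filter_upwards [hb.eventually_ge_atTop 2, hv.eventually_ge_atTop 0] with k h2 h0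
    obtain ⟨a1, a2⟩ := loglog_bounds _ _ h2 (hx k).1 (hx k).2
    obtain ⟨a3, a4⟩ := loglog_bounds _ _ h2 (hy k).1 (hy k).2
    set v := Real.logb 2 (Real.logb 2 (b k))
    set p := Real.logb 2 (Real.logb 2 (x k))
    set q := Real.logb 2 (Real.logb 2 (y k))
    rw [le_div_iff₀ (by linarith)]
    have h3 : (1 + v)⁻¹ * (1 + v) = 1 := inv_mul_cancel₀ (by linarith)
    have h4 : 0 ≤ (1 + v)⁻¹ := by positivity
    nlinarith
  · filter_upwards [hb.eventually_ge_atTop 2, hv.eventually_ge_atTop 0] with k h2 h0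
    obtain ⟨a1, a2⟩ := loglog_bounds _ _ h2 (hx k).1 (hx k).2
    obtain ⟨a3, a4⟩ := loglog_bounds _ _ h2 (hy k).1 (hy k).2
    set v := Real.logb 2 (Real.logb 2 (b k))
    set p := Real.logb 2 (Real.logb 2 (x k))
    set q := Real.logb 2 (Real.logb 2 (y k))
    rw [div_le_iff₀ (by linarith)]
    have h3 : (1 + v)⁻¹ * (1 + v) = 1 := inv_mul_cancel₀ (by linarith)
    have h4 : 0 ≤ (1 + v)⁻¹ := by positivity
    nlinarith

end Pool.Agent.H12.Bent
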