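import Mathlib

set_option autoImplicit false

namespace Pool.Agent.H12.Bic

open Finset

variable {n : ℕ}

open Classical in
noncomputable def nb (G : SimpleGraph (Fin n)) (x : Fin n) : Finset (Fin n) :=
  univ.filter (G.Adj x)

theorem mem_nb {G : SimpleGraph (Fin n)} {x y : Fin n} : y ∈ nb G x ↔ G.Adj x y := by
  simp [nb]

theorem ncard_nb (G : SimpleGraph (Fin n)) (x : Fin n) :
    (G.neighborSet x).ncard = (nb G x).card := by
  rw [← Set.ncard_coe_finset]
  congr 1
  ext y
  simp [mem_nb]

def Gr (d : Fin n → ℕ) : Prop := ∃ G : SimpleGraph (Fin n), ∀ i, (nb G i).card = d i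

theorem transfer {d : Fin n → ℕ} (h : Gr d) {u w : Fin n} (huw : d w < d u) :
    ∃ d' : Fin n → ℕ, Gr d' ∧
      ∀ x, d' x + (if x = u then 1 else 0) = d x + (if x = w then 1 else 0) := by
  obtain ⟨G, hG⟩ := h
  have hne : u ≠ w := by rintro rfl; omega
  have hz : ∃ z, G.Adj u z ∧ ¬ G.Adj w z ∧ z ≠ w := by
    by_contra hc
    push Not at hc
    by_cases ha : G.Adj u w
    · have h1 : (nb G u).erase w ⊆ (nb G w).erase u := by
        intro z hz
        rw [mem_erase, mem_nb] at hz ⊢
        refine ⟨hz.2.ne.symm, ?_⟩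
        by_contra h2
        exact hz.1 (hc z hz.2 h2)
      have h2 := card_le_card h1
      rw [card_erase_of_mem (mem_nb.2 ha), card_erase_of_mem (mem_nb.2 ha.symm), hG, hG] at h2
      have h3 : 0 < (nb G w).card := card_pos.2 ⟨u, mem_nb.2 ha.symm⟩
      rw [hG] at h3
      omega
    · have h1 : nb G u ⊆ nb G w := by
        intro z hz
        rw [mem_nb] at hz ⊢
        by_contra h2
        exact ha (hc z hz h2 ▸ hz)
      have h2 := card_le_card h1
      rw [hG, hG] at h2
      omega
  obtain ⟨z, h1, h2, h3⟩ := hz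
  have huz : u ≠ z := h1.ne
  let G' : SimpleGraph (Fin n) :=
    { Adj := fun x y => (G.Adj x y ∧ ¬ (x = u ∧ y = z) ∧ ¬ (x = z ∧ y = u)) ∨
        (x = w ∧ y = z) ∨ (x = z ∧ y = w)
      symm := ⟨fun x y h => by
        rcases h with ⟨a, b, c⟩ | h | h
        · exact Or.inl ⟨a.symm, fun t => c ⟨t.2, t.1⟩, fun t => b ⟨t.2, t.1⟩⟩
        · exact Or.inr (Or.inr ⟨h.2, h.1⟩)
        · exact Or.inr (Or.inl ⟨h.2, h.1⟩)⟩
      loopless := ⟨fun x h => by
        rcases h with ⟨a, -, -⟩ | h | h
        · exact a.ne rfl
        · exact h3 (h.2.symm.trans h.1)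
        · exact h3 (h.1.symm.trans h.2)⟩ }
  have hA : ∀ x y, G'.Adj x y ↔ (G.Adj x y ∧ ¬ (x = u ∧ y = z) ∧ ¬ (x = z ∧ y = u)) ∨
        (x = w ∧ y = z) ∨ (x = z ∧ y = w) := fun _ _ => Iff.rfl
  refine ⟨fun x => (nb G' x).card, ⟨G', fun _ => rfl⟩, fun x => ?_⟩
  rw [← hG]
  by_cases e1 : x = u
  · subst e1
    have : nb G' x = (nb G x).erase z := by
      ext y
      rw [mem_erase, mem_nb, mem_nb, hA]
      simp only [true_and, hne, huz, false_and, or_false, not_false_eq_true, and_true]
      tauto
    have h4 := card_erase_add_one (mem_nb.2 h1)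
    simp only [this, if_true, hne, if_false]
    omega
  by_cases e2 : x = w
  · subst e2
    have : nb G' x = insert z (nb G x) := by
      ext y
      rw [mem_insert, mem_nb, mem_nb, hA]
      simp only [true_and, e1, h3.symm, false_and, or_false, not_false_eq_true, and_true]
      tauto
    have h4 : z ∉ nb G x := fun t => h2 (mem_nb.1 t)
    simp only [this, if_true, e1, if_false, card_insert_of_notMem h4]
  by_cases e3 : x = z
  · subst e3
    have : nb G' x = insert w ((nb G x).erase u) := by
      ext y
      rw [mem_insert, mem_erase, mem_nb, mem_nb, hA]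
      simp only [true_and, e1, e2, false_and, false_or, not_false_eq_true]
      tauto
    have h4 : w ∉ (nb G x).erase u := fun t => h2 (mem_nb.1 (mem_erase.1 t).2).symm
    have h5 := card_erase_add_one (mem_nb.2 h1.symm)
    simp only [this, e1, e2, if_false, card_insert_of_notMem h4]
    omega
  · have : nb G' x = nb G x := by
      ext y
      rw [mem_nb, mem_nb, hA]
      simp only [e1, e2, e3, false_and, or_false, not_false_eq_true, and_true]
    simp only [this, e1, e2, if_false]

def Q (d : Fin n → ℕ) (k : ℕ) : ℕ := ∑ i ∈ univ.filter (fun i : Fin n => i.val < k), d i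

theorem Q_zero (d : Fin n → ℕ) : Q d 0 = 0 := by simp [Q]

theorem Q_succ (d : Fin n → ℕ) (k : ℕ) (h : k < n) : Q d (k + 1) = Q d k + d ⟨k, h⟩ := by
  unfold Q
  have : univ.filter (fun i : Fin n => i.val < k + 1) =
      insert ⟨k, h⟩ (univ.filter (fun i : Fin n => i.val < k)) := by
    ext i
    simp only [mem_filter, mem_univ, true_and, mem_insert, Fin.ext_iff]
    omega
  rw [this, sum_insert (by simp), add_comm]

theorem Q_top (d : Fin n → ℕ) (k : ℕ) (h : n ≤ k) : Q d k = ∑ i, d i := by
  unfold Q
  rw [filter_true_of_mem]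
  intro i _
  have := i.2
  omega

theorem sum_tr {d d' : Fin n → ℕ} {u w : Fin n}
    (h : ∀ x, d' x + (if x = u then 1 else 0) = d x + (if x = w then 1 else 0))
    (S : Finset (Fin n)) :
    ∑ i ∈ S, d' i + (if u ∈ S then 1 else 0) = ∑ i ∈ S, d i + (if w ∈ S then 1 else 0) := by
  have := sum_congr (rfl : S = S) (fun x _ => h x)
  rw [sum_add_distrib, sum_add_distrib, sum_ite_eq', sum_ite_eq'] at this
  exact this

theorem major_sorted (e : Fin n → ℕ) (he : Antitone e) :
    ∀ (m : ℕ) (d : Fin n → ℕ), ∑ l, (e l - d l) = m → Gr d → (∀ k, Q e k ≤ Q d k) →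
      ∑ l, e l = ∑ l, d l → Gr e := by
  intro m
  induction m with
  | zero =>
    intro d hm hd _ hs
    have h1 : ∀ l ∈ (univ : Finset (Fin n)), e l ≤ d l := by
      intro l hl
      have := (sum_eq_zero_iff.1 hm) l hl
      omega
    have h2 := (sum_eq_sum_iff_of_le h1).1 hs
    have : e = d := funext fun l => h2 l (mem_univ l)
    exact this ▸ hd
  | succ m ih =>
    intro d hm hd hQ hs
    have hex : (univ.filter (fun l => d l < e l)).Nonempty := by
      by_contra hc
      rw [not_nonempty_iff_eq_empty, filter_eq_empty_iff] at hc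
      have : ∑ l, (e l - d l) = 0 := sum_eq_zero fun l hl => by
        have := hc hl
        omega
      omega
    obtain ⟨j, hj, hjm⟩ := exists_min_image _ (fun l : Fin n => l.val) hex
    have hj1 : d j < e j := (mem_filter.1 hj).2
    have hlow : ∀ l : Fin n, l.val < j.val → e l ≤ d l := by
      intro l hl
      by_contra hc
      have := hjm l (mem_filter.2 ⟨mem_univ _, by omega⟩)
      omega
    have hi : ∃ i : Fin n, i.val < j.val ∧ e i < d i := by
      by_contra hc
      push Not at hc
      have h1 : Q d j.val ≤ Q e j.val :=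
        sum_le_sum fun l hl => hc l (mem_filter.1 hl).2
      have h2 := hQ (j.val + 1)
      rw [Q_succ _ _ j.2, Q_succ _ _ j.2] at h2
      simp only [Fin.eta] at h2
      omega
    obtain ⟨i, hij, hi⟩ := hi
    have hei : e j ≤ e i := he (le_of_lt hij)
    obtain ⟨d', hd', ht⟩ := transfer hd (u := i) (w := j) (by omega)
    have hne : i ≠ j := by
      intro t
      rw [t] at hij
      omega
    refine ih d' ?_ hd' ?_ ?_
    · have h1 : ∀ x, (e x - d' x) + (if x = j then 1 else 0) =
          (e x - d x) + (if x = j then 0 else 0) := by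
        intro x
        have := ht x
        by_cases a : x = i
        · subst a
          simp only [if_true, hne, if_false] at this ⊢
          omega
        · by_cases b : x = j
          · subst b
            simp only [if_true, a, if_false] at this ⊢
            omega
          · simp only [a, b, if_false] at this ⊢
            omega
      have := sum_congr (rfl : (univ : Finset (Fin n)) = univ) (fun x _ => h1 x)
      rw [sum_add_distrib, sum_add_distrib, sum_ite_eq'] at this
      simp only [mem_univ, if_true, ite_self, sum_const_zero] at this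
      omega
    · intro k
      have h1 := sum_tr ht (univ.filter (fun l : Fin n => l.val < k))
      have h2 := hQ k
      unfold Q at h2 ⊢
      simp only [mem_filter, mem_univ, true_and] at h1
      by_cases a : i.val < k
      · by_cases b : j.val < k
        · simp only [a, b, if_true] at h1
          omega
        · simp only [a, b, if_true, if_false] at h1
          have h3 : ∑ l ∈ univ.filter (fun l : Fin n => l.val < k), e l <
              ∑ l ∈ univ.filter (fun l : Fin n => l.val < k), d l :=
            sum_lt_sum (fun l hl => hlow l (by have := (mem_filter.1 hl).2; omega))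
              ⟨i, mem_filter.2 ⟨mem_univ _, a⟩, hi⟩
          omega
      · simp only [a, if_false] at h1
        omega
    · have h1 := sum_tr ht univ
      simp only [mem_univ, if_true] at h1
      omega

theorem gr_perm (e : Fin n → ℕ) (s : Equiv.Perm (Fin n)) (h : Gr (e ∘ s)) : Gr e := by
  obtain ⟨G, hG⟩ := h
  refine ⟨G.comap s.symm, fun i => ?_⟩
  have := hG (s.symm i)
  simp only [Function.comp, Equiv.apply_symm_apply] at this
  rw [← this]
  refine card_equiv s.symm fun y => ?_
  rw [mem_nb, mem_nb]
  rfl

theorem card_lt (k : ℕ) (h : k ≤ n) : (univ.filter (fun i : Fin n => i.val < k)).card = k := by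
  simp [Fin.card_filter_val_lt, h]

theorem major (e d : Fin n → ℕ) (hd : Gr d) (hs : ∑ l, e l = ∑ l, d l)
    (h : ∀ S : Finset (Fin n), ∑ l ∈ S, e l ≤ Q d S.card) : Gr e := by
  let s : Equiv.Perm (Fin n) := Tuple.sort (fun i => OrderDual.toDual (e i))
  have hm : Monotone ((fun i => OrderDual.toDual (e i)) ∘ s) := Tuple.monotone_sort _
  have ha : Antitone (e ∘ s) := fun a b hab => hm hab
  have hs' : ∑ l, (e ∘ s) l = ∑ l, d l := by
    rw [← hs]
    exact Equiv.sum_comp s e
  refine gr_perm e s (major_sorted _ ha _ d rfl hd (fun k => ?_) hs')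
  by_cases hk : k ≤ n
  · have := h ((univ.filter (fun i : Fin n => i.val < k)).map s.toEmbedding)
    rw [card_map, card_lt k hk, sum_map] at this
    exact this
  · rw [Q_top _ _ (by omega), Q_top _ _ (by omega), hs']

theorem top (d : Fin n → ℕ) (hd : Antitone d) (S : Finset (Fin n)) :
    ∑ l ∈ S, d l ≤ Q d S.card := by
  induction S using Finset.induction_on_max with
  | empty => simp
  | insert a T ha ih =>
    have hn : a ∉ T := fun t => lt_irrefl _ (ha a t)
    have h1 : T ⊆ univ.filter (fun i : Fin n => i.val < a.val) :=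
      fun x hx => mem_filter.2 ⟨mem_univ _, ha x hx⟩
    have h2 := card_le_card h1
    rw [card_lt _ a.2.le] at h2
    have h3 : T.card < n := lt_of_le_of_lt h2 a.2
    rw [sum_insert hn, card_insert_of_notMem hn, Q_succ _ _ h3]
    have h4 : d a ≤ d ⟨T.card, h3⟩ := hd h2
    omega

theorem Q_lo (d : Fin n → ℕ) (c k : ℕ) : ∀ j, k + j ≤ n →
    (∀ i : Fin n, k ≤ i.val → i.val < k + j → c ≤ d i) → Q d k + c * j ≤ Q d (k + j) := by
  intro j
  induction j with
  | zero => intro _ _; simp
  | succ j ih =>
    intro h1 h2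
    have h3 := ih (by omega) (fun i a b => h2 i a (by omega))
    have h4 := h2 ⟨k + j, by omega⟩ (by simp) (by simp)
    rw [← add_assoc, Q_succ _ _ (by omega : k + j < n), mul_add]
    omega

theorem Q_hi (d : Fin n → ℕ) (c k : ℕ) : ∀ j, k + j ≤ n →
    (∀ i : Fin n, k ≤ i.val → i.val < k + j → d i ≤ c) → Q d (k + j) ≤ Q d k + c * j := by
  intro j
  induction j with
  | zero => intro _ _; simp
  | succ j ih =>
    intro h1 h2
    have h3 := ih (by omega) (fun i a b => h2 i a (by omega))
    have h4 := h2 ⟨k + j, by omega⟩ (by simp) (by simp)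
    rw [← add_assoc, Q_succ _ _ (by omega : k + j < n), mul_add]
    omega

end Pool.Agent.H12.Bic
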