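import Pool.Agent.H12.BicA

set_option autoImplicit false

namespace Pool.Agent.H12.Bic

open Finset

variable {n : ℕ}

def Bi (G : SimpleGraph (Fin n)) : Prop :=
  G.Connected ∧ ∀ v : Fin n, (G.induce ({v}ᶜ : Set (Fin n))).Connected

theorem notbi (G : SimpleGraph (Fin n)) (B : Finset (Fin n)) (v b r : Fin n)
    (hB : ∀ x ∈ B, ∀ y, G.Adj x y → y ∈ B ∨ y = v) (hb : b ∈ B) (hbv : b ≠ v)
    (hr : r ∉ B) (hrv : r ≠ v) : ¬ Bi G := by
  rintro ⟨-, h⟩
  have h1 := (h v).preconnected ⟨b, hbv⟩ ⟨r, hrv⟩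
  rw [SimpleGraph.reachable_iff_reflTransGen] at h1
  have h2 : ∀ y : ({v}ᶜ : Set (Fin n)),
      Relation.ReflTransGen (G.induce ({v}ᶜ : Set (Fin n))).Adj ⟨b, hbv⟩ y → y.1 ∈ B := by
    intro y hy
    induction hy with
    | refl => exact hb
    | tail _ a ih =>
      rename_i p q _
      rcases hB _ ih q.1 a with t | t
      · exact t
      · exact absurd t q.2
  exact hr (h2 _ h1)

theorem two_le (G : SimpleGraph (Fin n)) (hn : 3 ≤ n) (h : Bi G) (x : Fin n) :
    2 ≤ (nb G x).card := by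
  by_contra hc
  have h1 : ∃ v, v ≠ x ∧ ∀ y, G.Adj x y → y = v := by
    by_cases h0 : (nb G x).Nonempty
    · obtain ⟨v, hv⟩ := h0
      refine ⟨v, (mem_nb.1 hv).ne.symm, fun y hy => ?_⟩
      exact card_le_one.1 (by omega) y (mem_nb.2 hy) v hv
    · have : 1 < Fintype.card (Fin n) := by simp; omega
      obtain ⟨v, hv⟩ := Fintype.exists_ne_of_one_lt_card this x
      exact ⟨v, hv, fun y hy => absurd ⟨y, mem_nb.2 hy⟩ h0⟩
  obtain ⟨v, hv, h2⟩ := h1
  have h3 : ∃ r, r ∉ ({x, v} : Finset (Fin n)) := by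
    by_contra h4
    push Not at h4
    have h5 : (univ : Finset (Fin n)) ⊆ {x, v} := fun r _ => h4 r
    have h6 := card_le_card h5
    have h7 : ({x, v} : Finset (Fin n)).card ≤ 2 := card_le_two
    simp only [card_univ, Fintype.card_fin] at h6
    omega
  obtain ⟨r, hr⟩ := h3
  simp only [mem_insert, mem_singleton, not_or] at hr
  refine notbi G {x} v x r ?_ (mem_singleton_self x) hv.symm (by simpa using hr.1) hr.2 h
  intro a ha y hy
  rw [mem_singleton.1 ha] at hy
  exact Or.inr (h2 y hy)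

theorem deg_le (G : SimpleGraph (Fin n)) (x : Fin n) : (nb G x).card + 1 ≤ n := by
  have h1 : nb G x ⊆ univ.erase x := fun y hy =>
    mem_erase.2 ⟨(mem_nb.1 hy).ne.symm, mem_univ _⟩
  have h2 := card_le_card h1
  have h3 := card_erase_add_one (mem_univ x)
  simp only [card_univ, Fintype.card_fin] at h3
  omega

theorem split_sum (G : SimpleGraph (Fin n)) (S : Finset (Fin n)) :
    ∑ x ∈ S, (nb G x).card =
      ∑ x ∈ S, (nb G x ∩ S).card + ∑ y ∈ Sᶜ, (nb G y ∩ S).card := by
  classical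
  have h1 : ∀ x, (nb G x).card = (nb G x ∩ S).card + (nb G x ∩ Sᶜ).card := by
    intro x
    rw [← card_inter_add_card_sdiff (nb G x) S, sdiff_eq_inter_compl]
  have h2 : ∀ (T : Finset (Fin n)) x,
      (nb G x ∩ T).card = ∑ y ∈ T, if G.Adj x y then 1 else 0 := by
    intro T x
    rw [← card_filter]
    congr 1
    ext y
    simp [mem_nb, and_comm]
  rw [sum_congr rfl (fun x _ => h1 x), sum_add_distrib]
  congr 1
  rw [sum_congr rfl (fun x _ => h2 Sᶜ x), sum_congr rfl (fun x _ => h2 S x), sum_comm]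
  refine sum_congr rfl fun y _ => sum_congr rfl fun x _ => ?_
  simp only [G.adj_comm]

theorem in_sub (G : SimpleGraph (Fin n)) (S : Finset (Fin n)) (x : Fin n) :
    nb G x ∩ S ⊆ S.erase x := fun _ hy =>
  mem_erase.2 ⟨(mem_nb.1 (mem_inter.1 hy).1).ne.symm, (mem_inter.1 hy).2⟩

theorem in_le (G : SimpleGraph (Fin n)) (S : Finset (Fin n)) :
    ∀ x ∈ S, (nb G x ∩ S).card ≤ S.card - 1 := by
  intro x hx
  have := card_le_card (in_sub G S x)
  rwa [card_erase_of_mem hx] at this

theorem out_le (G : SimpleGraph (Fin n)) (S : Finset (Fin n)) :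
    ∀ y ∈ Sᶜ, (nb G y ∩ S).card ≤ (nb G y).card :=
  fun _ _ => card_le_card inter_subset_left

theorem eg (G : SimpleGraph (Fin n)) (S : Finset (Fin n)) :
    ∑ x ∈ S, (nb G x).card ≤ S.card * (S.card - 1) + ∑ y ∈ Sᶜ, (nb G y).card := by
  rw [split_sum]
  have h1 := sum_le_sum (in_le G S)
  rw [sum_const, smul_eq_mul] at h1
  have h2 := sum_le_sum (out_le G S)
  omega

theorem forced (G : SimpleGraph (Fin n)) (S : Finset (Fin n)) (hS : 2 ≤ S.card)
    (h2 : ∀ y ∈ Sᶜ, 2 ≤ (nb G y).card)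
    (h : ∑ x ∈ S, (nb G x).card = S.card * (S.card - 1) + ∑ y ∈ Sᶜ, (nb G y).card) :
    Bi G := by
  rw [split_sum] at h
  have h1 := sum_le_sum (in_le G S)
  have h3 := sum_le_sum (out_le G S)
  have h4 : ∑ _x ∈ S, (S.card - 1) = S.card * (S.card - 1) := by
    rw [sum_const, smul_eq_mul]
  have e1 := (sum_eq_sum_iff_of_le (in_le G S)).1 (by omega)
  have e2 := (sum_eq_sum_iff_of_le (out_le G S)).1 (by omega)
  have hcl : ∀ x ∈ S, ∀ y ∈ S, x ≠ y → G.Adj x y := by
    intro x hx y hy hxy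
    have := eq_of_subset_of_card_le (in_sub G S x)
      (by rw [card_erase_of_mem hx, e1 x hx])
    have h5 : y ∈ S.erase x := mem_erase.2 ⟨hxy.symm, hy⟩
    rw [← this] at h5
    exact mem_nb.1 (mem_inter.1 h5).1
  have hout : ∀ v y, y ∉ S → ∃ s ∈ S, s ≠ v ∧ G.Adj y s := by
    intro v y hy
    have h5 : 1 < (nb G y ∩ S).card := by
      have := e2 y (mem_compl.2 hy)
      have := h2 y (mem_compl.2 hy)
      omega
    obtain ⟨s, hs, hv⟩ := exists_mem_ne h5 v
    exact ⟨s, (mem_inter.1 hs).2, hv, mem_nb.1 (mem_inter.1 hs).1⟩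
  constructor
  · obtain ⟨s0, hs0⟩ : S.Nonempty := card_pos.1 (by omega)
    rw [SimpleGraph.connected_iff_exists_forall_reachable]
    have h5 : ∀ x ∈ S, G.Reachable s0 x := by
      intro x hx
      by_cases t : s0 = x
      · rw [t]
      · exact (hcl _ hs0 _ hx t).reachable
    refine ⟨s0, fun x => ?_⟩
    by_cases hx : x ∈ S
    · exact h5 x hx
    · obtain ⟨s, hs, -, ha⟩ := hout s0 x hx
      exact (h5 s hs).trans ha.symm.reachable
  · intro v
    obtain ⟨s0, hs0, hv⟩ := exists_mem_ne (by omega : 1 < S.card) v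
    rw [SimpleGraph.connected_iff_exists_forall_reachable]
    have h5 : ∀ x : ({v}ᶜ : Set (Fin n)), x.1 ∈ S →
        (G.induce ({v}ᶜ : Set (Fin n))).Reachable ⟨s0, hv⟩ x := by
      intro x hx
      by_cases t : s0 = x.1
      · have : (⟨s0, hv⟩ : ({v}ᶜ : Set (Fin n))) = x := Subtype.ext t
        rw [this]
      · exact SimpleGraph.Adj.reachable (hcl _ hs0 _ hx t)
    refine ⟨⟨s0, hv⟩, fun x => ?_⟩
    by_cases hx : x.1 ∈ S
    · exact h5 x hx
    · obtain ⟨s, hs, hsv, ha⟩ := hout v x.1 hx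
      exact (h5 ⟨s, hsv⟩ hs).trans (SimpleGraph.Adj.reachable ha.symm)

theorem glue (d e : Fin n → ℕ) (B : Finset (Fin n)) (v b r : Fin n) (hv : v ∉ B) (hb : b ∈ B)
    (hr : r ∉ B) (hrv : r ≠ v) (he : Gr e) (h0 : ∀ x ∈ B, e x = 0)
    (h1 : ∀ x ∈ B, d x = B.card) (h2 : d v = e v + B.card)
    (h3 : ∀ x, x ∉ B → x ≠ v → d x = e x) :
    ∃ G : SimpleGraph (Fin n), (∀ i, (nb G i).card = d i) ∧ ¬ Bi G := by
  obtain ⟨H, hH⟩ := he
  have iso : ∀ x ∈ B, ∀ y, ¬ H.Adj x y := by
    intro x hx y hy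
    have : (nb H x).card = 0 := (hH x).trans (h0 x hx)
    rw [card_eq_zero] at this
    have h4 := mem_nb.2 hy
    rw [this] at h4
    exact notMem_empty _ h4
  let G : SimpleGraph (Fin n) :=
    { Adj := fun x y => H.Adj x y ∨ (x ≠ y ∧ x ∈ insert v B ∧ y ∈ insert v B)
      symm := ⟨fun x y h => by
        rcases h with h | ⟨a, b, c⟩
        · exact Or.inl h.symm
        · exact Or.inr ⟨a.symm, c, b⟩⟩
      loopless := ⟨fun x h => by
        rcases h with h | ⟨a, -, -⟩
        · exact h.ne rfl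
        · exact a rfl⟩ }
  have hA : ∀ x y, G.Adj x y ↔
      H.Adj x y ∨ (x ≠ y ∧ x ∈ insert v B ∧ y ∈ insert v B) := fun _ _ => Iff.rfl
  refine ⟨G, fun x => ?_, notbi G B v b r ?_ hb (fun t => hv (t ▸ hb)) hr hrv⟩
  · by_cases hx : x ∈ B
    · have : nb G x = (insert v B).erase x := by
        ext y
        rw [mem_nb, hA, mem_erase]
        have a := iso x hx y
        have c : x ∈ insert v B := mem_insert_of_mem hx
        constructor
        · rintro (t | t)
          · exact absurd t a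
          · exact ⟨t.1.symm, t.2.2⟩
        · exact fun t => Or.inr ⟨t.1.symm, c, t.2⟩
      rw [this, card_erase_of_mem (mem_insert_of_mem hx), card_insert_of_notMem hv, h1 x hx]
      simp
    · by_cases hxv : x = v
      · subst hxv
        have : nb G x = nb H x ∪ B := by
          ext y
          rw [mem_nb, hA, mem_union, mem_nb]
          constructor
          · rintro (t | t)
            · exact Or.inl t
            · exact Or.inr ((mem_insert.1 t.2.2).resolve_left t.1.symm)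
          · rintro (t | t)
            · exact Or.inl t
            · exact Or.inr ⟨fun u => hx (u ▸ t), mem_insert_self _ _, mem_insert_of_mem t⟩
        rw [this, card_union_of_disjoint, hH, h2]
        exact disjoint_left.2 fun y hy hyB => iso y hyB x (mem_nb.1 hy).symm
      · have : nb G x = nb H x := by
          ext y
          rw [mem_nb, hA, mem_nb]
          constructor
          · rintro (t | t)
            · exact t
            · exact absurd ((mem_insert.1 t.2.1).resolve_left hxv) hx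
          · exact Or.inl
        rw [this, hH, h3 x hx hxv]
  · intro x hx y hy
    rcases hy with t | t
    · exact absurd t (iso x hx y)
    · exact (mem_insert.1 t.2.2).symm

/-- criterion: small sets checked directly, large sets through the minimum degree two -/
theorem crit (src e : Fin n → ℕ) (hs : Gr src) (Z : Finset (Fin n)) (K m t : ℕ)
    (h1 : ∑ l, e l = t) (h2 : ∑ l, src l = t) (hZ : Z.card + m = n)
    (hmin : ∀ x, x ∉ Z → 2 ≤ e x)
    (hbig : ∀ k, k ≤ n → K ≤ k → t ≤ Q src k + 2 * (m - k))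
    (hsmall : ∀ S : Finset (Fin n), S.card < K → ∑ l ∈ S, e l ≤ Q src S.card) : Gr e := by
  refine major e src hs (h1.trans h2.symm) fun S => ?_
  by_cases hK : S.card < K
  · exact hsmall S hK
  have hc : S.card ≤ n := by simpa using card_le_univ S
  have h3 := hbig _ hc (by omega)
  have h4 := sum_add_sum_compl S e
  have h5 : ∑ l ∈ Sᶜ \ Z, e l ≤ ∑ l ∈ Sᶜ, e l := sum_le_sum_of_subset sdiff_subset
  have h6 : ∑ _l ∈ Sᶜ \ Z, 2 ≤ ∑ l ∈ Sᶜ \ Z, e l :=
    sum_le_sum fun x hx => hmin x (mem_sdiff.1 hx).2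
  rw [sum_const, smul_eq_mul] at h6
  have h7 : Sᶜ.card ≤ (Sᶜ \ Z).card + Z.card := card_le_card_sdiff_add_card
  have h8 := card_compl S
  simp only [Fintype.card_fin] at h8
  omega

end Pool.Agent.H12.Bic
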