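import Pool.Agent.H12.BicB

set_option autoImplicit false

namespace Pool.Agent.H12.Bic

open Finset

theorem grB {n : ℕ} (f : Fin n → Fin n → Bool) (src : Fin n → ℕ) (h1 : ∀ i j, f i j = f j i)
    (h2 : ∀ i, f i i = false)
    (h3 : ∀ i, (univ.filter (fun j => f i j = true)).card = src i) : Gr src := by
  let G : SimpleGraph (Fin n) :=
    { Adj := fun x y => f x y = true
      symm := ⟨fun x y h => by rw [h1]; exact h⟩
      loopless := ⟨fun x h => by rw [h2] at h; exact Bool.false_ne_true h⟩ }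
  refine ⟨G, fun i => ?_⟩
  rw [← h3]
  congr 1
  ext y
  rw [mem_nb, mem_filter]
  exact ⟨fun t => ⟨mem_univ _, t⟩, fun t => t.2⟩

def sf (m c : ℕ) (st : Bool) (i j : Fin 52) : Bool :=
  decide (i.val ≠ j.val) && decide (i.val < m) && decide (j.val < m) &&
    (decide (i.val < 2) || decide (j.val < 2) ||
      (decide (i.val < c) && decide (j.val < c) &&
        (st || decide (i.val = 2) || decide (j.val = 2))))

def src (m : ℕ) (l : List ℕ) (i : Fin 52) : ℕ :=
  if i.val < m then (if i.val < 2 then m - 1 else l.getD (i.val - 2) 2) else 0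

def UseT (m t : ℕ) (P : List ℕ) : Prop :=
  ∀ (e : Fin 52 → ℕ) (Z : Finset (Fin 52)), ∑ i, e i = t → Z.card + m = 52 →
    (∀ x, x ∉ Z → 2 ≤ e x) →
    (∀ S : Finset (Fin 52), S.card < P.length → ∑ i ∈ S, e i ≤ P.getD S.card 0) → Gr e

theorem use (m c : ℕ) (st : Bool) (l P : List ℕ) (t : ℕ)
    (h1 : ∀ i j, sf m c st i j = sf m c st j i) (h2 : ∀ i, sf m c st i i = false)
    (h3 : ∀ i, (univ.filter (fun j => sf m c st i j = true)).card = src m l i)
    (h4 : ∑ i, src m l i = t)
    (h5 : ∀ k, k ≤ 52 → P.length ≤ k → t ≤ Q (src m l) k + 2 * (m - k))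
    (h6 : ∀ k, k < P.length → P.getD k 0 = Q (src m l) k) : UseT m t P :=
  fun e Z g1 g2 g3 g4 => crit (src m l) e (grB _ _ h1 h2 h3) Z P.length m t g1 h4 g2 g3 h5
    (fun S hS => h6 _ hS ▸ g4 S hS)

theorem useA : UseT 50 200 [0, 49, 98, 103, 106, 109] :=
  use 50 6 false [5, 3, 3, 3] [0, 49, 98, 103, 106, 109] 200
  (by decide +kernel) (by decide +kernel) (by decide +kernel) (by decide +kernel)
  (by decide +kernel) (by decide +kernel)

theorem useB : UseT 50 200 [0, 49, 98, 102, 106] :=
  use 50 5 true [4, 4, 4] [0, 49, 98, 102, 106] 200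
  (by decide +kernel) (by decide +kernel) (by decide +kernel) (by decide +kernel)
  (by decide +kernel) (by decide +kernel)

theorem useC : UseT 49 194 [0, 48, 96, 100, 103] :=
  use 49 5 false [4, 3, 3] [0, 48, 96, 100, 103] 194
  (by decide +kernel) (by decide +kernel) (by decide +kernel) (by decide +kernel)
  (by decide +kernel) (by decide +kernel)

theorem useE : UseT 47 186 [0, 46, 92, 96, 99] :=
  use 47 5 false [4, 3, 3] [0, 46, 92, 96, 99] 186
  (by decide +kernel) (by decide +kernel) (by decide +kernel) (by decide +kernel)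
  (by decide +kernel) (by decide +kernel)

theorem useD4 : UseT 52 204 [0, 51, 102, 105] :=
  use 52 4 true [3, 3] [0, 51, 102, 105] 204
  (by decide +kernel) (by decide +kernel) (by decide +kernel) (by decide +kernel)
  (by decide +kernel) (by decide +kernel)

theorem useD5 : UseT 52 208 [0, 51, 102, 106, 110] :=
  use 52 5 true [4, 4, 4] [0, 51, 102, 106, 110] 208
  (by decide +kernel) (by decide +kernel) (by decide +kernel) (by decide +kernel)
  (by decide +kernel) (by decide +kernel)

theorem red (d e : Fin 52 → ℕ) (hd : Antitone d) (c : ℕ)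
    (h : ∀ x, e x + (if x = 0 then c else 0) ≤ d x) (S : Finset (Fin 52)) :
    (S.card = 0 → ∑ i ∈ S, e i = 0) ∧
    (∑ i ∈ S, e i + c ≤ Q d S.card ∨ ∑ i ∈ S, e i + d 0 ≤ Q d (S.card + 1)) := by
  refine ⟨fun t => by rw [card_eq_zero.1 t]; rfl, ?_⟩
  have h1 : ∑ i ∈ S, (e i + (if i = 0 then c else 0)) ≤ ∑ i ∈ S, d i :=
    sum_le_sum fun x _ => h x
  rw [sum_add_distrib, sum_ite_eq'] at h1
  by_cases h0 : (0 : Fin 52) ∈ S
  · have := top d hd S
    simp only [h0, if_true] at h1
    omega
  · have := top d hd (insert 0 S)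
    rw [sum_insert h0, card_insert_of_notMem h0] at this
    simp only [h0, if_false] at h1
    omega

def cut (d : Fin 52 → ℕ) (B : Finset (Fin 52)) (v x : Fin 52) : ℕ :=
  if x ∈ B then 0 else if x = v then d x - B.card else d x

theorem cut_sum (d : Fin 52 → ℕ) (B : Finset (Fin 52)) (v : Fin 52) (hv : v ∉ B)
    (h1 : ∀ x ∈ B, d x = B.card) (h2 : B.card ≤ d v) :
    ∑ x, cut d B v x + B.card * B.card + B.card = ∑ x, d x := by
  have h3 : ∀ x, cut d B v x + (if x ∈ B then B.card else 0) + (if x = v then B.card else 0)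
      = d x := by
    intro x
    unfold cut
    by_cases a : x ∈ B
    · have b : x ≠ v := fun t => hv (t ▸ a)
      simp [a, b, h1 x a]
    · by_cases b : x = v
      · subst b
        simp only [a, if_false, if_true]
        omega
      · simp [a, b]
  rw [← sum_congr rfl (fun x _ => h3 x), sum_add_distrib, sum_add_distrib, sum_ite_eq']
  simp

theorem cut_not (d : Fin 52 → ℕ) (B : Finset (Fin 52)) (v b r : Fin 52) (hv : v ∉ B)
    (hb : b ∈ B) (hr : r ∉ B) (hrv : r ≠ v)
    (h1 : ∀ x ∈ B, d x = B.card) (h2 : B.card ≤ d v) (he : Gr (cut d B v))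
    (hf : ∀ G : SimpleGraph (Fin 52), (∀ i, (nb G i).card = d i) → Bi G) : False := by
  obtain ⟨G, g1, g2⟩ := glue d (cut d B v) B v b r hv hb hr hrv he
    (fun x hx => by simp [cut, hx]) h1 (by simp only [cut, hv, if_false, if_true]; omega)
    (fun x a b => by simp [cut, a, b])
  exact g2 (hf G g1)

theorem cut_red (d : Fin 52 → ℕ) (B : Finset (Fin 52)) (hv : (0 : Fin 52) ∉ B)
    (h2 : B.card ≤ d 0) (x : Fin 52) :
    cut d B 0 x + (if x = 0 then B.card else 0) ≤ d x := by
  unfold cut
  by_cases b : x = 0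
  · subst b
    simp only [hv, if_false, if_true]
    omega
  · simp only [b, if_false]
    split_ifs <;> omega

theorem cut_min (d : Fin 52 → ℕ) (B : Finset (Fin 52)) (v : Fin 52) (h1 : ∀ x, 2 ≤ d x)
    (h2 : B.card + 2 ≤ d v) (x : Fin 52) (hx : x ∉ B) : 2 ≤ cut d B v x := by
  unfold cut
  have := h1 x
  by_cases b : x = v
  · subst b
    simp only [hx, if_false, if_true]
    omega
  · simp only [hx, b, if_false]
    omega


end Pool.Agent.H12.Bic
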