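import Pool.Agent.H12.BicC

set_option autoImplicit false

namespace Pool.Agent.H12.Bic

open Finset

theorem qv (d : Fin 52 → ℕ) : Q d 1 = d 0 ∧ Q d 2 = d 0 + d 1 ∧ Q d 3 = d 0 + d 1 + d 2 ∧
    Q d 4 = d 0 + d 1 + d 2 + d 3 ∧ Q d 5 = d 0 + d 1 + d 2 + d 3 + d 4 ∧
    Q d 6 = d 0 + d 1 + d 2 + d 3 + d 4 + d 5 ∧
    Q d 8 = d 0 + d 1 + d 2 + d 3 + d 4 + d 5 + d 6 + d 7 ∧
    Q d 9 = d 0 + d 1 + d 2 + d 3 + d 4 + d 5 + d 6 + d 7 + d 8 ∧
    Q d 51 = Q d 49 + d 49 + d 50 ∧ ∑ i, d i = Q d 51 + d 51 := by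
  have q0 : Q d 0 = 0 := Q_zero d
  have q1 : Q d 1 = Q d 0 + d 0 := Q_succ d 0 (by norm_num)
  have q2 : Q d 2 = Q d 1 + d 1 := Q_succ d 1 (by norm_num)
  have q3 : Q d 3 = Q d 2 + d 2 := Q_succ d 2 (by norm_num)
  have q4 : Q d 4 = Q d 3 + d 3 := Q_succ d 3 (by norm_num)
  have q5 : Q d 5 = Q d 4 + d 4 := Q_succ d 4 (by norm_num)
  have q6 : Q d 6 = Q d 5 + d 5 := Q_succ d 5 (by norm_num)
  have q7 : Q d 7 = Q d 6 + d 6 := Q_succ d 6 (by norm_num)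
  have q8 : Q d 8 = Q d 7 + d 7 := Q_succ d 7 (by norm_num)
  have q9 : Q d 9 = Q d 8 + d 8 := Q_succ d 8 (by norm_num)
  have q50 : Q d 50 = Q d 49 + d 49 := Q_succ d 49 (by norm_num)
  have q51 : Q d 51 = Q d 50 + d 50 := Q_succ d 50 (by norm_num)
  have q52 : Q d 52 = Q d 51 + d 51 := Q_succ d 51 (by norm_num)
  have qt : Q d 52 = ∑ i, d i := Q_top d 52 le_rfl
  omega

theorem chain (d : Fin 52 → ℕ) (ha : Antitone d) : d 1 ≤ d 0 ∧ d 2 ≤ d 1 ∧ d 3 ≤ d 2 ∧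
    d 4 ≤ d 3 ∧ d 5 ≤ d 4 ∧ d 6 ≤ d 5 ∧ d 7 ≤ d 6 ∧ d 8 ≤ d 7 ∧ d 48 ≤ d 8 ∧ d 49 ≤ d 48 ∧
    d 50 ≤ d 49 ∧ d 51 ≤ d 50 :=
  ⟨ha (by decide), ha (by decide), ha (by decide), ha (by decide), ha (by decide),
    ha (by decide), ha (by decide), ha (by decide), ha (by decide), ha (by decide),
    ha (by decide), ha (by decide)⟩

theorem small (d e : Fin 52 → ℕ) (ha : Antitone d) (c : ℕ)
    (h : ∀ x, e x + (if x = 0 then c else 0) ≤ d x) (p1 p2 p3 p4 p5 : ℕ)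
    (h1 : d 0 ≤ p1 + c ∧ d 1 ≤ p1) (h2 : d 0 + d 1 ≤ p2 + c ∧ d 1 + d 2 ≤ p2)
    (h3 : d 0 + d 1 + d 2 ≤ p3 + c ∧ d 1 + d 2 + d 3 ≤ p3)
    (h4 : d 0 + d 1 + d 2 + d 3 ≤ p4 + c ∧ d 1 + d 2 + d 3 + d 4 ≤ p4) :
    (∀ S : Finset (Fin 52), S.card < [0, p1, p2, p3, p4].length →
      ∑ i ∈ S, e i ≤ [0, p1, p2, p3, p4].getD S.card 0) ∧
    (d 0 + d 1 + d 2 + d 3 + d 4 ≤ p5 + c ∧ d 1 + d 2 + d 3 + d 4 + d 5 ≤ p5 →
      ∀ S : Finset (Fin 52), S.card < [0, p1, p2, p3, p4, p5].length →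
      ∑ i ∈ S, e i ≤ [0, p1, p2, p3, p4, p5].getD S.card 0) := by
  obtain ⟨q1, q2, q3, q4, q5, q6, -⟩ := qv d
  constructor
  · intro S hS
    obtain ⟨z, this⟩ := red d e ha c h S
    by_cases hz : S.card = 0
    · rw [z hz]
      exact Nat.zero_le _
    clear z
    replace hz : 1 ≤ S.card := by omega
    generalize S.card = k at this hS hz
    generalize ∑ i ∈ S, e i = x at this
    have hk : k < 5 := hS
    interval_cases k <;> simp only [List.getD_cons_succ, List.getD_cons_zero] <;>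
      simp only [Nat.reduceAdd, q1, q2, q3, q4, q5] at this <;> omega
  · intro h5 S hS
    obtain ⟨z, this⟩ := red d e ha c h S
    by_cases hz : S.card = 0
    · rw [z hz]
      exact Nat.zero_le _
    clear z
    replace hz : 1 ≤ S.card := by omega
    generalize S.card = k at this hS hz
    generalize ∑ i ∈ S, e i = x at this
    have hk : k < 6 := hS
    interval_cases k <;> simp only [List.getD_cons_succ, List.getD_cons_zero] <;>
      simp only [Nat.reduceAdd, q1, q2, q3, q4, q5, q6] at this <;> omega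

theorem caseA (d : Fin 52 → ℕ) (ha : Antitone d)
    (hf : ∀ G : SimpleGraph (Fin 52), (∀ i, (nb G i).card = d i) → Bi G)
    (hs : ∑ i, d i = 206) (hmin : ∀ x, 2 ≤ d x) (hmax : d 0 ≤ 51) (c1 : d 50 ≤ 2)
    (e4 : d 0 + d 1 + d 2 + d 3 ≤ 108) (e1 : d 1 ≤ 49) : False := by
  obtain ⟨a1, a2, a3, a4, a5, -, -, -, -, -, -, a51⟩ := chain d ha
  have l6 : Q d 6 + 2 * 46 ≤ Q d 52 := Q_lo d 2 6 46 le_rfl fun i _ _ => hmin i
  have u0 : Q d 52 ≤ Q d 0 + d 0 * 52 :=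
    Q_hi d (d 0) 0 52 (by norm_num) fun i _ _ => ha (Fin.zero_le i)
  have u4 : Q d 52 ≤ Q d 4 + d 4 * 48 :=
    Q_hi d (d 4) 4 48 (by norm_num) fun i h _ => ha (show (4 : Fin 52) ≤ i from h)
  rw [Q_top d 52 le_rfl, hs] at l6 u0 u4
  rw [Q_zero] at u0
  rw [(qv d).2.2.2.2.2.1] at l6
  rw [(qv d).2.2.2.1] at u4
  have h0 : 4 ≤ d 0 := by clear * - u0; omega
  have h4 : 3 ≤ d 4 := by clear * - u4 e4; omega
  have m5 := hmin 5
  have m50 := hmin 50
  have m51 := hmin 51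
  clear u0 u4
  have hB : ({50, 51} : Finset (Fin 52)).card = 2 := rfl
  have hd : ∀ x ∈ ({50, 51} : Finset (Fin 52)), d x = ({50, 51} : Finset (Fin 52)).card := by
    intro x hx
    simp only [mem_insert, mem_singleton] at hx
    rcases hx with rfl | rfl <;> omega
  have hsum := cut_sum d {50, 51} 0 (by decide) hd (by omega)
  have hred := cut_red d {50, 51} (by decide) (by omega)
  have hm := cut_min d {50, 51} 0 hmin (by omega)
  refine cut_not d {50, 51} 0 50 1 (by decide) (by decide) (by decide) (by decide) hd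
    (by omega) ?_ hf
  rw [hB] at hsum hred
  clear hB hd m50 m51 a51 c1
  by_cases c2 : d 0 + d 1 + d 2 ≤ 104
  · exact useB _ {50, 51} (by omega) rfl hm
      (small d _ ha 2 hred 49 98 102 106 0 (by omega) (by omega) (by omega) (by omega)).1
  · exact useA _ {50, 51} (by omega) rfl hm
      ((small d _ ha 2 hred 49 98 103 106 109 (by omega) (by omega) (by omega) (by omega)).2
        (by omega))

theorem caseB (d : Fin 52 → ℕ) (ha : Antitone d)
    (hf : ∀ G : SimpleGraph (Fin 52), (∀ i, (nb G i).card = d i) → Bi G)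
    (hs : ∑ i, d i = 206) (hmin : ∀ x, 2 ≤ d x) (hmax : d 0 ≤ 51) (c1 : 3 ≤ d 50)
    (c3 : d 48 ≤ 3) : False := by
  obtain ⟨a1, a2, a3, a4, -, -, -, -, -, a49, a50, a51⟩ := chain d ha
  have l4 : Q d 5 + 3 * 46 ≤ Q d 51 := Q_lo d 3 5 46 (by norm_num) fun i _ h => by
    have := ha (show i ≤ (50 : Fin 52) from Nat.lt_succ_iff.1 h)
    omega
  have u0 : Q d 49 ≤ Q d 0 + d 0 * 49 :=
    Q_hi d (d 0) 0 49 (by norm_num) fun i _ _ => ha (Fin.zero_le i)
  rw [Q_zero] at u0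
  obtain ⟨-, -, -, -, q5, -, -, -, q51, qt⟩ := qv d
  have m51 := hmin 51
  have h0 : 5 ≤ d 0 := by clear a1 a2 a3 a4 l4 q5; omega
  have h5 : d 0 + d 1 + d 2 + d 3 + d 4 ≤ 66 := by clear a1 a2 a3 a4 u0 h0; omega
  have h4 : 3 ≤ d 4 := le_trans c1 (ha (by decide))
  clear u0 l4 q5 q51 qt
  have hB : ({48, 49, 50} : Finset (Fin 52)).card = 3 := rfl
  have hd : ∀ x ∈ ({48, 49, 50} : Finset (Fin 52)),
      d x = ({48, 49, 50} : Finset (Fin 52)).card := by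
    intro x hx
    simp only [mem_insert, mem_singleton] at hx
    rcases hx with rfl | rfl | rfl <;> omega
  have hsum := cut_sum d {48, 49, 50} 0 (by decide) hd (by omega)
  have hred := cut_red d {48, 49, 50} (by decide) (by omega)
  have hm := cut_min d {48, 49, 50} 0 hmin (by omega)
  refine cut_not d {48, 49, 50} 0 50 1 (by decide) (by decide) (by decide) (by decide) hd
    (by omega) ?_ hf
  rw [hB] at hsum hred
  exact useC _ {48, 49, 50} (by omega) rfl hm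
    (small d _ ha 3 hred 48 96 100 103 0 (by omega) (by omega) (by omega) (by omega)).1

theorem caseC (d : Fin 52 → ℕ) (ha : Antitone d)
    (hf : ∀ G : SimpleGraph (Fin 52), (∀ i, (nb G i).card = d i) → Bi G)
    (hs : ∑ i, d i = 206) (hmin : ∀ x, 2 ≤ d x) (c1 : 3 ≤ d 50)
    (c3 : 4 ≤ d 48) : False := by
  obtain ⟨a1, a2, a3, a4, a5, a6, -, -, -, -, a50, -⟩ := chain d ha
  have l5 : Q d 3 + 4 * 46 ≤ Q d 49 := Q_lo d 4 3 46 (by norm_num) fun i _ h => by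
    have := ha (show i ≤ (48 : Fin 52) from Nat.lt_succ_iff.1 h)
    omega
  obtain ⟨-, -, q3, -, -, -, -, -, q51, qt⟩ := qv d
  have m51 := hmin 51
  have h5 : d 0 + d 1 + d 2 ≤ 14 := by clear a1 a2 a3 a4 a5 a6; omega
  have h6 : 4 ≤ d 6 := le_trans c3 (ha (by decide))
  clear l5 q3 q51 qt
  have hB : ({3, 4, 5, 6} : Finset (Fin 52)).card = 4 := rfl
  have hd : ∀ x ∈ ({3, 4, 5, 6} : Finset (Fin 52)),
      d x = ({3, 4, 5, 6} : Finset (Fin 52)).card := by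
    intro x hx
    simp only [mem_insert, mem_singleton] at hx
    rcases hx with rfl | rfl | rfl | rfl <;> omega
  have hsum := cut_sum d {3, 4, 5, 6} 2 (by decide) hd (by omega)
  refine cut_not d {3, 4, 5, 6} 2 3 1 (by decide) (by decide) (by decide) (by decide) hd
    (by omega) ?_ hf
  rw [hB] at hsum
  refine useE _ {2, 3, 4, 5, 6} (by omega) rfl (fun x hx => ?_) fun S hS => ?_
  · have h1 : x ∉ ({3, 4, 5, 6} : Finset (Fin 52)) := fun t => hx (mem_insert_of_mem t)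
    have h2 : x ≠ 2 := fun t => hx (t ▸ mem_insert_self _ _)
    simp only [cut, h1, h2, if_false]
    exact hmin x
  · have h1 : ∑ i ∈ S, cut d {3, 4, 5, 6} 2 i ≤ ∑ _i ∈ S, 6 := sum_le_sum fun x _ => by
      have := ha (Fin.zero_le x)
      unfold cut
      split_ifs <;> omega
    rw [sum_const, smul_eq_mul] at h1
    generalize S.card = k at h1 hS
    have hk : k < 5 := hS
    interval_cases k <;> simp only [List.getD_cons_succ, List.getD_cons_zero] <;> omega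

theorem classify (d : Fin 52 → ℕ) (ha : Antitone d) (hg : Gr d)
    (hf : ∀ G : SimpleGraph (Fin 52), (∀ i, (nb G i).card = d i) → Bi G)
    (hs : ∑ i, d i = 206) :
    (∀ i : Fin 52, 8 ≤ i.val → d i = 2) ∧ d 0 ≤ 51 ∧ 2 ≤ d 7 ∧
      d 0 + d 1 + d 2 + d 3 + d 4 + d 5 + d 6 + d 7 = 118 ∧
      (d 0 + d 1 + d 2 + d 3 = 109 ∨ (d 0 + d 1 + d 2 + d 3 ≤ 108 ∧ 50 ≤ d 1)) := by
  obtain ⟨G, hG⟩ := hg
  have hmin : ∀ x, 2 ≤ d x := fun x => hG x ▸ two_le G (by norm_num) (hf G hG) x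
  have hmax : d 0 ≤ 51 := by
    have := deg_le G 0
    rw [hG] at this
    omega
  have e4 : d 0 + d 1 + d 2 + d 3 ≤ 109 := by
    have h1 := eg G (univ.filter (fun i : Fin 52 => i.val < 4))
    have h2 := sum_add_sum_compl (univ.filter (fun i : Fin 52 => i.val < 4)) d
    simp only [hG] at h1
    rw [card_lt 4 (by norm_num)] at h1
    rw [← (qv d).2.2.2.1]
    unfold Q
    omega
  have key : d 0 + d 1 + d 2 + d 3 = 109 ∨ (d 0 + d 1 + d 2 + d 3 ≤ 108 ∧ 50 ≤ d 1) := by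
    by_contra hc
    by_cases c1 : d 50 ≤ 2
    · exact caseA d ha hf hs hmin hmax c1 (by omega) (by omega)
    · by_cases c3 : d 48 ≤ 3
      · exact caseB d ha hf hs hmin hmax (by omega) c3
      · exact caseC d ha hf hs hmin (by omega) (by omega)
  obtain ⟨a1, a2, a3, a4, a5, a6, a7, a8, -⟩ := chain d ha
  have l9 : Q d 9 + 2 * 43 ≤ Q d 52 := Q_lo d 2 9 43 le_rfl fun i _ _ => hmin i
  rw [Q_top d 52 le_rfl, hs, (qv d).2.2.2.2.2.2.2.1] at l9
  have m8 := hmin 8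
  have h8 : d 8 = 2 := by omega
  have h9 : ∀ i : Fin 52, 8 ≤ i.val → d i = 2 := fun i hi => by
    have := ha (show (8 : Fin 52) ≤ i from hi)
    have := hmin i
    omega
  have u8 : Q d 52 ≤ Q d 8 + 2 * 44 := Q_hi d 2 8 44 le_rfl fun i h _ => (h9 i h).le
  rw [Q_top d 52 le_rfl, hs, (qv d).2.2.2.2.2.2.1] at u8
  exact ⟨h9, hmax, hmin 7, by omega, key⟩

end Pool.Agent.H12.Bic
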