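import Pool.Agent.H12.BicD

set_option autoImplicit false

namespace Pool.Agent.H12.Bic

open Finset

def X (N : ℕ) : Set (Fin 52 → ℕ) :=
  {d | Antitone d ∧ Gr d ∧
    (∀ G : SimpleGraph (Fin 52), (∀ i, (nb G i).card = d i) → Bi G) ∧ ∑ i, d i = N}

theorem X_fin (N : ℕ) : (X N).Finite := by
  refine (Set.Finite.pi' (fun _ : Fin 52 => Set.finite_Iic N)).subset ?_
  intro d hd i
  have := single_le_sum (f := d) (fun j _ => Nat.zero_le (d j)) (mem_univ i)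
  rw [hd.2.2.2] at this
  exact this

def mk (l : List ℕ) (i : Fin 52) : ℕ := l.getD i.val 2

theorem mk_tail (l : List ℕ) (i : Fin 52) (h : l.length ≤ i.val) : mk l i = 2 :=
  List.getD_eq_default _ _ h

theorem eq5 (d : Fin 52 → ℕ) (h : ∀ i : Fin 52, 5 ≤ i.val → d i = 2) :
    d = mk [d 0, d 1, d 2, d 3, d 4] := by
  funext i
  by_cases hi : 5 ≤ i.val
  · rw [h i hi, mk_tail _ i (by exact hi)]
  · obtain ⟨i, hi'⟩ := i
    have : i < 5 := not_le.1 hi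
    interval_cases i <;> rfl

theorem eq8 (d : Fin 52 → ℕ) (h : ∀ i : Fin 52, 8 ≤ i.val → d i = 2) :
    d = mk [d 0, d 1, d 2, d 3, d 4, d 5, d 6, d 7] := by
  funext i
  by_cases hi : 8 ≤ i.val
  · rw [h i hi, mk_tail _ i (by exact hi)]
  · obtain ⟨i, hi'⟩ := i
    have : i < 8 := not_le.1 hi
    interval_cases i <;> rfl

theorem mk_anti (a b c d e : ℕ) (h1 : b ≤ a) (h2 : c ≤ b) (h3 : d ≤ c) (h4 : e ≤ d)
    (h5 : 2 ≤ e) : Antitone (mk [a, b, c, d, e]) := by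
  have : Antitone (fun i : ℕ => [a, b, c, d, e].getD i 2) := by
    refine antitone_nat_of_succ_le fun i => ?_
    rcases i with _ | _ | _ | _ | _ | i <;> simp <;> omega
  exact fun x y h => this h

theorem mk_min (a b c d e : ℕ) (h1 : b ≤ a) (h2 : c ≤ b) (h3 : d ≤ c) (h4 : e ≤ d)
    (h5 : 2 ≤ e) (x : Fin 52) : 2 ≤ mk [a, b, c, d, e] x :=
  mk_anti a b c d e h1 h2 h3 h4 h5 (show x ≤ (51 : Fin 52) from Nat.lt_succ_iff.1 x.2)

theorem mk_sum (a b c d e : ℕ) : ∑ i, mk [a, b, c, d, e] i = a + b + c + d + e + 94 := by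
  have h1 : Q (mk [a, b, c, d, e]) 5 + 2 * 47 ≤ Q (mk [a, b, c, d, e]) 52 :=
    Q_lo _ 2 5 47 le_rfl fun i h _ => (mk_tail [a, b, c, d, e] i h).ge
  have h2 : Q (mk [a, b, c, d, e]) 52 ≤ Q (mk [a, b, c, d, e]) 5 + 2 * 47 :=
    Q_hi _ 2 5 47 le_rfl fun i h _ => (mk_tail [a, b, c, d, e] i h).le
  have h3 : Q (mk [a, b, c, d, e]) 5 = a + b + c + d + e := (qv _).2.2.2.2.1
  rw [Q_top _ 52 le_rfl] at h1 h2
  omega

theorem useD3 : UseT 52 204 [0, 51, 102, 105, 108] :=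
  use 52 4 true [3, 3] [0, 51, 102, 105, 108] 204
  (by decide +kernel) (by decide +kernel) (by decide +kernel) (by decide +kernel)
  (by decide +kernel) (by decide +kernel)

theorem forcedK (d : Fin 52 → ℕ) (k : ℕ) (h1 : 2 ≤ k) (h2 : k ≤ 52) (hm : ∀ x, 2 ≤ d x)
    (h : 2 * Q d k = k * (k - 1) + ∑ i, d i) (G : SimpleGraph (Fin 52))
    (hG : ∀ i, (nb G i).card = d i) : Bi G := by
  have h3 := sum_add_sum_compl (univ.filter (fun i : Fin 52 => i.val < k)) d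
  refine forced G (univ.filter (fun i : Fin 52 => i.val < k)) (by rw [card_lt k h2]; exact h1)
    (fun y _ => hG y ▸ hm y) ?_
  simp only [hG]
  rw [card_lt k h2]
  unfold Q at h
  omega

theorem mem4 (a b c d : ℕ) (h0 : a ≤ 51) (h1 : b ≤ a) (h2 : c ≤ b) (h3 : d ≤ c) (h4 : 3 ≤ d)
    (h : a + b + c + d = 108) : mk [a, b, c, d, 2] ∈ X 204 := by
  have ha := mk_anti a b c d 2 h1 h2 h3 (by omega) le_rfl
  have hm := mk_min a b c d 2 h1 h2 h3 (by omega) le_rfl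
  have hs : ∑ i, mk [a, b, c, d, 2] i = 204 := by rw [mk_sum]; omega
  refine ⟨ha, useD3 _ ∅ hs rfl (fun x _ => hm x) (small _ _ ha 0 (fun x => by simp)
    51 102 105 108 0 ?_ ?_ ?_ ?_).1, forcedK _ 4 (by norm_num) (by norm_num) hm ?_, hs⟩
  · show a ≤ _ ∧ b ≤ _
    omega
  · show a + b ≤ _ ∧ b + c ≤ _
    omega
  · show a + b + c ≤ _ ∧ b + c + d ≤ _
    omega
  · show a + b + c + d ≤ _ ∧ b + c + d + 2 ≤ _
    omega
  · have : Q (mk [a, b, c, d, 2]) 4 = a + b + c + d := (qv _).2.2.2.1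
    omega

theorem mem5 (a b c d e : ℕ) (h0 : a ≤ 51) (h1 : b ≤ a) (h2 : c ≤ b) (h3 : d ≤ c) (h4 : e ≤ d)
    (h5 : 4 ≤ e) (h : a + b + c + d + e = 114) : mk [a, b, c, d, e] ∈ X 208 := by
  have ha := mk_anti a b c d e h1 h2 h3 h4 (by omega)
  have hm := mk_min a b c d e h1 h2 h3 h4 (by omega)
  have hs : ∑ i, mk [a, b, c, d, e] i = 208 := by rw [mk_sum]; omega
  refine ⟨ha, useD5 _ ∅ hs rfl (fun x _ => hm x) (small _ _ ha 0 (fun x => by simp)
    51 102 106 110 0 ?_ ?_ ?_ ?_).1, forcedK _ 5 (by norm_num) (by norm_num) hm ?_, hs⟩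
  · show a ≤ _ ∧ b ≤ _
    omega
  · show a + b ≤ _ ∧ b + c ≤ _
    omega
  · show a + b + c ≤ _ ∧ b + c + d ≤ _
    omega
  · show a + b + c + d ≤ _ ∧ b + c + d + e ≤ _
    omega
  · have : Q (mk [a, b, c, d, e]) 5 = a + b + c + d + e := (qv _).2.2.2.2.1
    omega

def T (E : Finset ℕ) (t : ℕ) : Finset (Σ _ : ℕ × ℕ × ℕ, ℕ) :=
  ((E ×ˢ range 52 ×ˢ range 52).filter fun p => p.2.2 ≤ p.2.1).sigma fun p =>
    Icc ((t - (p.1 + p.2.1 + p.2.2) + 1) / 2) (min p.2.2 (t - (p.1 + p.2.1 + p.2.2 + max 3 p.1)))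

theorem mem_T (E : Finset ℕ) (t e a b c : ℕ) : (⟨(e, a, b), c⟩ : Σ _ : ℕ × ℕ × ℕ, ℕ) ∈ T E t ↔
    e ∈ E ∧ a < 52 ∧ b < 52 ∧ b ≤ a ∧ (t - (e + a + b) + 1) / 2 ≤ c ∧
      c ≤ min b (t - (e + a + b + max 3 e)) := by
  simp only [T, mem_sigma, mem_filter, mem_product, mem_range, mem_Icc, and_assoc]

def fT (t : ℕ) (p : Σ _ : ℕ × ℕ × ℕ, ℕ) : Fin 52 → ℕ :=
  mk [p.1.2.1, p.1.2.2, p.2, t - (p.1.1 + p.1.2.1 + p.1.2.2 + p.2), p.1.1]

theorem fT_inj (t : ℕ) : Function.Injective (fT t) := by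
  rintro ⟨⟨e, a, b⟩, c⟩ ⟨⟨e', a', b'⟩, c'⟩ h
  have h0 : a = a' := congrFun h 0
  have h1 : b = b' := congrFun h 1
  have h2 : c = c' := congrFun h 2
  have h4 : e = e' := congrFun h 4
  rw [h0, h1, h2, h4]

theorem c1 : (T {2} 110).card = 3581 := by
  unfold T
  rw [card_sigma, sum_filter]
  simp only [sum_product, Nat.card_Icc]
  decide +kernel

theorem c2 : (T {3} 112).card = 3572 := by
  unfold T
  rw [card_sigma, sum_filter]
  simp only [sum_product, Nat.card_Icc]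
  decide +kernel

theorem c3 : (T {4, 5} 114).card = 6520 := by
  unfold T
  rw [card_sigma, sum_filter]
  simp only [sum_product, Nat.card_Icc]
  decide +kernel

theorem low (E : Finset ℕ) (t N : ℕ) (h : ∀ e a b c : ℕ,
    e ∈ E ∧ a < 52 ∧ b < 52 ∧ b ≤ a ∧ (t - (e + a + b) + 1) / 2 ≤ c ∧
      c ≤ min b (t - (e + a + b + max 3 e)) → mk [a, b, c, t - (e + a + b + c), e] ∈ X N) :
    (T E t).card ≤ (X N).ncard := by
  rw [← Set.ncard_coe_finset]
  refine Set.ncard_le_ncard_of_injOn (fT t) ?_ (fT_inj _).injOn (X_fin _)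
  rintro ⟨⟨e, a, b⟩, c⟩ hp
  exact h e a b c ((mem_T E t e a b c).1 hp)

theorem low204 : 3581 ≤ (X 204).ncard := by
  refine le_trans c1.ge (low _ _ _ fun e a b c h => ?_)
  rw [mem_singleton] at h
  obtain ⟨rfl, h⟩ := h
  exact mem4 a b c (110 - (2 + a + b + c)) (by omega) (by omega) (by omega) (by omega)
    (by omega) (by omega)

theorem low208 : 6520 ≤ (X 208).ncard := by
  refine le_trans c3.ge (low _ _ _ fun e a b c h => ?_)
  rw [mem_insert, mem_singleton] at h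
  exact mem5 a b c (114 - (e + a + b + c)) e (by omega) (by omega) (by omega) (by omega)
    (by omega) (by omega) (by omega)

def L : Finset (List ℕ) :=
  {[51, 51, 3, 3, 3, 3, 2, 2], [51, 50, 4, 3, 3, 3, 2, 2], [51, 50, 3, 3, 3, 3, 3, 2],
    [50, 50, 5, 3, 3, 3, 2, 2], [50, 50, 4, 4, 4, 2, 2, 2], [50, 50, 4, 4, 3, 3, 2, 2],
    [50, 50, 4, 3, 3, 3, 3, 2], [50, 50, 3, 3, 3, 3, 3, 3]}

theorem spor (a b c d e f g h : ℕ) (h0 : a ≤ 51) (h1 : b ≤ a) (h2 : c ≤ b) (h3 : d ≤ c)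
    (h4 : e ≤ d) (h5 : f ≤ e) (h6 : g ≤ f) (h7 : h ≤ g) (h8 : 2 ≤ h)
    (hs : a + b + c + d + e + f + g + h = 118) (h9 : a + b + c + d ≤ 108) (hb : 50 ≤ b) :
    [a, b, c, d, e, f, g, h] ∈ L := by
  have hc : c ≤ 6 := by omega
  have : 2 ≤ g := by omega
  have : 2 ≤ f := by omega
  have : 2 ≤ e := by omega
  have : 2 ≤ d := by omega
  have : 50 ≤ a := by omega
  interval_cases a <;> interval_cases b <;> interval_cases c <;> interval_cases d <;>
    interval_cases e <;> interval_cases f <;> interval_cases g <;> interval_cases h <;>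
    first | decide | omega

theorem up206 : (X 206).ncard ≤ 3580 := by
  have hsub : X 206 ⊆ fT 112 '' (T {3} 112) ∪ mk '' L := by
    intro d hd
    obtain ⟨h1, h2, h3, h4, h5⟩ := classify d hd.1 hd.2.1 hd.2.2.1 hd.2.2.2
    obtain ⟨a1, a2, a3, a4, a5, a6, a7, -⟩ := chain d hd.1
    rcases h5 with h5 | ⟨h5, h6⟩
    · left
      have h6 : d 5 = 2 := by omega
      have h7 : d 4 = 3 := by omega
      have h8 : ∀ i : Fin 52, 5 ≤ i.val → d i = 2 := fun i hi => by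
        have := hd.1 (show (5 : Fin 52) ≤ i from hi)
        have := hd.1 (show i ≤ (51 : Fin 52) from Nat.lt_succ_iff.1 i.2)
        have := h1 51 (by decide)
        omega
      refine ⟨⟨(3, d 0, d 1), d 2⟩, ?_, ?_⟩
      · rw [mem_coe, mem_T, mem_singleton]
        omega
      · have h9 : 112 - (3 + d 0 + d 1 + d 2) = d 3 := by omega
        unfold fT
        simp only [h9]
        rw [← h7]
        exact (eq5 d h8).symm
    · right
      exact ⟨_, spor _ _ _ _ _ _ _ _ h2 a1 a2 a3 a4 a5 a6 a7 h3 h4 h5 h6, (eq8 d h1).symm⟩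
  have h1 := Set.ncard_le_ncard hsub
    (((T {3} 112).finite_toSet.image _).union (L.finite_toSet.image _))
  have h2 := Set.ncard_union_le (fT 112 '' (T {3} 112)) (mk '' L)
  have h3 := Set.ncard_image_le (f := fT 112) (T {3} 112).finite_toSet
  have h4 := Set.ncard_image_le (f := mk) L.finite_toSet
  rw [Set.ncard_coe_finset, c2] at h3
  have h5 : L.card = 8 := by decide
  rw [Set.ncard_coe_finset, h5] at h4
  omega

end Pool.Agent.H12.Bic
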