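import Mathlib

set_option autoImplicit false

namespace Pool.Agent.H12.Carve

open Finset

lemma count_unique {G : Type} [Fintype G] [DecidableEq G] (A B : Finset G) (hAB : A ⊆ B)
    (q : ℕ) (hq : q + 1 = 2 * B.card) :
    (A.card : ℝ) / (4 * B.card) * ((q : ℝ) + 1) ^ Fintype.card G ≤
      ((univ.filter fun f : G → Fin (q + 1) =>
        ∃ c ∈ A, f c = 0 ∧ ∀ c' ∈ B, f c' = 0 → c' = c).card : ℝ) := by
  classical
  let S : G → Finset (G → Fin (q + 1)) := fun c => Fintype.piFinset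
    (fun g => if g = c then {0} else if g ∈ B then univ.erase 0 else univ)
  have hS : ∀ c f, f ∈ S c ↔ f c = 0 ∧ ∀ c' ∈ B, f c' = 0 → c' = c := by
    intro c f
    simp only [S, Fintype.mem_piFinset]
    constructor
    · intro h
      refine ⟨by simpa using h c, fun c' hc' h0 => ?_⟩
      by_contra hne
      have := h c'
      simp [hne, hc', h0] at this
    · rintro ⟨h1, h2⟩ g
      by_cases hg : g = c
      · simp [hg, h1]
      · by_cases hB : g ∈ B
        · simp only [hg, hB, if_false, if_true, mem_erase, mem_univ, and_true]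
          exact fun h0 => hg (h2 g hB h0)
        · simp [hg, hB]
  have hU : (univ.filter fun f : G → Fin (q + 1) =>
        ∃ c ∈ A, f c = 0 ∧ ∀ c' ∈ B, f c' = 0 → c' = c) = A.biUnion S := by
    ext f; simp [hS]
  have hq' : (q : ℝ) + 1 = 2 * B.card := by exact_mod_cast hq
  have hQ : (0 : ℝ) < (q : ℝ) + 1 := by positivity
  have hB : (0 : ℝ) < B.card := by linarith
  have hcard : ∀ c ∈ A, 1 / (4 * (B.card : ℝ)) * ((q : ℝ) + 1) ^ Fintype.card G ≤ (S c).card := by
    intro c hc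
    let u : G → ℝ := fun g => if g ∈ B then 1 - 1 / ((q : ℝ) + 1) else 1
    have hu0 : ∀ g, 0 ≤ u g := fun g => by
      simp only [u]; split_ifs
      · rw [sub_nonneg, div_le_one hQ]; linarith [(Nat.cast_nonneg q : (0 : ℝ) ≤ q)]
      · norm_num
    have hu1 : u c ≤ 1 := by
      simp only [u]; split_ifs
      · have : 0 ≤ 1 / ((q : ℝ) + 1) := by positivity
        linarith
      · norm_num
    have hprod : 1 / 2 ≤ ∏ g, u g := by
      have : ∏ g, u g = (1 - 1 / ((q : ℝ) + 1)) ^ B.card := by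
        simp only [u]
        rw [prod_ite_mem, univ_inter, prod_const]
      rw [this]
      have h2 := one_add_mul_le_pow (a := -(1 / ((q : ℝ) + 1))) (by
        have : 1 / ((q : ℝ) + 1) ≤ 1 := by
          rw [div_le_one hQ]; linarith [(Nat.cast_nonneg q : (0 : ℝ) ≤ q)]
        linarith) B.card
      rw [← sub_eq_add_neg] at h2
      refine le_trans (le_of_eq ?_) h2
      rw [hq']; field_simp; ring
    have h1 : ((S c).card : ℝ) = ∏ g ∈ univ.erase c, (((q : ℝ) + 1) * u g) := by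
      simp only [S, Fintype.card_piFinset]
      rw [← mul_prod_erase _ _ (mem_univ c)]
      simp only [if_true, card_singleton, one_mul, Nat.cast_prod]
      refine prod_congr rfl fun g hg => ?_
      rw [if_neg (ne_of_mem_erase hg)]
      simp only [u]
      split_ifs
      · rw [card_erase_of_mem (mem_univ _)]; simp; field_simp; ring
      · simp
    have h2 : ((q : ℝ) + 1) ^ Fintype.card G * ∏ g, u g =
        ((q : ℝ) + 1) * u c * ∏ g ∈ univ.erase c, (((q : ℝ) + 1) * u g) := by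
      rw [mul_prod_erase _ (fun g => ((q : ℝ) + 1) * u g) (mem_univ c), prod_mul_distrib,
        prod_const, card_univ]
    rw [← h1] at h2
    have h3 : (0 : ℝ) ≤ (S c).card := by positivity
    have h4 : (0 : ℝ) ≤ ((q : ℝ) + 1) ^ Fintype.card G := by positivity
    have h5 : ((q : ℝ) + 1) ^ Fintype.card G * (1 / 2) ≤ ((q : ℝ) + 1) * (S c).card := by
      calc _ ≤ ((q : ℝ) + 1) ^ Fintype.card G * ∏ g, u g := by gcongr
        _ = ((q : ℝ) + 1) * u c * (S c).card := h2
        _ ≤ ((q : ℝ) + 1) * 1 * (S c).card := by gcongr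
        _ = _ := by ring
    rw [div_mul_eq_mul_div, div_le_iff₀ (by positivity)]
    rw [hq'] at h5 ⊢
    linarith
  rw [hU, card_biUnion]
  · push_cast
    calc _ = ∑ _c ∈ A, 1 / (4 * (B.card : ℝ)) * ((q : ℝ) + 1) ^ Fintype.card G := by
          rw [sum_const, nsmul_eq_mul]; ring
      _ ≤ _ := sum_le_sum hcard
  · intro c hc c' hc' hne
    rw [Function.onFun, disjoint_left]
    intro f h1 h2
    rw [hS] at h1 h2
    exact hne (h2.2 c (hAB hc) h1.1)

lemma cover {X F : Type} [Fintype X] [Fintype F] [Nonempty F] (R : F → X → Prop)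
    [∀ f x, Decidable (R f x)] (p : ℝ)
    (h : ∀ x, p * Fintype.card F ≤ ((univ.filter fun f => R f x).card : ℝ)) (m : ℕ)
    (hm : (Fintype.card X : ℝ) * Real.exp (-(p * m)) < 1) :
    ∃ fs : Fin m → F, ∀ x, ∃ i, R (fs i) x := by
  classical
  by_contra hcon
  push Not at hcon
  have hF : (0 : ℝ) < Fintype.card F := by exact_mod_cast Fintype.card_pos
  have h1 : (univ : Finset (Fin m → F)) ⊆
      univ.biUnion fun x => Fintype.piFinset fun _ => univ.filter fun f => ¬ R f x := by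
    intro fs _
    obtain ⟨x, hx⟩ := hcon fs
    simp only [mem_biUnion, mem_univ, true_and, Fintype.mem_piFinset, mem_filter]
    exact ⟨x, hx⟩
  have h2 := (card_le_card h1).trans card_biUnion_le
  simp only [Fintype.card_piFinset, prod_const, card_univ, Fintype.card_fin,
    Fintype.card_fun] at h2
  have h3 : ∀ x, ((univ.filter fun f => ¬ R f x).card : ℝ) ≤ Real.exp (-p) * Fintype.card F := by
    intro x
    have a1 := card_filter_add_card_filter_not (s := (univ : Finset F)) (fun f => R f x)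
    have a2 : ((univ.filter fun f => R f x).card : ℝ) + (univ.filter fun f => ¬ R f x).card
        = Fintype.card F := by rw [← card_univ]; exact_mod_cast a1
    have a3 := Real.add_one_le_exp (-p)
    have a4 := h x
    nlinarith
  have h4 : ((Fintype.card F : ℝ)) ^ m ≤
      Fintype.card X * (Real.exp (-p) * Fintype.card F) ^ m := by
    calc ((Fintype.card F : ℝ)) ^ m
        ≤ ∑ x : X, ((univ.filter fun f => ¬ R f x).card : ℝ) ^ m := by exact_mod_cast h2
      _ ≤ ∑ _x : X, (Real.exp (-p) * Fintype.card F) ^ m :=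
          sum_le_sum fun x _ => pow_le_pow_left₀ (by positivity) (h3 x) m
      _ = _ := by rw [sum_const, card_univ, nsmul_eq_mul]
  rw [mul_pow, ← Real.exp_nat_mul, ← mul_assoc] at h4
  have h5 : (0 : ℝ) < (Fintype.card F : ℝ) ^ m := by positivity
  have h6 : (m : ℝ) * -p = -(p * m) := by ring
  rw [h6] at h4
  nlinarith

noncomputable def ball (n R : ℕ) : Finset (Fin n → ℤ) :=
  (Fintype.piFinset fun _ => Icc (-(R : ℤ)) R).filter fun v => ∑ t, |v t| ≤ R

lemma mem_ball {n R : ℕ} {v : Fin n → ℤ} : v ∈ ball n R ↔ ∑ t, |v t| ≤ R := by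
  simp only [ball, mem_filter, Fintype.mem_piFinset, mem_Icc, and_iff_right_iff_imp]
  intro h t
  rw [← abs_le]
  exact le_trans (single_le_sum (f := fun t => |v t|) (fun _ _ => abs_nonneg _) (mem_univ t)) h

lemma sum_geo (x : ℝ) (h0 : 0 ≤ x) (h1 : x < 1) (R : ℕ) :
    ∑ a ∈ Icc (-(R : ℤ)) R, x ^ a.natAbs ≤ 2 / (1 - x) := by
  have key : ∑ a ∈ Icc (-(R : ℤ)) R, x ^ a.natAbs ≤ 2 * ∑ i ∈ range (R + 1), x ^ i := by
    induction R with
    | zero => simp
    | succ R ih =>
      have e : Icc (-((R + 1 : ℕ) : ℤ)) ((R + 1 : ℕ) : ℤ) =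
          insert (-((R + 1 : ℕ) : ℤ)) (insert ((R + 1 : ℕ) : ℤ) (Icc (-(R : ℤ)) R)) := by
        ext a; simp only [mem_Icc, mem_insert]; push_cast; omega
      rw [e, sum_insert, sum_insert, sum_range_succ _ (R + 1)]
      · simp only [Int.natAbs_neg, Int.natAbs_natCast]; linarith
      · simp only [mem_Icc]; push_cast; omega
      · simp only [mem_Icc, mem_insert]; push_cast; omega
  refine key.trans ?_
  have := (summable_geometric_of_lt_one h0 h1).sum_le_tsum (range (R + 1))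
    (fun i _ => pow_nonneg h0 i)
  rw [tsum_geometric_of_lt_one h0 h1] at this
  rw [div_eq_mul_inv]; linarith

lemma card_ball_le (x : ℝ) (h0 : 0 < x) (h1 : x < 1) (n R : ℕ) :
    ((ball n R).card : ℝ) * x ^ R ≤ (2 / (1 - x)) ^ n := by
  calc ((ball n R).card : ℝ) * x ^ R = ∑ _v ∈ ball n R, x ^ R := by rw [sum_const, nsmul_eq_mul]
    _ ≤ ∑ v ∈ ball n R, ∏ t, x ^ (v t).natAbs := by
        refine sum_le_sum fun v hv => ?_
        rw [prod_pow_eq_pow_sum]
        refine pow_le_pow_of_le_one h0.le h1.le ?_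
        have := mem_ball.mp hv
        zify
        simpa using this
    _ ≤ ∑ v ∈ Fintype.piFinset (fun _ : Fin n => Icc (-(R : ℤ)) R), ∏ t, x ^ (v t).natAbs :=
        sum_le_sum_of_subset_of_nonneg (filter_subset _ _) fun _ _ _ => by positivity
    _ = ∏ _t : Fin n, ∑ a ∈ Icc (-(R : ℤ)) R, x ^ a.natAbs :=
        (prod_univ_sum (fun _ : Fin n => Icc (-(R : ℤ)) R) (fun _ a => x ^ a.natAbs)).symm
    _ ≤ (2 / (1 - x)) ^ n := by
        rw [prod_const, card_univ, Fintype.card_fin]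
        exact pow_le_pow_left₀ (by positivity) (sum_geo x h0.le h1 R) n

lemma exists_ratio (β : ℕ → ℝ) (c : ℝ) (hc : 0 < c) (J : ℕ) (hJ : 0 < J) (h0 : 1 ≤ β 0)
    (h1 : β J ≤ c ^ J) : ∃ j < J, β (j + 1) ≤ c * β j := by
  by_contra hcon
  push Not at hcon
  have key : ∀ j, j + 1 ≤ J → c ^ (j + 1) < β (j + 1) := by
    intro j
    induction j with
    | zero => intro h; have := hcon 0 hJ; rw [pow_one]; nlinarith
    | succ j ih =>
      intro h
      have a1 := ih (by omega)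
      have a2 := hcon (j + 1) (by omega)
      rw [pow_succ]; nlinarith
  obtain ⟨j, rfl⟩ : ∃ j, J = j + 1 := ⟨J - 1, by omega⟩
  exact absurd (key j le_rfl) (not_lt.mpr h1)

lemma lattice (n ρ s N m : ℕ) (c : ℝ) (hc : 0 < c)
    (ratio : ((ball n (ρ + s)).card : ℝ) ≤ c * (ball n ρ).card) (hN : 2 * (ρ + s) < N)
    (hm : (N : ℝ) ^ n * Real.exp (-(1 / (4 * c) * m)) < 1) :
    ∃ (col : (Fin n → ℤ) → Fin m) (ctr : (Fin n → ℤ) → (Fin n → ℤ)),
      (∀ z, ∑ t, |ctr z t - z t| ≤ ρ) ∧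
      ∀ z z', col z = col z' → ∑ t, |z t - z' t| ≤ s → ctr z = ctr z' := by
  classical
  have : NeZero N := ⟨by omega⟩
  let cs : (Fin n → ℤ) → (Fin n → ZMod N) := fun v t => (v t : ZMod N)
  have cs_add : ∀ v w, cs (v + w) = cs v + cs w := fun v w => by funext t; simp [cs]
  have hinj : Set.InjOn cs (ball n (ρ + s) : Set (Fin n → ℤ)) := by
    intro v hv w hw h
    funext t
    have h1 : (v t : ZMod N) = (w t : ZMod N) := congrFun h t
    rw [ZMod.intCast_eq_intCast_iff_dvd_sub] at h1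
    have a1 := le_trans (single_le_sum (f := fun t => |v t|) (fun _ _ => abs_nonneg _)
      (mem_univ t)) (mem_ball.mp hv)
    have a2 := le_trans (single_le_sum (f := fun t => |w t|) (fun _ _ => abs_nonneg _)
      (mem_univ t)) (mem_ball.mp hw)
    have := Int.eq_zero_of_abs_lt_dvd h1 (by
      have := abs_sub (w t) (v t)
      push_cast at a1 a2
      have hN' : (2 * ((ρ : ℤ) + s)) < N := by exact_mod_cast hN
      linarith)
    linarith
  have hsub : ball n ρ ⊆ ball n (ρ + s) := fun v hv => by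
    rw [mem_ball] at hv ⊢; push_cast; linarith [(Nat.cast_nonneg s : (0 : ℤ) ≤ s)]
  have hpos : 0 < (ball n (ρ + s)).card := card_pos.mpr ⟨0, by rw [mem_ball]; simp; positivity⟩
  obtain ⟨q, hq⟩ : ∃ q, q + 1 = 2 * (ball n (ρ + s)).card := ⟨2 * (ball n (ρ + s)).card - 1, by omega⟩
  let R : ((Fin n → ZMod N) → Fin (q + 1)) → (Fin n → ZMod N) → Prop := fun f g =>
    ∃ v ∈ ball n ρ, f (g + cs v) = 0 ∧ ∀ v' ∈ ball n (ρ + s), f (g + cs v') = 0 → v' = v
  obtain ⟨fs, hfs⟩ := cover R (1 / (4 * c)) (fun g => by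
    have hinj' : Set.InjOn (fun v => g + cs v) (ball n (ρ + s) : Set (Fin n → ℤ)) :=
      fun v hv w hw h => hinj hv hw (add_left_cancel h)
    have c1 : ((ball n (ρ + s)).image fun v => g + cs v).card = (ball n (ρ + s)).card :=
      card_image_of_injOn hinj'
    have c2 : ((ball n ρ).image fun v => g + cs v).card = (ball n ρ).card :=
      card_image_of_injOn (hinj'.mono hsub)
    have h1 := count_unique ((ball n ρ).image fun v => g + cs v)
      ((ball n (ρ + s)).image fun v => g + cs v) (image_subset_image hsub) q (by rw [c1, hq])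
    rw [c1, c2] at h1
    have h2 : (univ.filter fun f : (Fin n → ZMod N) → Fin (q + 1) =>
        ∃ c ∈ (ball n ρ).image fun v => g + cs v, f c = 0 ∧
          ∀ c' ∈ (ball n (ρ + s)).image fun v => g + cs v, f c' = 0 → c' = c) ⊆
        univ.filter fun f => R f g := by
      intro f hf
      simp only [mem_filter, mem_univ, true_and, mem_image] at hf ⊢
      obtain ⟨_, ⟨v, hv, rfl⟩, h0, h⟩ := hf
      exact ⟨v, hv, h0, fun v' hv' h0' => hinj' hv' (hsub hv) (h _ ⟨v', hv', rfl⟩ h0')⟩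
    have h3 : ((_ : ℕ) : ℝ) ≤ ((_ : ℕ) : ℝ) := Nat.cast_le.mpr (card_le_card h2)
    refine le_trans ?_ (h1.trans h3)
    rw [Fintype.card_fun, Fintype.card_fin]
    push_cast
    have hp : (0 : ℝ) < (ball n (ρ + s)).card := by exact_mod_cast hpos
    refine mul_le_mul_of_nonneg_right ?_ (by positivity)
    rw [div_le_div_iff₀ (by positivity) (by positivity)]
    linarith) m (by
    rw [Fintype.card_fun, Fintype.card_fin, ZMod.card]; push_cast; exact hm)
  choose col hcol using hfs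
  choose V hV1 hV2 hV3 using hcol
  refine ⟨fun z => col (cs z), fun z => z + V (cs z), fun z => ?_, fun z z' h1 h2 => ?_⟩
  · simpa using mem_ball.mp (hV1 (cs z))
  · have a1 : z + V (cs z) - z' ∈ ball n (ρ + s) := by
      rw [mem_ball]
      have := mem_ball.mp (hV1 (cs z))
      calc ∑ t, |(z + V (cs z) - z') t| ≤ ∑ t, (|V (cs z) t| + |z t - z' t|) :=
            sum_le_sum fun t _ => by
              have : (z + V (cs z) - z') t = V (cs z) t + (z t - z' t) := by simp; ring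
              rw [this]; exact abs_add_le _ _
        _ ≤ _ := by rw [sum_add_distrib]; push_cast; linarith
    have a2 := hV3 (cs z') _ a1 (by
      have : cs z' + cs (z + V (cs z) - z') = cs z + cs (V (cs z)) := by
        rw [← cs_add, ← cs_add]; congr 1; ring
      have h1' : col (cs z) = col (cs z') := h1
      rw [this, ← h1']; exact hV2 (cs z))
    show z + V (cs z) = z' + V (cs z')
    rw [← a2]; ring

lemma floor_close (a b : ℝ) : |(⌊a⌋ : ℝ) - ⌊b⌋| ≤ |a - b| + 1 ∧ |a - b| - 1 ≤ |(⌊a⌋ : ℝ) - ⌊b⌋| := by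
  have a1 := Int.floor_le a
  have a2 := Int.lt_floor_add_one a
  have b1 := Int.floor_le b
  have b2 := Int.lt_floor_add_one b
  constructor
  · rw [abs_le]; constructor <;> linarith [le_abs_self (a - b), neg_abs_le (a - b)]
  · rw [sub_le_iff_le_add, abs_le]
    constructor <;> linarith [le_abs_self ((⌊a⌋ : ℝ) - ⌊b⌋), neg_abs_le ((⌊a⌋ : ℝ) - ⌊b⌋)]

lemma real_col (n J j m : ℕ) (hn : 0 < n) (hj : j < J) (c : ℝ) (hc : 0 < c)
    (ratio : ((ball n (2 * n * (j + 1))).card : ℝ) ≤ c * (ball n (2 * n * j)).card)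
    (hm : ((4 * n * J + 1 : ℕ) : ℝ) ^ n * Real.exp (-(1 / (4 * c) * m)) < 1) :
    ∃ col : (Fin n → ℝ) → Fin m, ∀ f : Fin (4 * J + 1) → (Fin n → ℝ),
      (∀ i k : Fin (4 * J + 1),
        ∑ t : Fin n, |f i t - f k t| = |((i : ℕ) : ℝ) - ((k : ℕ) : ℝ)|) →
      ∃ i k : Fin (4 * J + 1), col (f i) ≠ col (f k) := by
  obtain ⟨col, ctr, h1, h2⟩ := lattice n (2 * n * j) (2 * n) (4 * n * J + 1) m c hc
    (by rw [mul_add, mul_one] at ratio; exact ratio) (by nlinarith) hm
  let z : (Fin n → ℝ) → (Fin n → ℤ) := fun x t => ⌊(n : ℝ) * x t⌋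
  have hz : ∀ x y : Fin n → ℝ,
      ((∑ t, |z x t - z y t| : ℤ) : ℝ) ≤ n * ∑ t, |x t - y t| + n ∧
      n * ∑ t, |x t - y t| - n ≤ ((∑ t, |z x t - z y t| : ℤ) : ℝ) := by
    intro x y
    have e : ∀ t, |(n : ℝ) * x t - n * y t| = n * |x t - y t| := fun t => by
      rw [← mul_sub, abs_mul, Nat.abs_cast]
    push_cast
    constructor
    · calc _ ≤ ∑ t : Fin n, ((n : ℝ) * |x t - y t| + 1) :=
            sum_le_sum fun t _ => by rw [← e]; exact (floor_close _ _).1
        _ = _ := by rw [sum_add_distrib, mul_sum]; simp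
    · calc _ = ∑ t : Fin n, ((n : ℝ) * |x t - y t| - 1) := by
            rw [sum_sub_distrib, mul_sum]; simp
        _ ≤ _ := sum_le_sum fun t _ => by rw [← e]; exact (floor_close _ _).2
  refine ⟨fun x => col (z x), fun f hf => ?_⟩
  by_contra hcon
  push Not at hcon
  have key : ∀ i : ℕ, ∀ hi : i < 4 * J + 1, ctr (z (f ⟨i, hi⟩)) = ctr (z (f 0)) := by
    intro i
    induction i with
    | zero => intro hi; rfl
    | succ i ih =>
      intro hi
      rw [← ih (by omega)]
      refine h2 _ _ (hcon _ _) ?_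
      have := (hz (f ⟨i + 1, hi⟩) (f ⟨i, by omega⟩)).1
      rw [hf] at this
      simp only [Nat.cast_add, Nat.cast_one, add_sub_cancel_left, abs_one] at this
      have h3 : ((∑ t, |z (f ⟨i + 1, hi⟩) t - z (f ⟨i, by omega⟩) t| : ℤ) : ℝ) ≤
          (((2 * n : ℕ) : ℤ) : ℝ) := by push_cast at this ⊢; linarith
      exact_mod_cast h3
  have a1 := key (4 * J) (by omega)
  have a2 := (hz (f ⟨4 * J, by omega⟩) (f 0)).2
  rw [hf] at a2
  have a3 := h1 (z (f ⟨4 * J, by omega⟩))
  have a4 := h1 (z (f 0))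
  rw [a1] at a3
  have a5 : ∑ t, |z (f ⟨4 * J, by omega⟩) t - z (f 0) t| ≤
      ∑ t, |ctr (z (f 0)) t - z (f ⟨4 * J, by omega⟩) t| + ∑ t, |ctr (z (f 0)) t - z (f 0) t| := by
    rw [← sum_add_distrib]
    refine sum_le_sum fun t _ => ?_
    rw [abs_sub_comm (ctr (z (f 0)) t) (z (f ⟨4 * J, by omega⟩) t)]
    exact abs_sub_le _ _ _
  have a6 : ((∑ t, |z (f ⟨4 * J, by omega⟩) t - z (f 0) t| : ℤ) : ℝ) ≤
      (((2 * n * j : ℕ) : ℤ) : ℝ) + (((2 * n * j : ℕ) : ℤ) : ℝ) := by
    exact_mod_cast a5.trans (add_le_add a3 a4)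
  simp only [Fin.coe_ofNat_eq_mod, Nat.zero_mod, Nat.cast_zero, sub_zero, Nat.abs_cast] at a2
  push_cast at a2 a6
  have hn' : (0 : ℝ) < n := by exact_mod_cast hn
  have hj' : (j : ℝ) + 1 ≤ J := by exact_mod_cast hj
  nlinarith

theorem main (ε : ℝ) (hε : 0 < ε) : ∃ k : ℕ, ∀ η : ℝ, 0 < η → ∃ N : ℕ, ∀ n : ℕ, N ≤ n →
      ∃ m : ℕ, (m : ℝ) ≤ (1 + ε + η) ^ n ∧
        ∃ c : (Fin n → ℝ) → Fin m,
          ∀ f : Fin (k + 1) → (Fin n → ℝ),
            (∀ i j : Fin (k + 1),
              ∑ t : Fin n, |f i t - f j t| = |((i : ℕ) : ℝ) - ((j : ℕ) : ℝ)|) →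
            ∃ i j : Fin (k + 1), c (f i) ≠ c (f j) := by
  obtain ⟨y, hy1, hy3⟩ : ∃ y : ℝ, 1 < y ∧ y ^ 3 = 1 + ε :=
    ⟨(1 + ε) ^ ((3 : ℕ)⁻¹ : ℝ), Real.one_lt_rpow (by linarith) (by norm_num),
      Real.rpow_inv_natCast_pow (by linarith) (by norm_num)⟩
  have hx1 : y⁻¹ < 1 := inv_lt_one_of_one_lt₀ hy1
  have hx0 : 0 < y⁻¹ := by positivity
  obtain ⟨J, hJ1, hJ0⟩ := (((tendsto_pow_atTop_atTop_of_one_lt hy1).eventually_ge_atTop
    (2 / (1 - y⁻¹))).and (Filter.eventually_gt_atTop 0)).exists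
  refine ⟨4 * J, fun η hη => ?_⟩
  have hr : 1 < (1 + ε + η) / (1 + ε) := by rw [one_lt_div (by linarith)]; linarith
  have ht := (tendsto_pow_const_div_const_pow_of_one_lt 2 hr).eventually
    (gt_mem_nhds (show (0 : ℝ) < 1 / (16 * J + 5) by positivity))
  obtain ⟨N, hN⟩ := Filter.eventually_atTop.mp (ht.and (Filter.eventually_gt_atTop 0))
  refine ⟨N, fun n hn => ?_⟩
  obtain ⟨h1, h0⟩ := hN n hn
  have hc : 0 < (1 + ε) ^ n := by positivity
  have hc1 : 1 ≤ (1 + ε) ^ n := one_le_pow₀ (by linarith)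
  obtain ⟨j, hj, hratio⟩ := exists_ratio (fun j => ((ball n (2 * n * j)).card : ℝ))
    ((1 + ε) ^ n) hc J hJ0 (by
      have : 0 < (ball n (2 * n * 0)).card := card_pos.mpr ⟨0, by rw [mem_ball]; simp⟩
      exact_mod_cast this) (by
      have a1 := card_ball_le y⁻¹ hx0 hx1 n (2 * n * J)
      have a2 : (2 / (1 - y⁻¹)) ^ n ≤ (y ^ J) ^ n :=
        pow_le_pow_left₀ (by have : 0 < 1 - y⁻¹ := by linarith
                             positivity) hJ1 n
      rw [inv_pow, ← div_eq_mul_inv, div_le_iff₀ (by positivity)] at a1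
      refine a1.trans ?_
      calc (2 / (1 - y⁻¹)) ^ n * y ^ (2 * n * J) ≤ (y ^ J) ^ n * y ^ (2 * n * J) := by gcongr
        _ = _ := by rw [← hy3]; ring)
  have hn' : (1 : ℝ) ≤ n := by exact_mod_cast h0
  have hJ' : (0 : ℝ) ≤ J := by positivity
  refine ⟨⌈4 * (1 + ε) ^ n * (n * (4 * n * J + 1))⌉₊, ?_, real_col n J j _ h0 hj _ hc hratio ?_⟩
  · refine (Nat.ceil_lt_add_one (by positivity)).le.trans ?_
    rw [div_pow, div_lt_div_iff₀ (by positivity) (by positivity), one_mul,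
      lt_div_iff₀ hc] at h1
    have : 4 * (n * (4 * n * J + 1)) + 1 ≤ (n : ℝ) ^ 2 * (16 * J + 5) := by nlinarith
    nlinarith
  · have a1 := Nat.le_ceil (4 * (1 + ε) ^ n * (n * (4 * n * J + 1)))
    set m := ⌈4 * (1 + ε) ^ n * (n * (4 * n * J + 1))⌉₊
    have a2 : (n : ℝ) * (4 * n * J + 1) ≤ 1 / (4 * (1 + ε) ^ n) * m := by
      rw [div_mul_eq_mul_div, le_div_iff₀ (by positivity)]; linarith
    have a3 : ((4 * n * J + 1 : ℕ) : ℝ) < Real.exp (4 * n * J + 1) := by
      have := Real.add_one_le_exp (4 * n * J + 1 : ℝ)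
      push_cast; linarith
    have a4 : ((4 * n * J + 1 : ℕ) : ℝ) ^ n < Real.exp (4 * n * J + 1) ^ n :=
      pow_lt_pow_left₀ a3 (by positivity) (by omega)
    rw [← Real.exp_nat_mul] at a4
    rw [Real.exp_neg, ← div_eq_mul_inv, div_lt_one (Real.exp_pos _)]
    exact a4.trans_le (Real.exp_le_exp.mpr a2)

end Pool.Agent.H12.Carve
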