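import Mathlib

set_option autoImplicit false

namespace Pool.Agent.H12.Cluster

open Finset

def ext (n : ℕ) (π : Equiv.Perm (Fin n)) : ℕ → ℕ := fun i => if h : i < n then (π ⟨i, h⟩ : ℕ) else 0

def sh (s : ℕ) (x : ℕ → ℕ) : ℕ → ℕ := fun i => x (s + i)

def Same (l : ℕ) (x y : ℕ → ℕ) : Prop := ∀ a < l, ∀ b < l, (x a < x b ↔ y a < y b)

def Inv (l : ℕ) (F : (ℕ → ℕ) → ℝ) : Prop := ∀ x y, Same l x y → F x = F y

def Inj (l : ℕ) (x : ℕ → ℕ) : Prop := ∀ a < l, ∀ b < l, x a = x b → a = b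

lemma ext_fin {n : ℕ} (π : Equiv.Perm (Fin n)) (a : Fin n) : ext n π a = π a := by simp [ext]

lemma ext_lt {n : ℕ} (π : Equiv.Perm (Fin n)) {a : ℕ} (h : a < n) : ext n π a = π ⟨a, h⟩ := by
  simp [ext, h]

lemma ext_inj {n : ℕ} (π : Equiv.Perm (Fin n)) : Inj n (ext n π) := by
  intro a ha b hb h
  rw [ext_lt π ha, ext_lt π hb] at h
  simpa using π.injective (Fin.ext h)

lemma std (n : ℕ) (x : ℕ → ℕ) (hx : Inj n x) : ∃ α : Equiv.Perm (Fin n), Same n (ext n α) x := by
  let f : Fin n → ℕ := fun a => x a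
  have hf : Function.Injective f := fun a b h => Fin.ext (hx _ a.2 _ b.2 h)
  have hm : StrictMono (f ∘ Tuple.sort f) :=
    (Tuple.monotone_sort f).strictMono_of_injective (hf.comp (Tuple.sort f).injective)
  refine ⟨(Tuple.sort f)⁻¹, fun a ha b hb => ?_⟩
  rw [ext_lt _ ha, ext_lt _ hb]
  have := hm.lt_iff_lt (a := (Tuple.sort f)⁻¹ ⟨a, ha⟩) (b := (Tuple.sort f)⁻¹ ⟨b, hb⟩)
  simp only [Function.comp, Equiv.Perm.inv_def, Equiv.apply_symm_apply, f] at this
  rw [this]; rfl

lemma same_eq {n : ℕ} (α β : Equiv.Perm (Fin n)) (h : ∀ a b, α a < α b ↔ β a < β b) : α = β := by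
  have hm : StrictMono (α ∘ β.symm) := fun a b hab => by
    simp only [Function.comp]; rw [h]; simpa using hab
  have := (hm.orderIsoOfSurjective _ (α.surjective.comp β.symm.surjective))
  have e : ∀ a, (α ∘ β.symm) a = a := fun a => by
    have h2 := Subsingleton.elim (hm.orderIsoOfSurjective _ (α.surjective.comp β.symm.surjective))
      (OrderIso.refl _)
    exact congrArg (fun g : Fin n ≃o Fin n => g a) h2
  ext a
  have := e (β a)
  simp only [Function.comp, Equiv.symm_apply_apply] at this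
  rw [this]

noncomputable def T (n : ℕ) (F : (ℕ → ℕ) → ℝ) : ℝ := ∑ π : Equiv.Perm (Fin n), F (ext n π)

lemma avg (l : ℕ) (F : (ℕ → ℕ) → ℝ) (hF : Inv l F) (x : ℕ → ℕ) (hx : Inj l x) :
    ∑ α : Equiv.Perm (Fin l), F (x ∘ ext l α) = T l F := by
  obtain ⟨γ, hγ⟩ := std l x hx
  refine Fintype.sum_equiv (Equiv.mulLeft γ) _ _ fun α => hF _ _ fun a ha b hb => ?_
  simp only [Function.comp, Equiv.coe_mulLeft]
  rw [ext_lt _ ha, ext_lt _ hb, ext_lt _ ha, ext_lt _ hb, ← hγ _ (Fin.is_lt _) _ (Fin.is_lt _),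
    ext_fin, ext_fin]
  rfl

lemma mult (l m : ℕ) (F G : (ℕ → ℕ) → ℝ) (hF : Inv l F) (hG : Inv m G) :
    T (l + m) (fun x => F x * G (sh l x)) * (l.factorial * m.factorial) =
      (l + m).factorial * (T l F * T m G) := by
  have h1 : ∀ (α : Equiv.Perm (Fin l)) (β : Equiv.Perm (Fin m)),
      T (l + m) (fun x => F x * G (sh l x)) = ∑ π : Equiv.Perm (Fin (l + m)),
        F (ext _ π ∘ ext l α) * G (sh l (ext _ π) ∘ ext m β) := by
    intro α β
    let ρ : Equiv.Perm (Fin (l + m)) := finSumFinEquiv.permCongr (Equiv.sumCongr α β)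
    symm
    refine Fintype.sum_equiv (Equiv.mulRight ρ) _ _ fun π => ?_
    have e1 : ∀ a < l, (ext _ π ∘ ext l α) a = ext _ (π * ρ) a := by
      intro a ha
      have : ρ ⟨a, by omega⟩ = Fin.castAdd m (α ⟨a, ha⟩) := by
        have : (⟨a, by omega⟩ : Fin (l + m)) = Fin.castAdd m ⟨a, ha⟩ := rfl
        rw [this]; generalize (⟨a, ha⟩ : Fin _) = a'; simp [ρ]
      simp only [Function.comp]
      rw [ext_lt _ ha, ext_lt (π * ρ) (by omega : a < l + m), Equiv.Perm.mul_apply, this,
        ← ext_fin π]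
      rfl
    have e2 : ∀ a < m, (sh l (ext _ π) ∘ ext m β) a = sh l (ext _ (π * ρ)) a := by
      intro a ha
      have : ρ ⟨l + a, by omega⟩ = Fin.natAdd l (β ⟨a, ha⟩) := by
        have : (⟨l + a, by omega⟩ : Fin (l + m)) = Fin.natAdd l ⟨a, ha⟩ := rfl
        rw [this]; generalize (⟨a, ha⟩ : Fin _) = a'; simp [ρ]
      simp only [Function.comp, sh]
      rw [ext_lt _ ha, ext_lt (π * ρ) (by omega : l + a < l + m), Equiv.Perm.mul_apply, this,
        ← ext_fin π]
      rfl
    simp only [Equiv.coe_mulRight]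
    rw [hF _ (ext _ (π * ρ)) (fun a ha b hb => by rw [e1 a ha, e1 b hb]),
      hG _ (sh l (ext _ (π * ρ))) (fun a ha b hb => by rw [e2 a ha, e2 b hb])]
  have h2 : ∑ α : Equiv.Perm (Fin l), ∑ β : Equiv.Perm (Fin m),
      T (l + m) (fun x => F x * G (sh l x)) = ∑ π : Equiv.Perm (Fin (l + m)), T l F * T m G := by
    rw [sum_congr rfl fun α _ => sum_congr rfl fun β _ => h1 α β]
    rw [sum_congr rfl fun α _ => sum_comm, sum_comm]
    refine sum_congr rfl fun π _ => ?_
    rw [← sum_mul_sum, avg l F hF, avg m G hG]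
    · intro a ha b hb h
      have := ext_inj π _ (by omega) _ (by omega) h
      omega
    · intro a ha b hb h
      exact ext_inj π _ (by omega) _ (by omega) h
  simp only [sum_const, card_univ, Fintype.card_perm, Fintype.card_fin, nsmul_eq_mul] at h2
  rw [← h2]; ring

def O (x : ℕ → ℕ) : Prop := x 3 < x 0 ∧ x 0 < x 5 ∧ x 5 < x 2 ∧ x 2 < x 1 ∧ x 1 < x 4

instance (x : ℕ → ℕ) : Decidable (O x) := by unfold O; infer_instance

def K (l : ℕ) (x : ℕ → ℕ) : ℕ :=
  if l < 6 then 0 else if O x then (if l = 6 then 1 else 0) + K (l - 3) (sh 3 x) + K (l - 5) (sh 5 x)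
    else 0
termination_by l
decreasing_by all_goals omega

open Classical in
noncomputable def I (n : ℕ) (x : ℕ → ℕ) : ℝ := if ∃ i, i + 6 ≤ n ∧ O (sh i x) then 0 else 1

lemma sh_sh (a b : ℕ) (x : ℕ → ℕ) : sh a (sh b x) = sh (b + a) x := by
  funext i; simp [sh, add_assoc]

lemma sh_zero (x : ℕ → ℕ) : sh 0 x = x := by funext i; simp [sh]

lemma same_sh {l s : ℕ} {x y : ℕ → ℕ} (h : Same l x y) : Same (l - s) (sh s x) (sh s y) :=
  fun a ha b hb => h _ (by omega) _ (by omega)

lemma O_same {l : ℕ} (hl : 6 ≤ l) {x y : ℕ → ℕ} (h : Same l x y) : O x ↔ O y := by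
  unfold O
  rw [h 3 (by omega) 0 (by omega), h 0 (by omega) 5 (by omega), h 5 (by omega) 2 (by omega),
    h 2 (by omega) 1 (by omega), h 1 (by omega) 4 (by omega)]

lemma K_same (l : ℕ) : ∀ x y, Same l x y → K l x = K l y := by
  induction l using Nat.strong_induction_on with
  | _ l ih =>
    intro x y h
    rw [K, K.eq_1 l y]
    by_cases hl : l < 6
    · simp [hl]
    · rw [if_neg hl, if_neg hl, ih (l - 3) (by omega) _ _ (same_sh h),
        ih (l - 5) (by omega) _ _ (same_sh h)]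
      simp only [O_same (by omega) h]

lemma I_inv (n : ℕ) : Inv n (I n) := by
  classical
  intro x y h
  unfold I
  refine if_congr (exists_congr fun i => and_congr_right fun hi => ?_) rfl rfl
  exact O_same (l := n - i) (by omega) (same_sh h)

lemma K_le (l : ℕ) : ∀ x, K l x ≤ 2 ^ l := by
  induction l using Nat.strong_induction_on with
  | _ l ih =>
    intro x
    rw [K]
    split_ifs with h1 h2 h3
    all_goals try exact Nat.zero_le _
    all_goals
      obtain ⟨m, rfl⟩ : ∃ m, l = m + 5 := ⟨l - 5, by omega⟩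
      have a1 := ih (m + 5 - 3) (by omega) (sh 3 x)
      have a2 := ih (m + 5 - 5) (by omega) (sh 5 x)
      rw [show m + 5 - 3 = m + 2 by omega] at a1 ⊢
      rw [show m + 5 - 5 = m by omega] at a2 ⊢
      have : 1 ≤ 2 ^ m := Nat.one_le_two_pow
      rw [pow_add] at a1 ⊢
      omega

lemma I_step (n : ℕ) (x : ℕ → ℕ) (h : ¬ (6 ≤ n ∧ O x)) : I n x = I (n - 1) (sh 1 x) := by
  classical
  unfold I
  refine if_congr ⟨?_, ?_⟩ rfl rfl
  · rintro ⟨i, h1, h2⟩
    cases i with
    | zero => exact absurd ⟨by omega, by rwa [sh_zero] at h2⟩ h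
    | succ i => exact ⟨i, by omega, by rwa [sh_sh, add_comm]⟩
  · rintro ⟨i, h1, h2⟩
    exact ⟨1 + i, by omega, by rwa [sh_sh] at h2⟩

lemma ident (n : ℕ) : ∀ x, I n x = I (n - 1) (sh 1 x) -
    ∑ l ∈ range (n + 1), (-1) ^ l * ((K l x : ℝ) * I (n - l) (sh l x)) := by
  induction n using Nat.strong_induction_on with
  | _ n ih =>
    intro x
    by_cases h : 6 ≤ n ∧ O x
    swap
    · rw [I_step n x h, sum_eq_zero, sub_zero]
      intro l hl
      have := mem_range.mp hl
      rw [K]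
      split_ifs with h1 h2 h3
      all_goals first | exact absurd ⟨by omega, by assumption⟩ h | simp
    obtain ⟨hn, hO⟩ := h
    obtain ⟨m, rfl⟩ : ∃ m, n = m + 6 := ⟨n - 6, by omega⟩
    have e0 : I (m + 6) x = 0 := if_pos ⟨0, by omega, by rwa [sh_zero]⟩
    have s1 := I_step (m + 5) (sh 1 x) (by unfold O sh at *; simp at *; omega)
    have s2 := I_step (m + 4) (sh 2 x) (by unfold O sh at *; simp at *; omega)
    have s4 := I_step (m + 2) (sh 4 x) (by unfold O sh at *; simp at *; omega)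
    have s3 := ih (m + 3) (by omega) (sh 3 x)
    have s5 := ih (m + 1) (by omega) (sh 5 x)
    have z : ∀ l < 6, ∀ y, K l y = 0 := fun l hl y => by rw [K, if_pos hl]
    have k : ∀ l, (K (l + 5) x : ℝ) = (if l = 1 then 1 else 0) + K (l + 2) (sh 3 x) + K l (sh 5 x) := by
      intro l
      rcases Nat.eq_zero_or_pos l with rfl | hl
      · simp [z]
      · rw [K, if_neg (by omega), if_pos hO]
        push_cast
        congr 2
    simp only [sh_sh, Nat.add_sub_cancel, Nat.reduceAdd, Nat.add_succ_sub_one] at s1 s2 s3 s4 s5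
    rw [show m + 3 + 1 = 2 + (m + 2) by omega, sum_range_add] at s3
    rw [show m + 6 + 1 = 5 + (m + 2) by omega, sum_range_add]
    simp only [sum_range_succ, sum_range_zero, z 0, z 1, z 2, z 3, z 4, Nat.ofNat_pos,
      Nat.one_lt_ofNat, Nat.reduceLT, Nat.cast_zero, zero_mul, mul_zero, add_zero, zero_add] at s3 ⊢
    rw [← sum_range_succ (fun l => (-1 : ℝ) ^ (5 + l) * (K (5 + l) x * I (m + 6 - (5 + l)) (sh (5 + l) x))),
      ← sum_range_succ (fun l => (-1 : ℝ) ^ (5 + l) * (K (5 + l) x * I (m + 6 - (5 + l)) (sh (5 + l) x)))]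
    rw [← sum_range_succ (fun l => (-1 : ℝ) ^ (2 + l) * (K (2 + l) (sh 3 x) * I (m + 3 - (2 + l)) (sh (3 + (2 + l)) x))),
      ← sum_range_succ (fun l => (-1 : ℝ) ^ (2 + l) * (K (2 + l) (sh 3 x) * I (m + 3 - (2 + l)) (sh (3 + (2 + l)) x)))] at s3
    have e1 : ∑ l ∈ range (m + 1 + 1), (-1 : ℝ) ^ (5 + l) * (K (5 + l) x * I (m + 6 - (5 + l)) (sh (5 + l) x)) =
        I m (sh 6 x) - ∑ l ∈ range (m + 1 + 1), (-1 : ℝ) ^ (2 + l) * (K (2 + l) (sh 3 x) * I (m + 3 - (2 + l)) (sh (3 + (2 + l)) x)) -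
        ∑ l ∈ range (m + 1 + 1), (-1 : ℝ) ^ l * (K l (sh 5 x) * I (m + 1 - l) (sh (5 + l) x)) := by
      have : I m (sh 6 x) = ∑ l ∈ range (m + 1 + 1), if l = 1 then I m (sh 6 x) else 0 := by
        rw [sum_ite_eq', if_pos (mem_range.mpr (by omega))]
      rw [this, ← sum_sub_distrib, ← sum_sub_distrib]
      refine sum_congr rfl fun l _ => ?_
      rw [add_comm 5 l, k, add_comm 2 l, show m + 6 - (l + 5) = m + 1 - l by omega,
        show m + 3 - (l + 2) = m + 1 - l by omega, show 3 + (l + 2) = l + 5 by omega]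
      split_ifs with h1
      · subst h1; simp; ring
      · ring
    rw [e1, e0]
    simp only [Nat.add_succ_sub_one]
    linarith

noncomputable def A (n : ℕ) : ℝ := T n (I n) / n.factorial

noncomputable def kk (l : ℕ) : ℝ := T l (fun x => K l x) / l.factorial

noncomputable def W (l : ℕ) : ℝ := (if l = 0 then 1 else 0) - (if l = 1 then 1 else 0) + (-1) ^ l * kk l

lemma T_const (n : ℕ) (c : ℝ) : T n (fun _ => c) = n.factorial * c := by
  simp [T, Fintype.card_perm]

lemma A_abs (n : ℕ) : |A n| ≤ 1 := by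
  have h0 : (0 : ℝ) < n.factorial := by exact_mod_cast n.factorial_pos
  have h1 : T n (I n) ≤ T n (fun _ => 1) := sum_le_sum fun π _ => by unfold I; split_ifs <;> norm_num
  have h2 : 0 ≤ T n (I n) := sum_nonneg fun π _ => by unfold I; split_ifs <;> norm_num
  rw [T_const, mul_one] at h1
  rw [A, abs_of_nonneg (by positivity), div_le_one h0]; exact h1

lemma kk_nonneg (l : ℕ) : 0 ≤ kk l :=
  div_nonneg (sum_nonneg fun _ _ => Nat.cast_nonneg _) (Nat.cast_nonneg _)

lemma kk_le (l : ℕ) : kk l ≤ 2 ^ l := by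
  have h0 : (0 : ℝ) < l.factorial := by exact_mod_cast l.factorial_pos
  have h1 : T l (fun x => K l x) ≤ T l (fun _ => 2 ^ l) :=
    sum_le_sum fun π _ => by
      show ((K l (ext l π) : ℕ) : ℝ) ≤ 2 ^ l
      exact_mod_cast K_le l _
  rw [T_const] at h1
  rw [kk, div_le_iff₀ h0]; linarith

lemma W_abs (l : ℕ) : |W l| ≤ 3 * 2 ^ l := by
  have h1 := kk_le l
  have h2 := kk_nonneg l
  have h3 : (1 : ℝ) ≤ 2 ^ l := one_le_pow₀ (by norm_num)
  have h4 : |(-1 : ℝ) ^ l * kk l| ≤ 2 ^ l := by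
    rw [abs_mul, abs_pow, abs_neg, abs_one, one_pow, one_mul, abs_of_nonneg h2]; exact h1
  have h5 := abs_le.mp h4
  rw [W, abs_le]
  split_ifs <;> constructor <;> linarith [h5.1, h5.2]

lemma conv (n : ℕ) : ∑ l ∈ range (n + 1), W l * A (n - l) = if n = 0 then 1 else 0 := by
  have hK : ∀ l, Inv l fun x => (K l x : ℝ) := fun l x y h => by simp only [K_same l x y h]
  have hm : ∀ l ≤ n, ∀ F, Inv l F → T n (fun x => F x * I (n - l) (sh l x)) / n.factorial =
      T l F / l.factorial * A (n - l) := by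
    intro l hl F hF
    obtain ⟨m, rfl⟩ := Nat.exists_eq_add_of_le hl
    rw [Nat.add_sub_cancel_left]
    have := mult l m F (I m) hF (I_inv m)
    rw [A]
    field_simp
    linarith
  rcases Nat.eq_zero_or_pos n with rfl | hn
  · have : K 0 = fun _ => 0 := by funext x; rw [K]; simp
    simp [W, A, kk, T, I, this]
  rw [if_neg hn.ne']
  have h1 : A n = T n (fun x => 1 * I (n - 1) (sh 1 x)) / n.factorial - ∑ l ∈ range (n + 1),
      (-1) ^ l * (T n (fun x => (K l x : ℝ) * I (n - l) (sh l x)) / n.factorial) := by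
    simp only [A, T, ← mul_div_assoc]
    rw [← sum_div, ← sub_div]
    congr 1
    simp only [mul_sum]
    rw [sum_comm, ← sum_sub_distrib]
    exact sum_congr rfl fun π _ => by rw [one_mul]; exact ident n _
  rw [hm 1 hn _ (fun _ _ _ => rfl), T_const,
    sum_congr rfl fun l hl => by rw [hm l (by have := mem_range.mp hl; omega) _ (hK l)]] at h1
  simp only [W, add_mul, sub_mul, ite_mul, one_mul, zero_mul, sum_add_distrib, sum_sub_distrib,
    sum_ite_eq', mem_range, kk, mul_assoc]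
  rw [if_pos (by omega), if_pos (by omega), Nat.sub_zero]
  simp at h1
  linarith

def lev (r : ℕ) : ℕ :=
  if r = 6 then 0 else if r = 3 then 1 else if r = 0 then 2 else if r = 5 then 3 else
    if r = 2 then 4 else if r = 1 then 5 else if r = 4 then 6 else 7

lemma K_pos (j B : ℕ) : ∀ x : ℕ → ℕ, (∀ i ≤ 8 * j + 8, lev (i % 8) * B ≤ x i ∧
    x i < (lev (i % 8) + 1) * B) → 1 ≤ K (8 * j + 9) x := by
  have base : ∀ x : ℕ → ℕ, (∀ i ≤ 8, lev (i % 8) * B ≤ x i ∧ x i < (lev (i % 8) + 1) * B) →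
      O x ∧ O (sh 3 x) := by
    intro x h
    have h0 := h 0 (by omega)
    have h1 := h 1 (by omega)
    have h2 := h 2 (by omega)
    have h3 := h 3 (by omega)
    have h4 := h 4 (by omega)
    have h5 := h 5 (by omega)
    have h6 := h 6 (by omega)
    have h7 := h 7 (by omega)
    have h8 := h 8 (by omega)
    simp [lev] at h0 h1 h2 h3 h4 h5 h6 h7 h8
    simp only [O, sh, Nat.reduceAdd]
    omega
  induction j with
  | zero =>
    intro x h
    obtain ⟨h1, h2⟩ := base x fun i hi => h i (by omega)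
    rw [K, if_neg (by omega), if_pos h1, K, if_neg (by omega), if_pos h2]
    simp; omega
  | succ j ih =>
    intro x h
    obtain ⟨h1, h2⟩ := base x fun i hi => h i (by omega)
    have := ih (sh 8 x) fun i hi => by
      have := h (8 + i) (by omega)
      rwa [Nat.add_mod_left] at this
    rw [K, if_neg (by omega), if_pos h1, K, if_neg (by omega : ¬ 8 * (j + 1) + 9 - 3 < 6), if_pos h2,
      sh_sh, sh_sh, show 8 * (j + 1) + 9 - 3 - 5 = 8 * j + 9 by omega, show 3 + 5 = 8 by omega]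
    omega

lemma lev_lt (r : ℕ) : lev r < 8 := by unfold lev; split_ifs <;> omega

lemma lev_inj {r s : ℕ} (hr : r < 8) (hs : s < 8) (h : lev r = lev s) : r = s := by
  unfold lev at h; split_ifs at h <;> omega

lemma T_lower (j : ℕ) : (((j + 1).factorial : ℝ)) ^ 8 ≤ T (8 * j + 9) (fun x => K (8 * j + 9) x) := by
  classical
  let y : (Fin 8 → Equiv.Perm (Fin (j + 1))) → ℕ → ℕ := fun τ i =>
    if i < 8 * j + 8 then ext _ (τ ⟨i % 8, Nat.mod_lt _ (by norm_num)⟩) (i / 8) else j + 1
  have hy : ∀ τ i, y τ i < j + 2 := by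
    intro τ i
    simp only [y]
    split_ifs with h
    · rw [ext_lt _ (by omega)]
      exact (Fin.is_lt _).trans (by omega)
    · omega
  let x : (Fin 8 → Equiv.Perm (Fin (j + 1))) → ℕ → ℕ := fun τ i => lev (i % 8) * (j + 2) + y τ i
  have hx : ∀ τ, Inj (8 * j + 9) (x τ) := by
    intro τ a ha b hb h
    have a1 : (x τ a) / (j + 2) = lev (a % 8) := by
      simp only [x]; rw [mul_comm, Nat.mul_add_div (by omega), Nat.div_eq_of_lt (hy _ _), add_zero]
    have a2 : (x τ b) / (j + 2) = lev (b % 8) := by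
      simp only [x]; rw [mul_comm, Nat.mul_add_div (by omega), Nat.div_eq_of_lt (hy _ _), add_zero]
    have a3 : a % 8 = b % 8 := lev_inj (by omega) (by omega) (by rw [← a1, ← a2, h])
    have a4 : y τ a = y τ b := by simp only [x, a3] at h; omega
    simp only [y, a3] at a4
    split_ifs at a4 with c1 c2 c2
    · have := ext_inj _ _ (by omega) _ (by omega) a4
      omega
    · rw [ext_lt _ (by omega)] at a4
      exact absurd a4 (Fin.is_lt _).ne
    · rw [ext_lt _ (by omega)] at a4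
      exact absurd a4.symm (Fin.is_lt _).ne
    · omega
  choose α hα using fun τ => std _ _ (hx τ)
  have hinj : Function.Injective α := by
    intro τ τ' h
    funext r
    refine same_eq _ _ fun a b => ?_
    have k : ∀ (τ : Fin 8 → Equiv.Perm (Fin (j + 1))) (a : Fin (j + 1)),
        x τ (8 * a + r) = lev r * (j + 2) + τ r a := by
      intro τ a
      have e1 : (8 * a + r : ℕ) % 8 = r := by omega
      have e2 : (8 * a + r : ℕ) / 8 = a := by omega
      simp only [x, y, e1, e2]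
      rw [if_pos (by omega), ext_fin]
    have b1 := hα τ (8 * a + r) (by omega) (8 * b + r) (by omega)
    have b2 := hα τ' (8 * a + r) (by omega) (8 * b + r) (by omega)
    rw [k, k] at b1 b2
    rw [h] at b1
    rw [Fin.lt_def, Fin.lt_def]
    omega
  have h1 : ∑ π ∈ univ.image α, (K (8 * j + 9) (ext _ π) : ℝ) ≤
      T (8 * j + 9) (fun x => K (8 * j + 9) x) :=
    sum_le_sum_of_subset_of_nonneg (subset_univ _) fun _ _ _ => Nat.cast_nonneg _
  refine le_trans ?_ h1
  rw [sum_image fun _ _ _ _ h => hinj h]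
  refine le_trans (le_of_eq ?_) (sum_le_sum (f := fun _ => (1 : ℝ)) fun τ _ => ?_)
  · simp [Fintype.card_perm]
  · rw [K_same _ _ _ (hα τ)]
    exact_mod_cast K_pos j (j + 2) _ fun i _ => by
      have := hy τ i
      simp only [x]; constructor <;> nlinarith

lemma fact_le (j : ℕ) : (8 * j).factorial ≤ 8 ^ (8 * j) * j.factorial ^ 8 := by
  induction j with
  | zero => simp
  | succ j ih =>
    have h1 : (8 * j + 8).factorial ≤ (8 * j + 8) ^ 8 * (8 * j).factorial := by
      have := Nat.descFactorial_le_pow (8 * j + 8) 8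
      rw [← Nat.factorial_mul_descFactorial (by omega : 8 ≤ 8 * j + 8), Nat.add_sub_cancel, mul_comm]
      gcongr
    calc _ ≤ (8 * j + 8) ^ 8 * (8 ^ (8 * j) * j.factorial ^ 8) := h1.trans (by gcongr)
      _ = _ := by rw [Nat.factorial_succ]; ring

lemma W_lower (j : ℕ) : (j : ℝ) ≤ |W (8 * j + 9)| * 16 ^ (8 * j + 9) := by
  have h1 : |W (8 * j + 9)| = kk (8 * j + 9) := by
    rw [W, if_neg (by omega), if_neg (by omega), sub_zero, zero_add, abs_mul, abs_pow, abs_neg,
      abs_one, one_pow, one_mul, abs_of_nonneg (kk_nonneg _)]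
  have h0 : (0 : ℝ) < (8 * j + 9).factorial := by exact_mod_cast Nat.factorial_pos _
  rw [h1, kk, div_mul_eq_mul_div, le_div_iff₀ h0]
  refine le_trans ?_ (mul_le_mul_of_nonneg_right (T_lower j) (by positivity))
  have h2 := fact_le (j + 1)
  have h3 : j * (8 * j + 9) ≤ 2 ^ (8 * j + 9) := by
    have a1 : j < 2 ^ j := Nat.lt_two_pow_self
    have a2 : 8 * j + 9 ≤ 2 ^ j * 2 ^ 4 := by omega
    calc _ ≤ 2 ^ j * (2 ^ j * 2 ^ 4) := by gcongr
      _ = 2 ^ (2 * j + 4) := by ring
      _ ≤ _ := Nat.pow_le_pow_right (by norm_num) (by omega)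
  have h4 : j * (8 * j + 9).factorial ≤ (j + 1).factorial ^ 8 * 16 ^ (8 * j + 9) := by
    calc _ = (j * (8 * j + 9)) * (8 * (j + 1)).factorial := by
          rw [show 8 * j + 9 = 8 * (j + 1) + 1 by ring, Nat.factorial_succ]; ring
      _ ≤ 2 ^ (8 * j + 9) * (8 ^ (8 * j + 9) * (j + 1).factorial ^ 8) := by
          refine Nat.mul_le_mul h3 (h2.trans (Nat.mul_le_mul_right _ ?_))
          exact Nat.pow_le_pow_right (by norm_num) (by omega)
      _ = _ := by rw [show (16 : ℕ) = 2 * 8 by norm_num, mul_pow]; ring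
  exact_mod_cast h4

theorem not_entire (f : ℂ → ℂ) (hf : Differentiable ℂ f)
    (h : ∀ᶠ z in nhds (0 : ℂ), f z * ∑' n : ℕ, (A n : ℂ) * z ^ n = 1) : False := by
  let p := FormalMultilinearSeries.ofScalars ℂ fun n => (W n : ℂ)
  have hn : ∀ n, ‖p n‖ = |W n| := fun n => by
    simp only [p]; rw [FormalMultilinearSeries.ofScalars_norm]; simp
  have hr : 0 < p.radius := by
    refine lt_of_lt_of_le ?_ (p.le_radius_of_bound 3 (r := 1 / 2) fun n => ?_)
    · simp
    · rw [hn]
      push_cast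
      calc _ ≤ 3 * 2 ^ n * (1 / 2 : ℝ) ^ n := by gcongr; exact W_abs n
        _ = 3 := by rw [mul_assoc, ← mul_pow]; simp
  have h1 : f =ᶠ[nhds 0] p.sum := by
    have hb : ∀ᶠ z in nhds (0 : ℂ), ‖z‖ < 1 / 2 := by
      filter_upwards [Metric.ball_mem_nhds (0 : ℂ) (by norm_num : (0 : ℝ) < 1 / 2)] with z hz
      simpa using hz
    filter_upwards [h, hb] with z hz hz'
    have s1 : Summable fun n => ‖(W n : ℂ) * z ^ n‖ := by
      refine Summable.of_nonneg_of_le (fun _ => norm_nonneg _) (fun n => ?_)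
        ((summable_geometric_of_lt_one (r := 2 * ‖z‖) (by positivity) (by linarith)).mul_left 3)
      rw [norm_mul, norm_pow, Complex.norm_real, mul_pow, ← mul_assoc]
      gcongr; exact W_abs n
    have s2 : Summable fun n => ‖(A n : ℂ) * z ^ n‖ := by
      refine Summable.of_nonneg_of_le (fun _ => norm_nonneg _) (fun n => ?_)
        (summable_geometric_of_lt_one (r := ‖z‖) (by positivity) (by linarith))
      rw [norm_mul, norm_pow, Complex.norm_real]
      exact mul_le_of_le_one_left (by positivity) (A_abs n)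
    have s3 := tsum_mul_tsum_eq_tsum_sum_range_of_summable_norm s1 s2
    have s4 : ∀ n, ∑ k ∈ range (n + 1), (W k : ℂ) * z ^ k * ((A (n - k) : ℂ) * z ^ (n - k)) =
        if n = 0 then 1 else 0 := by
      intro n
      have e : ∀ k ∈ range (n + 1), (W k : ℂ) * z ^ k * ((A (n - k) : ℂ) * z ^ (n - k)) =
          ((W k * A (n - k) : ℝ) : ℂ) * z ^ n := by
        intro k hk
        have : z ^ n = z ^ k * z ^ (n - k) := by
          rw [← pow_add]; congr 1; have := mem_range.mp hk; omega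
        rw [this]; push_cast; ring
      rw [sum_congr rfl e, ← sum_mul, ← Complex.ofReal_sum, conv]
      split_ifs with c <;> simp [c]
    simp only [s4, tsum_ite_eq] at s3
    have s5 : p.sum z = ∑' n, (W n : ℂ) * z ^ n := by
      have := FormalMultilinearSeries.ofScalars_sum_eq (E := ℂ) (fun n => (W n : ℂ)) z
      simp only [smul_eq_mul] at this
      exact this
    rw [s5]
    linear_combination (∑' n, (W n : ℂ) * z ^ n) * hz - f z * s3
  have h2 : HasFPowerSeriesAt f p 0 := (p.hasFPowerSeriesOnBall hr).hasFPowerSeriesAt.congr h1.symm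
  have h3 := hf.hasFPowerSeriesOnBall 0 (R := 1) one_pos
  have h4 := h2.eq_formalMultilinearSeries h3.hasFPowerSeriesAt
  have h5 : ((16 : NNReal) : ENNReal) < p.radius := by
    rw [h4]; exact lt_of_lt_of_le (by simp) h3.r_le
  obtain ⟨C, -, hC⟩ := p.norm_mul_pow_le_of_lt_radius h5
  obtain ⟨j, hj⟩ := exists_nat_gt C
  have h6 := hC (8 * j + 9)
  rw [hn] at h6
  push_cast at h6
  linarith [W_lower j]

end Pool.Agent.H12.Cluster
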