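import Mathlib

open Finset

namespace H12Cube

variable {ι : Type*} [DecidableEq ι]

def e (k : ι) : ι → ZMod 2 := Pi.single k 1

lemma e_add_e (x : ι → ZMod 2) (k : ι) : x + e k + e k = x := by
  funext l
  have : ∀ a : ZMod 2, a + a = 0 := by decide
  simp only [Pi.add_apply, add_assoc, this, add_zero]

lemma e_ne (x : ι → ZMod 2) {k l : ι} (h : l ≠ k) : (x + e k) l = x l := by
  simp [e, Pi.single_eq_of_ne h]

lemma e_self (x : ι → ZMod 2) (k : ι) : (x + e k) k ≠ x k := by
  have : ∀ a : ZMod 2, a + 1 ≠ a := by decide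
  simp [e, this]

def R (col : (ι → ZMod 2) → Equiv.Perm ι) (i j : ι) (x y : ι → ZMod 2) : Prop :=
  ∃ l, y = x + e l ∧ (col x l = i ∨ col x l = j)

structure Inv (i j : ι) (D : Finset ι) (col : (ι → ZMod 2) → Equiv.Perm ι)
    (g : ℕ → ι → ZMod 2) (m : ℕ) : Prop where
  hb : ∀ x k, col (x + e k) k = col x k
  hc : ∀ x y, (∀ k ∈ D, x k = y k) → col x = col y
  hd : ∀ x, ∀ k ∉ D, col x k = k
  hm : 4 ≤ m
  hp : ∀ t, t + 1 < m → R col i j (g t) (g (t + 1))
  hl : R col i j (g (m - 1)) (g 0)
  hi : ∀ s t, s < m → t < m → (∀ k ∈ D, g s k = g t k) → s = t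
  h0 : ∀ t, ∀ k ∉ D, g t k = 0

lemma R_symm {col : (ι → ZMod 2) → Equiv.Perm ι} (hb : ∀ x k, col (x + e k) k = col x k)
    {i j : ι} {x y : ι → ZMod 2} (h : R col i j x y) : R col i j y x := by
  obtain ⟨l, rfl, h⟩ := h
  exact ⟨l, (e_add_e x l).symm, by rw [hb]; exact h⟩

def g0 (i j : ι) : ℕ → ι → ZMod 2
  | 0 => 0
  | 1 => 0 + e i
  | 2 => 0 + e i + e j
  | _ => 0 + e j

lemma base {i j : ι} (hij : i ≠ j) : Inv i j {i, j} (fun _ => 1) (g0 i j) 4 := by
  refine ⟨fun _ _ => rfl, fun _ _ _ => rfl, fun _ _ _ => rfl, le_rfl, ?_, ?_, ?_, ?_⟩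
  · intro t ht
    have : t < 3 := by omega
    interval_cases t
    · exact ⟨i, rfl, Or.inl rfl⟩
    · exact ⟨j, rfl, Or.inr rfl⟩
    · refine ⟨i, ?_, Or.inl rfl⟩
      show 0 + e j = 0 + e i + e j + e i
      rw [add_right_comm (0 + e i), e_add_e]
  · exact ⟨j, (e_add_e 0 j).symm, Or.inr rfl⟩
  · intro s t hs ht h
    have h1 := h i (by simp)
    have h2 := h j (by simp)
    interval_cases s <;> interval_cases t <;>
      simp [g0, e, Pi.single_eq_of_ne hij, Pi.single_eq_of_ne hij.symm] at h1 h2 ⊢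
  · intro t k hk
    simp only [mem_insert, mem_singleton, not_or] at hk
    unfold g0
    split <;> simp [e, Pi.single_eq_of_ne hk.1, Pi.single_eq_of_ne hk.2]

lemma step {i j : ι} {D : Finset ι} (hiD : i ∈ D) (hjD : j ∈ D) {k : ι} (hk : k ∉ D)
    {col : (ι → ZMod 2) → Equiv.Perm ι} {g : ℕ → ι → ZMod 2} {m : ℕ} (h : Inv i j D col g m) :
    ∃ col' g', Inv i j (insert k D) col' g' (2 * m) := by
  classical
  obtain ⟨d0, hd0, ha⟩ := h.hl
  have hm := h.hm
  have dirD : ∀ x l, (col x l = i ∨ col x l = j) → l ∈ D := by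
    intro x l hl
    by_contra hlD
    rw [h.hd x l hlD] at hl
    rcases hl with rfl | rfl <;> contradiction
  have hd0D : d0 ∈ D := dirD _ _ ha
  have hd0k : d0 ≠ k := fun hh => hk (hh ▸ hd0D)
  let sp : (ι → ZMod 2) → Prop := fun x => ∀ l ∈ D, l ≠ d0 → x l = g 0 l
  let col' : (ι → ZMod 2) → Equiv.Perm ι := fun x =>
    if sp x then col x * Equiv.swap d0 k else col x
  have c_other : ∀ x l, l ≠ d0 → l ≠ k → col' x l = col x l := by
    intro x l h1 h2
    simp only [col']
    split_ifs
    · simp [Equiv.swap_apply_of_ne_of_ne h1 h2]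
    · rfl
  have hc' : ∀ x y, (∀ l ∈ D, x l = y l) → col' x = col' y := by
    intro x y hxy
    have : sp x ↔ sp y := by
      simp only [sp]
      constructor
      · intro hx l hl h2; rw [← hxy l hl]; exact hx l hl h2
      · intro hx l hl h2; rw [hxy l hl]; exact hx l hl h2
    simp only [col', this, h.hc x y hxy]
  have hck : ∀ x, col' (x + e k) = col' x := fun x =>
    hc' _ _ fun l hl => e_ne x (fun hh => hk (hh ▸ hl))
  have hb' : ∀ x l, col' (x + e l) l = col' x l := by
    intro x l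
    by_cases h1 : l = k
    · subst h1; rw [hck]
    by_cases h2 : l = d0
    · subst h2
      have : sp (x + e l) ↔ sp x := by
        simp only [sp]
        constructor
        · intro hx l' hl h2; rw [← e_ne x h2]; exact hx l' hl h2
        · intro hx l' hl h2; rw [e_ne x h2]; exact hx l' hl h2
      simp only [col', this]
      split_ifs
      · simp [h.hd _ k hk]
      · exact h.hb x l
    · rw [c_other _ _ h2 h1, c_other _ _ h2 h1, h.hb]
  have two : ∀ a b : ZMod 2, a = b ∨ a + 1 = b := by decide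
  have hu : g (m - 1) = g 0 + e d0 := by rw [hd0, e_add_e]
  have hp' : ∀ t, t + 1 < m → R col' i j (g t) (g (t + 1)) := by
    intro t ht
    obtain ⟨l, hl1, hl2⟩ := h.hp t ht
    refine ⟨l, hl1, ?_⟩
    have hlD := dirD _ _ hl2
    have hlk : l ≠ k := fun hh => hk (hh ▸ hlD)
    by_cases h2 : l = d0
    · subst h2
      have hns : ¬ sp (g t) := by
        intro hs
        by_cases h3 : g t l = g 0 l
        · have t0 : t = 0 := h.hi t 0 (by omega) (by omega) fun l' hl' => by
            by_cases h4 : l' = l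
            · rw [h4, h3]
            · exact hs l' hl' h4
          subst t0
          have := h.hi (0 + 1) (m - 1) (by omega) (by omega) fun l' _ => by rw [hl1, hu]
          omega
        · have := h.hi t (m - 1) (by omega) (by omega) fun l' hl' => by
            rw [hu]
            by_cases h4 : l' = l
            · subst h4
              rcases two (g 0 l') (g t l') with h5 | h5
              · exact absurd h5.symm h3
              · rw [← h5]; simp [e]
            · rw [e_ne _ h4]; exact hs l' hl' h4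
          omega
      simp only [col', if_neg hns]
      exact hl2
    · rw [c_other _ _ h2 hlk]; exact hl2
  have hsu : sp (g (m - 1)) := fun l _ h2 => by rw [hu, e_ne _ h2]
  have hs0 : sp (g 0) := fun l _ _ => rfl
  have hku : col' (g (m - 1)) k = col (g (m - 1)) d0 := by
    simp only [col', if_pos hsu]; simp
  have hk0 : col' (g 0) k = col (g (m - 1)) d0 := by
    simp only [col', if_pos hs0]
    rw [hu, h.hb]; simp
  have Rk : ∀ x y, R col' i j x y → R col' i j (x + e k) (y + e k) := by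
    rintro x y ⟨l, rfl, hl⟩
    exact ⟨l, add_right_comm _ _ _, by rw [hck]; exact hl⟩
  refine ⟨col', fun t => if t < m then g t else g (2 * m - 1 - t) + e k,
    hb', ?_, ?_, by omega, ?_, ?_, ?_, ?_⟩
  · intro x y hxy
    exact hc' x y fun l hl => hxy l (mem_insert_of_mem hl)
  · intro x l hl
    rw [mem_insert, not_or] at hl
    rw [c_other x l (fun hh => hl.2 (hh ▸ hd0D)) hl.1, h.hd x l hl.2]
  · intro t ht
    by_cases h1 : t + 1 < m
    · rw [if_pos h1, if_pos (by omega)]; exact hp' t h1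
    by_cases h2 : t < m
    · rw [if_pos h2, if_neg h1]
      have e1 : t = m - 1 := by omega
      have e2 : 2 * m - 1 - (t + 1) = m - 1 := by omega
      rw [e2, e1]
      exact ⟨k, rfl, by rw [hku]; exact ha⟩
    · rw [if_neg h2, if_neg h1]
      have e1 : 2 * m - 1 - t = (2 * m - 1 - (t + 1)) + 1 := by omega
      rw [e1]
      exact Rk _ _ (R_symm hb' (hp' _ (by omega)))
  · rw [if_neg (by omega), if_pos (by omega), Nat.sub_self]
    exact R_symm hb' ⟨k, rfl, by rw [hk0]; exact ha⟩
  · intro s t hs ht hst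
    have hkk := hst k (mem_insert_self _ _)
    have hD : ∀ l ∈ D, l ≠ k := fun l hl hh => hk (hh ▸ hl)
    by_cases h1 : s < m <;> by_cases h2 : t < m
    · simp only [if_pos h1, if_pos h2] at hst
      exact h.hi s t h1 h2 fun l hl => hst l (mem_insert_of_mem hl)
    · simp only [if_pos h1, if_neg h2] at hkk
      exfalso
      apply e_self (g (2 * m - 1 - t)) k
      rw [← hkk, h.h0 _ k hk, h.h0 _ k hk]
    · simp only [if_neg h1, if_pos h2] at hkk
      exfalso
      apply e_self (g (2 * m - 1 - s)) k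
      rw [hkk, h.h0 _ k hk, h.h0 _ k hk]
    · simp only [if_neg h1, if_neg h2] at hst
      have := h.hi (2 * m - 1 - s) (2 * m - 1 - t) (by omega) (by omega) fun l hl => by
        have := hst l (mem_insert_of_mem hl)
        rwa [e_ne _ (hD l hl), e_ne _ (hD l hl)] at this
      omega
  · intro t l hl
    rw [mem_insert, not_or] at hl
    split_ifs
    · exact h.h0 _ l hl.2
    · rw [e_ne _ hl.1]; exact h.h0 _ l hl.2

lemma exists_inv {i j : ι} (hij : i ≠ j) (S : Finset ι) :
    ∃ col g m, 2 ^ S.card ≤ m ∧ Inv i j (S ∪ {i, j}) col g m := by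
  have key : ∀ S : Finset ι, Disjoint S {i, j} →
      ∃ col g, Inv i j (S ∪ {i, j}) col g (4 * 2 ^ S.card) := by
    intro S
    induction S using Finset.induction_on with
    | empty => intro _; exact ⟨_, _, by simpa using base hij⟩
    | insert k S hk ih =>
      intro hd
      rw [disjoint_insert_left] at hd
      obtain ⟨col, g, h⟩ := ih hd.2
      obtain ⟨col', g', h'⟩ := step (k := k) (by simp) (by simp)
        (by rw [mem_union, not_or]; exact ⟨hk, hd.1⟩) h
      refine ⟨col', g', ?_⟩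
      rw [insert_union, card_insert_of_notMem hk, pow_succ]
      convert h' using 1
      ring
  obtain ⟨col, g, h⟩ := key (S \ {i, j}) sdiff_disjoint
  rw [sdiff_union_self_eq_union] at h
  refine ⟨col, g, _, ?_, h⟩
  have h1 : S.card ≤ (S \ {i, j}).card + 2 := by
    have := le_card_sdiff ({i, j} : Finset ι) S
    have h2 := card_le_two (a := i) (b := j)
    omega
  calc 2 ^ S.card ≤ 2 ^ ((S \ {i, j}).card + 2) := Nat.pow_le_pow_right (by norm_num) h1
    _ = 4 * 2 ^ (S \ {i, j}).card := by ring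

/-- gluing the local colourings on disjoint subcubes -/
lemma glue [Fintype ι] (S : Finset ι) (w : ι × ι → ι → ZMod 2)
    (hw : ∀ p q : ι × ι, p ≠ q → ∃ k, k ∉ S ∪ {p.1, p.2} ∧ k ∉ S ∪ {q.1, q.2} ∧ w p k ≠ w q k) :
    ∃ col : (ι → ZMod 2) → Equiv.Perm ι, (∀ x k, col (x + e k) k = col x k) ∧
      ∀ i j, i ≠ j → ∃ (m : ℕ) (g : ℕ → ι → ZMod 2), 2 ^ S.card ≤ m ∧ 4 ≤ m ∧
        (∀ t, t + 1 < m → R col i j (g t) (g (t + 1))) ∧ R col i j (g (m - 1)) (g 0) ∧
        ∀ s t, s < m → t < m → g s = g t → s = t := by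
  classical
  have hex : ∀ p : {p : ι × ι // p.1 ≠ p.2}, ∃ col g m, 2 ^ S.card ≤ m ∧
      Inv p.1.1 p.1.2 (S ∪ {p.1.1, p.1.2}) col g m := fun p => exists_inv p.2 S
  choose C G M hM hI using hex
  let reg : {p : ι × ι // p.1 ≠ p.2} → (ι → ZMod 2) → Prop := fun p x =>
    ∀ k ∉ S ∪ {p.1.1, p.1.2}, x k = w p.1 k
  have uniq : ∀ p q x, reg p x → reg q x → p = q := by
    intro p q x hp hq
    by_contra hne
    obtain ⟨k, h1, h2, h3⟩ := hw p.1 q.1 fun hh => hne (Subtype.ext hh)
    exact h3 ((hp k h1).symm.trans (hq k h2))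
  let col : (ι → ZMod 2) → Equiv.Perm ι := fun x =>
    if h : ∃ p, reg p x then C h.choose x else 1
  have hcol : ∀ p x, reg p x → col x = C p x := by
    intro p x hp
    have h : ∃ p, reg p x := ⟨p, hp⟩
    simp only [col, dif_pos h]
    rw [uniq _ _ x h.choose_spec hp]
  have regf : ∀ p x k, k ∈ S ∪ {p.1.1, p.1.2} → reg p x → reg p (x + e k) := by
    intro p x k hk hx l hl
    have hlk : l ≠ k := fun hh => hl (by rw [hh]; exact hk)
    rw [e_ne x hlk]
    exact hx l hl
  have triv : ∀ x k, (¬ ∃ p, reg p x ∧ k ∈ S ∪ {p.1.1, p.1.2}) → col x k = k := by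
    intro x k hn
    by_cases h : ∃ p, reg p x
    · obtain ⟨p, hp⟩ := h
      rw [hcol p x hp]
      exact (hI p).hd x k fun hk => hn ⟨p, hp, hk⟩
    · simp only [col, dif_neg h]; rfl
  refine ⟨col, ?_, ?_⟩
  · intro x k
    by_cases h : ∃ p, reg p x ∧ k ∈ S ∪ {p.1.1, p.1.2}
    · obtain ⟨p, hp, hk⟩ := h
      rw [hcol p x hp, hcol p _ (regf p x k hk hp), (hI p).hb]
    · rw [triv x k h, triv (x + e k) k]
      rintro ⟨p, hp, hk⟩
      have := regf p _ k hk hp
      rw [e_add_e] at this
      exact h ⟨p, this, hk⟩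
  · intro i j hij
    let p : {p : ι × ι // p.1 ≠ p.2} := ⟨(i, j), hij⟩
    let w0 : ι → ZMod 2 := fun k => if k ∈ S ∪ {i, j} then 0 else w (i, j) k
    have hreg : ∀ t, reg p (G p t + w0) := by
      intro t k hk
      have hk' : k ∉ S ∪ {i, j} := hk
      simp only [Pi.add_apply, w0, if_neg hk', (hI p).h0 t k hk, zero_add]
      rfl
    have hR : ∀ s t, R (C p) i j (G p s) (G p t) → R col i j (G p s + w0) (G p t + w0) := by
      rintro s t ⟨l, h1, h2⟩
      refine ⟨l, by rw [h1, add_right_comm], ?_⟩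
      rw [hcol p _ (hreg s), (hI p).hc (G p s + w0) (G p s)]
      · exact h2
      · intro k hk
        have hk' : k ∈ S ∪ {i, j} := hk
        simp only [Pi.add_apply, w0, if_pos hk', add_zero]
    refine ⟨M p, fun t => G p t + w0, hM p, (hI p).hm, fun t ht => hR _ _ ((hI p).hp t ht),
      hR _ _ (hI p).hl, ?_⟩
    intro s t hs ht hst
    have : G p s = G p t := add_right_cancel hst
    exact (hI p).hi s t hs ht fun k _ => by rw [this]

end H12Cube
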