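import Mathlib

set_option autoImplicit false

namespace Pool.Agent.H12.Cut

/-- `w` is a shuffle of `x` and `y` -/
inductive Sh {α : Type} : List α → List α → List α → Prop
  | nil : Sh [] [] []
  | left {c : α} {w x y : List α} : Sh w x y → Sh (c :: w) (c :: x) y
  | right {c : α} {w x y : List α} : Sh w x y → Sh (c :: w) x (c :: y)

theorem Sh.symm {α : Type} {w x y : List α} (h : Sh w x y) : Sh w y x := by
  induction h with
  | nil => exact .nil
  | left _ ih => exact .right ih
  | right _ ih => exact .left ih

theorem Sh.map {α β : Type} (f : α → β) {w x y : List α} (h : Sh w x y) :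
    Sh (w.map f) (x.map f) (y.map f) := by
  induction h with
  | nil => exact .nil
  | left _ ih => exact .left ih
  | right _ ih => exact .right ih

theorem Sh.filter {α : Type} (p : α → Bool) {w x y : List α} (h : Sh w x y) :
    Sh (w.filter p) (x.filter p) (y.filter p) := by
  induction h with
  | nil => exact .nil
  | @left c w x y _ ih =>
    by_cases hc : p c = true
    · simp only [List.filter_cons, hc, if_true]; exact .left ih
    · simp only [List.filter_cons, hc]; exact ih
  | @right c w x y _ ih =>
    by_cases hc : p c = true
    · simp only [List.filter_cons, hc, if_true]; exact .right ih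
    · simp only [List.filter_cons, hc]; exact ih

theorem Sh.split {α : Type} (p : α → Bool) (w : List α) :
    Sh w (w.filter p) (w.filter fun a => !p a) := by
  induction w with
  | nil => exact .nil
  | cons c w ih =>
    by_cases hc : p c = true
    · simp only [List.filter_cons, hc, if_true, Bool.not_true]; exact .left ih
    · have hc' : p c = false := by simpa using hc
      simp only [List.filter_cons, hc', Bool.not_false, if_true]; exact .right ih

theorem Sh.prod {w x y : List ℕ} (h : Sh w x y) : w.prod = x.prod * y.prod := by
  induction h with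
  | nil => rfl
  | left _ ih => simp only [List.prod_cons, ih]; ring
  | right _ ih => simp only [List.prod_cons, ih]; ring

/-- some reordering of the blocks is a shuffle of a word with itself -/
def Good {α : Type} (L : List (List α)) : Prop :=
  ∃ L' : List (List α), L'.Perm L ∧ ∃ x, Sh L'.flatten x x

theorem Good.map {α β : Type} (f : α → β) {L : List (List α)} (h : Good L) :
    Good (L.map (List.map f)) := by
  obtain ⟨L', hp, x, hx⟩ := h
  exact ⟨L'.map (List.map f), hp.map _, x.map f, by
    rw [← List.map_flatten]; exact hx.map f⟩

theorem Good.filter {α : Type} (p : α → Bool) {L : List (List α)} (h : Good L) :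
    Good (L.map (List.filter p)) := by
  obtain ⟨L', hp, x, hx⟩ := h
  exact ⟨L'.map (List.filter p), hp.map _, x.filter p, by
    rw [← List.filter_flatten]; exact hx.filter p⟩

theorem flat_ne {α : Type} (L : List (List α)) :
    (L.filter fun l => !l.isEmpty).flatten = L.flatten := by
  induction L with
  | nil => rfl
  | cons a L ih =>
    cases a with
    | nil => simpa using ih
    | cons c a => simp [List.filter_cons, ih]

theorem flat_e {α : Type} (L : List (List α)) :
    (L.filter fun l => !!l.isEmpty).flatten = [] := by
  induction L with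
  | nil => rfl
  | cons a L ih =>
    cases a with
    | nil => simpa using ih
    | cons c a => simp [List.filter_cons]

theorem good_iff {α : Type} (L : List (List α)) :
    Good L ↔ Good (L.filter fun l => !l.isEmpty) := by
  constructor
  · rintro ⟨L', hp, x, hx⟩
    exact ⟨L'.filter _, hp.filter _, x, by rw [flat_ne]; exact hx⟩
  · rintro ⟨L', hp, x, hx⟩
    refine ⟨L' ++ L.filter fun l => !!l.isEmpty, ?_, x, ?_⟩
    · exact (hp.append_right _).trans (List.filter_append_perm _ L)
    · rw [List.flatten_append, flat_e, List.append_nil]; exact hx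

theorem Good.congr {α : Type} {L M : List (List α)}
    (e : (L.filter fun l => !l.isEmpty) = M.filter fun l => !l.isEmpty) (h : Good L) : Good M := by
  rw [good_iff] at h ⊢
  rwa [← e]

noncomputable def run (k : ℕ → ℕ → ℕ → Bool) (y : List ℕ) : ℕ → ℕ → ℕ → Bool :=
  List.rec (motive := fun _ => ℕ → ℕ → ℕ → Bool) k
    (fun c _ ih q m b =>
      Bool.rec (motive := fun _ => Bool)
        (Bool.rec (motive := fun _ => Bool) false
          (ih (Nat.add q (Nat.mul c m)) (Nat.mul m 16) (Nat.div b c)) (Nat.beq (Nat.mod b c) 0))
        true
        (Bool.rec (motive := fun _ => Bool) false (ih (Nat.div q 16) (Nat.div m 16) b)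
          (Nat.beq (Nat.mod q 16) c))) y

noncomputable def app (acc R : List (List ℕ)) : List (List ℕ) :=
  List.rec (motive := fun _ => List (List ℕ)) R (fun a _ t => a :: t) acc

noncomputable def pick (f : List ℕ → List (List ℕ) → Bool) (L : List (List ℕ)) :
    List (List ℕ) → Bool :=
  List.rec (motive := fun _ => List (List ℕ) → Bool) (fun _ => false)
    (fun y R ih acc => Bool.rec (motive := fun _ => Bool) (ih (y :: acc)) true
      (f y (app acc R))) L

noncomputable def go (n : ℕ) : List (List ℕ) → ℕ → ℕ → ℕ → Bool :=
  Nat.rec (motive := fun _ => List (List ℕ) → ℕ → ℕ → ℕ → Bool) (fun _ q _ _ => Nat.beq q 0)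
    (fun _ ih L q m b => pick (fun y R => run (ih R) y q m b) L []) n

theorem app_eq (acc R : List (List ℕ)) : app acc R = acc ++ R := by
  induction acc with
  | nil => rfl
  | cons a acc ih => exact congrArg (a :: ·) ih

theorem or_rec (a b : Bool) : Bool.rec (motive := fun _ => Bool) a true b = (b || a) := by
  cases b <;> rfl

theorem and_rec (a b : Bool) : Bool.rec (motive := fun _ => Bool) false a b = (b && a) := by
  cases b <;> rfl

theorem run_cons (k : ℕ → ℕ → ℕ → Bool) (c : ℕ) (y : List ℕ) (q m b : ℕ) :
    run k (c :: y) q m b = ((Nat.beq (q % 16) c && run k y (q / 16) (m / 16) b) ||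
      (Nat.beq (b % c) 0 && run k y (q + c * m) (m * 16) (b / c))) := by
  rw [← or_rec, ← and_rec, ← and_rec]; rfl

theorem pick_cons (f : List ℕ → List (List ℕ) → Bool) (y : List ℕ) (R acc : List (List ℕ)) :
    pick f (y :: R) acc = (f y (acc ++ R) || pick f R (y :: acc)) := by
  rw [← or_rec, ← app_eq]; rfl

def enc : List ℕ → ℕ
  | [] => 0
  | d :: q => d + 16 * enc q

theorem enc_push (c : ℕ) (q : List ℕ) : enc (q ++ [c]) = enc q + c * 16 ^ q.length := by
  induction q with
  | nil => simp [enc]
  | cons d q ih => simp only [List.cons_append, enc, ih, List.length_cons]; ring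

theorem run_ok (k : ℕ → ℕ → ℕ → Bool) (r : List ℕ)
    (hk : ∀ q x, Sh r x (q ++ x) → k (enc q) (16 ^ q.length) x.prod = true) :
    ∀ (y q x : List ℕ), (∀ c ∈ y, 0 < c ∧ c < 16) → Sh (y ++ r) x (q ++ x) →
      run k y (enc q) (16 ^ q.length) x.prod = true := by
  intro y
  induction y with
  | nil => intro q x _ h; exact hk q x h
  | cons c y ih =>
    intro q x hpos h
    have hc : 0 < c := (hpos c (by simp)).1
    have hc2 : c < 16 := (hpos c (by simp)).2
    have hy : ∀ d ∈ y, 0 < d ∧ d < 16 := fun d hd => hpos d (by simp [hd])
    have push : ∀ x', Sh (y ++ r) x' ((q ++ [c]) ++ x') →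
        run k (c :: y) (enc q) (16 ^ q.length) (c :: x').prod = true := by
      intro x' h'
      have h1 := ih _ _ hy h'
      rw [enc_push, List.length_append, List.length_singleton, pow_succ] at h1
      simp only [run_cons, List.prod_cons, Nat.mul_mod_right, Nat.mul_div_cancel_left _ hc, h1,
        Nat.beq_refl, Bool.and_self, Bool.or_true]
    rw [List.cons_append] at h
    generalize hz : q ++ x = z at h
    cases h with
    | left h' =>
      apply push
      rw [List.append_assoc]; simp only [List.cons_append, List.nil_append]; rw [hz]; exact h'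
    | @right _ _ _ z' h' =>
      cases q with
      | nil =>
        simp only [List.nil_append] at hz
        subst hz
        apply push
        exact h'.symm
      | cons d q =>
        simp only [List.cons_append, List.cons.injEq] at hz
        obtain ⟨rfl, rfl⟩ := hz
        have h1 := ih _ _ hy h'
        have e1 : enc (d :: q) % 16 = d := by simp only [enc]; omega
        have e2 : enc (d :: q) / 16 = enc q := by simp only [enc]; omega
        have e3 : 16 ^ (d :: q).length / 16 = 16 ^ q.length := by
          rw [List.length_cons, pow_succ]; omega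
        simp only [run_cons, e1, e2, e3, h1, Nat.beq_refl, Bool.and_self, Bool.true_or]

theorem pick_ok (f : List ℕ → List (List ℕ) → Bool) (y : List ℕ) (L2 : List (List ℕ)) :
    ∀ (L1 acc : List (List ℕ)), (∀ R, R.Perm (acc ++ (L1 ++ L2)) → f y R = true) →
      pick f (L1 ++ y :: L2) acc = true := by
  intro L1
  induction L1 with
  | nil =>
    intro acc h
    have h1 : f y (acc ++ L2) = true := h _ (List.Perm.refl _)
    simp only [List.nil_append, pick_cons, h1, Bool.true_or]
  | cons a L1 ih =>
    intro acc h
    have := ih (a :: acc) fun R hR => h R (hR.trans (by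
      simp only [List.cons_append]; exact List.perm_middle.symm))
    simp only [List.cons_append, pick_cons, this, Bool.or_true]

theorem go_ok : ∀ (n : ℕ) (L' L : List (List ℕ)) (q x : List ℕ), L'.length = n → L'.Perm L →
    (∀ y ∈ L', ∀ c ∈ y, 0 < c ∧ c < 16) → Sh L'.flatten x (q ++ x) →
    go n L (enc q) (16 ^ q.length) x.prod = true := by
  intro n
  induction n with
  | zero =>
    intro L' L q x hl _ _ h
    rw [List.length_eq_zero_iff] at hl
    subst hl
    rw [List.flatten_nil] at h
    generalize hz : q ++ x = z at h
    cases h
    simp only [List.append_nil] at hz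
    subst hz
    rfl
  | succ n ih =>
    intro L' L q x hl hp hpos h
    cases L' with
    | nil => simp at hl
    | cons y L'' =>
      have hy : y ∈ L := hp.subset (by simp)
      obtain ⟨L1, L2, rfl⟩ := List.append_of_mem hy
      have hp' : L''.Perm (L1 ++ L2) := (hp.trans List.perm_middle).cons_inv
      show pick (fun y R => run (go n R) y (enc q) (16 ^ q.length) x.prod) (L1 ++ y :: L2) [] = true
      apply pick_ok
      intro R hR
      apply run_ok _ L''.flatten _ y q x (hpos y (by simp)) h
      intro q' x' h'
      exact ih L'' R q' x' (by simpa using hl) (hp'.trans hR.symm)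
        (fun z hz => hpos z (by simp [hz])) h'

theorem Good.go {L : List (List ℕ)} (h : Good L) (b : ℕ) (hb : L.flatten.prod = b * b)
    (hpos : ∀ c ∈ L.flatten, 0 < c ∧ c < 16) : go L.length L 0 1 b = true := by
  obtain ⟨L', hp, x, hx⟩ := h
  have h1 : x.prod * x.prod = b * b := by
    rw [← hx.prod, ← hb]; exact hp.flatten.prod_eq
  have h2 : x.prod = b := Nat.mul_self_inj.1 h1
  rw [← h2]
  refine go_ok _ L' L [] x hp.length_eq hp ?_ hx
  intro y hy c hc
  exact hpos c (List.mem_flatten.2 ⟨y, hp.subset hy, hc⟩)

def cuts : ℕ → List ℕ → List (List (List ℕ))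
  | 0, w => [[w]]
  | c + 1, w => (List.range (w.length + 1)).flatMap fun i =>
      (cuts c (w.drop i)).map fun M => w.take i :: M

theorem mem_cuts : ∀ (c : ℕ) (M : List (List ℕ)), M.length = c + 1 → M ∈ cuts c M.flatten := by
  intro c
  induction c with
  | zero =>
    intro M h
    obtain ⟨a, rfl⟩ := List.length_eq_one_iff.1 h
    simp [cuts]
  | succ c ih =>
    intro M h
    cases M with
    | nil => simp at h
    | cons a M =>
      simp only [cuts, List.mem_flatMap, List.mem_range, List.mem_map]
      refine ⟨a.length, by simp, M, ?_, by simp⟩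
      simpa using ih M (by simpa using h)

def wA : List ℕ := [2, 3, 3, 3, 2, 5, 5, 5, 3, 2, 2, 2, 2, 5]
def wB : List ℕ := [7, 11, 11, 11, 11, 13, 7, 7, 7, 11, 13, 13, 13, 11]

theorem a2 : (cuts 2 wA).all (fun M => !go 3 M 0 1 1800) = true := by decide +kernel
theorem b2 : (cuts 2 wB).all (fun M => !go 3 M 0 1 11022011) = true := by decide +kernel

end Pool.Agent.H12.Cut
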