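import Mathlib
import Pool.Agent.H12.CutA

set_option autoImplicit false

namespace Pool.Agent.H12.Cut

def GA : List (List (List ℕ)) := [
  [[2], [3, 3, 3], [2, 5, 5, 5], [3, 2, 2, 2, 2, 5]],
  [[2], [3, 3, 3], [2, 5, 5, 5, 3], [2, 2, 2, 2, 5]],
  [[2], [3, 3, 3, 2], [5, 5, 5], [3, 2, 2, 2, 2, 5]],
  [[2], [3, 3, 3, 2], [5, 5, 5, 3], [2, 2, 2, 2, 5]],
  [[2, 3], [3, 3], [2, 5, 5, 5], [3, 2, 2, 2, 2, 5]],
  [[2, 3], [3, 3], [2, 5, 5, 5, 3, 2], [2, 2, 2, 5]],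
  [[2, 3], [3, 3, 2], [5, 5, 5], [3, 2, 2, 2, 2, 5]],
  [[2, 3], [3, 3, 2], [5, 5, 5, 3, 2, 2], [2, 2, 5]],
  [[2, 3], [3, 3, 2, 5], [5], [5, 3, 2, 2, 2, 2, 5]],
  [[2, 3], [3, 3, 2, 5], [5, 5, 3, 2, 2, 2, 2], [5]],
  [[2, 3], [3, 3, 2, 5, 5], [5, 3, 2], [2, 2, 2, 5]],
  [[2, 3], [3, 3, 2, 5, 5], [5, 3, 2, 2], [2, 2, 5]],
  [[2, 3], [3, 3, 2, 5, 5], [5, 3, 2, 2, 2], [2, 5]],
  [[2, 3], [3, 3, 2, 5, 5], [5, 3, 2, 2, 2, 2], [5]],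
  [[2, 3, 3], [3], [2, 5, 5, 5, 3, 2], [2, 2, 2, 5]],
  [[2, 3, 3], [3, 2], [5, 5, 5, 3], [2, 2, 2, 2, 5]],
  [[2, 3, 3], [3, 2], [5, 5, 5, 3, 2, 2], [2, 2, 5]],
  [[2, 3, 3], [3, 2, 5], [5, 5, 3, 2], [2, 2, 2, 5]],
  [[2, 3, 3], [3, 2, 5], [5, 5, 3, 2, 2], [2, 2, 5]],
  [[2, 3, 3], [3, 2, 5, 5], [5, 3, 2], [2, 2, 2, 5]],
  [[2, 3, 3], [3, 2, 5, 5, 5], [3, 2], [2, 2, 2, 5]],
  [[2, 3, 3, 3], [2], [5, 5, 5], [3, 2, 2, 2, 2, 5]],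
  [[2, 3, 3, 3], [2, 5, 5], [5, 3, 2], [2, 2, 2, 5]],
  [[2, 3, 3, 3, 2], [5, 5, 5], [3, 2, 2, 2], [2, 5]]]

def GB : List (List (List ℕ)) := [
  [[7], [11, 11, 11, 11, 13, 7], [7, 7, 11, 13, 13], [13, 11]],
  [[7], [11, 11, 11, 11, 13, 7, 7], [7, 11, 13, 13], [13, 11]],
  [[7, 11], [11, 11, 11, 13], [7, 7, 7], [11, 13, 13, 13, 11]],
  [[7, 11], [11, 11, 11, 13, 7], [7, 7, 11, 13, 13], [13, 11]],
  [[7, 11, 11], [11, 11, 13, 7], [7, 7, 11, 13, 13], [13, 11]],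
  [[7, 11, 11], [11, 11, 13, 7, 7], [7, 11, 13], [13, 13, 11]],
  [[7, 11, 11], [11, 11, 13, 7, 7, 7], [11, 13], [13, 13, 11]],
  [[7, 11, 11], [11, 11, 13, 7, 7, 7], [11, 13, 13], [13, 11]],
  [[7, 11, 11, 11], [11, 13], [7, 7, 7, 11, 13], [13, 13, 11]],
  [[7, 11, 11, 11], [11, 13, 7], [7, 7, 11], [13, 13, 13, 11]],
  [[7, 11, 11, 11], [11, 13, 7], [7, 7, 11, 13], [13, 13, 11]],
  [[7, 11, 11, 11], [11, 13, 7], [7, 7, 11, 13, 13], [13, 11]],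
  [[7, 11, 11, 11], [11, 13, 7, 7], [7, 11, 13], [13, 13, 11]],
  [[7, 11, 11, 11], [11, 13, 7, 7, 7, 11], [13], [13, 13, 11]],
  [[7, 11, 11, 11], [11, 13, 7, 7, 7, 11], [13, 13], [13, 11]],
  [[7, 11, 11, 11, 11], [13, 7, 7, 7], [11, 13], [13, 13, 11]],
  [[7, 11, 11, 11, 11], [13, 7, 7, 7], [11, 13, 13, 13], [11]],
  [[7, 11, 11, 11, 11], [13, 7, 7, 7, 11], [13, 13, 13], [11]],
  [[7, 11, 11, 11, 11, 13], [7, 7, 7], [11], [13, 13, 13, 11]],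
  [[7, 11, 11, 11, 11, 13], [7, 7, 7], [11, 13, 13], [13, 11]],
  [[7, 11, 11, 11, 11, 13], [7, 7, 7], [11, 13, 13, 13], [11]],
  [[7, 11, 11, 11, 11, 13], [7, 7, 7, 11], [13, 13], [13, 11]],
  [[7, 11, 11, 11, 11, 13], [7, 7, 7, 11], [13, 13, 13], [11]],
  [[7, 11, 11, 11, 11, 13, 7], [7], [7, 11, 13, 13], [13, 11]]]

theorem a3 : (cuts 3 wA).all (fun M => !go 4 M 0 1 1800 || GA.contains M) = true := by
  decide +kernel

theorem b3 : (cuts 3 wB).all (fun M => !go 4 M 0 1 11022011 || GB.contains M) = true := by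
  decide +kernel

def glue : List (List ℕ) → List (List ℕ) → List (List ℕ)
  | [a, b, c, d], e :: R => a :: b :: c :: (d ++ e) :: R
  | _, _ => []

noncomputable def chk (i : ℕ) : Bool :=
  ((GA.drop (2 * i)).take 2).all fun X => GB.all fun Y => !go 7 (glue X Y) 0 1 19839619800

theorem ab0 : chk 0 = true := by decide +kernel
theorem ab1 : chk 1 = true := by decide +kernel
theorem ab2 : chk 2 = true := by decide +kernel
theorem ab3 : chk 3 = true := by decide +kernel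
theorem ab4 : chk 4 = true := by decide +kernel
theorem ab5 : chk 5 = true := by decide +kernel
theorem ab6 : chk 6 = true := by decide +kernel
theorem ab7 : chk 7 = true := by decide +kernel
theorem ab8 : chk 8 = true := by decide +kernel
theorem ab9 : chk 9 = true := by decide +kernel
theorem ab10 : chk 10 = true := by decide +kernel
theorem ab11 : chk 11 = true := by decide +kernel

end Pool.Agent.H12.Cut
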