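import Mathlib
import Pool.Agent.H12.CutB

set_option autoImplicit false

namespace Pool.Agent.H12.Cut

theorem pad {M : List (List ℕ)} (n : ℕ) (h : Good M) : Good (M ++ List.replicate n []) :=
  h.congr (by simp [List.filter_append])

theorem few (w : List ℕ) (b : ℕ) (hb : w.prod = b * b) (hpos : ∀ c ∈ w, 0 < c ∧ c < 16)
    (h2 : (cuts 2 w).all (fun M => !go 3 M 0 1 b) = true)
    (M : List (List ℕ)) (hM : M.flatten = w) (hl : M.length ≤ 3) : ¬ Good M := by
  intro h
  have h1 := pad (3 - M.length) h
  have hf : (M ++ List.replicate (3 - M.length) []).flatten = w := by simp [hM]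
  have hl' : (M ++ List.replicate (3 - M.length) []).length = 2 + 1 := by simp; omega
  have h3 := mem_cuts 2 _ hl'
  have h4 := h1.go b (by rw [hf]; exact hb) (by rw [hf]; exact hpos)
  rw [hf] at h3
  have h5 := List.all_eq_true.1 h2 _ h3
  rw [hl'] at h4
  simp only [Bool.not_eq_eq_eq_not, Bool.not_true] at h5
  exact absurd (h4.symm.trans h5) (by simp)

theorem four (w : List ℕ) (b : ℕ) (G : List (List (List ℕ))) (hb : w.prod = b * b)
    (hpos : ∀ c ∈ w, 0 < c ∧ c < 16)
    (h2 : (cuts 3 w).all (fun M => !go 4 M 0 1 b || G.contains M) = true)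
    (M : List (List ℕ)) (hM : M.flatten = w) (hl : M.length = 4) (h : Good M) : M ∈ G := by
  have h3 := mem_cuts 3 _ hl
  have h4 := h.go b (by rw [hM]; exact hb) (by rw [hM]; exact hpos)
  rw [hM] at h3
  have h5 := List.all_eq_true.1 h2 _ h3
  rw [hl] at h4
  simpa [h4] using h5

theorem map_keep (p : ℕ → Bool) (L : List (List ℕ)) (h : ∀ c ∈ L.flatten, p c = true) :
    L.map (List.filter p) = L := by
  conv_rhs => rw [← List.map_id L]
  apply List.map_congr_left
  intro a ha
  exact List.filter_eq_self.2 fun c hc => h c (List.mem_flatten.2 ⟨a, ha, hc⟩)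

theorem map_kill (p : ℕ → Bool) (L : List (List ℕ)) (h : ∀ c ∈ L.flatten, p c = false) :
    ((L.map (List.filter p)).filter fun l => !l.isEmpty) = [] := by
  rw [List.filter_eq_nil_iff]
  intro a ha
  obtain ⟨l, hl, rfl⟩ := List.mem_map.1 ha
  have : l.filter p = [] := List.filter_eq_nil_iff.2 fun c hc => by
    simp [h c (List.mem_flatten.2 ⟨l, hl, hc⟩)]
  simp [this]

theorem seven (X Y : List (List ℕ)) (hX : X ∈ GA) (hY : Y ∈ GB) :
    go 7 (glue X Y) 0 1 19839619800 = false := by
  have key : ∀ i, chk i = true → X ∈ (GA.drop (2 * i)).take 2 →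
      go 7 (glue X Y) 0 1 19839619800 = false := by
    intro i hi hx
    have := List.all_eq_true.1 (List.all_eq_true.1 hi X hx) Y hY
    simpa using this
  have : ∀ Z ∈ GA, ∃ i ∈ List.range 12, Z ∈ (GA.drop (2 * i)).take 2 := by decide
  obtain ⟨i, hi, hx⟩ := this X hX
  refine key i ?_ hx
  have hi' : i < 12 := List.mem_range.1 hi
  interval_cases i
  exacts [ab0, ab1, ab2, ab3, ab4, ab5, ab6, ab7, ab8, ab9, ab10, ab11]

theorem main (L : List (List ℕ)) (hL : L.flatten = wA ++ wB) (hl : L.length ≤ 7) : ¬ Good L := by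
  intro h
  obtain ⟨L1, x, y, L2, rfl, hA, hB⟩ : ∃ L1 x y L2, L = L1 ++ (x ++ y) :: L2 ∧
      wA = L1.flatten ++ x ∧ wB = y ++ L2.flatten := by
    rcases List.flatten_eq_append_iff.1 hL with ⟨as, bs, rfl, h1, h2⟩ | ⟨as, bs, c, cs, ds, rfl, h1, h2⟩
    · cases bs with
      | nil => simp [wB] at h2
      | cons y L2 => exact ⟨as, [], y, L2, by simp, by simpa using h1, by simpa using h2⟩
    · exact ⟨as, bs, c :: cs, ds, rfl, h1, h2⟩
  have sA : ∀ c ∈ wA, c < 6 := by decide
  have sB : ∀ c ∈ wB, 6 < c := by decide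
  have m1 : ∀ c ∈ L1.flatten, c < 6 := fun c hc => sA c (by rw [hA]; exact List.mem_append_left _ hc)
  have m2 : ∀ c ∈ x, c < 6 := fun c hc => sA c (by rw [hA]; exact List.mem_append_right _ hc)
  have m3 : ∀ c ∈ y, 6 < c := fun c hc => sB c (by rw [hB]; exact List.mem_append_left _ hc)
  have m4 : ∀ c ∈ L2.flatten, 6 < c := fun c hc => sB c (by rw [hB]; exact List.mem_append_right _ hc)
  have gA : Good (L1 ++ [x]) := by
    refine (h.filter fun c => decide (c < 6)).congr ?_
    have e1 : (x ++ y).filter (fun c => decide (c < 6)) = x := by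
      rw [List.filter_append, List.filter_eq_self.2 (fun c hc => by simpa using m2 c hc),
        List.filter_eq_nil_iff.2 (fun c hc => by have := m3 c hc; simp; omega), List.append_nil]
    rw [List.map_append, List.map_cons, e1, map_keep _ L1 (fun c hc => by simpa using m1 c hc),
      ← List.singleton_append, ← List.append_assoc, List.filter_append,
      map_kill _ L2 (fun c hc => by have := m4 c hc; simp; omega), List.append_nil]
  have gB : Good (y :: L2) := by
    refine (h.filter fun c => decide (6 < c)).congr ?_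
    have e1 : (x ++ y).filter (fun c => decide (6 < c)) = y := by
      rw [List.filter_append, (List.filter_eq_self (l := y)).2 (fun c hc => by simpa using m3 c hc),
        (List.filter_eq_nil_iff (l := x)).2 (fun c hc => by have := m2 c hc; simp; omega), List.nil_append]
    rw [List.map_append, List.map_cons, e1, map_keep _ L2 (fun c hc => by simpa using m4 c hc),
      List.filter_append, map_kill _ L1 (fun c hc => by have := m1 c hc; simp; omega),
      List.nil_append]
  have fA : (L1 ++ [x]).flatten = wA := by simp [hA]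
  have fB : (y :: L2).flatten = wB := by simp [hB]
  have pA : ∀ c ∈ wA, 0 < c ∧ c < 16 := by decide
  have pB : ∀ c ∈ wB, 0 < c ∧ c < 16 := by decide
  have lA : ¬ (L1 ++ [x]).length ≤ 3 := fun hh => few wA 1800 (by decide) pA a2 _ fA hh gA
  have lB : ¬ (y :: L2).length ≤ 3 := fun hh => few wB 11022011 (by decide) pB b2 _ fB hh gB
  simp only [List.length_append, List.length_cons, List.length_nil] at lA lB hl
  have hX := four wA 1800 GA (by decide) pA a3 _ fA (by simp; omega) gA
  have hY := four wB 11022011 GB (by decide) pB b3 _ fB (by simp; omega) gB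
  have h7 := seven _ _ hX hY
  obtain ⟨a, b, c, rfl⟩ := List.length_eq_three.1 (show L1.length = 3 by omega)
  have h8 := h.go 19839619800 (by rw [hL]; decide) (by rw [hL]; decide)
  have e : ([a, b, c] ++ (x ++ y) :: L2).length = 7 := by simp; omega
  rw [e] at h8
  exact absurd (h8.symm.trans h7) (by simp)

end Pool.Agent.H12.Cut
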