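import Mathlib

set_option autoImplicit false

namespace Pool.Agent.H12.DownSet

open Finset Filter Topology Asymptotics

def Lim (e : ℕ) (h : ℕ → ℕ) (N : ℕ) : Prop :=
  Tendsto (fun k : ℕ => (e.factorial : ℝ) * h k / (k : ℝ) ^ e) atTop (𝓝 N)

lemma choose_lim (e : ℕ) :
    Tendsto (fun k : ℕ => (e.factorial : ℝ) * (k.choose e) / (k : ℝ) ^ e) atTop (𝓝 1) := by
  have h := (isEquivalent_iff_tendsto_one (by
    filter_upwards [eventually_gt_atTop 0] with k hk
    positivity)).mp (isEquivalent_choose e)
  refine h.congr fun k => ?_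
  simp only [Pi.div_apply]
  rw [div_div_eq_mul_div, mul_comm]

lemma shift_ratio (e : ℕ) (c : ℝ) :
    Tendsto (fun k : ℕ => ((k : ℝ) + c) ^ e / (k : ℝ) ^ e) atTop (𝓝 1) := by
  have h0 : Tendsto (fun m : ℕ => ((m : ℝ))⁻¹) atTop (𝓝 0) := tendsto_inv_atTop_nhds_zero_nat
  have h1 := ((h0.const_mul c).const_add 1).pow e
  simp only [mul_zero, add_zero, one_pow] at h1
  refine h1.congr' ?_
  filter_upwards [eventually_gt_atTop 0] with k hk
  rw [← div_pow]; congr 1; field_simp

lemma Lim.sub {e N : ℕ} {h : ℕ → ℕ} (H : Lim e h N) (j : ℕ) : Lim e (fun k => h (k - j)) N := by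
  have h1 := (H.comp (tendsto_sub_atTop_nat j)).mul (shift_ratio e (-j))
  rw [mul_one] at h1
  refine h1.congr' ?_
  filter_upwards [eventually_gt_atTop j] with k hk
  have : (0 : ℝ) < k - j := by
    have : (j : ℝ) < k := by exact_mod_cast hk
    linarith
  simp only [Function.comp]
  rw [Nat.cast_sub hk.le, ← sub_eq_add_neg]
  field_simp

lemma Lim.add_nat {e N : ℕ} {h : ℕ → ℕ} (H : Lim e h N) (j : ℕ) : Lim e (fun k => h (k + j)) N := by
  have h1 := (H.comp (tendsto_add_atTop_nat j)).mul (shift_ratio e j)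
  rw [mul_one] at h1
  refine h1.congr' ?_
  filter_upwards [eventually_gt_atTop 0] with k hk
  simp only [Function.comp]
  push_cast
  field_simp

lemma Lim.cum {e N : ℕ} {h : ℕ → ℕ} (H : Lim e h N) :
    Lim (e + 1) (fun k => ∑ i ∈ range k, h i) N := by
  have hs : ∀ k, ∑ i ∈ range k, (i.choose e : ℝ) = (k.choose (e + 1) : ℝ) := by
    intro k
    induction k with
    | zero => simp
    | succ k ih => rw [sum_range_succ, ih, Nat.choose_succ_succ']; push_cast; ring
  have h1 : (fun k : ℕ => (h k : ℝ) - N * k.choose e) =o[atTop] fun k : ℕ => (k.choose e : ℝ) := by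
    refine IsLittleO.trans_isEquivalent ?_ (isEquivalent_choose e).symm
    refine (isLittleO_iff_tendsto' ?_).mpr ?_
    · filter_upwards [eventually_gt_atTop 0] with k hk h0
      exact absurd h0 (by positivity)
    · have := Tendsto.sub H ((choose_lim e).const_mul (N : ℝ))
      simp only [mul_one, sub_self] at this
      refine this.congr fun k => ?_
      rw [div_div_eq_mul_div]; ring
  have h2 := h1.sum_range (fun k => Nat.cast_nonneg _) (by
    simp only [hs]
    refine (isEquivalent_choose (e + 1)).symm.tendsto_atTop ?_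
    exact ((tendsto_pow_atTop (by omega)).comp tendsto_natCast_atTop_atTop).atTop_div_const
      (by positivity))
  simp only [hs, sum_sub_distrib, ← mul_sum] at h2
  have h3 := (h2.trans_isEquivalent (isEquivalent_choose (e + 1))).tendsto_div_nhds_zero
  have h4 := h3.add ((choose_lim (e + 1)).const_mul (N : ℝ))
  simp only [mul_one, zero_add] at h4
  refine h4.congr fun k => ?_
  rw [div_div_eq_mul_div]; push_cast; ring

def Q : ℕ → (ℕ → ℕ) → Prop
  | 0, h => ∀ᶠ k in atTop, h k = 0
  | e + 1, h => ∃ N, Lim e h N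

lemma Q_congr {e : ℕ} {h h' : ℕ → ℕ} (H : Q e h) (hh : ∀ᶠ k in atTop, h k = h' k) : Q e h' := by
  cases e with
  | zero => filter_upwards [H, hh] with k h1 h2 using h2 ▸ h1
  | succ e =>
    obtain ⟨N, hN⟩ := H
    exact ⟨N, hN.congr' (by filter_upwards [hh] with k h2 using by rw [h2])⟩

lemma Q_zero (e : ℕ) : Q e fun _ => 0 := by
  cases e with
  | zero => exact Eventually.of_forall fun _ => rfl
  | succ e => exact ⟨0, by simp [Lim]⟩

lemma Q_add {e : ℕ} {h h' : ℕ → ℕ} (H : Q e h) (H' : Q e h') : Q e fun k => h k + h' k := by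
  cases e with
  | zero => filter_upwards [H, H'] with k h1 h2 using by rw [h1, h2]
  | succ e =>
    obtain ⟨N, hN⟩ := H
    obtain ⟨N', hN'⟩ := H'
    refine ⟨N + N', ?_⟩
    have := Tendsto.add hN hN'
    rw [← Nat.cast_add] at this
    exact this.congr fun k => by push_cast; ring

lemma Q_sum {e : ℕ} {ι : Type} (s : Finset ι) (h : ι → ℕ → ℕ) (H : ∀ i ∈ s, Q e (h i)) :
    Q e fun k => ∑ i ∈ s, h i k := by
  classical
  induction s using Finset.induction_on with
  | empty => simpa using Q_zero e
  | insert a s ha ih =>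
    simp only [sum_insert ha]
    exact Q_add (H a (mem_insert_self _ _)) (ih fun i hi => H i (mem_insert_of_mem hi))

lemma Q_sub {e : ℕ} {h : ℕ → ℕ} (H : Q e h) (j : ℕ) : Q e fun k => h (k - j) := by
  cases e with
  | zero => exact (tendsto_sub_atTop_nat j).eventually H
  | succ e => exact H.imp fun N hN => hN.sub j

lemma Q_cum {e : ℕ} {h : ℕ → ℕ} (H : Q e h) : Q (e + 1) fun k => ∑ i ∈ range k, h i := by
  cases e with
  | zero =>
    obtain ⟨K, hK⟩ := eventually_atTop.mp H
    refine ⟨∑ i ∈ range K, h i, tendsto_const_nhds.congr' ?_⟩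
    filter_upwards [eventually_ge_atTop K] with k hk
    obtain ⟨j, rfl⟩ := Nat.exists_eq_add_of_le hk
    rw [sum_range_add, sum_eq_zero (s := range j) fun i _ => hK _ (by omega)]
    simp
  | succ e => exact H.imp fun N hN => hN.cum

open Classical in
noncomputable def cnt {s : ℕ} (D : Set (Fin s → ℕ)) (k : ℕ) : ℕ :=
  ((piAntidiag univ k).filter fun a => a ∈ D).card

def Rank {s : ℕ} (D : Set (Fin s → ℕ)) (e : ℕ) : Prop :=
  ∀ (a : Fin s → ℕ) (U : Finset (Fin s)), (∀ x : Fin s → ℕ, (∀ i ∉ U, x i = 0) → a + x ∈ D) →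
    U.card ≤ e

lemma cnt_cons {s : ℕ} (D : Set (Fin (s + 1) → ℕ)) (k : ℕ) :
    cnt D k = ∑ j ∈ range (k + 1), cnt {x | Fin.cons j x ∈ D} (k - j) := by
  classical
  unfold cnt
  rw [card_eq_sum_card_fiberwise (f := fun a => a 0) (t := range (k + 1))]
  · refine sum_congr rfl fun j hj => ?_
    have hj' := mem_range.mp hj
    symm
    refine card_bij (fun x _ => Fin.cons j x) ?_ ?_ ?_
    · intro x hx
      simp only [mem_filter, mem_piAntidiag, mem_univ, implies_true, and_true, Set.mem_ofPred_eq,
        Fin.sum_univ_succ, Fin.cons_zero, Fin.cons_succ] at hx ⊢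
      exact ⟨by have : ∑ i, x i = k - j := hx.1
                omega, hx.2⟩
    · intro x _ y _ h
      exact Fin.cons_right_injective _ h
    · intro a ha
      simp only [mem_filter, mem_piAntidiag, mem_univ, implies_true, and_true,
        Fin.sum_univ_succ] at ha
      refine ⟨Fin.tail a, ?_, by rw [← ha.2, Fin.cons_self_tail]⟩
      simp only [mem_filter, mem_piAntidiag, mem_univ, implies_true, and_true, Set.mem_ofPred_eq]
      rw [← ha.2, Fin.cons_self_tail]
      exact ⟨by simp only [Fin.tail]; omega, ha.1.2⟩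
  · intro a ha
    simp only [coe_filter, mem_piAntidiag, mem_univ, implies_true, and_true, Fin.sum_univ_succ,
      Set.mem_ofPred_eq] at ha
    simp only [coe_range, Set.mem_Iio]; omega

theorem growth (s : ℕ) : ∀ (D : Set (Fin s → ℕ)) (e : ℕ), IsLowerSet D → Rank D e →
    Q e (cnt D) := by
  induction s with
  | zero =>
    classical
    intro D e _ _
    refine Q_congr (Q_zero e) ?_
    filter_upwards [eventually_gt_atTop 0] with k hk
    symm
    unfold cnt
    rw [card_eq_zero, filter_eq_empty_iff]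
    intro a ha
    simp at ha; omega
  | succ s ih =>
    intro D e hD hR
    let S : ℕ → Set (Fin s → ℕ) := fun j => {x | Fin.cons j x ∈ D}
    have hle : ∀ {i j : ℕ} {x y : Fin s → ℕ}, i ≤ j → x ≤ y → y ∈ S j → x ∈ S i :=
      fun hij hxy h => hD (Fin.cons_le_cons.mpr ⟨hij, hxy⟩) h
    have hlow : ∀ j, IsLowerSet (S j) := fun j x y h => hle le_rfl h
    obtain ⟨J, hJ⟩ : ∃ J, ∀ j ≥ J, S j = S J := by
      by_contra hcon
      push Not at hcon
      choose f hf1 hf2 using hcon
      have : ∀ J, ∃ x ∈ S J, x ∉ S (f J) := fun J => by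
        by_contra h
        push Not at h
        exact hf2 J (Set.Subset.antisymm (fun x hx => hle (hf1 J) le_rfl hx) h)
      choose x hx1 hx2 using this
      obtain ⟨a, b, hab, h⟩ := wellQuasiOrdered_le fun n => x (f^[n] 0)
      refine hx2 _ (hle ?_ h (hx1 _))
      rw [← Function.iterate_succ_apply' f]
      exact monotone_nat_of_le_succ (f := fun n => f^[n] 0)
        (fun n => by rw [Function.iterate_succ_apply']; exact hf1 _) hab
    have hcons : ∀ (j i : ℕ) (a x : Fin s → ℕ), (Fin.cons j a : Fin (s + 1) → ℕ) + Fin.cons i x =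
        Fin.cons (j + i) (a + x) := fun j i a x => by
      funext l; refine Fin.cases ?_ (fun l => ?_) l <;> simp
    have hr : ∀ j, Rank (S j) e := by
      intro j a U hU
      rw [← card_map (Fin.succEmb s)]
      refine hR (Fin.cons j a) _ fun x hx => ?_
      rw [← Fin.cons_self_tail x, hcons, hx 0 (by simp)]
      exact hU _ fun i hi => hx _ (by simpa using hi)
    have hr' : ∀ (a : Fin s → ℕ) (U : Finset (Fin s)),
        (∀ x : Fin s → ℕ, (∀ i ∉ U, x i = 0) → a + x ∈ S J) → U.card + 1 ≤ e := by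
      intro a U hU
      rw [← card_map (Fin.succEmb s), ← card_insert_of_notMem (a := 0) (by simp)]
      refine hR (Fin.cons J a) _ fun x hx => ?_
      rw [← Fin.cons_self_tail x, hcons]
      have := hU (Fin.tail x) fun i hi => hx _ (by simpa [Fin.succ_ne_zero] using hi)
      rwa [← hJ (J + x 0) (by omega)] at this
    have h1 : Q e fun k => ∑ j ∈ range (J + 1), cnt (S j) (k - j) :=
      Q_sum _ _ fun j _ => Q_sub (ih _ _ (hlow j) (hr j)) j
    have h2 : Q e fun k => ∑ i ∈ range k, cnt (S J) i := by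
      cases e with
      | zero =>
        have : S J = ∅ := Set.eq_empty_of_forall_notMem fun a ha => by
          have := hr' a ∅ fun x hx => by
            have : x = 0 := funext fun i => hx i (by simp)
            rwa [this, add_zero]
          omega
        simpa [this, cnt] using Q_zero 0
      | succ e => exact Q_cum (ih _ _ (hlow J) fun a U hU => by have := hr' a U hU; omega)
    refine Q_congr (Q_add h1 (Q_sub h2 J)) ?_
    filter_upwards [eventually_ge_atTop J] with k hk
    obtain ⟨m, rfl⟩ := Nat.exists_eq_add_of_le hk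
    rw [cnt_cons, show J + m + 1 = J + 1 + m by ring, sum_range_add _ (J + 1) m,
      Nat.add_sub_cancel_left, ← sum_range_reflect (fun i => cnt (S J) i) m]
    congr 1
    refine sum_congr rfl fun i hi => ?_
    have := mem_range.mp hi
    rw [← hJ (J + 1 + i) (by omega)]
    congr 1; omega

theorem module_growth {E : Type} [AddCommGroup E] {s t : ℕ} (w : Fin s → E) (f : Fin t → E)
    (kf : Fin t → ℕ) (e : ℕ)
    (hrank : ∀ U : Finset (Fin s), LinearIndependent ℤ (fun i : U => w i) → U.card ≤ e)
    (hdeg : ∀ j j' (a a' : Fin s → ℕ), f j + ∑ i, a i • w i = f j' + ∑ i, a' i • w i →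
      kf j + ∑ i, a i = kf j' + ∑ i, a' i) :
    Q e fun k => {y | ∃ j, ∃ a : Fin s → ℕ, kf j + ∑ i, a i = k ∧ y = f j + ∑ i, a i • w i}.ncard := by
  classical
  let R : Fin t → (Fin s → ℕ) → E := fun j a => f j + ∑ i, a i • w i
  have hR : ∀ j a b, R j (a + b) = R j a + ∑ i, b i • w i := fun j a b => by
    simp only [R, Pi.add_apply, add_smul, sum_add_distrib, add_assoc]
  let key : Fin t → (Fin s → ℕ) → Fin t ×ₗ Lex (Fin s → ℕ) := fun j a => toLex (j, toLex a)
  have hkey : ∀ j a j' a', key j a = key j' a' → j = j' ∧ a = a' := fun j a j' a' h => by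
    simpa [key] using h
  let D : Fin t → Set (Fin s → ℕ) := fun j => {a | ∀ j' a', R j' a' = R j a → key j a ≤ key j' a'}
  have hinj : ∀ j a j' a', a ∈ D j → a' ∈ D j' → R j a = R j' a' → j = j' ∧ a = a' :=
    fun j a j' a' h1 h2 h => hkey _ _ _ _ (le_antisymm (h1 _ _ h.symm) (h2 _ _ h))
  have hlow : ∀ j, IsLowerSet (D j) := by
    intro j a b hba ha j' b' h
    obtain ⟨c, rfl⟩ := exists_add_of_le hba
    have := ha j' (b' + c) (by rw [hR, hR, h])
    simp only [key, Prod.Lex.toLex_le_toLex] at this ⊢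
    refine this.imp_right fun h => ⟨h.1, ?_⟩
    exact le_of_add_le_add_right (a := toLex c) (b := toLex b) (c := toLex b') h.2
  have hrk : ∀ j, Rank (D j) e := by
    intro j a U hU
    refine hrank U (Fintype.linearIndependent_iff.mpr fun c hc => ?_)
    let c' : Fin s → ℤ := fun i => if h : i ∈ U then c ⟨i, h⟩ else 0
    have h0 : ∑ i, c' i • w i = 0 := by
      rw [← hc, ← sum_subset (subset_univ U) (fun i _ hi => by simp [c', hi]), ← sum_coe_sort]
      exact sum_congr rfl fun i _ => by simp [c']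
    have h1 := hinj j (a + fun i => (c' i).toNat) j (a + fun i => (-c' i).toNat)
      (hU _ fun i hi => by simp [c', hi]) (hU _ fun i hi => by simp [c', hi]) (by
        rw [hR, hR, add_right_inj, ← sub_eq_zero, ← sum_sub_distrib, ← h0]
        refine sum_congr rfl fun i _ => ?_
        rw [← natCast_zsmul, ← natCast_zsmul, ← sub_smul, Int.toNat_sub_toNat_neg])
    intro i
    have h2 := congrFun (add_left_cancel h1.2) i
    have h3 : c' i = c i := by simp [c']
    simp only [h3] at h2
    omega
  refine Q_congr (Q_sum univ (fun j k => cnt (D j) (k - kf j)) fun j _ =>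
    Q_sub (growth s _ e (hlow j) (hrk j)) _) ?_
  filter_upwards [eventually_ge_atTop (∑ j, kf j)] with k hk
  have hk' : ∀ j, kf j ≤ k := fun j =>
    (single_le_sum (f := kf) (fun _ _ => Nat.zero_le _) (mem_univ j)).trans hk
  unfold cnt
  rw [← card_sigma, ← card_image_of_injOn (f := fun p => R p.1 p.2), ← Set.ncard_coe_finset]
  · congr 1
    ext y
    simp only [coe_image, Set.mem_image, mem_coe, mem_sigma, mem_univ, true_and, mem_filter,
      mem_piAntidiag, implies_true, and_true, Set.mem_ofPred_eq]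
    constructor
    · rintro ⟨⟨j, a⟩, ⟨h1, -⟩, rfl⟩
      have h1' : ∑ i, a i = k - kf j := h1
      exact ⟨j, a, by have := hk' j; omega, rfl⟩
    · rintro ⟨j, a, h1, h2⟩
      obtain ⟨p, hp, hmin⟩ := exists_min_image (((univ : Finset (Fin t)).sigma fun j =>
        piAntidiag univ (k - kf j)).filter fun p => R p.1 p.2 = y) (fun p => key p.1 p.2)
        ⟨⟨j, a⟩, by
          simp only [mem_filter, mem_sigma, mem_univ, true_and, mem_piAntidiag, implies_true,
            and_true]
          exact ⟨by show ∑ i, a i = k - kf j; omega, h2.symm⟩⟩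
      simp only [mem_filter, mem_sigma, mem_univ, true_and, mem_piAntidiag, implies_true,
        and_true] at hp hmin
      refine ⟨p, ⟨hp.1, fun j' a' h => hmin ⟨j', a'⟩ ⟨?_, h.trans hp.2⟩⟩, hp.2⟩
      have := hdeg _ _ _ _ ((h.trans hp.2).trans h2)
      show ∑ i, a' i = k - kf j'
      omega
  · rintro ⟨j, a⟩ h1 ⟨j', a'⟩ h2 h
    simp only [coe_sigma, Set.mem_sigma_iff, mem_coe, mem_filter] at h1 h2
    obtain ⟨rfl, rfl⟩ := hinj _ _ _ _ h1.2.2 h2.2.2 h
    rfl

end Pool.Agent.H12.DownSet
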