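import Mathlib

set_option autoImplicit false

namespace Pool.Agent.H12.Energy

open Finset

abbrev T3 := ℕ × ℕ × ℕ

def box (L : ℕ) : Finset T3 := range L ×ˢ range L ×ˢ range L

def sq3 (x : T3) : ℕ := x.1 ^ 2 + x.2.1 ^ 2 + x.2.2 ^ 2

lemma fiber (L A : ℕ) (a1 a2 a3 : ℤ) (hA : a1.natAbs = A) (hA0 : 0 < A) (hL : A ≤ L) (α u v : ℤ)
    (hb : a1 * α + a2 * u + a3 * v = 1) (s : Finset T3) (hs : s ⊆ box L)
    (h : ∀ y ∈ s, ∀ y' ∈ s, a1 * y.1 + a2 * y.2.1 + a3 * y.2.2 =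
      a1 * y'.1 + a2 * y'.2.1 + a3 * y'.2.2) :
    (s.card : ℝ) * A ≤ 4 * L ^ 2 := by
  have h1 : s.card ≤ (range (L / A + 1) ×ˢ range (L / A + 1) ×ˢ range A).card := by
    refine card_le_card_of_injOn
      (fun y => (y.2.1 / A, y.2.2 / A, ((v * y.2.1 - u * y.2.2) % (A : ℤ)).toNat)) ?_ ?_
    · intro y hy
      have := hs hy
      simp only [box, mem_product, mem_range] at this
      simp only [coe_product, Set.mem_prod, mem_coe, mem_range]
      have hA' : (0 : ℤ) < A := by exact_mod_cast hA0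
      refine ⟨Nat.lt_succ_of_le (Nat.div_le_div_right this.2.1.le),
        Nat.lt_succ_of_le (Nat.div_le_div_right this.2.2.le), ?_⟩
      have := Int.emod_lt_of_pos (v * y.2.1 - u * y.2.2) hA'
      omega
    · rintro ⟨y1, y2, y3⟩ hy ⟨z1, z2, z3⟩ hz e
      have hA' : (0 : ℤ) < A := by exact_mod_cast hA0
      simp only [Prod.mk.injEq] at e
      obtain ⟨e1, e2, e3⟩ := e
      have e4 : (v * y2 - u * y3) % (A : ℤ) = (v * z2 - u * z3) % (A : ℤ) := by
        have b1 := Int.emod_nonneg (v * y2 - u * y3) hA'.ne'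
        have b2 := Int.emod_nonneg (v * z2 - u * z3) hA'.ne'
        omega
      have hd : (A : ℤ) ∣ (v * y2 - u * y3) - (v * z2 - u * z3) :=
        Int.ModEq.dvd e4.symm
      have hd' : a1 ∣ (v * y2 - u * y3) - (v * z2 - u * z3) := by
        rw [← hA] at hd; exact Int.natAbs_dvd.mp hd
      obtain ⟨k, hk⟩ := hd'
      have hh := h _ hy _ hz
      simp only at hh
      have d2 : (A : ℤ) ∣ (y2 : ℤ) - z2 := by
        rw [← hA, Int.natAbs_dvd]
        exact ⟨α * (y2 - z2) - u * (y1 - z1) + a3 * k, by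
          linear_combination (-(y2 - z2 : ℤ)) * hb + u * hh + a3 * hk⟩
      have d3 : (A : ℤ) ∣ (y3 : ℤ) - z3 := by
        rw [← hA, Int.natAbs_dvd]
        exact ⟨α * (y3 - z3) - v * (y1 - z1) - a2 * k, by
          linear_combination (-(y3 - z3 : ℤ)) * hb + v * hh - a2 * hk⟩
      have key : ∀ p q : ℕ, p / A = q / A → (A : ℤ) ∣ (p : ℤ) - q → p = q := by
        intro p q h1 h2
        have h3 : q ≡ p [MOD A] := (Nat.modEq_iff_dvd).mpr h2
        rw [← Nat.div_add_mod p A, ← Nat.div_add_mod q A, h1, h3]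
      have f2 := key _ _ e1 d2
      have f3 := key _ _ e2 d3
      subst f2 f3
      have ha : a1 ≠ 0 := by rintro rfl; simp at hA; omega
      have f1 : a1 * y1 = a1 * z1 := by linarith
      have f1' : (y1 : ℤ) = z1 := mul_left_cancel₀ ha f1
      have : y1 = z1 := by exact_mod_cast f1'
      rw [this]
  simp only [card_product, card_range] at h1
  have h2 : (L / A + 1) * A ≤ 2 * L := by
    have := Nat.div_mul_le_self L A
    nlinarith
  have h3 : s.card * A ≤ 4 * L ^ 2 := by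
    calc s.card * A ≤ (L / A + 1) * ((L / A + 1) * A) * A := by gcongr
      _ = ((L / A + 1) * A) ^ 2 := by ring
      _ ≤ (2 * L) ^ 2 := by gcongr
      _ = _ := by ring
  exact_mod_cast h3

def En (L : ℕ) : Finset (T3 × T3) := (box L ×ˢ box L).filter fun p => sq3 p.1 = sq3 p.2

open Classical in
noncomputable def Fib (L g : ℕ) (a : ℤ × ℤ × ℤ) : Finset (T3 × T3) :=
  (En L).filter fun p => (p.1.1 : ℤ) - p.2.1 = g * a.1 ∧ (p.1.2.1 : ℤ) - p.2.2.1 = g * a.2.1 ∧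
    (p.1.2.2 : ℤ) - p.2.2.2 = g * a.2.2 ∧ ∃ α u v : ℤ, a.1 * α + a.2.1 * u + a.2.2 * v = 1

lemma mem_Fib {L g : ℕ} {a : ℤ × ℤ × ℤ} {p : T3 × T3} : p ∈ Fib L g a ↔ p ∈ En L ∧
    (p.1.1 : ℤ) - p.2.1 = g * a.1 ∧ (p.1.2.1 : ℤ) - p.2.2.1 = g * a.2.1 ∧
    (p.1.2.2 : ℤ) - p.2.2.2 = g * a.2.2 ∧ ∃ α u v : ℤ, a.1 * α + a.2.1 * u + a.2.2 * v = 1 := by
  classical
  unfold Fib
  convert mem_filter

lemma fib_le (L g A : ℕ) (hg : 0 < g) (a : ℤ × ℤ × ℤ) (hA : a.1.natAbs = A) (hA0 : 0 < A)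
    (hL : A ≤ L) : ((Fib L g a).card : ℝ) * A ≤ 4 * L ^ 2 := by
  rcases (Fib L g a).eq_empty_or_nonempty with h0 | ⟨p0, hp0⟩
  · rw [h0]; simp
  obtain ⟨α, u, v, hb⟩ := (mem_Fib.mp hp0).2.2.2.2
  have hinj : Set.InjOn Prod.snd (Fib L g a : Set (T3 × T3)) := by
    rintro ⟨⟨x1, x2, x3⟩, y⟩ h1 ⟨⟨z1, z2, z3⟩, y'⟩ h2 e
    simp only at e
    subst e
    obtain ⟨_, b1, b2, b3, _⟩ := mem_Fib.mp h1
    obtain ⟨_, c1, c2, c3, _⟩ := mem_Fib.mp h2
    simp only at b1 b2 b3 c1 c2 c3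
    have : x1 = z1 := by omega
    have : x2 = z2 := by omega
    have : x3 = z3 := by omega
    subst_vars; rfl
  rw [← card_image_of_injOn hinj]
  have key : ∀ y ∈ (Fib L g a).image Prod.snd, y ∈ box L ∧
      2 * (a.1 * y.1 + a.2.1 * y.2.1 + a.2.2 * y.2.2) =
        -(g * (a.1 ^ 2 + a.2.1 ^ 2 + a.2.2 ^ 2)) := by
    intro y hy
    obtain ⟨⟨x, y'⟩, hp, rfl⟩ := mem_image.mp hy
    obtain ⟨b0, b1, b2, b3, _⟩ := mem_Fib.mp hp
    obtain ⟨b4, b5⟩ := mem_filter.mp b0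
    refine ⟨(mem_product.mp b4).2, ?_⟩
    simp only [sq3] at b1 b2 b3 b5 ⊢
    have b6 : (x.1 : ℤ) ^ 2 + x.2.1 ^ 2 + x.2.2 ^ 2 = y'.1 ^ 2 + y'.2.1 ^ 2 + y'.2.2 ^ 2 := by
      exact_mod_cast b5
    have hg' : (g : ℤ) ≠ 0 := by exact_mod_cast hg.ne'
    apply mul_left_cancel₀ hg'
    have c1 : (x.1 : ℤ) = y'.1 + g * a.1 := by linarith
    have c2 : (x.2.1 : ℤ) = y'.2.1 + g * a.2.1 := by linarith
    have c3 : (x.2.2 : ℤ) = y'.2.2 + g * a.2.2 := by linarith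
    rw [c1, c2, c3] at b6
    linear_combination b6
  refine fiber L A a.1 a.2.1 a.2.2 hA hA0 hL α u v hb _ (fun y hy => (key y hy).1) ?_
  intro y hy y' hy'
  have := (key y hy).2
  have := (key y' hy').2
  linarith

def F1 (L : ℕ) : Finset (T3 × T3) := (En L).filter fun p => p.1.1 ≠ p.2.1 ∧
  |(p.1.2.1 : ℤ) - p.2.2.1| ≤ |(p.1.1 : ℤ) - p.2.1| ∧ |(p.1.2.2 : ℤ) - p.2.2.2| ≤ |(p.1.1 : ℤ) - p.2.1|

noncomputable def cube (A : ℕ) : Finset (ℤ × ℤ × ℤ) :=
  ({(A : ℤ), -(A : ℤ)} : Finset ℤ) ×ˢ Icc (-A : ℤ) A ×ˢ Icc (-A : ℤ) A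

lemma F1_sub (L : ℕ) : F1 L ⊆ (Icc 1 L).biUnion fun g => (Icc 1 (L / g)).biUnion fun A =>
    (cube A).biUnion fun a => Fib L g a := by
  rintro ⟨⟨x1, x2, x3⟩, ⟨y1, y2, y3⟩⟩ hp
  obtain ⟨h0, h1, h2, h3⟩ := mem_filter.mp hp
  simp only at h1 h2 h3
  have hb := (mem_filter.mp h0).1
  simp only [box, mem_product, mem_range] at hb
  set a1 : ℤ := x1 - y1 with ha1
  set a2 : ℤ := x2 - y2 with ha2
  set a3 : ℤ := x3 - y3 with ha3
  have hne : a1 ≠ 0 := by omega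
  set g := Int.gcd a1 (Int.gcd a2 a3) with hg
  have hg0 : 0 < g := Int.gcd_pos_of_ne_zero_left _ hne
  obtain ⟨b1, e1⟩ : (g : ℤ) ∣ a1 := Int.gcd_dvd_left _ _
  obtain ⟨b2, e2⟩ : (g : ℤ) ∣ a2 := (Int.gcd_dvd_right _ _).trans (Int.gcd_dvd_left _ _)
  obtain ⟨b3, e3⟩ : (g : ℤ) ∣ a3 := (Int.gcd_dvd_right _ _).trans (Int.gcd_dvd_right _ _)
  have hg' : (0 : ℤ) < g := by exact_mod_cast hg0
  have hb1 : b1 ≠ 0 := by rintro rfl; simp at e1; exact hne e1
  have hab : g * b1.natAbs ≤ L := by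
    have : a1.natAbs = g * b1.natAbs := by rw [e1, Int.natAbs_mul]; simp
    omega
  have hb1' : 0 < b1.natAbs := Int.natAbs_pos.mpr hb1
  have q2 : |b2| ≤ |b1| := by
    rw [e1, e2, abs_mul, abs_mul, abs_of_pos hg'] at h2
    exact le_of_mul_le_mul_left h2 hg'
  have q3 : |b3| ≤ |b1| := by
    rw [e1, e3, abs_mul, abs_mul, abs_of_pos hg'] at h3
    exact le_of_mul_le_mul_left h3 hg'
  simp only [mem_biUnion]
  refine ⟨g, mem_Icc.mpr ⟨hg0, by nlinarith⟩, b1.natAbs, mem_Icc.mpr ⟨hb1', ?_⟩, (b1, b2, b3), ?_, ?_⟩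
  · rw [Nat.le_div_iff_mul_le hg0]; linarith
  · simp only [cube, mem_product, mem_insert, mem_singleton, mem_Icc, Int.natCast_natAbs]
    exact ⟨by rcases abs_choice b1 with h | h <;> omega, abs_le.mp q2, abs_le.mp q3⟩
  · refine mem_Fib.mpr ⟨h0, e1, e2, e3, ?_⟩
    have z1 := Int.gcd_eq_gcd_ab a1 (Int.gcd a2 a3)
    have z2 := Int.gcd_eq_gcd_ab a2 a3
    refine ⟨Int.gcdA a1 (Int.gcd a2 a3), Int.gcdA a2 a3 * Int.gcdB a1 (Int.gcd a2 a3),
      Int.gcdB a2 a3 * Int.gcdB a1 (Int.gcd a2 a3), ?_⟩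
    apply mul_left_cancel₀ hg'.ne'
    simp only
    rw [← hg] at z1
    linear_combination -z1 - Int.gcdA a1 (Int.gcd a2 a3) * e1 -
      Int.gcdB a1 (Int.gcd a2 a3) * z2 - Int.gcdA a2 a3 * Int.gcdB a1 (Int.gcd a2 a3) * e2 -
      Int.gcdB a2 a3 * Int.gcdB a1 (Int.gcd a2 a3) * e3

lemma inv_sq_sum (L : ℕ) : ∑ g ∈ Icc 1 L, (1 : ℝ) / g ^ 2 ≤ 2 := by
  have : ∀ n : ℕ, ∑ g ∈ Icc 1 (n + 1), (1 : ℝ) / g ^ 2 ≤ 2 - 1 / (n + 1) := by
    intro n
    induction n with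
    | zero => norm_num
    | succ n ih =>
      rw [sum_Icc_succ_top (by omega)]
      push_cast
      have h1 : (1 : ℝ) / (n + 1 + 1) ^ 2 ≤ 1 / (n + 1) - 1 / (n + 1 + 1) := by
        rw [div_sub_div _ _ (by positivity) (by positivity), div_le_div_iff₀ (by positivity) (by positivity)]
        nlinarith [(Nat.cast_nonneg n : (0 : ℝ) ≤ n)]
      linarith
  cases L with
  | zero => simp
  | succ n => exact (this n).trans (sub_le_self _ (by positivity))

lemma F1_le (L : ℕ) : ((F1 L).card : ℝ) ≤ 144 * L ^ 4 := by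
  have h1 := (card_le_card (F1_sub L)).trans (card_biUnion_le.trans (sum_le_sum fun g _ =>
    card_biUnion_le.trans (sum_le_sum fun A _ => card_biUnion_le)))
  have h2 : ((F1 L).card : ℝ) ≤ ∑ g ∈ Icc 1 L, ∑ A ∈ Icc 1 (L / g), ∑ a ∈ cube A,
      ((Fib L g a).card : ℝ) := by exact_mod_cast h1
  refine h2.trans ?_
  have h3 : ∀ g ∈ Icc 1 L, ∑ A ∈ Icc 1 (L / g), ∑ a ∈ cube A, ((Fib L g a).card : ℝ) ≤
      72 * L ^ 4 * (1 / g ^ 2) := by
    intro g hg
    have hg0 : 0 < g := (mem_Icc.mp hg).1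
    have hg' : (0 : ℝ) < g := by exact_mod_cast hg0
    have hq : ((L / g : ℕ) : ℝ) ≤ L / g := Nat.cast_div_le
    refine (sum_le_sum (g := fun _ => 72 * (L : ℝ) ^ 2 * (L / g)) fun A hA => ?_).trans ?_
    · obtain ⟨hA1, hA2⟩ := mem_Icc.mp hA
      have hA' : (1 : ℝ) ≤ A := by exact_mod_cast hA1
      have hA3 : (A : ℝ) ≤ L / g := le_trans (by exact_mod_cast hA2) hq
      refine (sum_le_sum (g := fun _ => 4 * (L : ℝ) ^ 2 / A) fun a ha => ?_).trans ?_
      · rw [le_div_iff₀ (by linarith)]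
        refine fib_le L g A hg0 a ?_ hA1 (hA2.trans (Nat.div_le_self _ _))
        have := (mem_product.mp ha).1
        simp only [mem_insert, mem_singleton] at this
        omega
      · rw [sum_const, nsmul_eq_mul]
        have c1 : (cube A).card ≤ 2 * ((2 * A + 1) * (2 * A + 1)) := by
          simp only [cube, card_product, Int.card_Icc]
          have : ((A : ℤ) + 1 - -A).toNat = 2 * A + 1 := by omega
          rw [this]
          gcongr
          exact card_le_two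
        have c2 : ((cube A).card : ℝ) ≤ 18 * A ^ 2 := by
          have : ((cube A).card : ℝ) ≤ 2 * ((2 * A + 1) * (2 * A + 1)) := by exact_mod_cast c1
          nlinarith
        calc _ ≤ (18 * A ^ 2 : ℝ) * (4 * (L : ℝ) ^ 2 / A) := by gcongr
          _ = 72 * (L : ℝ) ^ 2 * A := by field_simp; ring
          _ ≤ _ := by gcongr
    · rw [sum_const, nsmul_eq_mul, Nat.card_Icc, Nat.add_sub_cancel]
      calc _ ≤ (L / g : ℝ) * (72 * (L : ℝ) ^ 2 * (L / g)) := by gcongr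
        _ = _ := by field_simp
  refine (sum_le_sum h3).trans ?_
  rw [← mul_sum]
  have := inv_sq_sum L
  have h4 : (0 : ℝ) ≤ 72 * L ^ 4 := by positivity
  nlinarith

def sw2 (x : T3) : T3 := (x.2.1, x.1, x.2.2)
def sw3 (x : T3) : T3 := (x.2.2, x.2.1, x.1)

theorem energy (L : ℕ) : ((En L).card : ℝ) ≤ 433 * L ^ 4 := by
  have h1 : En L ⊆ (box L).image (fun x => (x, x)) ∪ (F1 L ∪ ((F1 L).image (Prod.map sw2 sw2) ∪
      (F1 L).image (Prod.map sw3 sw3))) := by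
    rintro ⟨⟨x1, x2, x3⟩, ⟨y1, y2, y3⟩⟩ hp
    have hp' := hp
    simp only [En, box, sq3, mem_filter, mem_product, mem_range] at hp'
    simp only [mem_union, mem_image]
    by_cases c0 : x1 = y1 ∧ x2 = y2 ∧ x3 = y3
    · left
      obtain ⟨rfl, rfl, rfl⟩ := c0
      exact ⟨_, (mem_product.mp (mem_filter.mp hp).1).1, rfl⟩
    right
    by_cases c1 : |(x2 : ℤ) - y2| ≤ |(x1 : ℤ) - y1| ∧ |(x3 : ℤ) - y3| ≤ |(x1 : ℤ) - y1|
    · left
      refine mem_filter.mpr ⟨hp, ?_, c1.1, c1.2⟩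
      rintro (rfl : x1 = y1)
      simp only [sub_self, abs_zero, abs_nonpos_iff] at c1
      omega
    right
    by_cases c2 : |(x3 : ℤ) - y3| ≤ |(x2 : ℤ) - y2|
    · left
      refine ⟨((x2, x1, x3), (y2, y1, y3)), ?_, rfl⟩
      simp only [F1, En, box, sq3, mem_filter, mem_product, mem_range]
      refine ⟨⟨by tauto, by omega⟩, ?_, by omega, c2⟩
      rintro rfl
      simp only [sub_self, abs_zero, abs_nonpos_iff, abs_nonneg, true_and, not_le] at c1 c2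
      rw [c2, abs_zero] at c1
      exact absurd c1 (not_lt.mpr (abs_nonneg _))
    · right
      refine ⟨((x3, x2, x1), (y3, y2, y1)), ?_, rfl⟩
      simp only [F1, En, box, sq3, mem_filter, mem_product, mem_range]
      refine ⟨⟨by tauto, by omega⟩, ?_, by omega, by omega⟩
      rintro rfl
      simp at c2
  have h2 := (card_le_card h1).trans ((card_union_le _ _).trans (add_le_add card_image_le
    ((card_union_le _ _).trans (add_le_add le_rfl ((card_union_le _ _).trans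
      (add_le_add card_image_le card_image_le))))))
  have h3 : ((En L).card : ℝ) ≤ (box L).card + ((F1 L).card + ((F1 L).card + (F1 L).card)) := by
    exact_mod_cast h2
  have h4 : ((box L).card : ℝ) ≤ L ^ 4 := by
    simp only [box, card_product, card_range]
    have : L * (L * L) ≤ L ^ 4 := by
      rcases Nat.eq_zero_or_pos L with rfl | h
      · simp
      · calc L * (L * L) = L ^ 3 := by ring
          _ ≤ L ^ 4 := Nat.pow_le_pow_right h (by norm_num)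
    exact_mod_cast this
  linarith [F1_le L]

end Pool.Agent.H12.Energy
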