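import Mathlib

set_option autoImplicit false

namespace Pool.Agent.H12.Frac

open Finset Polynomial Matrix

variable {V : Type} [Fintype V] [DecidableEq V]

omit [DecidableEq V] in
theorem sum_eval (W : Matrix V V ℝ) (lam : V → ℝ) (a x : V) (P : ℝ[X]) (n : ℕ)
    (hn : P.natDegree < n) : ∑ l, W x l * P.eval (lam l) * W a l =
      ∑ i ∈ range n, P.coeff i * ∑ l, W x l * lam l ^ i * W a l := by
  simp only [eval_eq_sum_range' hn, Finset.mul_sum, Finset.sum_mul]
  rw [Finset.sum_comm]
  refine Finset.sum_congr rfl fun i _ => Finset.sum_congr rfl fun l _ => by ring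

theorem orth_zero (W : Matrix V V ℝ) (h : Wᵀ * W = 1) (c : V → ℝ)
    (hc : ∀ x, ∑ l, W x l * c l = 0) (m : V) : c m = 0 := by
  have h1 : W *ᵥ c = 0 := funext hc
  have : (Wᵀ * W) *ᵥ c = 0 := by rw [← mulVec_mulVec, h1, mulVec_zero]
  rw [h, one_mulVec] at this
  exact congrFun this m

theorem rat_core (W : Matrix V V ℝ) (h : Wᵀ * W = 1) (lam : V → ℝ) (a : V)
    (mom : ∀ k x, ∃ n : ℤ, ∑ l, W x l * lam l ^ k * W a l = n) (q : ℝ) (hq : q ≠ 0) (k : V → ℕ)
    (hk : ∀ l, W a l ≠ 0 → lam l = k l * q) (hne : ∃ l, W a l ≠ 0 ∧ k l ≠ 0) (z : V → ℝ)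
    (hz : ∀ l, W a l ≠ 0 → z l = (-1) ^ k l) (x : V) :
    ∃ r : ℚ, ∑ l, W x l * z l * W a l = r := by
  classical
  choose m hm using mom
  obtain ⟨N, hN⟩ : ∃ N : Finset ℕ, N = (univ.filter fun l => W a l ≠ 0).image k := ⟨_, rfl⟩
  have memN : ∀ l, W a l ≠ 0 → k l ∈ N := fun l hl => by
    rw [hN]; exact mem_image_of_mem _ (by simpa using hl)
  obtain ⟨l0, hl0, hk0⟩ := hne
  have hq' : ∃ ρ : ℚ, q = ρ := by
    obtain ⟨φ, hφ⟩ := (LinearMap.toSpanSingleton ℚ ℝ 1).exists_leftInverse_of_injective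
      (LinearMap.ker_toSpanSingleton ℚ one_ne_zero)
    have φ1 : φ 1 = 1 := by simpa using LinearMap.congr_fun hφ 1
    obtain ⟨P, hP⟩ : ∃ P : ℝ[X], P = ∏ n ∈ N, (X - C ((n : ℝ) * q)) := ⟨_, rfl⟩
    have Pm : P.Monic := hP ▸ monic_prod_of_monic _ _ fun _ _ => monic_X_sub_C _
    have Pd : P.natDegree = N.card := by
      rw [hP, natDegree_prod_of_monic _ _ fun _ _ => monic_X_sub_C _]
      simp only [natDegree_X_sub_C, sum_const, smul_eq_mul, mul_one]
    have Pz : ∀ n ∈ N, P.eval ((n : ℝ) * q) = 0 := fun n hn => by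
      rw [hP, eval_prod]
      exact prod_eq_zero hn (by simp)
    obtain ⟨P', hP'⟩ : ∃ P' : ℝ[X],
        P' = ∑ i ∈ range (N.card + 1), monomial i ((φ (P.coeff i) : ℚ) : ℝ) := ⟨_, rfl⟩
    have co : ∀ i, P'.coeff i = ((φ (P.coeff i) : ℚ) : ℝ) := fun i => by
      rw [hP', finsetSum_coeff]
      simp only [coeff_monomial, sum_ite_eq', mem_range]
      split_ifs with hi
      · rfl
      · rw [coeff_eq_zero_of_natDegree_lt (by omega)]
        simp
    have P'd : P'.natDegree < N.card + 1 := by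
      rw [Nat.lt_succ_iff, natDegree_le_iff_coeff_eq_zero]
      intro i hi
      rw [co, coeff_eq_zero_of_natDegree_lt (by omega)]
      simp
    have P'z : ∀ l, P'.eval (lam l) * W a l = 0 := by
      refine orth_zero W h _ fun x => ?_
      have e1 : ∑ l, W x l * P.eval (lam l) * W a l = 0 := by
        refine sum_eq_zero fun l _ => ?_
        by_cases hl : W a l = 0
        · simp [hl]
        · rw [hk l hl, Pz _ (memN l hl)]
          simp
      rw [sum_eval W lam a x P (N.card + 1) (by omega)] at e1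
      simp only [hm] at e1
      have e2 := congrArg φ e1
      rw [map_sum, map_zero] at e2
      simp only [← mul_assoc]
      rw [sum_eval W lam a x P' (N.card + 1) P'd]
      simp only [hm, co]
      have : ∀ i, φ (P.coeff i * (m i x : ℝ)) = φ (P.coeff i) * (m i x : ℚ) := fun i => by
        rw [mul_comm, ← zsmul_eq_mul, map_zsmul, zsmul_eq_mul, mul_comm]
      simp only [this] at e2
      exact_mod_cast congrArg (fun r : ℚ => (r : ℝ)) e2
    have inj : Function.Injective fun n : ℕ => (n : ℝ) * q := fun s t e => by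
      exact_mod_cast mul_right_cancel₀ hq e
    have E : P - P' = 0 := by
      refine eq_zero_of_degree_lt_of_eval_finset_eq_zero (N.image fun n : ℕ => (n : ℝ) * q) ?_ ?_
      · rw [card_image_of_injective _ inj, degree_lt_iff_coeff_zero]
        intro i hi
        rw [coeff_sub, co]
        rcases hi.lt_or_eq with hi | hi
        · rw [coeff_eq_zero_of_natDegree_lt (by omega)]
          simp
        · rw [← hi, ← Pd, Pm.coeff_natDegree, φ1]
          simp
      · intro y hy
        obtain ⟨n, hn, rfl⟩ := mem_image.1 hy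
        rw [eval_sub, Pz n hn]
        rw [hN] at hn
        obtain ⟨l, hl, rfl⟩ := mem_image.1 hn
        have hl' : W a l ≠ 0 := by simpa using hl
        have := P'z l
        rw [hk l hl'] at this
        rw [(mul_eq_zero.1 this).resolve_right hl']
        simp
    have c1 := co (N.card - 1)
    rw [← sub_eq_zero.1 E] at c1
    have c2 : P.coeff (N.card - 1) = -∑ n ∈ N, (n : ℝ) * q := by
      rw [hP]
      exact prod_X_sub_C_coeff_card_pred N _ (card_pos.2 ⟨_, memN l0 hl0⟩)
    have pos : (0 : ℝ) < ((∑ n ∈ N, n : ℕ) : ℝ) := by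
      have := single_le_sum (f := fun n : ℕ => n) (fun _ _ => Nat.zero_le _) (memN l0 hl0)
      exact_mod_cast (by omega : 0 < ∑ n ∈ N, n)
    refine ⟨-φ (P.coeff (N.card - 1)) / (∑ n ∈ N, n : ℕ), ?_⟩
    rw [Rat.cast_div, Rat.cast_neg, ← c1, c2, ← Finset.sum_mul, Rat.cast_natCast]
    rw [eq_div_iff pos.ne']
    push_cast
    ring
  obtain ⟨ρ, rfl⟩ := hq'
  have hρ : ρ ≠ 0 := by exact_mod_cast hq
  obtain ⟨Q, hQ⟩ : ∃ Q : ℚ[X], ∀ n ∈ N, Q.eval ((n : ℚ) * ρ) = (-1) ^ n :=
    ⟨Lagrange.interpolate N (fun n : ℕ => (n : ℚ) * ρ) fun n => (-1) ^ n, fun n hn =>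
      Lagrange.eval_interpolate_at_node _ (fun s _ t _ e => by
        have e' : (s : ℚ) * ρ = t * ρ := e
        exact_mod_cast mul_right_cancel₀ hρ e') hn⟩
  have e : ∑ l, W x l * z l * W a l =
      ∑ l, W x l * (Q.map (algebraMap ℚ ℝ)).eval (lam l) * W a l := by
    refine sum_congr rfl fun l _ => ?_
    by_cases hl : W a l = 0
    · simp [hl]
    · rw [hz l hl, hk l hl]
      have : ((k l : ℝ) * (ρ : ℝ)) = algebraMap ℚ ℝ ((k l : ℚ) * ρ) := by simp
      rw [this, eval_map_algebraMap, aeval_algebraMap_apply, coe_aeval_eq_eval,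
        hQ _ (memN l hl)]
      simp
  rw [e, sum_eval W lam a x _ _ (Nat.lt_succ_self _)]
  refine ⟨∑ i ∈ range (Q.map (algebraMap ℚ ℝ)).natDegree.succ, Q.coeff i * (m i x : ℚ), ?_⟩
  simp [hm]

theorem spec (A : Matrix V V ℝ) (hA : A.IsHermitian) : ∃ (W : Matrix V V ℝ) (θ : V → ℝ),
    W * Wᵀ = 1 ∧ Wᵀ * W = 1 ∧ A = W * diagonal θ * Wᵀ := by
  refine ⟨hA.eigenvectorUnitary, hA.eigenvalues, ?_, ?_, ?_⟩
  · simpa [star_eq_conjTranspose] using (Unitary.coe_mul_star_self hA.eigenvectorUnitary)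
  · simpa [star_eq_conjTranspose] using (Unitary.coe_star_mul_self hA.eigenvectorUnitary)
  · have := hA.spectral_theorem
    simpa [Unitary.conjStarAlgAut_apply, star_eq_conjTranspose] using this

theorem entry {R : Type} [CommRing R] (W : Matrix V V R) (d : V → R) (x y : V) :
    (W * diagonal d * Wᵀ) x y = ∑ l, W x l * d l * W y l := by
  simp [mul_apply, diagonal_apply]

theorem pow_entry (W : Matrix V V ℝ) (θ : V → ℝ) (h1 : W * Wᵀ = 1) (h2 : Wᵀ * W = 1) (k : ℕ)
    (x y : V) : ((W * diagonal θ * Wᵀ) ^ k) x y = ∑ l, W x l * θ l ^ k * W y l := by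
  have : (W * diagonal θ * Wᵀ) ^ k = W * diagonal (fun l => θ l ^ k) * Wᵀ := by
    induction k with
    | zero => simp [h1]
    | succ k ih =>
      rw [pow_succ, ih]
      calc _ = W * (diagonal (fun l => θ l ^ k) * (Wᵀ * W) * diagonal θ) * Wᵀ := by
            simp only [Matrix.mul_assoc]
        _ = _ := by rw [h2, Matrix.mul_one, diagonal_mul_diagonal]; simp only [pow_succ]
  rw [this, entry]

theorem exp_entry (W : Matrix V V ℝ) (θ : V → ℝ) (h1 : W * Wᵀ = 1) (c : ℂ) (x y : V) :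
    (NormedSpace.exp (c • (W * diagonal θ * Wᵀ).map (fun r : ℝ => (r : ℂ)))) x y =
      ∑ l, (W x l : ℂ) * Complex.exp (c * θ l) * W y l := by
  obtain ⟨Wc, hW⟩ : ∃ Wc : Matrix V V ℂ, Wc = W.map fun r : ℝ => (r : ℂ) := ⟨_, rfl⟩
  have e1 : Wc * Wcᵀ = 1 := by
    ext i j
    have := congrFun (congrFun h1 i) j
    simp only [mul_apply, transpose_apply, one_apply, hW, map_apply] at this ⊢
    have := congrArg (fun r : ℝ => (r : ℂ)) this
    push_cast at this
    rw [this]
    split_ifs <;> simp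
  have e2 : c • (W * diagonal θ * Wᵀ).map (fun r : ℝ => (r : ℂ)) =
      Wc * diagonal (fun l => c * θ l) * Wc⁻¹ := by
    rw [inv_eq_right_inv e1]
    ext i j
    rw [entry, Matrix.smul_apply, map_apply, entry]
    simp only [hW, map_apply, smul_eq_mul]
    push_cast
    rw [Finset.mul_sum]
    exact sum_congr rfl fun l _ => by ring
  have u : IsUnit Wc := (isUnit_iff_isUnit_det _).2 (isUnit_det_of_right_inverse e1)
  rw [e2, Matrix.exp_conj _ _ u, Matrix.exp_diagonal, inv_eq_right_inv e1, entry]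
  simp only [hW, map_apply, Pi.coe_exp, ← Complex.exp_eq_exp_ℂ]

theorem adj_del (M : Matrix V V ℝ) (a : V) :
    adjugate M a a = (toSquareBlockProp M fun v => v ≠ a).det := by
  rw [adjugate_apply, twoBlockTriangular_det _ (fun v => v ≠ a)]
  · have e1 : (toSquareBlockProp (M.updateRow a (Pi.single a 1)) fun v => v ≠ a) =
        toSquareBlockProp M fun v => v ≠ a := by
      ext ⟨i, hi⟩ ⟨j, hj⟩
      simp [toSquareBlockProp_def, updateRow_ne hi]
    have e2 : (toSquareBlockProp (M.updateRow a (Pi.single a 1)) fun v => ¬ v ≠ a) = 1 := by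
      ext ⟨i, hi⟩ ⟨j, hj⟩
      have hi' : i = a := by simpa using hi
      have hj' : j = a := by simpa using hj
      subst hi' hj'
      simp [toSquareBlockProp_def]
    rw [e1, e2, det_one, mul_one]
  · intro i hi j hj
    have hi' : i = a := by simpa using hi
    subst hi'
    simp [hj]

theorem cosp (W : Matrix V V ℝ) (θ : V → ℝ) (h1 : W * Wᵀ = 1) (h2 : Wᵀ * W = 1) (a b : V)
    (h : ∀ l, W a l ^ 2 = W b l ^ 2) :
    (toSquareBlockProp (W * diagonal θ * Wᵀ) fun v => v ≠ a).charpoly =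
      (toSquareBlockProp (W * diagonal θ * Wᵀ) fun v => v ≠ b).charpoly := by
  classical
  refine eq_of_infinite_eval_eq _ _ (Set.Infinite.mono (s := (Set.range θ)ᶜ) ?_
    (Set.finite_range θ).infinite_compl)
  intro t ht
  have ht' : ∀ l, t - θ l ≠ 0 := fun l e => ht ⟨l, by linarith⟩
  obtain ⟨M, hM⟩ : ∃ M, M = W * diagonal (fun l => t - θ l) * Wᵀ := ⟨_, rfl⟩
  have e0 : M = scalar V t - W * diagonal θ * Wᵀ := by
    have : diagonal (fun l => t - θ l) = t • (1 : Matrix V V ℝ) - diagonal θ := by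
      ext i j
      simp only [diagonal_apply, Matrix.sub_apply, Matrix.smul_apply, Matrix.one_apply]
      split_ifs <;> simp
    rw [hM, this, Matrix.mul_sub, Matrix.sub_mul, Matrix.mul_smul, Matrix.mul_one, Matrix.smul_mul,
      h1]
    congr 1
    ext i j
    simp [diagonal_apply, one_apply]
  have ev : ∀ c : V, (toSquareBlockProp (W * diagonal θ * Wᵀ) fun v => v ≠ c).charpoly.eval t =
      adjugate M c c := fun c => by
    rw [eval_charpoly, adj_del]
    congr 1
    ext ⟨i, hi⟩ ⟨j, hj⟩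
    simp [e0, toSquareBlockProp_def, diagonal_apply]
  have inv : M * (W * diagonal (fun l => (t - θ l)⁻¹) * Wᵀ) = 1 := by
    calc _ = W * (diagonal (fun l => t - θ l) * (Wᵀ * W) * diagonal fun l => (t - θ l)⁻¹) * Wᵀ := by
          simp only [hM, Matrix.mul_assoc]
      _ = _ := by
          rw [h2, Matrix.mul_one, diagonal_mul_diagonal]
          simp [ht', h1]
  have ad : adjugate M = M.det • (W * diagonal (fun l => (t - θ l)⁻¹) * Wᵀ) := by
    have := congrArg (fun N => adjugate M * N) inv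
    simp only [← Matrix.mul_assoc, adjugate_mul, Matrix.mul_one, Matrix.smul_mul,
      Matrix.one_mul] at this
    exact this.symm
  show _ = _
  rw [ev, ev, ad, Matrix.smul_apply, Matrix.smul_apply, entry, entry]
  congr 1
  refine sum_congr rfl fun l _ => ?_
  have := h l
  linear_combination (t - θ l)⁻¹ * this

end Pool.Agent.H12.Frac
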