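import Mathlib

set_option autoImplicit false

namespace Pool.Agent.H12.Generic

lemma exists_rec {α : Type*} [Inhabited α] (P : ℕ → (ℕ → α) → α → Prop)
    (h : ∀ n f, ∃ y, P n f y)
    (hc : ∀ n f f' y, (∀ k < n, f k = f' k) → P n f y → P n f' y) :
    ∃ g : ℕ → α, ∀ n, P n g (g n) := by
  classical
  choose F hF using h
  let G : ℕ → (ℕ → α) := fun n => Nat.rec (fun _ => default)
    (fun n Gn => Function.update Gn n (F n Gn)) n
  have hG : ∀ n, G (n + 1) = Function.update (G n) n (F n (G n)) := fun n => rfl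
  have key : ∀ n k, k < n → G n k = G (k + 1) k := by
    intro n
    induction n with
    | zero => intro k hk; omega
    | succ n ih =>
      intro k hk
      rcases Nat.lt_succ_iff_lt_or_eq.mp hk with h1 | h1
      · rw [hG, Function.update_of_ne (ne_of_lt h1), ih k h1]
      · subst h1; rfl
  refine ⟨fun k => G (k + 1) k, fun n => ?_⟩
  have h1 : G (n + 1) n = F n (G n) := by rw [hG, Function.update_self]
  show P n _ (G (n + 1) n)
  rw [h1]
  exact hc n (G n) _ _ (fun k hk => key n k hk) (hF n (G n))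

lemma generic {C J : Type} [Fintype C] [Fintype J] [Nonempty C] (μ : J → C → ℝ)
    (hμ : ∀ r, ∃ c, μ r c ≠ 0) (s : ℕ → ℝ) (hs : Function.Injective s) :
    ∃ T : C → Set ℝ, (∀ c t, ∃ k, t + s k ∈ T c) ∧
      ∀ r (u : C → ℝ), (∀ c, u c ∈ T c) → ∑ c, μ r c * u c ≠ 0 := by
  classical
  let A : Set ℝ := Set.range (fun p : J × C => μ p.1 p.2) ∪ Set.range s
  have hA : A.Countable := (Set.countable_range _).union (Set.countable_range _)
  let K : Subfield ℝ := Subfield.closure A
  have hK : Countable K := by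
    have h1 := Subfield.cardinalMk_closure_le_max A
    have h2 : Cardinal.mk A ≤ Cardinal.aleph0 := by
      rw [Cardinal.le_aleph0_iff_set_countable]; exact hA
    rw [← Cardinal.mk_le_aleph0_iff]
    exact h1.trans (max_le h2 le_rfl)
  obtain ⟨π, hπ⟩ := LinearMap.exists_leftInverse_of_injective (Algebra.linearMap K ℝ)
    (by rw [LinearMap.ker_eq_bot]; exact Subtype.val_injective)
  have hπ1 : ∀ x : K, π (x : ℝ) = x := fun x => by
    exact LinearMap.congr_fun hπ x
  have hμK : ∀ r c, μ r c ∈ K := fun r c =>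
    Subfield.subset_closure (Or.inl ⟨(r, c), rfl⟩)
  have hsK : ∀ k, s k ∈ K := fun k => Subfield.subset_closure (Or.inr ⟨k, rfl⟩)
  obtain ⟨e, he⟩ := exists_surjective_nat (C × K)
  let P : ℕ → (ℕ → ℝ) → ℝ → Prop := fun n f y =>
    (∃ k, y = ((e n).2 : ℝ) + s k) ∧
      ∀ r (w : C → ℝ), (∀ c, w c = 0 ∨ ∃ k < n, w c = f k) → μ r (e n).1 ≠ 0 →
        μ r (e n).1 * y + ∑ c, μ r c * w c ≠ 0
  obtain ⟨g, hg⟩ := exists_rec P (by
      intro n f
      let V : Finset ℝ := insert 0 ((Finset.range n).image f)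
      let Bad : Finset ℝ := ((Finset.univ : Finset J) ×ˢ Fintype.piFinset (fun _ : C => V)).image
        (fun q => -(∑ c, μ q.1 c * q.2 c) / μ q.1 (e n).1)
      have hinf : (Set.range (fun k => ((e n).2 : ℝ) + s k)).Infinite :=
        Set.infinite_range_of_injective (fun a b hab => hs (add_left_cancel hab))
      obtain ⟨y, ⟨k, hk⟩, hy⟩ := hinf.exists_notMem_finset Bad
      refine ⟨y, ⟨k, hk.symm⟩, fun r w hw h0 h1 => hy ?_⟩
      refine Finset.mem_image.mpr ⟨(r, w), ?_, ?_⟩
      · simp only [Finset.mem_product, Finset.mem_univ, true_and, Fintype.mem_piFinset]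
        intro c
        rcases hw c with h | ⟨k, hk, h⟩
        · simp [V, h]
        · simp only [V, Finset.mem_insert, Finset.mem_image, Finset.mem_range]
          exact Or.inr ⟨k, hk, h.symm⟩
      · field_simp
        linarith)
    (by
      rintro n f f' y hf ⟨h1, h2⟩
      refine ⟨h1, fun r w hw => h2 r w (fun c => ?_)⟩
      rcases hw c with h | ⟨k, hk, h⟩
      · exact Or.inl h
      · exact Or.inr ⟨k, hk, by rw [h, hf k hk]⟩)
  refine ⟨fun c => {u | ∃ n, (e n).1 = c ∧ ((π u : K) : ℝ) = g n}, ?_, ?_⟩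
  · intro c t
    obtain ⟨n, hn⟩ := he (c, π t)
    obtain ⟨k, hk⟩ := (hg n).1
    refine ⟨k, n, by rw [hn], ?_⟩
    have : π (s k) = ⟨s k, hsK k⟩ := hπ1 ⟨s k, hsK k⟩
    rw [map_add, this, hk, hn]
    rfl
  · intro r u hu hsum
    choose ν hν1 hν2 using hu
    obtain ⟨c0, hc0, hmax⟩ := Finset.exists_max_image
      (Finset.univ.filter (fun c => μ r c ≠ 0)) ν
      (by obtain ⟨c, hc⟩ := hμ r; exact ⟨c, by simpa using hc⟩)
    have hc0' : μ r c0 ≠ 0 := by simpa using hc0
    have hsum' : ∑ c, μ r c * g (ν c) = 0 := by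
      have h1 : π (∑ c, μ r c * u c) = ∑ c, (⟨μ r c, hμK r c⟩ : K) * π (u c) := by
        rw [map_sum]
        refine Finset.sum_congr rfl fun c _ => ?_
        rw [← smul_eq_mul (⟨μ r c, hμK r c⟩ : K), ← map_smul]
        rfl
      rw [hsum, map_zero] at h1
      have h2 := congrArg (fun x : K => (x : ℝ)) h1
      simp only [ZeroMemClass.coe_zero, AddSubmonoidClass.coe_finsetSum, MulMemClass.coe_mul] at h2
      rw [h2]
      exact Finset.sum_congr rfl fun c _ => by rw [hν2 c]
    have h3 := (hg (ν c0)).2 r (fun c => if μ r c ≠ 0 ∧ c ≠ c0 then g (ν c) else 0) (by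
      intro c
      by_cases hc : μ r c ≠ 0 ∧ c ≠ c0
      · right
        refine ⟨ν c, lt_of_le_of_ne (hmax c (by simpa using hc.1)) (fun h => hc.2 ?_), by simp [hc]⟩
        rw [← hν1 c, h, hν1 c0]
      · left; simp only [hc, if_false]) (by rw [hν1]; exact hc0')
    apply h3
    have h4 : ∑ c, μ r c * (if μ r c ≠ 0 ∧ c ≠ c0 then g (ν c) else 0)
        = ∑ c ∈ Finset.univ.erase c0, μ r c * g (ν c) := by
      rw [← Finset.add_sum_erase _ _ (Finset.mem_univ c0)]
      simp only [ne_eq, not_true_eq_false, and_false, if_false, mul_zero, zero_add]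
      refine Finset.sum_congr rfl fun c hc => ?_
      have := Finset.ne_of_mem_erase hc
      by_cases h : μ r c = 0 <;> simp [h, this]
    rw [hν1, h4, Finset.add_sum_erase _ (fun c => μ r c * g (ν c)) (Finset.mem_univ c0), hsum']

end Pool.Agent.H12.Generic
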