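import Pool.Agent.H12.SubCount
import Pool.Agent.H28.VecMat

set_option autoImplicit false

namespace Pool.Agent.H12.InvKL

open Finset Module Submodule Polynomial Pool.Agent.H12.SubCount
open Classical

instance : Fact (Nat.Prime 7) := ⟨by norm_num⟩

abbrev F := ZMod 7
/-- the ambient space -/
def V : Type := Fin 7 → F

instance : AddCommGroup V := inferInstanceAs (AddCommGroup (Fin 7 → F))
instance : Module F V := inferInstanceAs (Module F (Fin 7 → F))
instance : Finite V := inferInstanceAs (Finite (Fin 7 → F))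
noncomputable instance : Fintype V := Fintype.ofFinite V

@[simp] theorem add_ap (u v : V) (i : Fin 7) : (u + v) i = u i + v i := rfl
@[simp] theorem sub_ap (u v : V) (i : Fin 7) : (u - v) i = u i - v i := rfl
@[simp] theorem smul_ap (c : F) (v : V) (i : Fin 7) : (c • v) i = c * v i := rfl
@[simp] theorem zero_ap (i : Fin 7) : (0 : V) i = 0 := rfl

theorem rankV : finrank F V = 7 := by
  have : finrank F (Fin 7 → F) = 7 := by simp
  exact this

theorem cardF : Fintype.card F = 7 := ZMod.card 7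

theorem d_le (W : Submodule F V) : d W ≤ 7 := by
  have := Submodule.finrank_le W
  rwa [rankV] at this

theorem d_top : d (⊤ : Submodule F V) = 7 := by simp [d, rankV]

/-- characteristic polynomial of a projective geometry -/
noncomputable def ph : ℕ → ℤ[X]
  | 0 => 1
  | k + 1 => ph k * (X - 7 ^ k)

theorem gbv : ∀ n ≤ 7, ∀ j ≤ n, gb 7 n j = gb 7 n (n - j) := by decide +kernel

theorem idA (n : ℕ) (hn : n ≤ 7) :
    ∑ j ∈ range (n + 1), (gb 7 n j : ℤ[X]) * ph j = X ^ n := by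
  interval_cases n <;> simp [sum_range_succ, gb, up, ph] <;> ring

theorem idB (n : ℕ) (hn : n ≤ 7) :
    ∑ j ∈ range (n + 1), (gb 7 n j : ℤ[X]) * ph (n - j) = X ^ n := by
  rw [← idA n hn, ← sum_range_reflect]
  refine sum_congr rfl fun j hj => ?_
  simp only [mem_range] at hj
  have h1 : n + 1 - 1 - j = n - j := by omega
  rw [h1, ← gbv n hn j (by omega)]
  congr 2; omega

theorem idC (n : ℕ) (hn : n ≤ 7) (h0 : 0 < n) :
    ∑ j ∈ range (n + 1), (gb 7 n j : ℤ[X]) * ((-1) ^ j * 7 ^ ((n - j).choose 2)) = 0 := by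
  interval_cases n <;> simp [sum_range_succ, gb, up, Nat.choose] <;> norm_num

theorem sumA {K G : Submodule F V} (h : K ≤ G) :
    ∑ W ∈ I K G, ph (d W - d K) = X ^ (d G - d K) := by
  rw [sum_I h (fun w => ph (w - d K)), cardF, ← idA _ (by have := d_le G; omega)]
  simp

theorem sumB {K G : Submodule F V} (h : K ≤ G) :
    ∑ W ∈ I K G, ph (d G - d W) = X ^ (d G - d K) := by
  rw [sum_I h (fun w => ph (d G - w)), cardF, ← idB _ (by have := d_le G; omega)]
  simp [Nat.sub_sub]

theorem sumC {K G : Submodule F V} (h : K ≤ G) (h2 : d K < d G) :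
    ∑ W ∈ I K G, ((-1 : ℤ[X]) ^ (d W - d K) * 7 ^ ((d G - d W).choose 2)) = 0 := by
  rw [sum_I h (fun w => (-1 : ℤ[X]) ^ (w - d K) * 7 ^ ((d G - w).choose 2)), cardF,
    ← idC (d G - d K) (by have := d_le G; omega) (by omega)]
  simp [Nat.sub_sub]

/-- the plane at infinity -/
def Pl : Submodule F V where
  carrier := {v | v 0 = 0 ∧ v 1 = 0 ∧ v 2 = 0 ∧ v 3 = 0}
  add_mem' := by
    rintro a b ⟨h0, h1, h2, h3⟩ ⟨k0, k1, k2, k3⟩
    simp [h0, h1, h2, h3, k0, k1, k2, k3]
  zero_mem' := by simp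
  smul_mem' := by
    rintro c a ⟨h0, h1, h2, h3⟩
    simp [h0, h1, h2, h3]

theorem mem_Pl {v : V} : v ∈ Pl ↔ v 0 = 0 ∧ v 1 = 0 ∧ v 2 = 0 ∧ v 3 = 0 := Iff.rfl

/-- the grid -/
def grid (v : V) : Prop := v 0 ≠ 0 ∧ ∀ i, v i ≠ 2 * v 0 ∧ v i ≠ 3 * v 0

/-- deleted vectors -/
def dead (v : V) : Prop := v ∈ Pl ∨ grid v

theorem z1 : ∀ a b x : F, a ≠ 0 → x ≠ 0 → ∃ c : F, c ≠ 0 ∧
    (a + c * b = 2 * (c * x) ∨ a + c * b = 3 * (c * x)) := by decide +kernel

theorem z2 : ∀ a b x : F, b ≠ 0 → ∃ c : F, a + c * b = 2 * x := by decide +kernel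

theorem line {u x : V} (h : ∀ c : F, dead (u + c • x)) (hu : u ∉ span F {x}) : x ∈ Pl := by
  by_cases hx : x 0 = 0
  · by_cases hu0 : u 0 = 0
    · have h0 := h 0
      have h1 := h 1
      simp only [zero_smul, add_zero, one_smul] at h0 h1
      rcases h0 with h0 | h0
      · rcases h1 with h1 | h1
        · simpa using Pl.sub_mem h1 h0
        · exact absurd (by simp [hx, hu0]) h1.1
      · exact absurd hu0 h0.1
    · by_contra hx'
      have : ∃ i, x i ≠ 0 := by
        by_contra hc; push Not at hc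
        exact hx' (by rw [mem_Pl]; simp [hc])
      obtain ⟨i, hi⟩ := this
      obtain ⟨c, hc⟩ := z2 (u i) (x i) (u 0) hi
      rcases h c with h1 | h1
      · exact hu0 (by simpa [hx] using h1.1)
      · exact (h1.2 i).1 (by simpa [hx] using hc)
  · exfalso
    set u' := u - (u 0 / x 0) • x with hu'
    have h0 : u' 0 = 0 := by simp [hu', hx]
    have : ∃ i, u' i ≠ 0 := by
      by_contra hc; push Not at hc
      apply hu
      have : u = (u 0 / x 0) • x := by
        have : u' = 0 := funext hc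
        rw [hu', sub_eq_zero] at this; exact this
      rw [this]; exact smul_mem _ _ (subset_span rfl)
    obtain ⟨i, hi⟩ := this
    obtain ⟨c, hc0, hc⟩ := z1 (u' i) (x i) (x 0) hi hx
    have e : u + (c - u 0 / x 0) • x = u' + c • x := by rw [hu', sub_smul]; abel
    have h1 := h (c - u 0 / x 0)
    rw [e] at h1
    rcases h1 with h1 | h1
    · have := h1.1
      simp [h0, hc0, hx] at this
    · rcases hc with hc | hc
      · exact (h1.2 i).1 (by simpa [h0] using hc)
      · exact (h1.2 i).2 (by simpa [h0] using hc)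

/-- all vectors deleted -/
def Dead (W : Submodule F V) : Prop := ∀ v ∈ W, dead v

theorem Dead_bot : Dead ⊥ := by
  intro v hv; rw [mem_bot] at hv; rw [hv]; exact Or.inl Pl.zero_mem

theorem Dead.mono {K W : Submodule F V} (h : Dead W) (hK : K ≤ W) : Dead K :=
  fun v hv => h v (hK hv)

theorem span_live {W H : Submodule F V} (hW : ¬ Dead W) (hH : ∀ v ∈ W, ¬ dead v → v ∈ H) :
    W ≤ H := by
  unfold Dead at hW; push Not at hW
  obtain ⟨x, hxW, hx⟩ := hW
  intro u huW
  by_contra huH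
  have hxH := hH x hxW hx
  apply hx
  left
  refine line (u := u) (fun c => ?_) ?_
  · by_contra hc
    have := hH _ (W.add_mem huW (W.smul_mem c hxW)) hc
    exact huH (by simpa using H.sub_mem this (H.smul_mem c hxH))
  · intro h
    exact huH ((span_le.2 (by simpa using hxH) : span F {x} ≤ H) h)

/-- contribution of a deleted subspace of dimension `i` inside dimension `h` -/
noncomputable def pi (i h : ℕ) : ℤ[X] :=
  if 2 * i < h then X ^ i else if 2 * i = h then 0 else - X ^ (h - i)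

theorem pi_deg {i h : ℕ} (h0 : 0 < h) (hi : i ≤ h) : (pi i h).natDegree ≤ (h - 1) / 2 := by
  unfold pi
  split_ifs with h1 h2
  · rw [natDegree_X_pow]; omega
  · simp
  · rw [natDegree_neg, natDegree_X_pow]; omega

theorem pi_refl {i h : ℕ} (hi : i ≤ h) :
    reflect h (pi i h) = pi i h + (X ^ (h - i) - X ^ i) := by
  unfold pi
  split_ifs with h1 h2
  · rw [reflect_monomial, revAt_le hi]; ring
  · have : h - i = i := by omega
    rw [this]; simp
  · rw [reflect_neg, reflect_monomial, revAt_le (by omega)]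
    have : h - (h - i) = i := by omega
    rw [this]; ring

/-- deleted subspaces of `W` -/
noncomputable def D (W : Submodule F V) : Finset (Submodule F V) := (I ⊥ W).filter Dead
/-- surviving subspaces of `W` -/
noncomputable def L (W : Submodule F V) : Finset (Submodule F V) := (I ⊥ W).filter fun K => ¬ Dead K

@[simp] theorem mem_D {K W : Submodule F V} : K ∈ D W ↔ K ≤ W ∧ Dead K := by simp [D]
@[simp] theorem mem_L {K W : Submodule F V} : K ∈ L W ↔ K ≤ W ∧ ¬ Dead K := by simp [L]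

noncomputable def P0 (W : Submodule F V) : ℤ[X] := ∑ K ∈ D W, pi (d K) (d W)

noncomputable def ch0 (W : Submodule F V) : ℤ[X] := ∑ K ∈ D W, ph (d W - d K)

noncomputable def Q0 (W : Submodule F V) : ℤ[X] :=
  - ∑ H ∈ L W, (-1) ^ d H * P0 H * 7 ^ ((d W - d H).choose 2)

theorem P0_deg {W : Submodule F V} (h : 0 < d W) : 2 * (P0 W).natDegree < d W := by
  have : (P0 W).natDegree ≤ (d W - 1) / 2 :=
    natDegree_sum_le_of_forall_le _ _ fun K hK => pi_deg h (d_mono (mem_D.1 hK).1)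
  omega

theorem reflect_sum' {ι : Type*} (s : Finset ι) (f : ι → ℤ[X]) (n : ℕ) :
    reflect n (∑ i ∈ s, f i) = ∑ i ∈ s, reflect n (f i) := by
  induction s using Finset.induction_on with
  | empty => simp
  | insert a s ha ih => rw [sum_insert ha, sum_insert ha, reflect_add, ih]

theorem swapD (G : Submodule F V) (f : Submodule F V → Submodule F V → ℤ[X]) :
    ∑ W ∈ I ⊥ G, ∑ K ∈ D W, f K W = ∑ K ∈ D G, ∑ W ∈ I K G, f K W := by
  refine sum_comm' fun W K => ?_
  simp only [mem_I, mem_D, bot_le, true_and]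
  constructor
  · rintro ⟨h1, h2, h3⟩; exact ⟨⟨h2, h1⟩, h2.trans h1, h3⟩
  · rintro ⟨⟨h1, h2⟩, -, h3⟩; exact ⟨h2, h1, h3⟩

theorem D_dead {W : Submodule F V} (h : Dead W) : D W = I ⊥ W := by
  ext K; simp only [mem_D, mem_I, bot_le, true_and]
  exact ⟨fun h1 => h1.1, fun h1 => ⟨h1, h.mono h1⟩⟩

theorem d_bot : d (⊥ : Submodule F V) = 0 := by simp [d]

theorem split (G : Submodule F V) (f : Submodule F V → ℤ[X]) :
    ∑ W ∈ L G, f W = ∑ W ∈ I ⊥ G, f W - ∑ W ∈ D G, f W := by
  rw [← sum_filter_add_sum_filter_not (I ⊥ G) Dead f]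
  simp [L, D]

theorem P0_refl (G : Submodule F V) :
    reflect (d G) (P0 G) = P0 G + ∑ W ∈ L G, ch0 W := by
  rw [split]
  unfold ch0
  rw [swapD G (fun K W => ph (d W - d K))]
  have h1 : ∑ K ∈ D G, ∑ W ∈ I K G, ph (d W - d K) = ∑ K ∈ D G, X ^ (d G - d K) :=
    sum_congr rfl fun K hK => sumA (mem_D.1 hK).1
  have h2 : ∑ W ∈ D G, ∑ K ∈ D W, ph (d W - d K) = ∑ W ∈ D G, X ^ (d W) :=
    sum_congr rfl fun W hW => by
      rw [D_dead (mem_D.1 hW).2, sumB bot_le, d_bot, Nat.sub_zero]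
  rw [h1, h2, P0, reflect_sum', ← sum_sub_distrib, ← sum_add_distrib]
  exact sum_congr rfl fun K hK => pi_refl (d_mono (mem_D.1 hK).1)

theorem idD (n : ℕ) (hn : n ≤ 7) :
    ∑ j ∈ range (n + 1), (gb 7 n j : ℤ[X]) * pi j n = 0 := by
  interval_cases n <;> simp [sum_range_succ, gb, up, pi]

theorem P0_dead {W : Submodule F V} (h : Dead W) : P0 W = 0 := by
  rw [P0, D_dead h, sum_I bot_le (fun k => pi k (d W)), cardF, d_bot, ← idD (d W) (d_le W)]
  simp

/-- total contribution of a deleted subspace of dimension `i` -/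
noncomputable def cc (i : ℕ) : ℤ[X] :=
  - ∑ j ∈ range (7 - i + 1), (gb 7 (7 - i) j : ℤ[X]) *
    ((-1) ^ (i + j) * pi i (i + j) * 7 ^ ((7 - (i + j)).choose 2))

theorem Q0_top : Q0 ⊤ = ∑ K ∈ D ⊤, cc (d K) := by
  rw [Q0, split]
  have h2 : ∑ H ∈ D ⊤, (-1 : ℤ[X]) ^ d H * P0 H * 7 ^ ((d (⊤ : Submodule F V) - d H).choose 2)
      = 0 := sum_eq_zero fun H hH => by rw [P0_dead (mem_D.1 hH).2]; simp
  rw [h2, sub_zero]
  simp only [P0, mul_sum, sum_mul]
  rw [swapD ⊤ (fun K H => (-1 : ℤ[X]) ^ d H * pi (d K) (d H) *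
    7 ^ ((d (⊤ : Submodule F V) - d H).choose 2)), ← sum_neg_distrib]
  refine sum_congr rfl fun K _ => ?_
  rw [sum_I le_top (fun h => (-1 : ℤ[X]) ^ h * pi (d K) h *
    7 ^ ((d (⊤ : Submodule F V) - h).choose 2)), cardF, d_top, cc]

end Pool.Agent.H12.InvKL
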