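import Pool.Agent.H12.InvKL

set_option autoImplicit false

namespace Pool.Agent.H12.InvKL

open Finset Module Submodule Polynomial Pool.Agent.H12.SubCount
open Classical

/-- normalised grid vectors -/
noncomputable def Gr : Finset V := univ.filter fun v => v 0 = 1 ∧ ∀ i, v i ≠ 2 ∧ v i ≠ 3

theorem card_Gr : Gr.card = 15625 := by
  have : Gr = Fintype.piFinset fun i : Fin 7 =>
      if i = 0 then ({1} : Finset F) else {0, 1, 4, 5, 6} := by
    ext v
    simp only [Gr, mem_filter, mem_univ, true_and]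
    refine Iff.trans ?_ Fintype.mem_piFinset.symm
    have z : ∀ a : F, (a ≠ 2 ∧ a ≠ 3) ↔ a ∈ ({0, 1, 4, 5, 6} : Finset F) := by decide +kernel
    constructor
    · rintro ⟨h0, h1⟩ i
      split_ifs with hi
      · rw [hi, h0]; simp
      · exact (z _).1 (h1 i)
    · intro h
      have h0 : v 0 = 1 := by simpa using h 0
      refine ⟨h0, fun i => ?_⟩
      by_cases hi : i = 0
      · rw [hi, h0]; decide
      · have := h i
        rw [if_neg hi] at this
        exact (z _).2 this
  rw [this]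
  refine (Fintype.card_piFinset _).trans ?_
  have : ({0, 1, 4, 5, 6} : Finset F).card = 5 := by decide +kernel
  simp [Fin.prod_univ_succ, this, apply_ite Finset.card]

theorem d_Pl : d Pl = 3 := by
  have h := card_sub (F := F) Pl
  rw [cardF] at h
  have : (univ.filter fun v : V => v ∈ Pl) = Fintype.piFinset fun i : Fin 7 =>
      if i.val < 4 then ({0} : Finset F) else univ := by
    ext v
    simp only [mem_filter, mem_univ, true_and, mem_Pl]
    refine Iff.trans ?_ Fintype.mem_piFinset.symm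
    constructor
    · rintro ⟨h0, h1, h2, h3⟩ i
      fin_cases i <;> simp [h0, h1, h2, h3]
    · intro h
      exact ⟨by simpa using h 0, by simpa using h 1, by simpa using h 2, by simpa using h 3⟩
  rw [this] at h
  replace h := (Fintype.card_piFinset _).symm.trans h
  simp [Fin.prod_univ_succ, apply_ite Finset.card] at h
  have h3 : 7 ^ 3 = 7 ^ d Pl := by rw [← h]; norm_num
  exact (Nat.pow_right_injective (by norm_num) h3).symm

theorem D_top : D ⊤ = I ⊥ Pl ∪ Gr.image fun v => span F {v} := by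
  ext K
  simp only [mem_D, le_top, true_and, mem_union, mem_I, bot_le, mem_image]
  constructor
  · intro hK
    by_cases h : K ≤ Pl
    · exact Or.inl h
    · right
      obtain ⟨x, hxK, hx⟩ := SetLike.not_le_iff_exists.1 h
      have hg : grid x := (hK x hxK).resolve_left hx
      have h0 := hg.1
      refine ⟨(x 0)⁻¹ • x, ?_, ?_⟩
      · simp only [Gr, mem_filter, mem_univ, true_and, smul_ap]
        refine ⟨inv_mul_cancel₀ h0, fun i => ⟨fun e => (hg.2 i).1 ?_, fun e => (hg.2 i).2 ?_⟩⟩
        · rw [← e]; field_simp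
        · rw [← e]; field_simp
      · rw [span_singleton_smul_eq (by simpa using h0)]
        apply le_antisymm
        · rw [span_le]; simpa using hxK
        · intro u hu
          by_contra hc
          exact hx (line (fun c => hK _ (K.add_mem hu (K.smul_mem c hxK))) hc)
  · rintro (h | ⟨v, hv, rfl⟩)
    · exact fun v hv => Or.inl (h hv)
    · intro u hu
      obtain ⟨c, rfl⟩ := mem_span_singleton.1 hu
      by_cases hc : c = 0
      · rw [hc, zero_smul]; exact Or.inl Pl.zero_mem
      · simp only [Gr, mem_filter, mem_univ, true_and] at hv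
        right
        refine ⟨by simp [hv.1, hc], fun i => ⟨fun e => (hv.2 i).1 ?_, fun e => (hv.2 i).2 ?_⟩⟩
        · simp only [smul_ap, hv.1] at e
          exact mul_left_cancel₀ hc (by rw [e]; ring)
        · simp only [smul_ap, hv.1] at e
          exact mul_left_cancel₀ hc (by rw [e]; ring)

theorem cc0 : cc 0 = (558545864083284007) * X ^ 0 := by
  simp [sum_range_succ, gb, up, cc, pi, Nat.choose]
  try ring

theorem cc1 : cc 1 = (-4747561509943) * X ^ 0 + (791213172449) * X ^ 1 := by
  simp [sum_range_succ, gb, up, cc, pi, Nat.choose]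
  try ring

theorem cc2 : cc 2 = (282475249) * X ^ 0 + (-329534849) * X ^ 1 + (977550) * X ^ 2 := by
  simp [sum_range_succ, gb, up, cc, pi, Nat.choose]
  try ring

theorem cc3 : cc 3 = (-117649) * X ^ 0 + (137200) * X ^ 1 + (-19950) * X ^ 2 + (1) * X ^ 3 := by
  simp [sum_range_succ, gb, up, cc, pi, Nat.choose]
  try ring

theorem mem_Gr {v : V} : v ∈ Gr ↔ v 0 = 1 ∧ ∀ i, v i ≠ 2 ∧ v i ≠ 3 := by
  simp only [Gr, mem_filter, mem_univ, true_and]

theorem inj_Gr : ∀ u ∈ Gr, ∀ v ∈ Gr, span F {u} = span F {v} → u = v := by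
  intro u hu v hv h
  rw [mem_Gr] at hu hv
  have : u ∈ span F {v} := by
    rw [← h]; exact subset_span rfl
  obtain ⟨c, rfl⟩ := mem_span_singleton.1 this
  have : c = 1 := by simpa [hv.1] using hu.1
  rw [this, one_smul]

theorem disj_Gr : Disjoint (I ⊥ Pl) (Gr.image fun v => span F {v}) := by
  rw [disjoint_left]
  intro K h1 h2
  rw [mem_I] at h1
  rw [mem_image] at h2
  obtain ⟨v, hv, rfl⟩ := h2
  rw [mem_Gr] at hv
  have := (mem_Pl.1 (h1.2 (subset_span rfl))).1
  rw [hv.1] at this
  exact one_ne_zero this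

theorem sum_Gr (f : ℕ → ℤ[X]) :
    ∑ K ∈ Gr.image (fun v => span F {v}), f (d K) = (Gr.card : ℤ[X]) * f 1 := by
  rw [sum_image (fun u hu v hv h => inj_Gr u hu v hv h), ← nsmul_eq_mul, ← sum_const]
  refine sum_congr rfl fun v hv => ?_
  rw [mem_Gr] at hv
  rw [d, finrank_span_singleton]
  intro h; rw [h] at hv; simp at hv

theorem sum_Pl (f : ℕ → ℤ[X]) :
    ∑ K ∈ I ⊥ Pl, f (d K) = f 0 + 57 * f 1 + 57 * f 2 + f 3 := by
  rw [sum_I bot_le f, cardF, d_bot, d_Pl]
  have g1 : gb 7 3 0 = 1 := rfl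
  have g2 : gb 7 3 1 = 57 := by decide +kernel
  have g3 : gb 7 3 2 = 57 := by decide +kernel
  have g4 : gb 7 3 3 = 1 := by decide +kernel
  simp only [sum_range_succ, Nat.sub_zero, range_zero, sum_empty, zero_add, g1, g2, g3, g4]
  push_cast
  ring

theorem num : cc 0 + 57 * cc 1 + 57 * cc 2 + cc 3 + ((15625 : ℕ) : ℤ[X]) * cc 1 =
    484094620585329425 + 12407786186996025 * X + 55700400 * X ^ 2 + X ^ 3 := by
  rw [cc0, cc1, cc2, cc3, Nat.cast_ofNat]
  ring

theorem sum_top (f : ℕ → ℤ[X]) : ∑ K ∈ D ⊤, f (d K) =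
    f 0 + 57 * f 1 + 57 * f 2 + f 3 + ((15625 : ℕ) : ℤ[X]) * f 1 := by
  have h1 := sum_union (f := fun K => f (d K)) disj_Gr
  have h2 := sum_Gr f
  have h3 := sum_Pl f
  have h4 : (Gr.card : ℤ[X]) = ((15625 : ℕ) : ℤ[X]) := congrArg Nat.cast card_Gr
  rw [D_top, h1, h2, h3, h4]

theorem Q0_val : Q0 ⊤ = 484094620585329425 + 12407786186996025 * X + 55700400 * X ^ 2 + X ^ 3 :=
  Q0_top.trans ((sum_top cc).trans num)

end Pool.Agent.H12.InvKL
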