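import Pool.Agent.H12.InvKL2

set_option autoImplicit false

namespace Pool.Agent.H12.InvKL

open Finset Module Submodule Polynomial Pool.Agent.H12.SubCount Pool.Agent.H28
open Classical

/-- number of surviving vectors -/
noncomputable def n : ℕ := Fintype.card {v : V // ¬ dead v}

/-- enumeration of the surviving vectors -/
noncomputable def e (i : Fin n) : V := ((Fintype.equivFin {v : V // ¬ dead v}).symm i).1

theorem e_live (i : Fin n) : ¬ dead (e i) := ((Fintype.equivFin {v : V // ¬ dead v}).symm i).2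

theorem e_surj {v : V} (h : ¬ dead v) : ∃ i, e i = v :=
  ⟨Fintype.equivFin {v : V // ¬ dead v} ⟨v, h⟩, by simp [e]⟩

/-- the matroid -/
noncomputable def M : Matroid (Fin n) := VecMat.vec F e

theorem M_E : M.E = Set.univ := rfl

theorem M_rep (J : Set (Fin n)) : M.Indep J ↔ LinearIndepOn F e J ∧ J ⊆ M.E := by
  simp [M]

/-- span of a set of elements -/
noncomputable def sp (A : Finset (Fin n)) : Submodule F V := span F (e '' (A : Set (Fin n)))

/-- elements in a subspace -/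
noncomputable def fl (W : Submodule F V) : Finset (Fin n) := univ.filter fun i => e i ∈ W

@[simp] theorem mem_fl {W : Submodule F V} {i : Fin n} : i ∈ fl W ↔ e i ∈ W := by simp [fl]

theorem sp_le {A : Finset (Fin n)} {W : Submodule F V} : sp A ≤ W ↔ A ⊆ fl W := by
  rw [sp, span_le]
  constructor
  · intro h i hi; exact mem_fl.2 (h ⟨i, hi, rfl⟩)
  · rintro h _ ⟨i, hi, rfl⟩; exact mem_fl.1 (h hi)

theorem sub_fl (A : Finset (Fin n)) : A ⊆ fl (sp A) := sp_le.1 le_rfl

theorem fl_mono {K W : Submodule F V} (h : K ≤ W) : fl K ⊆ fl W :=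
  fun _ hi => mem_fl.2 (h (mem_fl.1 hi))

theorem sp_mono {A B : Finset (Fin n)} (h : A ⊆ B) : sp A ≤ sp B := sp_le.2 (h.trans (sub_fl B))

theorem rk (A : Finset (Fin n)) : (M.eRk (A : Set (Fin n))).toNat = d (sp A) := by
  rw [VecMat.eRk_eq_of_rep M_rep (Set.subset_univ _) (Set.toFinite _)]
  simp [sp]

theorem flat_iff {A : Finset (Fin n)} : M.IsFlat (A : Set (Fin n)) ↔ fl (sp A) = A := by
  rw [Matroid.isFlat_iff_closure_eq]
  have : M.closure (A : Set (Fin n)) = (fl (sp A) : Set (Fin n)) := by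
    ext i
    rw [VecMat.mem_closure_iff_of_rep M_rep (Set.subset_univ _)]
    simp [sp, M_E]
  rw [this, coe_inj]

theorem fl_empty {W : Submodule F V} : fl W = ∅ ↔ Dead W := by
  constructor
  · intro h v hv
    by_contra hc
    obtain ⟨i, rfl⟩ := e_surj hc
    have := mem_fl.2 hv
    rw [h] at this; simp at this
  · intro h
    rw [eq_empty_iff_forall_notMem]
    intro i hi
    exact e_live i (h _ (mem_fl.1 hi))

theorem sp_fl {W : Submodule F V} (h : ¬ Dead W) : sp (fl W) = W := by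
  apply le_antisymm (sp_le.2 (Subset.refl _))
  refine span_live h fun v hv hd => ?_
  obtain ⟨i, rfl⟩ := e_surj hd
  exact mem_fl.1 (sub_fl _ (mem_fl.2 hv))

theorem sp_empty : sp ∅ = ⊥ := by simp [sp]

theorem live_sp {A : Finset (Fin n)} (h : A ≠ ∅) : ¬ Dead (sp A) := by
  intro hd
  have := sub_fl A
  rw [fl_empty.2 hd] at this
  exact h (subset_empty.1 this)

theorem flat_fl {W : Submodule F V} (h : ¬ Dead W) : M.IsFlat (fl W : Set (Fin n)) := by
  rw [flat_iff, sp_fl h]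

theorem flat_empty : M.IsFlat ((∅ : Finset (Fin n)) : Set (Fin n)) := by
  rw [flat_iff, sp_empty, fl_empty]; exact Dead_bot

/-- flats between two sets -/
noncomputable def Fl (A B : Finset (Fin n)) : Finset (Finset (Fin n)) :=
  univ.filter fun H : Finset (Fin n) => M.IsFlat (H : Set (Fin n)) ∧ A ⊆ H ∧ H ⊆ B

theorem mem_Fl {A B H : Finset (Fin n)} :
    H ∈ Fl A B ↔ M.IsFlat (H : Set (Fin n)) ∧ A ⊆ H ∧ H ⊆ B := by simp [Fl]

theorem sum_Fl {R : Type*} [AddCommMonoid R] {A B : Finset (Fin n)} (hA : A ≠ ∅)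
    (hB : M.IsFlat (B : Set (Fin n))) (f : Finset (Fin n) → R) :
    ∑ H ∈ Fl A B, f H = ∑ W ∈ I (sp A) (sp B), f (fl W) := by
  rw [flat_iff] at hB
  have hl : ∀ W ∈ I (sp A) (sp B), ¬ Dead W := fun W hW hd =>
    live_sp hA (hd.mono (mem_I.1 hW).1)
  refine sum_nbij' sp fl ?_ ?_ ?_ ?_ ?_
  · intro H hH
    rw [mem_Fl] at hH
    exact mem_I.2 ⟨sp_mono hH.2.1, sp_mono hH.2.2⟩
  · intro W hW
    have h1 := mem_I.1 hW
    exact mem_Fl.2 ⟨flat_fl (hl W hW), sp_le.1 h1.1, hB ▸ fl_mono h1.2⟩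
  · intro H hH
    exact flat_iff.1 (mem_Fl.1 hH).1
  · intro W hW
    exact sp_fl (hl W hW)
  · intro H hH
    rw [flat_iff.1 (mem_Fl.1 hH).1]

theorem sum_Fl0 {R : Type*} [AddCommMonoid R] {B : Finset (Fin n)}
    (hB : M.IsFlat (B : Set (Fin n))) (f : Finset (Fin n) → R) :
    ∑ H ∈ Fl ∅ B, f H = f ∅ + ∑ W ∈ L (sp B), f (fl W) := by
  rw [flat_iff] at hB
  rw [← add_sum_erase _ _ (mem_Fl.2 ⟨flat_empty, Subset.refl _, empty_subset _⟩)]
  congr 1
  refine sum_nbij' sp fl ?_ ?_ ?_ ?_ ?_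
  · intro H hH
    rw [mem_erase, mem_Fl] at hH
    exact mem_L.2 ⟨sp_mono hH.2.2.2, live_sp hH.1⟩
  · intro W hW
    have h1 := mem_L.1 hW
    exact mem_erase.2 ⟨fun h => h1.2 (fl_empty.1 h),
      mem_Fl.2 ⟨flat_fl h1.2, empty_subset _, hB ▸ fl_mono h1.1⟩⟩
  · intro H hH
    exact flat_iff.1 (mem_Fl.1 (mem_erase.1 hH).2).1
  · intro W hW
    exact sp_fl (mem_L.1 hW).2
  · intro H hH
    rw [flat_iff.1 (mem_Fl.1 (mem_erase.1 hH).2).1]

/-- subset expansion of the characteristic polynomial of an interval -/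
noncomputable def chi (A H : Finset (Fin n)) : ℤ[X] :=
  ∑ T ∈ (H \ A).powerset, (-1 : ℤ[X]) ^ T.card * X ^ (d (sp H) - d (sp (T ∪ A)))

theorem alt (S : Finset (Fin n)) :
    ∑ T ∈ S.powerset, (-1 : ℤ[X]) ^ T.card = if S = ∅ then 1 else 0 := by
  have := congrArg (Int.cast : ℤ → ℤ[X]) (sum_powerset_neg_one_pow_card (x := S))
  push_cast at this
  rw [this]

theorem chi_eq {A H : Finset (Fin n)} (h : A ⊆ H) :
    chi A H = ∑ K ∈ (I (sp A) (sp H)).filter (fun K => (H \ A) ∩ fl K = ∅),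
      ph (d (sp H) - d K) := by
  have h1 : ∀ T ∈ (H \ A).powerset, (-1 : ℤ[X]) ^ T.card * X ^ (d (sp H) - d (sp (T ∪ A))) =
      ∑ K ∈ I (sp (T ∪ A)) (sp H), (-1 : ℤ[X]) ^ T.card * ph (d (sp H) - d K) := by
    intro T hT
    rw [← mul_sum, sumB]
    exact sp_mono (union_subset ((mem_powerset.1 hT).trans sdiff_subset) h)
  rw [chi, sum_congr rfl h1, sum_comm' (t' := I (sp A) (sp H))
    (s' := fun K => ((H \ A) ∩ fl K).powerset), sum_filter]
  · refine sum_congr rfl fun K _ => ?_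
    rw [← sum_mul, alt]
    split_ifs <;> simp
  · intro T K
    simp only [mem_powerset, mem_I, sp_le, union_subset_iff, subset_inter_iff]
    tauto

theorem chi_pos {A H : Finset (Fin n)} (hA : A ≠ ∅) (fA : M.IsFlat (A : Set (Fin n)))
    (fH : M.IsFlat (H : Set (Fin n))) (h : A ⊆ H) : chi A H = ph (d (sp H) - d (sp A)) := by
  rw [flat_iff] at fA fH
  rw [chi_eq h]
  have : (I (sp A) (sp H)).filter (fun K => (H \ A) ∩ fl K = ∅) = {sp A} := by
    ext K
    simp only [mem_filter, mem_I, mem_singleton]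
    constructor
    · rintro ⟨⟨h1, h2⟩, h3⟩
      have hK : ¬ Dead K := fun hd => live_sp hA (hd.mono h1)
      refine le_antisymm ?_ h1
      rw [← sp_fl hK]
      apply sp_mono
      intro i hi
      by_contra hc
      have : i ∈ (H \ A) ∩ fl K := mem_inter.2 ⟨mem_sdiff.2 ⟨fH ▸ fl_mono h2 hi, hc⟩, hi⟩
      rw [h3] at this; simp at this
    · rintro rfl
      refine ⟨⟨le_rfl, sp_mono h⟩, ?_⟩
      rw [fA]; simp
  rw [this, sum_singleton]

theorem chi_zero {H : Finset (Fin n)} (fH : M.IsFlat (H : Set (Fin n))) :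
    chi ∅ H = ch0 (sp H) := by
  rw [flat_iff] at fH
  rw [chi_eq (empty_subset _), ch0]
  refine sum_congr ?_ fun _ _ => rfl
  ext K
  simp only [mem_filter, mem_I, sp_empty, bot_le, true_and, mem_D, sdiff_empty]
  refine and_congr_right fun hK => ?_
  rw [← fl_empty, inter_eq_right.2 (fH ▸ fl_mono hK)]

theorem chi_00 : chi ∅ ∅ = 1 := by simp [chi]

/-- the Kazhdan-Lusztig polynomials -/
noncomputable def PP (A B : Finset (Fin n)) : ℤ[X] :=
  if A = ∅ ∧ B ≠ ∅ then P0 (sp B) else 1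

/-- the inverse Kazhdan-Lusztig polynomials -/
noncomputable def QQ (A B : Finset (Fin n)) : ℤ[X] :=
  if A = ∅ ∧ B ≠ ∅ then Q0 (sp B) else 7 ^ ((d (sp B) - d (sp A)).choose 2)

theorem diag (A : Finset (Fin n)) : PP A A = 1 ∧ QQ A A = 1 := by
  simp [PP, QQ]

theorem d_lt {A B : Finset (Fin n)} (fA : M.IsFlat (A : Set (Fin n))) (h : A ⊂ B) :
    d (sp A) < d (sp B) := by
  rw [flat_iff] at fA
  by_contra hc
  have := eq_of_d (sp_mono h.subset) (not_lt.1 hc)
  exact h.not_subset (by rw [← fA, this]; exact sub_fl B)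

theorem main {A B : Finset (Fin n)} (fA : M.IsFlat (A : Set (Fin n)))
    (fB : M.IsFlat (B : Set (Fin n))) (h : A ⊂ B) :
    2 * (PP A B).natDegree < d (sp B) - d (sp A) ∧
    reflect (d (sp B) - d (sp A)) (PP A B) = ∑ H ∈ Fl A B, chi A H * PP H B ∧
    ∑ H ∈ Fl A B, (-1 : ℤ[X]) ^ (d (sp H) - d (sp A)) * PP A H * QQ H B = 0 := by
  have hlt := d_lt fA h
  have hB : B ≠ ∅ := by rintro rfl; exact not_ssubset_empty _ h
  by_cases hA : A = ∅
  · subst hA
    rw [sp_empty, d_bot] at hlt ⊢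
    have hP : PP ∅ B = P0 (sp B) := by simp [PP, hB]
    rw [hP, Nat.sub_zero, sum_Fl0 fB, sum_Fl0 fB]
    refine ⟨P0_deg hlt, ?_, ?_⟩
    · rw [chi_00, hP, one_mul, P0_refl]
      congr 1
      refine sum_congr rfl fun W hW => ?_
      have hW := (mem_L.1 hW).2
      have h1 : fl W ≠ ∅ := fun h => hW (fl_empty.1 h)
      rw [chi_zero (flat_fl hW), sp_fl hW]
      simp [PP, h1]
    · have h1 : ∀ W ∈ L (sp B), (-1 : ℤ[X]) ^ (d (sp (fl W)) - 0) * PP ∅ (fl W) * QQ (fl W) B =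
          (-1) ^ d W * P0 W * 7 ^ ((d (sp B) - d W).choose 2) := by
        intro W hW
        have hW := (mem_L.1 hW).2
        have h1 : fl W ≠ ∅ := fun h => hW (fl_empty.1 h)
        simp [PP, QQ, h1, sp_fl hW]
      rw [sum_congr rfl h1]
      simp [PP, QQ, hB, sp_empty, d_bot, Q0]
  · have hP : ∀ H, PP A H = 1 := by simp [PP, hA]
    have hl : ∀ W ∈ I (sp A) (sp B), ¬ Dead W := fun W hW hd =>
      live_sp hA (hd.mono (mem_I.1 hW).1)
    rw [hP, sum_Fl hA fB, sum_Fl hA fB]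
    refine ⟨by simp; omega, ?_, ?_⟩
    · rw [reflect_one, ← sumA (sp_mono h.subset)]
      refine sum_congr rfl fun W hW => ?_
      have h1 : fl W ≠ ∅ := fun h => hl W hW (fl_empty.1 h)
      rw [chi_pos hA fA (flat_fl (hl W hW)) (sp_le.1 (mem_I.1 hW).1), sp_fl (hl W hW)]
      simp [PP, h1]
    · rw [← sumC (sp_mono h.subset) hlt]
      refine sum_congr rfl fun W hW => ?_
      have h1 : fl W ≠ ∅ := fun h => hl W hW (fl_empty.1 h)
      simp [hP, QQ, h1, sp_fl (hl W hW)]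

theorem top_live : ¬ Dead (⊤ : Submodule F V) := by
  intro h
  rcases h (fun i => if i = 1 then 1 else 0) trivial with h1 | h1
  · have := (mem_Pl.1 h1).2.1
    simp at this
  · exact h1.1 (by simp)

theorem fl_top : fl ⊤ = univ := by ext i; simp

theorem QQ_top : QQ ∅ univ =
    484094620585329425 + 12407786186996025 * X + 55700400 * X ^ 2 + X ^ 3 := by
  have h1 : (univ : Finset (Fin n)) ≠ ∅ := by
    rw [← fl_top]; exact fun h => top_live (fl_empty.1 h)
  have h2 : sp univ = ⊤ := by rw [← fl_top, sp_fl top_live]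
  rw [← Q0_val, ← h2]
  simp [QQ, h1]

theorem closure_empty : M.closure ∅ = ((∅ : Finset (Fin n)) : Set (Fin n)) := by
  have := flat_empty.closure
  simpa using this

end Pool.Agent.H12.InvKL
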