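import Mathlib

set_option autoImplicit false

namespace Pool.Agent.H12.LinExt

open Polynomial Finset
open scoped Classical

variable {p : ℕ} (le : Fin p → Fin p → Prop)

def ok : Finset (Fin p) → List (Fin p) → Prop
  | S, [] => S = ∅
  | S, a :: l => (a ∈ S ∧ ∀ b ∈ S, le b a → b = a) ∧ ok (S.erase a) l

def des : ℕ → List (Fin p) → ℕ
  | _, [] => 0
  | v, a :: l => (if a.val < v then 1 else 0) + des a.val l

noncomputable def E (n : ℕ) (S : Finset (Fin p)) (v : ℕ) : ℝ[X] :=
  ∑ f : Fin n → Fin p, if ok le S (List.ofFn f) then X ^ des v (List.ofFn f) else 0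

lemma E_zero (v : ℕ) : E le 0 ∅ v = 1 := by simp [E, ok, des]

lemma E_succ (n : ℕ) (S : Finset (Fin p)) (v : ℕ) : E le (n + 1) S v =
    ∑ a, if a ∈ S ∧ ∀ b ∈ S, le b a → b = a then
      X ^ (if a.val < v then 1 else 0) * E le n (S.erase a) a.val else 0 := by
  unfold E
  rw [← (Fin.consEquiv fun _ => Fin p).sum_comp, Fintype.sum_prod_type]
  refine sum_congr rfl fun a _ => ?_
  simp only [Fin.consEquiv_apply, List.ofFn_succ, Fin.cons_zero, Fin.cons_succ, ok, des]
  by_cases h : a ∈ S ∧ ∀ b ∈ S, le b a → b = a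
  · rw [if_pos h, mul_sum]
    refine sum_congr rfl fun f _ => ?_
    rw [pow_add, mul_ite, mul_zero]
    exact if_congr (and_iff_right h) rfl rfl
  · rw [if_neg h]
    exact sum_eq_zero fun f _ => if_neg fun h' => h h'.1

lemma ok_iff (l : List (Fin p)) : ∀ S : Finset (Fin p),
    ok le S l ↔ l.Nodup ∧ l.toFinset = S ∧ l.Pairwise fun a b => ¬ le b a := by
  induction l with
  | nil => intro S; simp [ok, eq_comm]
  | cons a l ih =>
    intro S
    simp only [ok, ih, List.nodup_cons, List.toFinset_cons, List.pairwise_cons]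
    constructor
    · rintro ⟨⟨h1, h2⟩, h3, h4, h5⟩
      have h6 : ∀ b ∈ l, b ≠ a ∧ b ∈ S := fun b hb => mem_erase.mp (h4 ▸ List.mem_toFinset.mpr hb)
      exact ⟨⟨fun h => (h6 a h).1 rfl, h3⟩, by rw [h4, insert_erase h1],
        fun b hb h => (h6 b hb).1 (h2 b (h6 b hb).2 h), h5⟩
    · rintro ⟨⟨h1, h2⟩, rfl, h3, h4⟩
      refine ⟨⟨mem_insert_self _ _, fun b hb h => ?_⟩, h2, ?_, h4⟩
      · rcases mem_insert.mp hb with h' | h'
        · exact h'
        · exact absurd h (h3 b (List.mem_toFinset.mp h'))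
      · rw [erase_insert (by simpa using h1)]

lemma des_ofFn (n : ℕ) : ∀ (f : Fin (n + 1) → Fin p) (v : ℕ), des v (List.ofFn f) =
    (if (f 0).val < v then 1 else 0) +
      ∑ i : Fin (n + 1), if ∃ j : Fin (n + 1), j.val = i.val + 1 ∧ f j < f i then 1 else 0 := by
  induction n with
  | zero => intro f v; simp [des]
  | succ n ih =>
    intro f v
    rw [List.ofFn_succ, des, ih, Fin.sum_univ_succ (n := n + 1)]
    congr 2
    · refine if_congr ⟨fun h => ⟨Fin.succ 0, rfl, h⟩, ?_⟩ rfl rfl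
      rintro ⟨j, h1, h2⟩
      rwa [show j = Fin.succ 0 from Fin.ext h1] at h2
    · refine sum_congr rfl fun i _ => if_congr ⟨?_, ?_⟩ rfl rfl
      · rintro ⟨j, h1, h2⟩
        exact ⟨j.succ, by simp [h1], h2⟩
      · rintro ⟨j, h1, h2⟩
        obtain ⟨j, rfl⟩ := Fin.exists_succ_eq.mpr (show j ≠ 0 by rintro rfl; simp at h1)
        exact ⟨j, by simpa using h1, h2⟩

lemma main {n : ℕ} (le : Fin (n + 1) → Fin (n + 1) → Prop) :
    (∑ σ ∈ univ.filter (fun σ : Equiv.Perm (Fin (n + 1)) => ∀ i j, le (σ i) (σ j) → i ≤ j),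
      (X : ℝ[X]) ^ (univ.filter
        (fun i : Fin (n + 1) => ∃ j : Fin (n + 1), j.val = i.val + 1 ∧ σ j < σ i)).card) =
      E le (n + 1) univ 0 := by
  rw [E, ← sum_filter]
  refine sum_bij (fun σ _ => ⇑σ) ?_ (fun a _ b _ h => Equiv.ext (congrFun h)) ?_ ?_
  · intro σ h
    simp only [mem_filter, mem_univ, true_and, ok_iff, List.nodup_ofFn, List.pairwise_ofFn] at h ⊢
    refine ⟨σ.injective, eq_univ_of_forall fun b => ?_, fun i j hij h' => (h j i h').not_gt hij⟩
    exact List.mem_toFinset.mpr (List.mem_ofFn.mpr (σ.surjective b))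
  · intro f h
    simp only [mem_filter, mem_univ, true_and, ok_iff, List.nodup_ofFn, List.pairwise_ofFn] at h ⊢
    exact ⟨Equiv.ofBijective f (Finite.injective_iff_bijective.mp h.1),
      fun i j h' => not_lt.mp fun hij => h.2.2 hij h', rfl⟩
  · intro σ _
    rw [des_ofFn, card_filter]; simp

lemma laguerre (x : ℝ) (n : ℕ) : ∀ f : ℝ[X], f.natDegree = n →
    (∀ z : ℂ, aeval z f = 0 → z.im = 0) →
    f.eval x * f.derivative.derivative.eval x ≤ f.derivative.eval x ^ 2 := by
  induction n with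
  | zero => intro f h _; rw [eq_C_of_natDegree_eq_zero h]; simp
  | succ n ih =>
    intro f h hz
    have h0 : f ≠ 0 := by rintro rfl; simp at h
    obtain ⟨z, h1⟩ := IsAlgClosed.exists_aeval_eq_zero ℂ f
      (by rw [degree_eq_natDegree h0, h]; exact_mod_cast Nat.succ_ne_zero n)
    have h2 : z = algebraMap ℝ ℂ z.re := Complex.ext rfl (by simpa using hz z h1)
    rw [h2, aeval_algebraMap_apply, map_eq_zero, coe_aeval_eq_eval] at h1
    obtain ⟨g, rfl⟩ := dvd_iff_isRoot.mpr h1
    have h3 := ih g (by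
      rw [natDegree_mul (X_sub_C_ne_zero _) (right_ne_zero_of_mul h0), natDegree_X_sub_C] at h; omega)
      fun w hw => hz w (by rw [map_mul, hw, mul_zero])
    simp only [derivative_mul, derivative_sub, derivative_X, derivative_C, derivative_add, eval_mul,
      eval_add, eval_sub, eval_X, eval_C, sub_zero, one_mul]
    nlinarith [mul_le_mul_of_nonneg_left h3 (sq_nonneg (x - z.re)), sq_nonneg (g.eval x)]

end Pool.Agent.H12.LinExt
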