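import Mathlib

open Finset

namespace H12Mc

/-- load of block `i` for a multiplicity vector on types -/
def load {d : ℕ} (n : Finset (Fin d) → ℕ) (i : Fin d) : ℕ :=
  ∑ T : Finset (Fin d), if i ∈ T then n T else 0

def tot {d : ℕ} (n : Finset (Fin d) → ℕ) : ℕ := ∑ T, n T

def Good {d : ℕ} (n : Finset (Fin d) → ℕ) : Prop :=
  n ≠ 0 ∧ (∀ T T', n T ≠ 0 → n T' ≠ 0 → ∃ i, i ∈ T ∧ i ∈ T') ∧ ∀ i j, load n i = load n j

lemma load_add {d : ℕ} (a b : Finset (Fin d) → ℕ) (i : Fin d) :
    load (a + b) i = load a i + load b i := by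
  unfold load
  rw [← sum_add_distrib]
  refine sum_congr rfl fun T _ => ?_
  split_ifs <;> simp

lemma tot_add {d : ℕ} (a b : Finset (Fin d) → ℕ) : tot (a + b) = tot a + tot b := by
  unfold tot
  rw [← sum_add_distrib]
  rfl

lemma tot_pos {d : ℕ} {a : Finset (Fin d) → ℕ} (h : a ≠ 0) : 0 < tot a := by
  obtain ⟨T, hT⟩ := Function.ne_iff.1 h
  have : a T ≤ tot a := single_le_sum (f := a) (fun _ _ => Nat.zero_le _) (mem_univ T)
  have h2 : a T ≠ 0 := hT
  omega

lemma load_pos {d : ℕ} {a : Finset (Fin d) → ℕ} (h : Good a) (i : Fin d) : 0 < load a i := by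
  obtain ⟨T, hT⟩ := Function.ne_iff.1 h.1
  have h2 : a T ≠ 0 := hT
  obtain ⟨j, hj, -⟩ := h.2.1 T T h2 h2
  rw [h.2.2 i j]
  have : (if j ∈ T then a T else 0) ≤ load a j :=
    single_le_sum (f := fun T : Finset (Fin d) => if j ∈ T then a T else 0)
      (fun _ _ => Nat.zero_le _) (mem_univ T)
  rw [if_pos hj] at this
  omega

lemma exists_opt {d : ℕ} (i0 : Fin d) :
    ∃ m : Finset (Fin d) → ℕ, Good m ∧ ∀ n, Good n → tot n * load m i0 ≤ tot m * load n i0 := by
  classical
  have hfin : {x : Finset (Fin d) → ℕ | Minimal Good x}.Finite :=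
    WellQuasiOrderedLE.finite_of_isAntichain (setOfPred_minimal_antichain _)
  have hg0 : Good (fun T : Finset (Fin d) => if T = univ then 1 else 0) := by
    refine ⟨?_, ?_, ?_⟩
    · intro h
      have := congrFun h univ
      simp at this
    · intro T T' h1 h2
      have e1 : T = univ := by by_contra hh; simp [hh] at h1
      have e2 : T' = univ := by by_contra hh; simp [hh] at h2
      exact ⟨i0, e1 ▸ mem_univ _, e2 ▸ mem_univ _⟩
    · intro i j
      unfold load
      refine sum_congr rfl fun T _ => ?_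
      by_cases hT : T = univ
      · subst hT; simp
      · simp [hT]
  have hne : {x : Finset (Fin d) → ℕ | Minimal Good x}.Nonempty := by
    obtain ⟨x, -, hx⟩ := exists_minimal_le_of_wellFoundedLT Good _ hg0
    exact ⟨x, hx⟩
  obtain ⟨m, hm, hmax⟩ := Set.exists_max_image _
    (fun n : Finset (Fin d) → ℕ => (tot n : ℚ) / (load n i0 : ℚ)) hfin hne
  have hmg : Good m := hm.prop
  refine ⟨m, hmg, ?_⟩
  intro n
  induction' hN : tot n using Nat.strong_induction_on with N ih generalizing n
  intro hn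
  subst hN
  by_cases hmin : Minimal Good n
  · have h1 := hmax n hmin
    have p1 : (0 : ℚ) < load n i0 := by exact_mod_cast load_pos hn i0
    have p2 : (0 : ℚ) < load m i0 := by exact_mod_cast load_pos hmg i0
    rw [div_le_div_iff₀ p1 p2] at h1
    exact_mod_cast h1
  · obtain ⟨a, ha1, ha2⟩ := exists_lt_of_not_minimal hn hmin
    obtain ⟨b, rfl⟩ := exists_add_of_le ha1.le
    have hb0 : b ≠ 0 := by
      rintro rfl
      simp at ha1
    have hb : Good b := by
      refine ⟨hb0, ?_, ?_⟩
      · intro T T' h1 h2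
        apply hn.2.1 T T'
        · simp only [Pi.add_apply]; omega
        · simp only [Pi.add_apply]; omega
      · intro i j
        have e1 := hn.2.2 i j
        have e2 := ha2.2.2 i j
        rw [load_add, load_add] at e1
        omega
    have ta := tot_pos ha2.1
    have tb := tot_pos hb0
    have i1 := ih (tot a) (by rw [tot_add]; omega) a rfl ha2
    have i2 := ih (tot b) (by rw [tot_add]; omega) b rfl hb
    rw [tot_add, load_add]
    nlinarith

/-- a design gives a good vector -/
lemma good_of_design {d : ℕ} {V : Type*} [Fintype V] [DecidableEq V] [Nonempty V]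
    (B : Fin d → Finset V) (k : ℕ) (hk : ∀ i, (B i).card = k)
    (hc : ∀ x y, ∃ i, x ∈ B i ∧ y ∈ B i) :
    ∃ n : Finset (Fin d) → ℕ, Good n ∧ tot n = Fintype.card V ∧ ∀ i, load n i = k := by
  classical
  let ty : V → Finset (Fin d) := fun x => univ.filter fun i => x ∈ B i
  let n : Finset (Fin d) → ℕ := fun T => (univ.filter fun x => ty x = T).card
  have hl : ∀ i, load n i = k := by
    intro i
    rw [← hk i]
    unfold load
    rw [card_eq_sum_card_fiberwise (f := ty) (s := B i) (t := univ) (fun _ _ => by simp)]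
    refine sum_congr rfl fun T _ => ?_
    split_ifs with h
    · simp only [n]
      congr 1
      ext x
      simp only [mem_filter, mem_univ, true_and]
      constructor
      · intro hx
        refine ⟨?_, hx⟩
        rw [← hx] at h
        simpa [ty] using h
      · exact fun hx => hx.2
    · symm
      rw [card_eq_zero, filter_eq_empty_iff]
      intro x hx e
      apply h
      rw [← e]
      simpa [ty] using hx
  have ht : tot n = Fintype.card V := by
    unfold tot
    rw [← card_univ,
      card_eq_sum_card_fiberwise (f := ty) (s := univ) (t := univ) (fun _ _ => by simp)]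
  refine ⟨n, ⟨?_, ?_, ?_⟩, ht, hl⟩
  · intro h
    rw [h] at ht
    have : 0 < Fintype.card V := Fintype.card_pos
    simp [tot] at ht
    omega
  · intro T T' h1 h2
    obtain ⟨x, hx⟩ := card_ne_zero.1 h1
    obtain ⟨y, hy⟩ := card_ne_zero.1 h2
    simp only [mem_filter, mem_univ, true_and] at hx hy
    obtain ⟨i, hi1, hi2⟩ := hc x y
    exact ⟨i, by rw [← hx]; simpa [ty] using hi1, by rw [← hy]; simpa [ty] using hi2⟩
  · intro i j
    rw [hl, hl]

/-- a good vector gives a design -/
lemma design_of_good {d : ℕ} (i0 : Fin d) (n : Finset (Fin d) → ℕ) (hn : Good n) :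
    ∃ B : Fin d → Finset (Fin (2 * tot n)), (∀ i, (B i).card = 2 * load n i0) ∧
      ∀ x y, ∃ i, x ∈ B i ∧ y ∈ B i := by
  classical
  let V := Σ T : Finset (Fin d), Fin (2 * n T)
  have hV : Fintype.card V = 2 * tot n := by
    simp [V, tot, mul_sum]
  let e : V ≃ Fin (2 * tot n) := Fintype.equivFinOfCardEq hV
  refine ⟨fun i => (univ.filter fun x : V => i ∈ x.1).map e.toEmbedding, ?_, ?_⟩
  · intro i
    rw [card_map, hn.2.2 i0 i]
    unfold load
    rw [card_filter, mul_sum]
    simp only [V]
    rw [← univ_sigma_univ, sum_sigma]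
    refine sum_congr rfl fun T _ => ?_
    split_ifs <;> simp
  · intro x y
    obtain ⟨x, rfl⟩ := e.surjective x
    obtain ⟨y, rfl⟩ := e.surjective y
    have h1 : n x.1 ≠ 0 := by
      have := x.2.2
      omega
    have h2 : n y.1 ≠ 0 := by
      have := y.2.2
      omega
    obtain ⟨i, hi1, hi2⟩ := hn.2.1 _ _ h1 h2
    exact ⟨i, by simpa using hi1, by simpa using hi2⟩

/-- the optimum bounds every weak design with `d` blocks -/
lemma bound_weak {d : ℕ} (i0 : Fin d) (v k : ℕ)
    (hopt : ∀ n : Finset (Fin d) → ℕ, Good n → tot n * k ≤ v * load n i0)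
    {ι V : Type*} [Fintype ι] [Fintype V] [DecidableEq V] [Nonempty V]
    (hι : Fintype.card ι = d) (B : ι → Finset V) (K : ℕ) (hK : ∀ i, (B i).card ≤ K)
    (hKV : K ≤ Fintype.card V) (hc : ∀ x y, ∃ i, x ∈ B i ∧ y ∈ B i) :
    Fintype.card V * k ≤ v * K := by
  classical
  let e : ι ≃ Fin d := Fintype.equivFinOfCardEq hι
  have hex : ∀ i : Fin d, ∃ u, B (e.symm i) ⊆ u ∧ u ⊆ univ ∧ u.card = K := fun i =>
    exists_subsuperset_card_eq (subset_univ _) (hK _) (by simpa using hKV)
  choose B' h1 h2 h3 using hex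
  obtain ⟨n, hn, ht, hl⟩ := good_of_design B' K h3 (by
    intro x y
    obtain ⟨i, hi1, hi2⟩ := hc x y
    exact ⟨e i, h1 _ (by simpa using hi1), h1 _ (by simpa using hi2)⟩)
  have := hopt n hn
  rwa [ht, hl] at this

/-- distribute a finite set into parts of bounded sizes -/
lemma exists_split {X ι : Type*} [DecidableEq X] [Fintype ι] [DecidableEq ι] [Nonempty ι]
    (Y : Finset X) (c : ι → ℕ) (h : Y.card ≤ ∑ i, c i) :
    ∃ f : X → ι, ∀ i, (Y.filter fun x => f x = i).card ≤ c i := by
  classical
  have hc : Fintype.card Y ≤ Fintype.card (Σ i : ι, Fin (c i)) := by simpa using h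
  obtain ⟨e⟩ := Function.Embedding.nonempty_of_card_le hc
  refine ⟨fun x => if hx : x ∈ Y then (e ⟨x, hx⟩).1 else Classical.arbitrary ι, ?_⟩
  intro i
  have h1 : (univ.filter fun z : (Σ i : ι, Fin (c i)) => z.1 = i).card = c i := by
    rw [card_filter, ← univ_sigma_univ, sum_sigma]
    rw [sum_eq_single i]
    · simp
    · intro j _ hj
      simp [hj]
    · simp
  rw [← h1]
  by_cases hY : Y.Nonempty
  · obtain ⟨y0, hy0⟩ := hY
    refine card_le_card_of_injOn (fun x => if hx : x ∈ Y then e ⟨x, hx⟩ else e ⟨y0, hy0⟩) ?_ ?_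
    · intro x hx
      simp only [coe_filter, Set.mem_ofPred_eq, mem_univ, true_and] at hx ⊢
      obtain ⟨hx1, hx2⟩ := hx
      rw [dif_pos hx1] at hx2 ⊢
      exact hx2
    · intro x hx y hy hxy
      simp only [coe_filter, Set.mem_ofPred_eq] at hx hy
      simp only [dif_pos hx.1, dif_pos hy.1] at hxy
      simpa using e.injective hxy
  · rw [not_nonempty_iff_eq_empty] at hY
    subst hY
    simp

end H12Mc
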