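import Mathlib
import Pool.Agent.H12.McA

open Finset

namespace H12Mc

lemma two_choose (h : ℕ) : 2 * h.choose 2 + h = h * h := by
  induction h with
  | zero => simp
  | succ n ih =>
    rw [Nat.choose_succ_succ' n 1, Nat.choose_one_right]
    have : n.choose (1 + 1) = n.choose 2 := rfl
    rw [this]
    nlinarith

/-- the improved design -/
lemma improve {d : ℕ} {V : Type*} [Fintype V] [DecidableEq V]
    (B : Fin d → Finset V) (k : ℕ) (hk : ∀ i, (B i).card = k)
    (hc : ∀ x y, ∃ i, x ∈ B i ∧ y ∈ B i) (R : Finset (Fin d)) (h e A : ℕ) (hh : 0 < h)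
    (hU : (R.biUnion B).card * (2 * d) ≤ A + h * (d * k))
    (hA : A + 1 ≤ d * k)
    (hW : (R.biUnion B)ᶜ.card * (2 * d) ≤ h * (d * k - A - 1) + e * (2 * (d * k) - 1)) :
    ∃ B' : ({i // i ∉ R} ⊕ ({p : Finset (Fin h) // p.card = 2} ⊕ (Fin h ⊕ Fin e))) →
        Finset (Option (V × Fin (2 * d))),
      (∀ i, (B' i).card ≤ 2 * (d * k)) ∧ ∀ x y, ∃ i, x ∈ B' i ∧ y ∈ B' i := by
  classical
  set Uf := R.biUnion B with hUf
  let j0 : Fin h := ⟨0, hh⟩
  have : Nonempty (Fin h ⊕ Fin e) := ⟨Sum.inl j0⟩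
  let YU : Finset (V × Fin (2 * d)) := Uf ×ˢ univ
  let YW : Finset (V × Fin (2 * d)) := Ufᶜ ×ˢ univ
  obtain ⟨g, hg⟩ := exists_split YU (fun o : Option (Fin h) => o.elim A fun _ => d * k) (by
    simpa [YU, Fintype.sum_option] using hU)
  obtain ⟨f, hf⟩ := exists_split YW
    (Sum.elim (fun _ : Fin h => d * k - A - 1) (fun _ : Fin e => 2 * (d * k) - 1)) (by
    simpa [YW, Fintype.sum_sum_type] using hW)
  let sm : V × Fin (2 * d) ↪ Option (V × Fin (2 * d)) := Function.Embedding.some
  let b1 : {i // i ∉ R} → Finset (Option (V × Fin (2 * d))) := fun i => (B i.1 ×ˢ univ).map sm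
  let b2 : {p : Finset (Fin h) // p.card = 2} → Finset (Option (V × Fin (2 * d))) := fun p =>
    (p.1.biUnion fun j => YU.filter fun x => g x = some j).map sm
  let b3 : Fin h → Finset (Option (V × Fin (2 * d))) := fun j =>
    insertNone (((YU.filter fun x => g x = none) ∪ (YU.filter fun x => g x = some j)) ∪
      (YW.filter fun x => f x = Sum.inl j))
  let b4 : Fin e → Finset (Option (V × Fin (2 * d))) := fun l =>
    insertNone (YW.filter fun x => f x = Sum.inr l)
  refine ⟨Sum.elim b1 (Sum.elim b2 (Sum.elim b3 b4)), ?_, ?_⟩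
  · rintro (i | p | j | l)
    · simp only [Sum.elim_inl, b1, card_map, card_product, hk, card_univ, Fintype.card_fin]
      nlinarith
    · simp only [Sum.elim_inl, Sum.elim_inr, b2, card_map]
      refine card_biUnion_le.trans ?_
      refine (sum_le_card_nsmul _ _ (d * k) fun j _ => ?_).trans ?_
      · simpa using hg (some j)
      · rw [p.2]; simp
    · simp only [Sum.elim_inl, Sum.elim_inr, b3, card_insertNone]
      have a1 := hg none
      have a2 := hg (some j)
      have a3 := hf (Sum.inl j)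
      simp only [Option.elim_none, Option.elim_some, Sum.elim_inl] at a1 a2 a3
      have u1 := card_union_le ((YU.filter fun x => g x = none) ∪ (YU.filter fun x => g x = some j))
        (YW.filter fun x => f x = Sum.inl j)
      have u2 := card_union_le (YU.filter fun x => g x = none) (YU.filter fun x => g x = some j)
      omega
    · simp only [Sum.elim_inr, b4, card_insertNone]
      have a3 := hf (Sum.inr l)
      simp only [Sum.elim_inr] at a3
      omega
  · -- covering
    have hz : ∀ x : V × Fin (2 * d), ∃ i, (none : Option (V × Fin (2 * d))) ∈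
        Sum.elim b1 (Sum.elim b2 (Sum.elim b3 b4)) i ∧
        some x ∈ Sum.elim b1 (Sum.elim b2 (Sum.elim b3 b4)) i := by
      intro x
      by_cases hx : x.1 ∈ Uf
      · have hxY : x ∈ YU := by simp [YU, hx]
        rcases hgx : g x with _ | j
        · exact ⟨.inr (.inr (.inl j0)), by simp [b3], by simp [b3, hxY, hgx]⟩
        · exact ⟨.inr (.inr (.inl j)), by simp [b3], by simp [b3, hxY, hgx]⟩
      · have hxY : x ∈ YW := by simp [YW, hx]
        rcases hfx : f x with j | l
        · exact ⟨.inr (.inr (.inl j)), by simp [b3], by simp [b3, hxY, hfx]⟩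
        · exact ⟨.inr (.inr (.inr l)), by simp [b4], by simp [b4, hxY, hfx]⟩
    have hS : ∀ x y : V × Fin (2 * d), (x.1 ∉ Uf ∨ y.1 ∉ Uf) → ∃ i, some x ∈
        Sum.elim b1 (Sum.elim b2 (Sum.elim b3 b4)) i ∧
        some y ∈ Sum.elim b1 (Sum.elim b2 (Sum.elim b3 b4)) i := by
      intro x y hxy
      obtain ⟨i, hi1, hi2⟩ := hc x.1 y.1
      have hiR : i ∉ R := by
        intro hiR
        rcases hxy with hx | hx
        · exact hx (mem_biUnion.2 ⟨i, hiR, hi1⟩)
        · exact hx (mem_biUnion.2 ⟨i, hiR, hi2⟩)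
      refine ⟨.inl ⟨i, hiR⟩, ?_, ?_⟩
      · simp only [Sum.elim_inl, b1]
        exact mem_map.2 ⟨x, by simp [hi1], rfl⟩
      · simp only [Sum.elim_inl, b1]
        exact mem_map.2 ⟨y, by simp [hi2], rfl⟩
    rintro (_ | x) (_ | y)
    · exact ⟨.inr (.inr (.inl j0)), by simp [b3], by simp [b3]⟩
    · exact hz y
    · obtain ⟨i, h1, h2⟩ := hz x
      exact ⟨i, h2, h1⟩
    · by_cases hxy : x.1 ∉ Uf ∨ y.1 ∉ Uf
      · exact hS x y hxy
      · push Not at hxy
        have hxY : x ∈ YU := by simp [YU, hxy.1]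
        have hyY : y ∈ YU := by simp [YU, hxy.2]
        rcases hgx : g x with _ | i <;> rcases hgy : g y with _ | j
        · exact ⟨.inr (.inr (.inl j0)), by simp [b3, hxY, hgx], by simp [b3, hyY, hgy]⟩
        · exact ⟨.inr (.inr (.inl j)), by simp [b3, hxY, hgx], by simp [b3, hyY, hgy]⟩
        · exact ⟨.inr (.inr (.inl i)), by simp [b3, hxY, hgx], by simp [b3, hyY, hgy]⟩
        · by_cases hij : i = j
          · subst hij
            exact ⟨.inr (.inr (.inl i)), by simp [b3, hxY, hgx], by simp [b3, hyY, hgy]⟩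
          · refine ⟨.inr (.inl ⟨{i, j}, card_pair hij⟩), ?_, ?_⟩
            · simp only [Sum.elim_inl, Sum.elim_inr, b2]
              exact mem_map.2 ⟨x, mem_biUnion.2 ⟨i, by simp, by simp [hxY, hgx]⟩, rfl⟩
            · simp only [Sum.elim_inl, Sum.elim_inr, b2]
              exact mem_map.2 ⟨y, mem_biUnion.2 ⟨j, by simp, by simp [hyY, hgy]⟩, rfl⟩

lemma count1 {d : ℕ} {V : Type*} [Fintype V] [DecidableEq V]
    (B : Fin d → Finset V) (k : ℕ) (hk : ∀ i, (B i).card = k)
    (hc : ∀ x y, ∃ i, x ∈ B i ∧ y ∈ B i) (R : Finset (Fin d)) :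
    Fintype.card V * Fintype.card V ≤
      (R.biUnion B).card * (R.biUnion B).card + Rᶜ.card * (k * k) := by
  have hsub : (univ : Finset (V × V)) ⊆
      (R.biUnion B ×ˢ R.biUnion B) ∪ Rᶜ.biUnion fun i => B i ×ˢ B i := by
    intro x _
    obtain ⟨i, h1, h2⟩ := hc x.1 x.2
    by_cases hi : i ∈ R
    · exact mem_union_left _ (mem_product.2 ⟨mem_biUnion.2 ⟨i, hi, h1⟩, mem_biUnion.2 ⟨i, hi, h2⟩⟩)
    · exact mem_union_right _ (mem_biUnion.2 ⟨i, by simpa using hi, mem_product.2 ⟨h1, h2⟩⟩)
  have h1 := card_le_card hsub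
  have h2 := card_union_le (R.biUnion B ×ˢ R.biUnion B) (Rᶜ.biUnion fun i => B i ×ˢ B i)
  have h3 : (Rᶜ.biUnion fun i => B i ×ˢ B i).card ≤ Rᶜ.card * (k * k) := by
    refine card_biUnion_le.trans ?_
    refine (sum_le_card_nsmul _ _ (k * k) fun j _ => ?_).trans ?_
    · rw [card_product, hk]
    · simp
  rw [card_univ, Fintype.card_prod] at h1
  rw [card_product] at h2
  omega

lemma count2 {d : ℕ} {V : Type*} [Fintype V] [DecidableEq V]
    (B : Fin d → Finset V) (k : ℕ) (hk : ∀ i, (B i).card = k)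
    (hc : ∀ x y, ∃ i, x ∈ B i ∧ y ∈ B i) (R : Finset (Fin d)) :
    4 * ((R.biUnion B)ᶜ.card * (R.biUnion B).card) ≤ Rᶜ.card * (k * k) := by
  set Uf := R.biUnion B with hUf
  have hsub : Ufᶜ ×ˢ Uf ⊆ Rᶜ.biUnion fun i => (B i \ Uf) ×ˢ (B i ∩ Uf) := by
    intro x hx
    obtain ⟨hx1, hx2⟩ := mem_product.1 hx
    rw [mem_compl] at hx1
    obtain ⟨i, h1, h2⟩ := hc x.1 x.2
    have hi : i ∉ R := fun hi => hx1 (mem_biUnion.2 ⟨i, hi, h1⟩)
    exact mem_biUnion.2 ⟨i, by simpa using hi,
      mem_product.2 ⟨mem_sdiff.2 ⟨h1, hx1⟩, mem_inter.2 ⟨h2, hx2⟩⟩⟩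
  have h1 := (card_le_card hsub).trans card_biUnion_le
  rw [card_product] at h1
  have h3 : 4 * ∑ i ∈ Rᶜ, ((B i \ Uf) ×ˢ (B i ∩ Uf)).card ≤ Rᶜ.card * (k * k) := by
    rw [mul_sum]
    refine (sum_le_card_nsmul _ _ (k * k) fun j _ => ?_).trans (by simp)
    rw [card_product, ← hk j, ← card_sdiff_add_card_inter (B j) Uf]
    nlinarith [sq_nonneg (((B j \ Uf).card : ℤ) - (B j ∩ Uf).card)]
  omega

lemma arith (d m s k U N h a : ℕ) (hd : d = m + s) (hk : 0 < k) (hkU : k ≤ U)
    (hv : U * d < m * (U + N))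
    (c1 : (U + N) * (U + N) ≤ U * U + s * (k * k))
    (c2 : 4 * (N * U) ≤ s * (k * k))
    (hh : 2 * U = h * k + a) :
    h * h < m ∧ N + h * U < m * k := by
  have h1 : s * U < m * N := by subst hd; nlinarith
  have hN : 0 < N := by
    rcases Nat.eq_zero_or_pos N with h0 | h0
    · subst h0; simp at h1
    · exact h0
  have hkk : 0 < k * k := Nat.mul_pos hk hk
  have h2 : s * (k * k) * U < m * (k * k) * N := by
    have := Nat.mul_lt_mul_of_pos_right h1 hkk
    nlinarith
  have c1' : N * N + 2 * (N * U) ≤ s * (k * k) := by nlinarith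
  have h3 : N * U + 2 * (U * U) < m * (k * k) := by
    have : (N * U + 2 * (U * U)) * N < m * (k * k) * N := by
      have := Nat.mul_le_mul_right U c1'
      nlinarith
    exact Nat.lt_of_mul_lt_mul_right this
  have h4 : 4 * (U * U) < m * (k * k) := by
    have : 4 * (U * U) * N < m * (k * k) * N := by
      have := Nat.mul_le_mul_right U c2
      nlinarith
    exact Nat.lt_of_mul_lt_mul_right this
  constructor
  · have e : h * k ≤ 2 * U := by omega
    have : h * h * (k * k) < m * (k * k) := by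
      have := Nat.mul_le_mul e e
      nlinarith
    exact Nat.lt_of_mul_lt_mul_right this
  · have e : h * k ≤ 2 * U := by omega
    have : (N + h * U) * k < m * k * k := by
      have e1 := Nat.mul_le_mul_left N hkU
      have e2 := Nat.mul_le_mul_right U e
      nlinarith
    exact Nat.lt_of_mul_lt_mul_right this

/-- Hall condition for an optimal design -/
lemma hall_of_opt {d : ℕ} (i0 : Fin d) {V : Type*} [Fintype V] [DecidableEq V]
    (B : Fin d → Finset V) (k : ℕ) (hk0 : 0 < k) (hk : ∀ i, (B i).card = k)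
    (hc : ∀ x y, ∃ i, x ∈ B i ∧ y ∈ B i)
    (hopt : ∀ n : Finset (Fin d) → ℕ, Good n → tot n * k ≤ Fintype.card V * load n i0)
    (R : Finset (Fin d)) : R.card * Fintype.card V ≤ (R.biUnion B).card * d := by
  classical
  by_contra hcon
  push Not at hcon
  have c1 := count1 B k hk hc R
  have c2 := count2 B k hk hc R
  have hV : Fintype.card V = (R.biUnion B).card + (R.biUnion B)ᶜ.card :=
    (card_add_card_compl _).symm
  have hd : d = R.card + Rᶜ.card := by
    rw [card_add_card_compl]; simp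
  have hR : R.Nonempty := by
    rw [nonempty_iff_ne_empty]
    rintro rfl
    simp at hcon
  obtain ⟨r, hr⟩ := hR
  have hkU : k ≤ (R.biUnion B).card := by
    rw [← hk r]
    exact card_le_card (subset_biUnion_of_mem B hr)
  generalize hUe : (R.biUnion B).card = U at *
  generalize hNe : (R.biUnion B)ᶜ.card = N at *
  generalize hme : R.card = m at *
  generalize hse : Rᶜ.card = s at *
  obtain ⟨h, a, hha, hak⟩ : ∃ h a, 2 * U = h * k + a ∧ a < k :=
    ⟨2 * U / k, 2 * U % k, by rw [mul_comm (2 * U / k)]; exact (Nat.div_add_mod _ _).symm,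
      Nat.mod_lt _ hk0⟩
  have hh0 : 0 < h := by
    rcases Nat.eq_zero_or_pos h with h0 | h0
    · subst h0; omega
    · exact h0
  rw [hV] at c1 hcon
  obtain ⟨r1, r2⟩ := arith d m s k U N h a hd hk0 hkU hcon c1 c2 hha
  have tc := two_choose h
  have hle : h.choose 2 + h ≤ m := by nlinarith
  obtain ⟨e, he⟩ := Nat.exists_eq_add_of_le hle
  obtain ⟨c, hcc⟩ : ∃ c, k = a + (c + 1) := ⟨k - a - 1, by omega⟩
  have hd0 : 0 < d := by omega
  have hA : d * a + 1 ≤ d * k := by rw [hcc]; nlinarith
  obtain ⟨B', hB1, hB2⟩ := improve B k hk hc R h e (d * a) hh0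
    (by rw [hUe]; nlinarith) hA (by
      rw [hNe]
      have e1 : d * k - d * a - 1 + 1 = d * (c + 1) := by
        have : d * k = d * a + d * (c + 1) := by rw [hcc]; ring
        omega
      have e2 : 2 * (d * k) - 1 + 1 = 2 * (d * k) := by omega
      generalize d * k - d * a - 1 = P at *
      generalize 2 * (d * k) - 1 = Q at *
      have e3 : 2 * N + 1 ≤ h * (c + 1) + 2 * (e * k) := by
        have f1 : 2 * (m * k) = h * h * k + h * k + 2 * (e * k) := by
          rw [he, ← tc]; ring
        have f2 : 2 * (h * U) = h * h * k + h * a := by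
          have : 2 * (h * U) = h * (2 * U) := by ring
          rw [this, hha]; ring
        have f3 : h * k = h * a + h * (c + 1) := by rw [hcc]; ring
        omega
      have e4 : h + e ≤ d := by omega
      have e5 : h * P + h = d * (h * (c + 1)) := by
        have : h * P + h = h * (P + 1) := by ring
        rw [this, e1]; ring
      have e6 : e * Q + e = d * (2 * (e * k)) := by
        have : e * Q + e = e * (Q + 1) := by ring
        rw [this, e2]; ring
      have e7 := Nat.mul_le_mul_left d e3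
      nlinarith)
  have hb := bound_weak i0 (Fintype.card V) k hopt (by
      simp only [Fintype.card_sum, Fintype.card_finset_len, Fintype.card_fin]
      have : Fintype.card {i // i ∉ R} = s := by
        rw [← hse, Fintype.card_subtype]
        congr 1
        ext i
        simp
      omega) B' (2 * (d * k)) hB1 (by
      simp only [Fintype.card_option, Fintype.card_prod, Fintype.card_fin]
      rw [hV]
      nlinarith) hB2
  simp only [Fintype.card_option, Fintype.card_prod, Fintype.card_fin] at hb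
  nlinarith

end H12Mc
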