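import Mathlib
import Pool.Agent.H2.KneserH

set_option autoImplicit false

namespace Pool.Agent.H12.Noisy

open Finset Pointwise Pool.Agent.H2.Kneser

def X {G : Type*} [AddCommGroup G] [DecidableEq G] (A C : Finset G) : ℕ → Finset G
  | 0 => A
  | j + 1 => X A C j + (A + C)

def Cn (n c : ℕ) : Finset (ZMod n) := (range c).image (fun i : ℕ => (i : ZMod n))

theorem mem_Cn {n c : ℕ} {x : ZMod n} : x ∈ Cn n c ↔ ∃ i : ℕ, i < c ∧ (i : ZMod n) = x := by
  simp [Cn]

def Feas (n k l t a : ℕ) : Prop :=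
  ∃ D : ℕ, Nat.gcd n (k - l) ∣ D ∧ (k + 1) * a + k * t ≤ D ∧ D + ((l + 1) * a + l * t) ≤ n

theorem X_ne {G : Type*} [AddCommGroup G] [DecidableEq G] {A C : Finset G} (hA : A.Nonempty)
    (hC : C.Nonempty) (j : ℕ) : (X A C j).Nonempty := by
  induction j with
  | zero => exact hA
  | succ j ih => exact ih.add (hA.add hC)

theorem X_sup {n t a : ℕ} {A : Finset (ZMod n)} {x : ZMod n} (ha : 1 ≤ a)
    (h : ∀ i : ℕ, i < a → x + i ∈ A) (j : ℕ) :
    ∀ i : ℕ, i < (j + 1) * a + j * t → ((j + 1 : ℕ) : ZMod n) * x + i ∈ X A (Cn n (t + 2)) j := by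
  induction j with
  | zero =>
    intro i hi
    simpa [X] using h i (by omega)
  | succ j ih =>
    intro i hi
    have e1 : (j + 1 + 1) * a = (j + 1) * a + a := by ring
    have e2 : (j + 1) * t = j * t + t := by ring
    have e3 : a ≤ (j + 1) * a := Nat.le_mul_of_pos_left a (Nat.succ_pos j)
    obtain ⟨i1, i2, i3, h1, h2, h3, rfl⟩ : ∃ i1 i2 i3 : ℕ, i1 < (j + 1) * a + j * t ∧ i2 < a ∧
        i3 < t + 2 ∧ i = i1 + i2 + i3 :=
      ⟨i - min i (t + 1) - min (i - min i (t + 1)) (a - 1), min (i - min i (t + 1)) (a - 1),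
        min i (t + 1), by omega, by omega, by omega, by omega⟩
    refine mem_add.2 ⟨_, ih i1 h1, _, mem_add.2 ⟨_, h i2 h2, _, mem_Cn.2 ⟨i3, h3, rfl⟩, rfl⟩, ?_⟩
    push_cast
    ring

theorem X_sub {n t a : ℕ} {A : Finset (ZMod n)} {x : ZMod n}
    (h : ∀ y ∈ A, ∃ i : ℕ, i < a ∧ y = x + i) (j : ℕ) :
    ∀ y ∈ X A (Cn n (t + 2)) j,
      ∃ i : ℕ, i < (j + 1) * a + j * t ∧ y = ((j + 1 : ℕ) : ZMod n) * x + i := by
  induction j with
  | zero =>
    intro y hy
    obtain ⟨i, h1, h2⟩ := h y hy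
    exact ⟨i, by omega, by simpa using h2⟩
  | succ j ih =>
    intro y hy
    obtain ⟨u, hu, v, hv, rfl⟩ := mem_add.1 hy
    obtain ⟨p, hp, q, hq, rfl⟩ := mem_add.1 hv
    obtain ⟨i1, h1, rfl⟩ := ih u hu
    obtain ⟨i2, h2, rfl⟩ := h p hp
    obtain ⟨i3, h3, rfl⟩ := mem_Cn.1 hq
    have e1 : (j + 1 + 1) * a = (j + 1) * a + a := by ring
    have e2 : (j + 1) * t = j * t + t := by ring
    refine ⟨i1 + i2 + i3, by omega, ?_⟩
    push_cast
    ring

theorem feas_int {n k l t a : ℕ} [NeZero n] (hlk : l < k) {A : Finset (ZMod n)} {x : ZMod n}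
    (ha : 1 ≤ a) (h : ∀ i : ℕ, i < a → x + i ∈ A)
    (hd : Disjoint (X A (Cn n (t + 2)) k) (X A (Cn n (t + 2)) l)) : Feas n k l t a := by
  set z : ZMod n := ((l + 1 : ℕ) : ZMod n) * x - ((k + 1 : ℕ) : ZMod n) * x with hz
  have hzn : z.val < n := ZMod.val_lt z
  have hzv : ((z.val : ℕ) : ZMod n) = z := ZMod.natCast_zmod_val z
  have p1 : a ≤ (k + 1) * a := Nat.le_mul_of_pos_left a (Nat.succ_pos k)
  have p2 : a ≤ (l + 1) * a := Nat.le_mul_of_pos_left a (Nat.succ_pos l)
  refine ⟨z.val, ?_, ?_, ?_⟩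
  · have h1 : ((z.val + (k - l) * x.val : ℕ) : ZMod n) = 0 := by
      push_cast [Nat.cast_sub hlk.le]
      rw [hzv, ZMod.natCast_zmod_val, hz]
      push_cast
      ring
    have h2 := (ZMod.natCast_eq_zero_iff _ _).1 h1
    exact (Nat.dvd_add_left ((Nat.gcd_dvd_right n (k - l)).mul_right _)).1
      ((Nat.gcd_dvd_left n (k - l)).trans h2)
  · by_contra hc
    have h1 := X_sup (t := t) ha h k z.val (by omega)
    have h2 := X_sup (t := t) ha h l 0 (by omega)
    refine disjoint_left.1 hd h1 ?_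
    convert h2 using 1
    rw [hzv, hz]
    push_cast
    ring
  · by_contra hc
    have h1 := X_sup (t := t) ha h k 0 (by omega)
    have h2 := X_sup (t := t) ha h l (n - z.val) (by omega)
    refine disjoint_left.1 hd h1 ?_
    convert h2 using 1
    rw [Nat.cast_sub hzn.le, hzv, hz, ZMod.natCast_self]
    push_cast
    ring

theorem exit {n : ℕ} [NeZero n] {S : Finset (ZMod n)} (h1 : S.Nonempty) (h2 : S ≠ univ) :
    ∃ x ∈ S, x + 1 ∉ S := by
  by_contra hc
  push Not at hc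
  obtain ⟨x, hx⟩ := h1
  have h3 : ∀ i : ℕ, x + i ∈ S := by
    intro i
    induction i with
    | zero => simpa using hx
    | succ i ih =>
      have := hc _ ih
      rwa [Nat.cast_succ, ← add_assoc]
  refine h2 (eq_univ_of_forall fun y => ?_)
  have := h3 (y - x).val
  rwa [ZMod.natCast_zmod_val, add_sub_cancel] at this

theorem grow {n : ℕ} [NeZero n] {A : Finset (ZMod n)} (hA : A.Nonempty) (j : ℕ) :
    A + Cn n (j + 2) ≠ univ → #(A + Cn n 2) + j ≤ #(A + Cn n (j + 2)) := by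
  induction j with
  | zero => intro _; simp
  | succ j ih =>
    intro h
    have hs : A + Cn n (j + 2) ⊆ A + Cn n (j + 1 + 2) := add_subset_add_left fun y hy => by
      obtain ⟨i, h1, h2⟩ := mem_Cn.1 hy
      exact mem_Cn.2 ⟨i, by omega, h2⟩
    have hne : A + Cn n (j + 2) ≠ univ := fun e => h (univ_subset_iff.1 (e ▸ hs))
    obtain ⟨x, hx, hx1⟩ := exit (hA.add ⟨0, mem_Cn.2 ⟨0, by omega, by simp⟩⟩) hne
    have h3 : x + 1 ∈ A + Cn n (j + 1 + 2) := by
      obtain ⟨p, hp, q, hq, rfl⟩ := mem_add.1 hx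
      obtain ⟨i, h1, rfl⟩ := mem_Cn.1 hq
      refine mem_add.2 ⟨p, hp, _, mem_Cn.2 ⟨i + 1, by omega, rfl⟩, ?_⟩
      push_cast
      ring
    have h4 := card_lt_card ((ssubset_iff_of_subset hs).2 ⟨_, h3, hx1⟩)
    have := ih hne
    omega

theorem dich {n t : ℕ} [NeZero n] {A : Finset (ZMod n)} (hA : A.Nonempty)
    (h : A + Cn n (t + 2) ≠ univ) :
    (∃ x : ZMod n, ∀ i : ℕ, i < #A → x + i ∈ A) ∨ #A + t + 2 ≤ #(A + Cn n (t + 2)) := by
  have h0 : ∀ c, 0 < c → A ⊆ A + Cn n c := fun c hc y hy =>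
    mem_add.2 ⟨y, hy, 0, mem_Cn.2 ⟨0, hc, by simp⟩, add_zero y⟩
  have hne : A ≠ univ := fun e => h (univ_subset_iff.1 (e ▸ h0 _ (by omega)))
  obtain ⟨x, hx, hx1⟩ := exit hA hne
  by_cases hu : ∃ y ∈ A, y + 1 ∉ A ∧ y ≠ x
  · right
    obtain ⟨y, hy, hy1, hyx⟩ := hu
    have h1 : ∀ z ∈ A, z + 1 ∈ A + Cn n 2 := fun z hz =>
      mem_add.2 ⟨z, hz, 1, mem_Cn.2 ⟨1, by omega, by simp⟩, rfl⟩
    have h2 : insert (y + 1) (insert (x + 1) A) ⊆ A + Cn n 2 :=
      insert_subset (h1 y hy) (insert_subset (h1 x hx) (h0 2 (by omega)))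
    have h3 := card_le_card h2
    rw [card_insert_of_notMem (by simp [hyx, hy1]), card_insert_of_notMem hx1] at h3
    have := grow hA t h
    omega
  · left
    push Not at hu
    have h1 : ∀ i : ℕ, i < #A → x - i ∈ A := by
      intro i hi
      by_contra hc
      have h2 : ∀ j : ℕ, i + j < n → x - (i + j : ℕ) ∉ A := by
        intro j
        induction j with
        | zero => intro _; simpa using hc
        | succ j ih =>
          intro hj hm
          refine ih (by omega) ?_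
          have e : x - ((i + j : ℕ) : ZMod n) = x - ((i + (j + 1) : ℕ) : ZMod n) + 1 := by
            push_cast
            ring
          rw [e]
          by_contra h3
          have h4 := hu _ hm h3
          have h5 : ((i + (j + 1) : ℕ) : ZMod n) = 0 := sub_eq_self.1 h4
          have h6 := Nat.le_of_dvd (by omega) ((ZMod.natCast_eq_zero_iff _ _).1 h5)
          omega
      have h3 : A ⊆ (range i).image (fun j : ℕ => x - j) := by
        intro y hy
        have e : y = x - ((x - y).val : ℕ) := by rw [ZMod.natCast_zmod_val, sub_sub_cancel]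
        refine mem_image.2 ⟨(x - y).val, mem_range.2 ?_, e.symm⟩
        by_contra h4
        obtain ⟨j, hj⟩ := Nat.exists_eq_add_of_le (not_lt.1 h4)
        refine h2 j (hj ▸ ZMod.val_lt _) ?_
        rw [← hj, ← e]
        exact hy
      have h4 := (card_le_card h3).trans card_image_le
      rw [card_range] at h4
      omega
    refine ⟨x - (#A - 1 : ℕ), fun i hi => ?_⟩
    have h2 := h1 (#A - 1 - i) (by omega)
    convert h2 using 1
    rw [Nat.cast_sub (by omega : i ≤ #A - 1)]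
    ring

theorem st_X {G : Type*} [AddCommGroup G] [DecidableEq G] [Fintype G] (A C : Finset G)
    (j i : ℕ) : st (X A C j) ⊆ st (X A C (j + i)) := by
  induction i with
  | zero => exact Subset.refl _
  | succ i ih => exact ih.trans (st_mono _ _)

theorem chain {G : Type*} [AddCommGroup G] [DecidableEq G] [Fintype G] {A C : Finset G}
    (hA : A.Nonempty) (hC : C.Nonempty) (k : ℕ) (h : #(st (X A C k)) ≤ 1) (j : ℕ) :
    j ≤ k → #A + j * #(A + C) ≤ #(X A C j) + j := by
  induction j with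
  | zero => intro _; simp [X]
  | succ j ih =>
    intro hj
    have h1 := kneser (X_ne hA hC j) (hA.add hC)
    obtain ⟨i, rfl⟩ := Nat.exists_eq_add_of_le hj
    have h2 := card_le_card (st_X A C (j + 1) i)
    have s := sg_st (X A C j + (A + C))
    have h3 := card_le_card (s.subset_add (X A C j))
    have h4 := card_le_card (s.subset_add (A + C))
    have h5 := ih (by omega)
    have e : X A C (j + 1) = X A C j + (A + C) := rfl
    rw [e] at h2 ⊢
    rw [add_mul, one_mul]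
    omega

theorem aper {n k l t : ℕ} [NeZero n] (hlk : l < k) {A : Finset (ZMod n)} (hA : A.Nonempty)
    (hd : Disjoint (X A (Cn n (t + 2)) k) (X A (Cn n (t + 2)) l))
    (h : #(st (X A (Cn n (t + 2)) k)) ≤ 1) : Feas n k l t #A := by
  have hC : (Cn n (t + 2)).Nonempty := ⟨0, mem_Cn.2 ⟨0, by omega, by simp⟩⟩
  have hne : A + Cn n (t + 2) ≠ univ := by
    intro e
    obtain ⟨k, rfl⟩ : ∃ k', k = k' + 1 := ⟨k - 1, by omega⟩
    obtain ⟨y, hy⟩ := X_ne hA hC l
    obtain ⟨u, hu⟩ := X_ne hA hC k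
    refine disjoint_left.1 hd ?_ hy
    exact mem_add.2 ⟨u, hu, y - u, e ▸ mem_univ _, by ring⟩
  rcases dich hA hne with ⟨x, hx⟩ | hb
  · exact feas_int hlk (card_pos.2 hA) hx hd
  have h1 := chain hA hC k h k le_rfl
  have h2 := chain hA hC k h l hlk.le
  have h3 := card_le_univ (X A (Cn n (t + 2)) k ∪ X A (Cn n (t + 2)) l)
  rw [card_union_of_disjoint hd, ZMod.card] at h3
  have h4 := Nat.mul_le_mul_left k hb
  have h5 := Nat.mul_le_mul_left l hb
  have hg : 0 < Nat.gcd n (k - l) := Nat.gcd_pos_of_pos_right _ (by omega)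
  have hg2 : Nat.gcd n (k - l) ≤ k - l := Nat.gcd_le_right _ (by omega)
  generalize hP : (k + 1) * #A + k * t = P
  have h6 := Nat.div_add_mod (P + Nat.gcd n (k - l) - 1) (Nat.gcd n (k - l))
  have h7 := Nat.mod_lt (P + Nat.gcd n (k - l) - 1) hg
  refine ⟨Nat.gcd n (k - l) * ((P + Nat.gcd n (k - l) - 1) / Nat.gcd n (k - l)),
    dvd_mul_right _ _, by omega, ?_⟩
  have e1 : (k + 1) * #A = k * #A + #A := by ring
  have e2 : (l + 1) * #A = l * #A + #A := by ring
  have e3 : k * (#A + t + 2) = k * #A + k * t + 2 * k := by ring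
  have e4 : l * (#A + t + 2) = l * #A + l * t + 2 * l := by ring
  omega

end Pool.Agent.H12.Noisy
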