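import Pool.Agent.H12.NoisyA

set_option autoImplicit false

namespace Pool.Agent.H12.Noisy

open Finset Pointwise Pool.Agent.H2.Kneser

theorem feas_mul {d m k l t a a' : ℕ} (hm : 1 ≤ m) (h : Feas d k l t a) (ha : a' ≤ m * a) :
    Feas (d * m) k l t a' := by
  obtain ⟨D, h1, h2, h3⟩ := h
  refine ⟨D * m, ?_, ?_, ?_⟩
  · rw [Nat.gcd_comm] at h1 ⊢
    exact (Nat.gcd_mul_right_dvd_mul_gcd _ _ _).trans
      (Nat.mul_dvd_mul h1 (Nat.gcd_dvd_right _ _))
  · have e1 := Nat.mul_le_mul_right m h2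
    have e2 := Nat.mul_le_mul_left (k + 1) ha
    have e3 : k * t ≤ k * t * m := Nat.le_mul_of_pos_right _ hm
    nlinarith
  · have e1 := Nat.mul_le_mul_right m h3
    have e2 := Nat.mul_le_mul_left (l + 1) ha
    have e3 : l * t ≤ l * t * m := Nat.le_mul_of_pos_right _ hm
    nlinarith

theorem nsmul_mem {G : Type*} [AddCommGroup G] [DecidableEq G] {K : Finset G} (s : Sg K)
    {g : G} (hg : g ∈ K) (j : ℕ) : j • g ∈ K := by
  induction j with
  | zero => simpa using s.zero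
  | succ j ih =>
    rw [succ_nsmul]
    exact s.add ih hg

theorem X_image {n d c : ℕ} (hd : d ∣ n) (A : Finset (ZMod n)) (j : ℕ) :
    X (A.image (ZMod.castHom hd (ZMod d))) (Cn d c) j =
      (X A (Cn n c) j).image (ZMod.castHom hd (ZMod d)) := by
  have hC : Cn d c = (Cn n c).image (ZMod.castHom hd (ZMod d)) := by
    unfold Cn
    rw [image_image]
    congr 1
    funext i
    simp
  induction j with
  | zero => rfl
  | succ j ih =>
    show _ + (_ + _) = image _ (_ + (_ + _))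
    rw [image_add, image_add, ih, hC]

theorem upper (k l t : ℕ) (hlk : l < k) (n : ℕ) : 0 < n → ∀ A : Finset (ZMod n), A.Nonempty →
    Disjoint (X A (Cn n (t + 2)) k) (X A (Cn n (t + 2)) l) → Feas n k l t #A := by
  induction n using Nat.strong_induction_on with
  | _ n ih =>
  intro hn A hA hd
  have : NeZero n := ⟨hn.ne'⟩
  by_cases h : #(st (X A (Cn n (t + 2)) k)) ≤ 1
  · exact aper hlk hA hd h
  obtain ⟨g, hg, hg0⟩ := exists_mem_ne (not_le.1 h) 0
  have s := sg_st (X A (Cn n (t + 2)) k)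
  have g1 : 0 < g.val := Nat.pos_of_ne_zero fun e => hg0 ((ZMod.val_eq_zero g).1 e)
  have g2 : g.val < n := ZMod.val_lt g
  obtain ⟨d, hdd⟩ : ∃ d, d = Nat.gcd g.val n := ⟨_, rfl⟩
  have d1 : 0 < d := hdd ▸ Nat.gcd_pos_of_pos_left _ g1
  have d2 : d < n := lt_of_le_of_lt (hdd ▸ Nat.gcd_le_left _ g1) g2
  have d3 : d ∣ n := hdd ▸ Nat.gcd_dvd_right _ _
  have d4 : (d : ZMod n) ∈ st (X A (Cn n (t + 2)) k) := by
    have e1 := congrArg (fun z : ℤ => (z : ZMod n)) (Nat.gcd_eq_gcd_ab g.val n)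
    simp only [Int.cast_natCast, Int.cast_add, Int.cast_mul, ZMod.natCast_self, zero_mul,
      add_zero, ZMod.natCast_zmod_val] at e1
    have e2 := nsmul_mem s hg ((Nat.gcdA g.val n : ℤ) : ZMod n).val
    rw [nsmul_eq_mul, ZMod.natCast_zmod_val, mul_comm, ← e1, ← hdd] at e2
    exact e2
  have hp : ∀ x : ZMod n, ZMod.castHom d3 (ZMod d) x = (x.val : ZMod d) := fun x => by
    rw [ZMod.castHom_apply, ZMod.natCast_val]
  have hF := ih d d2 d1 (A.image (ZMod.castHom d3 (ZMod d))) (hA.image _) (by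
    rw [X_image, X_image, disjoint_left]
    intro z h1 h2
    obtain ⟨x, hx, rfl⟩ := mem_image.1 h1
    obtain ⟨y, hy, e⟩ := mem_image.1 h2
    have e1 : ZMod.castHom d3 (ZMod d) (y - x) = 0 := by rw [map_sub, e, sub_self]
    rw [hp] at e1
    obtain ⟨m, hm⟩ := (ZMod.natCast_eq_zero_iff _ _).1 e1
    have e2 : y = x + m • (d : ZMod n) := by
      rw [nsmul_eq_mul, mul_comm, ← Nat.cast_mul, ← hm, ZMod.natCast_zmod_val, add_sub_cancel]
    refine disjoint_left.1 hd ?_ hy
    rw [e2]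
    exact mem_st.1 (nsmul_mem s d4 m) x hx)
  have hc : #A ≤ (n / d) * #(A.image (ZMod.castHom d3 (ZMod d))) := by
    refine card_le_mul_card_image A (n / d) fun z _ => ?_
    rw [← card_range (n / d)]
    refine card_le_card_of_injOn (fun x => x.val / d) (fun x _ => ?_) fun x hx y hy e => ?_
    · exact mem_coe.2 (mem_range.2 (Nat.div_lt_div_of_lt_of_dvd d3 (ZMod.val_lt x)))
    · have e1 := (mem_filter.1 (mem_coe.1 hx)).2.trans (mem_filter.1 (mem_coe.1 hy)).2.symm
      rw [hp, hp, ZMod.natCast_eq_natCast_iff'] at e1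
      have e2 := Nat.div_add_mod x.val d
      have e3 := Nat.div_add_mod y.val d
      have e4 : x.val / d = y.val / d := e
      rw [e4, e1, e3] at e2
      exact ZMod.val_injective n e2.symm
  have h5 := feas_mul (Nat.div_pos d2.le d1) hF hc
  rwa [Nat.mul_div_cancel' d3] at h5

theorem lower {n k l t a : ℕ} (hlk : l < k) (h : Feas n k l t a) :
    ∃ A : Finset (ZMod n), #A = a ∧
      Disjoint (X A (Cn n (t + 2)) k) (X A (Cn n (t + 2)) l) := by
  obtain ⟨D, ⟨e, h1⟩, h2, h3⟩ := h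
  obtain ⟨x, hx⟩ : ∃ x : ZMod n,
      ((l + 1 : ℕ) : ZMod n) * x = ((k + 1 : ℕ) : ZMod n) * x + D := by
    have e1 := congrArg (fun z : ℤ => (z : ZMod n)) (Nat.gcd_eq_gcd_ab n (k - l))
    simp only [Int.cast_natCast, Int.cast_add, Int.cast_mul, ZMod.natCast_self, zero_mul,
      zero_add] at e1
    refine ⟨-((Nat.gcdB n (k - l) : ℤ) * e), ?_⟩
    rw [h1, Nat.cast_mul, e1]
    push_cast [Nat.cast_sub hlk.le]
    ring
  have p2 : a ≤ (l + 1) * a := Nat.le_mul_of_pos_left a (Nat.succ_pos l)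
  have hm : ∀ y ∈ (range a).image (fun i : ℕ => x + i), ∃ i : ℕ, i < a ∧ y = x + i := by
    intro y hy
    obtain ⟨i, h4, h5⟩ := mem_image.1 hy
    exact ⟨i, mem_range.1 h4, h5.symm⟩
  refine ⟨(range a).image (fun i : ℕ => x + i), ?_, disjoint_left.2 fun y h4 h5 => ?_⟩
  · rw [card_image_of_injOn, card_range]
    intro i hi j hj e
    have e1 : (i : ZMod n) = j := add_left_cancel e
    have hi' := mem_range.1 (mem_coe.1 hi)
    have hj' := mem_range.1 (mem_coe.1 hj)
    rwa [ZMod.natCast_eq_natCast_iff', Nat.mod_eq_of_lt (by omega),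
      Nat.mod_eq_of_lt (by omega)] at e1
  · obtain ⟨i, h6, rfl⟩ := X_sub hm k y h4
    obtain ⟨j, h7, e⟩ := X_sub hm l _ h5
    rw [hx, add_assoc, ← Nat.cast_add] at e
    have e1 := add_left_cancel e
    rw [ZMod.natCast_eq_natCast_iff', Nat.mod_eq_of_lt (by omega),
      Nat.mod_eq_of_lt (by omega)] at e1
    omega

theorem arith {n k l t a : ℕ} (hlk : l < k) (chi r L : ℤ)
    (h1 : chi = ((n : ℤ) + 2 * t) / (k + l + 2) - t)
    (h2 : r = (-((k + 1 : ℤ) * chi) - k * t) % (Nat.gcd n (k - l) : ℕ))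
    (h3 : L = ((n : ℤ) + 2 * t - r) / (k + l + 2) - t) :
    Feas n k l t a ↔ (a : ℤ) ≤ L := by
  have hg : 0 < Nat.gcd n (k - l) := Nat.gcd_pos_of_pos_right _ (by omega)
  have hg2 : Nat.gcd n (k - l) ≤ k - l := Nat.gcd_le_right _ (by omega)
  unfold Feas
  generalize Nat.gcd n (k - l) = g at *
  have hs : (0 : ℤ) < k + l + 2 := by positivity
  have hg' : (0 : ℤ) < g := by exact_mod_cast hg
  have r0 : 0 ≤ r := h2 ▸ Int.emod_nonneg _ hg'.ne'
  have r1 : r < g := h2 ▸ Int.emod_lt_of_pos _ hg'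
  have c1 : ∀ b : ℤ, b ≤ chi ↔ (b + t) * (k + l + 2) ≤ n + 2 * t := fun b => by
    rw [h1, le_sub_iff_add_le, Int.le_ediv_iff_mul_le hs]
  have c2 : ∀ b : ℤ, b ≤ L ↔ (b + t) * (k + l + 2) ≤ n + 2 * t - r := fun b => by
    rw [h3, le_sub_iff_add_le, Int.le_ediv_iff_mul_le hs]
  have hgk : (g : ℤ) ≤ k - l := by omega
  have c3 := (c1 chi).1 le_rfl
  have r2 := Int.emod_add_mul_ediv (-((k + 1 : ℤ) * chi) - k * t) g
  rw [← h2] at r2
  constructor
  · rintro ⟨D, ⟨e, rfl⟩, h5, h6⟩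
    zify at h5 h6
    have h7 : (a : ℤ) ≤ chi := (c1 a).2 (by nlinarith)
    rw [c2]
    rcases h7.lt_or_eq with h8 | h8
    · have h9 : ((a : ℤ) + 1 + t) * (k + l + 2) ≤ n + 2 * t := (c1 _).1 (by omega)
      nlinarith
    · subst h8
      have h9 : r ≤ g * e - ((k + 1) * a + k * t) := by
        by_contra hc
        generalize (-((k + 1 : ℤ) * a) - k * t) / g = q at r2
        have h10 : (g : ℤ) * (-q - e) < g * 1 := by nlinarith
        have h11 : (g : ℤ) * 0 < g * (-q - e) := by nlinarith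
        have := lt_of_mul_lt_mul_left h10 hg'.le
        have := lt_of_mul_lt_mul_left h11 hg'.le
        omega
      nlinarith
  · intro h4
    have h5 := (c2 a).1 h4
    have h7 : (a : ℤ) ≤ chi := (c1 a).2 (by omega)
    rcases h7.lt_or_eq with h8 | h8
    · have h9 : ((a : ℤ) + 1 + t) * (k + l + 2) ≤ n + 2 * t := (c1 _).1 (by omega)
      generalize hP : (k + 1) * a + k * t = P
      have h6 := Nat.div_add_mod (P + g - 1) g
      have h10 := Nat.mod_lt (P + g - 1) hg
      refine ⟨g * ((P + g - 1) / g), dvd_mul_right _ _, by omega, ?_⟩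
      have h11 : g * ((P + g - 1) / g) ≤ P + g := by omega
      generalize g * ((P + g - 1) / g) = D at *
      zify at h11 hP ⊢
      nlinarith
    · subst h8
      refine ⟨(k + 1) * a + k * t + r.toNat, ?_, by omega, ?_⟩
      · rw [← Int.natCast_dvd_natCast]
        push_cast
        rw [Int.toNat_of_nonneg r0]
        exact ⟨-((-((k + 1 : ℤ) * a) - k * t) / g), by linarith⟩
      · zify
        rw [Int.toNat_of_nonneg r0]
        nlinarith

end Pool.Agent.H12.Noisy
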