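import Mathlib
import Pool.Agent.H12.DownSet

set_option autoImplicit false

namespace Pool.Agent.H12.PhiCore

open Finset Matrix Filter Topology Pool.Agent.H12.DownSet

variable {ι : Type} [Fintype ι] [DecidableEq ι] {s : ℕ}

def c (y : ι → ℤ) : ι → ℝ := fun i => (y i : ℝ)

omit [Fintype ι] [DecidableEq ι] in
lemma c_add (x y : ι → ℤ) : c (x + y) = c x + c y := by funext i; simp [c]

omit [Fintype ι] [DecidableEq ι] in
lemma c_zsmul (k : ℤ) (y : ι → ℤ) : c (k • y) = (k : ℝ) • c y := by funext i; simp [c]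

omit [Fintype ι] [DecidableEq ι] in
lemma c_sum (a : Fin s → ℕ) (u : Fin s → ι → ℤ) :
    c (∑ i, a i • u i) = ∑ i, (a i : ℝ) • c (u i) := by funext i; simp [c]

omit [DecidableEq ι] in
lemma c_mul (M : Matrix ι ι ℤ) (y : ι → ℤ) (w : Fin s → ι → ℤ) (μ : Fin s → ℝ)
    (h : c y = ∑ i, μ i • c (w i)) : c (M *ᵥ y) = ∑ i, μ i • c (M *ᵥ w i) := by
  have e : ∀ y, c (M *ᵥ y) = (M.map (Int.cast : ℤ → ℝ)) *ᵥ c y := fun y => by
    funext i; simp [c, mulVec, dotProduct]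
  simp only [e, h, mulVec_sum, mulVec_smul]

def InC (w : Fin s → ι → ℤ) (x : ι → ℝ) : Prop :=
  ∃ μ : Fin s → ℝ, (∀ i, 0 ≤ μ i) ∧ x = ∑ i, μ i • c (w i)

omit [Fintype ι] [DecidableEq ι] in
lemma InC.add {w : Fin s → ι → ℤ} {x y : ι → ℝ} (hx : InC w x) (hy : InC w y) : InC w (x + y) := by
  obtain ⟨μ, h1, rfl⟩ := hx
  obtain ⟨ν, h2, rfl⟩ := hy
  exact ⟨μ + ν, fun i => add_nonneg (h1 i) (h2 i), by simp [add_smul, sum_add_distrib]⟩

omit [Fintype ι] [DecidableEq ι] in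
lemma InC.smul {w : Fin s → ι → ℤ} {x : ι → ℝ} (hx : InC w x) {a : ℝ} (ha : 0 ≤ a) :
    InC w (a • x) := by
  obtain ⟨μ, h1, rfl⟩ := hx
  exact ⟨a • μ, fun i => mul_nonneg ha (h1 i), by simp [smul_sum, smul_smul]⟩

omit [Fintype ι] [DecidableEq ι] in
lemma InC.sum {w : Fin s → ι → ℤ} {κ : Type} (t : Finset κ) (x : κ → ι → ℝ)
    (h : ∀ i ∈ t, InC w (x i)) : InC w (∑ i ∈ t, x i) :=
  sum_induction x (InC w) (fun _ _ => InC.add) ⟨0, fun _ => le_rfl, by simp⟩ h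

omit [DecidableEq ι] in
lemma InC.mul {w : Fin s → ι → ℤ} {M : Matrix ι ι ℤ} (hM : ∀ i, InC w (c (M *ᵥ w i)))
    {y : ι → ℤ} (hy : InC w (c y)) : InC w (c (M *ᵥ y)) := by
  obtain ⟨μ, h1, h2⟩ := hy
  rw [c_mul M y w μ h2]
  exact InC.sum _ _ fun i _ => (hM i).smul (h1 i)

omit [DecidableEq ι] in
lemma bdd_finite (u : Fin s → ι → ℤ) (B : ℕ) :
    {y : ι → ℤ | ∃ μ : Fin s → ℝ, (∀ i, 0 ≤ μ i ∧ μ i ≤ B) ∧ c y = ∑ i, μ i • c (u i)}.Finite := by
  refine (Set.Finite.pi' fun j => Set.finite_Icc (-(B * ∑ i, |u i j|)) (B * ∑ i, |u i j|)).subset ?_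
  rintro y ⟨μ, h1, h2⟩ j
  have h3 := congrFun h2 j
  simp only [c, Finset.sum_apply, Pi.smul_apply, smul_eq_mul] at h3
  have h4 : |(y j : ℝ)| ≤ B * ∑ i, |(u i j : ℝ)| := by
    rw [h3, mul_sum]
    refine (abs_sum_le_sum_abs _ _).trans (sum_le_sum fun i _ => ?_)
    rw [abs_mul, abs_of_nonneg (h1 i).1]
    exact mul_le_mul_of_nonneg_right (h1 i).2 (abs_nonneg _)
  exact abs_le.mp (by exact_mod_cast h4)

structure Setup (T : Matrix ι ι ℤ) (r : ℕ) (h0 : ι) (w : Fin s → ι → ℤ) : Prop where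
  hr : 0 < r
  hT : T ^ r = 1
  hh : ∀ y : ι → ℤ, (T *ᵥ y) h0 = y h0
  hw : ∀ i, w i h0 = 1
  hC : ∀ i, InC w (c (T *ᵥ w i))
  hs : ∀ y : ι → ℤ, ∃ μ : Fin s → ℝ, c y = ∑ i, μ i • c (w i)

def Sg (T : Matrix ι ι ℤ) (r : ℕ) : Matrix ι ι ℤ := ∑ i ∈ range r, T ^ i

variable {T : Matrix ι ι ℤ} {r : ℕ} {h0 : ι} {w : Fin s → ι → ℤ}

lemma Setup.fix (S : Setup T r h0 w) (y : ι → ℤ) : T *ᵥ (Sg T r *ᵥ y) = Sg T r *ᵥ y := by
  have := mul_geom_sum T r
  rw [S.hT, sub_self, sub_mul, one_mul, sub_eq_zero] at this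
  rw [mulVec_mulVec, Sg, this]

lemma Sg_fix {κ : ι → ℤ} (hκ : T *ᵥ κ = κ) : Sg T r *ᵥ κ = (r : ℤ) • κ := by
  have : ∀ i : ℕ, (T ^ i) *ᵥ κ = κ := fun i => by
    induction i with
    | zero => simp
    | succ i ih => rw [pow_succ, ← mulVec_mulVec, hκ, ih]
  rw [Sg, sum_mulVec]; simp [this]

lemma Setup.ht (S : Setup T r h0 w) (y : ι → ℤ) : (Sg T r *ᵥ y) h0 = r * y h0 := by
  have : ∀ i : ℕ, ((T ^ i) *ᵥ y) h0 = y h0 := fun i => by
    induction i with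
    | zero => simp
    | succ i ih => rw [pow_succ', ← mulVec_mulVec, S.hh, ih]
  rw [Sg, sum_mulVec, Finset.sum_apply]; simp [this]

lemma Setup.cone (S : Setup T r h0 w) {y : ι → ℤ} (hy : InC w (c y)) : InC w (c (Sg T r *ᵥ y)) := by
  have : ∀ i : ℕ, InC w (c ((T ^ i) *ᵥ y)) := fun i => by
    induction i with
    | zero => simpa using hy
    | succ i ih => rw [pow_succ', ← mulVec_mulVec]; exact InC.mul S.hC ih
  have e : c (Sg T r *ᵥ y) = ∑ i ∈ range r, c ((T ^ i) *ᵥ y) := by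
    rw [Sg, sum_mulVec]; funext j; simp [c]
  rw [e]
  exact InC.sum _ _ fun i _ => this i

omit [Fintype ι] [DecidableEq ι] in
lemma InC_w (w : Fin s → ι → ℤ) (i : Fin s) : InC w (c (w i)) :=
  ⟨Pi.single i 1, fun j => by rw [Pi.single_apply]; split_ifs <;> norm_num, by
    simp [Pi.single_apply]⟩

lemma Setup.slice_finite (S : Setup T r h0 w) (k : ℕ) :
    {y : ι → ℤ | y h0 = k ∧ InC w (c y)}.Finite := by
  refine (bdd_finite w k).subset ?_
  rintro y ⟨h1, μ, h2, h3⟩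
  refine ⟨μ, fun i => ⟨h2 i, ?_⟩, h3⟩
  have h4 := congrFun h3 h0
  simp only [c, Finset.sum_apply, Pi.smul_apply, smul_eq_mul, S.hw, h1, Int.cast_one, mul_one,
    Int.cast_natCast] at h4
  rw [h4]
  exact single_le_sum (fun j _ => h2 j) (mem_univ i)

def Y (T : Matrix ι ι ℤ) (r : ℕ) (h0 : ι) (w : Fin s → ι → ℤ) (k : ℕ) : Set (ι → ℤ) :=
  {y | (∃ n : ι → ℤ, n h0 = k ∧ y = Sg T r *ᵥ n) ∧ InC w (c y)}

def Z (T : Matrix ι ι ℤ) (h0 : ι) (w : Fin s → ι → ℤ) (k : ℕ) : Set (ι → ℤ) :=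
  {κ | T *ᵥ κ = κ ∧ κ h0 = k ∧ InC w (c κ)}

lemma Setup.Y_finite (S : Setup T r h0 w) (k : ℕ) : (Y T r h0 w k).Finite := by
  refine (S.slice_finite (r * k)).subset ?_
  rintro y ⟨⟨n, h1, rfl⟩, h2⟩
  exact ⟨by rw [S.ht, h1]; push_cast; rfl, h2⟩

lemma Setup.Z_finite (S : Setup T r h0 w) (k : ℕ) : (Z T h0 w k).Finite :=
  (S.slice_finite k).subset fun _ h => h.2

lemma Setup.Y_lim (S : Setup T r h0 w) (d : ℕ) (hd : ∀ U : Finset (Fin s),
    LinearIndependent ℤ (fun i : U => Sg T r *ᵥ w i) → U.card ≤ d + 1) :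
    ∃ N, Lim d (fun k => (Y T r h0 w k).ncard) N := by
  let u : Fin s → ι → ℤ := fun i => Sg T r *ᵥ w i
  have hu : ∀ i, u i h0 = r := fun i => by simp only [u]; rw [S.ht, S.hw, mul_one]
  have hr' : (0 : ℝ) < r := by exact_mod_cast S.hr
  have hrz : (r : ℤ) ≠ 0 := by exact_mod_cast S.hr.ne'
  let F : Set (ι → ℤ) := {y | (∃ n, y = Sg T r *ᵥ n) ∧
    ∃ μ : Fin s → ℝ, (∀ i, 0 ≤ μ i ∧ μ i ≤ (1 : ℕ)) ∧ c y = ∑ i, μ i • c (u i)}
  have hF : F.Finite := (bdd_finite u 1).subset fun _ h => h.2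
  obtain ⟨t, f, -, hf⟩ := hF.fin_param
  have hk : ∀ j, ∃ k : ℕ, f j h0 = r * k := by
    intro j
    obtain ⟨⟨n, h1⟩, μ, h2, h3⟩ : f j ∈ F := hf ▸ Set.mem_range_self j
    have h4 := congrFun h3 h0
    simp only [c, Finset.sum_apply, Pi.smul_apply, smul_eq_mul, hu] at h4
    have h5 : (0 : ℝ) ≤ f j h0 := by
      rw [h4]; exact sum_nonneg fun i _ => mul_nonneg (h2 i).1 (by positivity)
    have h6 : 0 ≤ f j h0 := by exact_mod_cast h5
    rw [h1, S.ht] at h6 ⊢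
    obtain ⟨k, hk⟩ := Int.eq_ofNat_of_zero_le (nonneg_of_mul_nonneg_right h6 (by
      exact_mod_cast S.hr) : 0 ≤ n h0)
    exact ⟨k, by rw [hk]⟩
  choose kf hkf using hk
  have hht : ∀ j (a : Fin s → ℕ), (f j + ∑ i, a i • u i) h0 = r * ((kf j + ∑ i, a i : ℕ) : ℤ) := by
    intro j a
    simp only [Pi.add_apply, Finset.sum_apply, Pi.smul_apply, hu, hkf]
    simp only [nsmul_eq_mul]
    push_cast; rw [← sum_mul]; ring
  have h1 := module_growth u f kf (d + 1) hd fun j j' a a' h => by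
    have := hht j a
    rw [h, hht] at this
    exact_mod_cast (mul_left_cancel₀ hrz this).symm
  refine Q_congr (e := d + 1) h1 (Eventually.of_forall fun k => ?_)
  congr 1
  ext y
  constructor
  · rintro ⟨j, a, h2, rfl⟩
    obtain ⟨⟨n, h3⟩, μ, h4, h5⟩ : f j ∈ F := hf ▸ Set.mem_range_self j
    have h6 : f j + ∑ i, a i • u i = Sg T r *ᵥ (n + ∑ i, a i • w i) := by
      rw [mulVec_add, mulVec_sum, h3]; simp only [mulVec_smul, u]
    refine ⟨⟨_, ?_, h6⟩, ?_⟩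
    · apply mul_left_cancel₀ hrz
      rw [← S.ht, ← h6, hht, h2]
    · rw [c_add, c_sum, h5]
      exact (InC.sum _ _ fun i _ => (S.cone (InC_w w i)).smul (h4 i).1).add
        (InC.sum _ _ fun i _ => (S.cone (InC_w w i)).smul (Nat.cast_nonneg _))
  · rintro ⟨⟨n, h2, h3⟩, μ, h4, h5⟩
    have h6 := c_mul (Sg T r) y w μ h5
    rw [Sg_fix (h3 ▸ S.fix n), c_zsmul] at h6
    let a : Fin s → ℕ := fun i => ⌊μ i / r⌋₊
    have h7 : y - ∑ i, a i • u i ∈ F := by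
      refine ⟨⟨n - ∑ i, a i • w i, ?_⟩, fun i => μ i / r - a i, fun i => ⟨?_, ?_⟩, ?_⟩
      · rw [mulVec_sub, mulVec_sum, h3]; simp only [mulVec_smul, u]
      · exact sub_nonneg.mpr (Nat.floor_le (div_nonneg (h4 i) hr'.le))
      · have := Nat.lt_floor_add_one (μ i / r)
        simp only [a]; push_cast; linarith
      · have e1 : c y = c (y - ∑ i, a i • u i) + c (∑ i, a i • u i) := by rw [← c_add, sub_add_cancel]
        have e2 : c y = ∑ i, (μ i / r) • c (u i) := by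
          have : c y = (r : ℝ)⁻¹ • (((r : ℤ) : ℝ) • c y) := by
            rw [smul_smul]; simp [hr'.ne']
          rw [this, h6, smul_sum]
          exact sum_congr rfl fun i _ => by rw [smul_smul, div_eq_inv_mul]
        rw [eq_sub_of_add_eq e1.symm, e2, c_sum, ← sum_sub_distrib]
        exact sum_congr rfl fun i _ => by rw [sub_smul]
    rw [← hf] at h7
    obtain ⟨j, hj⟩ := h7
    have h8 : y = f j + ∑ i, a i • u i := by rw [hj, sub_add_cancel]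
    refine ⟨j, a, ?_, h8⟩
    have := hht j a
    rw [← h8, h3, S.ht, h2] at this
    exact_mod_cast (mul_left_cancel₀ hrz this).symm

def k0 (T : Matrix ι ι ℤ) (r : ℕ) (w : Fin s → ι → ℤ) : ι → ℤ := Sg T r *ᵥ ∑ i, w i

lemma Setup.k0_ht (S : Setup T r h0 w) : k0 T r w h0 = (r * s : ℕ) := by
  rw [k0, S.ht]; simp [S.hw]

lemma Setup.push (S : Setup T r h0 w) (y : ι → ℤ) :
    ∀ᶠ L : ℕ in atTop, InC w (c (Sg T r *ᵥ (y + (L : ℤ) • k0 T r w))) := by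
  obtain ⟨μ, hμ⟩ := S.hs y
  have : ∀ᶠ L : ℕ in atTop, ∀ i, -μ i ≤ L :=
    eventually_all.mpr fun i => tendsto_natCast_atTop_atTop.eventually_ge_atTop _
  filter_upwards [this] with L hL
  have e : c (k0 T r w) = ∑ i, c (Sg T r *ᵥ w i) := by
    rw [k0, mulVec_sum]; funext j; simp [c]
  rw [mulVec_add, mulVec_smul, Sg_fix (κ := k0 T r w) (S.fix _), c_add, c_zsmul, c_zsmul,
    c_mul _ y w μ hμ, e, smul_smul, smul_sum, ← sum_add_distrib]
  refine InC.sum _ _ fun i _ => ?_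
  rw [← add_smul]
  refine (S.cone (InC_w w i)).smul ?_
  have h1 : (1 : ℝ) ≤ r := by exact_mod_cast S.hr
  have h2 := hL i
  have h3 : (0 : ℝ) ≤ L := Nat.cast_nonneg _
  push_cast; nlinarith

lemma Setup.unscale (S : Setup T r h0 w) {κ : ι → ℤ} (h : InC w (c ((r : ℤ) • κ))) : InC w (c κ) := by
  have hr' : (0 : ℝ) < r := by exact_mod_cast S.hr
  have := h.smul (inv_nonneg.mpr hr'.le)
  rwa [c_zsmul, smul_smul, Int.cast_natCast, inv_mul_cancel₀ hr'.ne', one_smul] at this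

theorem Setup.main (S : Setup T r h0 w) (d : ℕ) (hd : ∀ U : Finset (Fin s),
    LinearIndependent ℤ (fun i : U => Sg T r *ᵥ w i) → U.card ≤ d + 1) (ind : ℕ) (hi : 0 < ind)
    (κ1 : ι → ℤ) (h1 : T *ᵥ κ1 = κ1) (h2 : κ1 h0 = ind)
    (h3 : ∀ κ, T *ᵥ κ = κ → (ind : ℤ) ∣ κ h0) (H : AddSubgroup (ι → ℤ)) (hH : H.index ≠ 0)
    (mH : ∀ y, y ∈ H ↔ ∃ κ, T *ᵥ κ = κ ∧ Sg T r *ᵥ y = (r : ℤ) • κ) :
    ∃ N : ℕ, Tendsto (fun m : ℕ => (d.factorial : ℝ) * ((Z T h0 w (m * ind)).ncard /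
      ((m * ind : ℕ) : ℝ) ^ d) * H.index / ind) atTop (𝓝 N) := by
  classical
  obtain ⟨N, hN⟩ := S.Y_lim d hd
  have hrz : (r : ℤ) ≠ 0 := by exact_mod_cast S.hr.ne'
  have hfix : ∀ κ, T *ᵥ κ = κ → κ ∈ H := fun κ h => (mH κ).mpr ⟨κ, h, Sg_fix h⟩
  let N0 : AddSubgroup (ι → ℤ) :=
    (AddSubgroup.zmultiples (ind : ℤ)).comap (Pi.evalAddMonoidHom (fun _ => ℤ) h0)
  have mN0 : ∀ y, y ∈ N0 ↔ (ind : ℤ) ∣ y h0 := fun y => by
    simp [N0, Int.mem_zmultiples_iff]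
  have hle : H ≤ N0 := fun y hy => by
    obtain ⟨κ, a1, a2⟩ := (mH y).mp hy
    have := S.ht y
    rw [a2, Pi.smul_apply, smul_eq_mul] at this
    rw [mN0, ← mul_left_cancel₀ hrz this]; exact h3 κ a1
  have hidx : H.relIndex N0 * ind = H.index := by
    rw [← AddSubgroup.relIndex_mul_index hle, AddSubgroup.index_comap_of_surjective _
      (fun x => ⟨fun _ => x, rfl⟩), Int.index_zmultiples, Int.natAbs_natCast]
  let Γ := N0 ⧸ H.addSubgroupOf N0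
  have hΓ : Nat.card Γ = H.relIndex N0 := rfl
  have : Finite Γ := Nat.finite_of_card_ne_zero (by rw [hΓ]; exact left_ne_zero_of_mul (hidx ▸ hH))
  have hrep : ∀ γ : Γ, ∃ y : N0, (y : ι → ℤ) h0 = 0 ∧ (y : Γ) = γ := by
    intro γ
    obtain ⟨y, rfl⟩ := QuotientAddGroup.mk_surjective γ
    obtain ⟨j, hj⟩ := (mN0 y).mp y.2
    refine ⟨y - j • ⟨κ1, hle (hfix _ h1)⟩, by simp [hj, h2, mul_comm], ?_⟩
    rw [QuotientAddGroup.eq, AddSubgroup.mem_addSubgroupOf]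
    simpa using H.zsmul_mem (hfix _ h1) j
  choose y0 hy0 hy1 using hrep
  obtain ⟨L, hL⟩ := (eventually_all.mpr fun γ => S.push (y0 γ)).exists
  have hk0 : T *ᵥ k0 T r w = k0 T r w := S.fix _
  obtain ⟨h', hh'⟩ : ind ∣ r * s := by
    have := h3 _ hk0
    rw [S.k0_ht] at this
    exact_mod_cast this
  let y : Γ → ι → ℤ := fun γ => y0 γ + (L : ℤ) • k0 T r w
  have hy : ∀ γ, y γ h0 = (L * h' * ind : ℕ) := fun γ => by
    simp only [y, Pi.add_apply, Pi.smul_apply, hy0, S.k0_ht, hh']; push_cast; ring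
  have A1 : ∀ k, Nat.card Γ * (Z T h0 w k).ncard ≤ (Y T r h0 w (k + L * h' * ind)).ncard := by
    intro k
    rw [← Set.ncard_univ, ← Set.ncard_prod]
    refine Set.ncard_le_ncard_of_injOn (fun p => Sg T r *ᵥ (y p.1 + p.2)) ?_ ?_ (S.Y_finite _)
    · rintro ⟨γ, κ⟩ ⟨-, a1, a2, a3⟩
      refine ⟨⟨_, ?_, rfl⟩, ?_⟩
      · simp only at a2
        simp only [Pi.add_apply, hy, a2]; push_cast; ring
      · rw [mulVec_add, c_add]
        exact (hL γ).add (S.cone a3)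
    · rintro ⟨γ, κ⟩ ⟨-, a1, -⟩ ⟨γ', κ'⟩ ⟨-, a2, -⟩ e
      simp only [mulVec_add, y] at e a1 a2
      have b1 : γ = γ' := by
        rw [← hy1 γ, ← hy1 γ', QuotientAddGroup.eq, AddSubgroup.mem_addSubgroupOf, mH]
        refine ⟨κ - κ', by rw [mulVec_sub, a1, a2], ?_⟩
        rw [smul_sub, ← Sg_fix a1, ← Sg_fix a2, AddSubgroup.coe_add, AddSubgroup.coe_neg, mulVec_add,
          mulVec_neg]
        linear_combination -e
      subst b1
      rw [add_right_inj, Sg_fix a1, Sg_fix a2] at e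
      rw [smul_right_injective _ hrz e]
  have A2 : ∀ m, (Y T r h0 w (m * ind)).ncard ≤
      Nat.card Γ * (Z T h0 w (m * ind + L * h' * ind)).ncard := by
    intro m
    rw [← Set.ncard_univ, ← Set.ncard_prod]
    have hf : ((Set.univ : Set Γ) ×ˢ Z T h0 w (m * ind + L * h' * ind)).Finite :=
      Set.finite_univ.prod (S.Z_finite _)
    refine le_trans (Set.ncard_le_ncard ?_ (hf.image _))
      (Set.ncard_image_le (f := fun p => (r : ℤ) • p.2 - Sg T r *ᵥ y p.1) hf)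
    rintro _ ⟨⟨n, a1, rfl⟩, a2⟩
    let n' : N0 := ⟨n, (mN0 n).mpr ⟨m, by rw [a1]; push_cast; ring⟩⟩
    have b1 : n + y (-(n' : Γ)) ∈ H := by
      have b2 := hy1 (-(n' : Γ))
      rw [← QuotientAddGroup.mk_neg, eq_comm, QuotientAddGroup.eq, AddSubgroup.mem_addSubgroupOf,
        neg_neg] at b2
      have := H.add_mem b2 (H.zsmul_mem (hfix _ hk0) L)
      simpa [y, n', add_assoc] using this
    obtain ⟨κ, b3, b4⟩ := (mH _).mp b1
    refine ⟨(-(n' : Γ), κ), ⟨trivial, b3, ?_, S.unscale ?_⟩, ?_⟩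
    · have := S.ht (n + y (-(n' : Γ)))
      rw [b4, Pi.smul_apply, smul_eq_mul, Pi.add_apply, hy, a1] at this
      show κ h0 = _
      rw [mul_left_cancel₀ hrz this]; push_cast; ring
    · rw [← b4, mulVec_add, c_add]
      exact a2.add (hL _)
    · simp only
      rw [← b4, mulVec_add, add_sub_cancel_right]
  have hm : Tendsto (fun m : ℕ => m * ind) atTop atTop :=
    tendsto_atTop_mono (fun m => Nat.le_mul_of_pos_right m hi) tendsto_id
  refine ⟨N, tendsto_of_tendsto_of_tendsto_of_le_of_le' ((hN.sub (L * h' * ind)).comp hm)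
    ((hN.add_nat (L * h' * ind)).comp hm) ?_ ?_⟩
  all_goals
    filter_upwards [eventually_ge_atTop (L * h')] with m hm
    have hi' : (0 : ℝ) < ind := by exact_mod_cast hi
    have e : (d.factorial : ℝ) * ((Z T h0 w (m * ind)).ncard / ((m * ind : ℕ) : ℝ) ^ d) * H.index /
        ind = d.factorial * ((Nat.card Γ * (Z T h0 w (m * ind)).ncard : ℕ) : ℝ) /
          ((m * ind : ℕ) : ℝ) ^ d := by
      rw [← hidx, hΓ, Nat.cast_mul (H.relIndex N0), Nat.cast_mul (H.relIndex N0)]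
      field_simp
    rw [e]
    simp only [Function.comp]
    gcongr
  · have := A2 (m - L * h')
    rwa [← add_mul, Nat.sub_add_cancel hm, Nat.sub_mul] at this
  · exact A1 _

end Pool.Agent.H12.PhiCore
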