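import Mathlib

set_option autoImplicit false

namespace Pool.Agent.H12.PhiDet

open Finset Polynomial Matrix

lemma det_pos {m : Type} [Fintype m] [DecidableEq m] (B : Matrix m m ℝ) (r : ℕ) (hr : 0 < r)
    (h : ∑ i ∈ range r, B ^ i = 0) : 0 < (1 - B).det := by
  have hc : Continuous fun s : ℝ => (1 - s • B).det := by fun_prop
  have hne : ∀ s : ℝ, 0 ≤ s → (1 - s • B).det ≠ 0 := by
    intro s hs h0
    obtain ⟨v, hv, h1⟩ := Matrix.exists_mulVec_eq_zero_iff.mpr h0
    rw [sub_mulVec, one_mulVec, sub_eq_zero] at h1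
    have h2 : ∀ i : ℕ, v = (s ^ i) • (B ^ i) *ᵥ v := by
      intro i
      induction i with
      | zero => simp
      | succ i ih =>
        rw [pow_succ B, ← mulVec_mulVec, pow_succ, mul_smul, ← mulVec_smul (B ^ i) s, ← smul_mulVec s B, ← h1]
        exact ih
    have h3 : (∑ i ∈ range r, s ^ (r - 1 - i)) • v = 0 := by
      calc _ = ∑ i ∈ range r, s ^ (r - 1) • (B ^ i) *ᵥ v := by
            rw [sum_smul]
            refine sum_congr rfl fun i hi => ?_
            have := mem_range.mp hi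
            conv_lhs => rw [h2 i, smul_smul, ← pow_add, show r - 1 - i + i = r - 1 by omega]
        _ = 0 := by rw [← smul_sum, ← sum_mulVec, h]; simp
    have h4 : 0 < ∑ i ∈ range r, s ^ (r - 1 - i) :=
      sum_pos' (fun i _ => by positivity) ⟨r - 1, mem_range.mpr (by omega), by simp⟩
    exact hv ((smul_eq_zero.mp h3).resolve_left h4.ne')
  by_contra hn
  have := intermediate_value_Icc' zero_le_one hc.continuousOn
  obtain ⟨s, hs, h0⟩ := this (show (0 : ℝ) ∈ _ from ⟨by simpa using hn, by simp⟩)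
  exact hne s hs.1 h0

theorem det_part {ι : Type} [Fintype ι] [DecidableEq ι] (T : Matrix ι ι ℤ) (r : ℕ) (hr : 0 < r)
    (hT : T ^ r = 1) : ∃ (e : ℕ) (q : ℤ[X]) (H : AddSubgroup (ι → ℤ)),
      T.charpoly = (X - C 1) ^ e * q ∧ 0 < q.eval 1 ∧ (H.index : ℤ) ∣ q.eval 1 ∧
      ∀ y, y ∈ H ↔ ∃ κ, T *ᵥ κ = κ ∧ (∑ i ∈ range r, T ^ i) *ᵥ y = (r : ℤ) • κ := by
  set Sg := ∑ i ∈ range r, T ^ i with hS
  have h1 : Sg * T = Sg := by
    have := geom_sum_mul T r
    rw [hT, sub_self, mul_sub, mul_one, sub_eq_zero] at this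
    exact this
  let W : Submodule ℤ (ι → ℤ) := LinearMap.ker (toLin' Sg)
  have hW : ∀ y, y ∈ W ↔ Sg *ᵥ y = 0 := fun y => by simp [W]
  have : Module.Free ℤ ((ι → ℤ) ⧸ W) := Module.Free.of_equiv (toLin' Sg).quotKerEquivRange.symm
  have he : W ≤ W.comap (toLin' T) := fun y hy => by
    rw [Submodule.mem_comap, hW, toLin'_apply, mulVec_mulVec, h1]; exact (hW y).mp hy
  let τ : W →ₗ[ℤ] W := (toLin' T).restrict he
  have hU : ∀ y, (1 - toLin' T : Module.End ℤ (ι → ℤ)) y ∈ W := fun y => by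
    rw [hW]; simp [mulVec_sub, h1]
  have hq : τ.charpoly.eval 1 = LinearMap.det (1 - τ) := by rw [LinearMap.eval_charpoly, map_one]
  have hpos : 0 < LinearMap.det (1 - τ) := by
    let b := Module.Free.chooseBasis ℤ W
    have a1 : ∑ i ∈ range r, τ ^ i = 0 := by
      ext y : 1
      apply Subtype.ext
      have : ∀ i : ℕ, ((τ ^ i) y : ι → ℤ) = (T ^ i) *ᵥ y := by
        intro i
        induction i with
        | zero => simp
        | succ i ih => rw [pow_succ', pow_succ', ← mulVec_mulVec, ← ih]; rfl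
      rw [LinearMap.sum_apply, Submodule.coe_sum]
      simp only [this]
      rw [← sum_mulVec]
      exact (hW _).mp y.2
    let F := (Int.castRingHom ℝ).mapMatrix.comp (LinearMap.toMatrixAlgEquiv b).toRingEquiv.toRingHom
    have a2 := det_pos (F τ) r hr (by simp only [← map_pow, ← map_sum, a1, map_zero])
    rw [← map_one F, ← map_sub] at a2
    have a3 : (F (1 - τ)).det = ((LinearMap.det (1 - τ) : ℤ) : ℝ) := by
      rw [← LinearMap.det_toMatrix b]
      exact ((Int.castRingHom ℝ).map_det _).symm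
    rw [a3] at a2
    exact_mod_cast a2
  have hinj : Function.Injective (1 - τ : Module.End ℤ W) := by
    rw [← LinearMap.ker_eq_bot]
    by_contra h
    exact hpos.ne' ((LinearMap.det_eq_zero_iff_ker_ne_bot).mpr h)
  let ψ : (ι → ℤ) →ₗ[ℤ] W ⧸ LinearMap.range (1 - τ : Module.End ℤ W) :=
    (Submodule.mkQ _).comp (LinearMap.codRestrict W (1 - toLin' T) hU)
  refine ⟨Module.finrank ℤ ((ι → ℤ) ⧸ W), τ.charpoly, ψ.toAddMonoidHom.ker, ?_, hq ▸ hpos, ?_, ?_⟩
  · apply Polynomial.funext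
    intro x
    have hx : W ≤ W.comap (algebraMap ℤ (Module.End ℤ (ι → ℤ)) x - toLin' T) := fun y hy =>
      W.sub_mem (W.smul_mem x hy) (he hy)
    rw [← Matrix.charpoly_toLin', LinearMap.eval_charpoly, LinearMap.det_eq_det_mul_det W _ hx,
      eval_mul, LinearMap.eval_charpoly, mul_comm]
    congr 1
    have : W.mapQ W _ hx = (x - 1) • LinearMap.id := by
      refine LinearMap.ext fun y => ?_
      obtain ⟨y, rfl⟩ := Submodule.Quotient.mk_surjective W y
      rw [Submodule.mapQ_apply, LinearMap.smul_apply, LinearMap.id_apply,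
        ← Submodule.Quotient.mk_smul, Submodule.Quotient.eq]
      convert hU y using 1
      simp only [LinearMap.sub_apply, Module.algebraMap_end_apply, Module.End.one_apply, sub_smul,
        one_smul]
      abel
    rw [this, LinearMap.det_smul]; simp
  · have a1 := Submodule.natAbs_det_equiv _ (LinearEquiv.ofInjective _ hinj)
    have a2 : (LinearMap.range (1 - τ : Module.End ℤ W)).subtype ∘ₗ AddMonoidHom.toIntLinearMap
      (LinearEquiv.ofInjective _ hinj : W →+ LinearMap.range (1 - τ : Module.End ℤ W)) = 1 - τ := by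
      ext; rfl
    rw [a2] at a1
    rw [hq, ← Int.dvd_natAbs, Int.natCast_dvd_natCast, a1, AddSubgroup.index_ker]
    exact AddSubgroup.card_addSubgroup_dvd_card _
  · intro y
    simp only [AddMonoidHom.mem_ker, LinearMap.toAddMonoidHom_coe, ψ, LinearMap.comp_apply,
      Submodule.mkQ_apply, Submodule.Quotient.mk_eq_zero, LinearMap.mem_range]
    have hfix : ∀ κ, T *ᵥ κ = κ → Sg *ᵥ κ = (r : ℤ) • κ := by
      intro κ hκ
      have : ∀ i : ℕ, (T ^ i) *ᵥ κ = κ := fun i => by
        induction i with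
        | zero => simp
        | succ i ih => rw [pow_succ, ← mulVec_mulVec, hκ, ih]
      rw [hS, sum_mulVec]; simp [this]
    constructor
    · rintro ⟨m, hm⟩
      have hm' : (m : ι → ℤ) - T *ᵥ m = y - T *ᵥ y := congrArg Subtype.val hm
      have a1 : T *ᵥ (y - m) = y - m := by rw [mulVec_sub]; linear_combination hm'
      exact ⟨y - m, a1, by rw [← hfix _ a1, mulVec_sub, (hW _).mp m.2, sub_zero]⟩
    · rintro ⟨κ, a1, a2⟩
      refine ⟨⟨y - κ, by rw [hW, mulVec_sub, a2, hfix _ a1, sub_self]⟩, Subtype.ext ?_⟩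
      show y - κ - T *ᵥ (y - κ) = y - T *ᵥ y
      rw [mulVec_sub, a1]; abel

lemma eval_div (p q : ℤ[X]) (hp : p ≠ 0) (e : ℕ) (h : p * (X - C 1) = (X - C 1) ^ e * q)
    (hq : q.eval 1 ≠ 0) :
    eval 1 (p /ₘ (X - C (1 : ℤ)) ^ p.rootMultiplicity 1) = q.eval 1 := by
  have h1 := pow_mul_divByMonic_rootMultiplicity_eq p 1
  have h2 := eval_divByMonic_pow_rootMultiplicity_ne_zero 1 hp
  set p' := p /ₘ (X - C (1 : ℤ)) ^ p.rootMultiplicity 1
  set m := p.rootMultiplicity 1
  have hX : (X - C (1 : ℤ)) ≠ 0 := X_sub_C_ne_zero 1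
  have h3 : (X - C 1) ^ (m + 1) * p' = (X - C 1) ^ e * q := by rw [← h, ← h1]; ring
  rcases lt_trichotomy (m + 1) e with c | c | c
  · obtain ⟨k, rfl⟩ := Nat.exists_eq_add_of_lt c
    rw [add_assoc (m + 1), pow_add _ (m + 1), mul_assoc] at h3
    rw [mul_left_cancel₀ (pow_ne_zero _ hX) h3] at h2
    simp at h2
  · rw [c] at h3
    rw [mul_left_cancel₀ (pow_ne_zero _ hX) h3]
  · obtain ⟨k, hk⟩ := Nat.exists_eq_add_of_lt c
    rw [hk, add_assoc e, pow_add _ e, mul_assoc] at h3
    rw [← mul_left_cancel₀ (pow_ne_zero _ hX) h3] at hq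
    simp at hq

end Pool.Agent.H12.PhiDet
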