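import Mathlib
import Pool.Agent.H12.PhiCore
import Pool.Agent.H12.PhiDet

set_option autoImplicit false

namespace Pool.Agent.H12.Phi

open Finset Matrix Filter Topology Pool.Agent.H12.PhiCore Pool.Agent.H12.PhiDet
open scoped Pointwise

lemma mem_hull {n s : ℕ} (p : Fin s → Fin n → ℝ) (x : Fin n → ℝ) :
    x ∈ convexHull ℝ (Set.range p) ↔ ∃ μ : Fin s → ℝ, (∀ i, 0 ≤ μ i) ∧ ∑ i, μ i = 1 ∧
      x = ∑ i, μ i • p i := by
  constructor
  · intro hx
    refine convexHull_min (t := {x | ∃ μ : Fin s → ℝ, (∀ i, 0 ≤ μ i) ∧ ∑ i, μ i = 1 ∧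
      x = ∑ i, μ i • p i}) ?_ ?_ hx
    · rintro _ ⟨i, rfl⟩
      exact ⟨Pi.single i 1, fun j => by rw [Pi.single_apply]; split_ifs <;> norm_num, by simp, by
        simp [Pi.single_apply]⟩
    · rintro _ ⟨μ, h1, h2, rfl⟩ _ ⟨ν, h3, h4, rfl⟩ a b ha hb hab
      refine ⟨fun i => a * μ i + b * ν i, fun i => add_nonneg (mul_nonneg ha (h1 i))
        (mul_nonneg hb (h3 i)), ?_, ?_⟩
      · rw [sum_add_distrib, ← mul_sum, ← mul_sum, h2, h4]; linarith
      · simp [smul_sum, smul_smul, add_smul, sum_add_distrib]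
  · rintro ⟨μ, h1, h2, rfl⟩
    exact (convex_convexHull ℝ _).sum_mem (fun i _ => h1 i) h2
      fun i _ => subset_convexHull ℝ _ ⟨i, rfl⟩

def lift {n : ℕ} {R : Type} (x : Fin n → R) (k : R) : Fin n ⊕ Unit → R := Sum.elim x fun _ => k

lemma lift_eta {n : ℕ} {R : Type} (y : Fin n ⊕ Unit → R) :
    y = lift (fun i => y (Sum.inl i)) (y (Sum.inr ())) := by
  funext j; rcases j with j | j <;> rfl

lemma lift_inj {n : ℕ} {R : Type} {x x' : Fin n → R} {k k' : R} :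
    lift x k = lift x' k' ↔ x = x' ∧ k = k' :=
  ⟨fun h => ⟨funext fun i => congrFun h (Sum.inl i), congrFun h (Sum.inr ())⟩,
    fun h => by rw [h.1, h.2]⟩

lemma c_lift {n : ℕ} (z : Fin n → ℤ) (k : ℤ) : c (lift z k) = lift (c z) (k : ℝ) := by
  funext j; rcases j with j | j <;> rfl

lemma sum_lift {n s : ℕ} (v : Fin s → Fin n → ℤ) (μ : Fin s → ℝ) :
    ∑ i, μ i • c (lift (v i) 1) = lift (∑ i, μ i • c (v i)) (∑ i, μ i) := by
  funext j; rcases j with j | j <;> simp [lift, c, Finset.sum_apply]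

lemma cone_iff {n s : ℕ} (v : Fin s → Fin n → ℤ) (x : Fin n → ℝ) (k : ℝ) (hk : 0 < k) :
    InC (fun i => lift (v i) 1) (lift x k) ↔
      k⁻¹ • x ∈ convexHull ℝ (Set.range fun i => c (v i)) := by
  rw [mem_hull]
  constructor
  · rintro ⟨μ, h1, h2⟩
    rw [sum_lift, lift_inj] at h2
    refine ⟨fun i => k⁻¹ * μ i, fun i => mul_nonneg (by positivity) (h1 i), ?_, ?_⟩
    · rw [← mul_sum, ← h2.2, inv_mul_cancel₀ hk.ne']
    · rw [h2.1, smul_sum]; simp only [smul_smul]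
  · rintro ⟨μ, h1, h2, h3⟩
    refine ⟨fun i => k * μ i, fun i => mul_nonneg hk.le (h1 i), ?_⟩
    rw [sum_lift, lift_inj, ← mul_sum, h2, mul_one]
    refine ⟨?_, rfl⟩
    simp only [← smul_smul]
    rw [← smul_sum, ← h3, smul_smul, mul_inv_cancel₀ hk.ne', one_smul]

def hom {n : ℕ} (A : Matrix (Fin n) (Fin n) ℤ) (b : Fin n → ℤ) :
    Matrix (Fin n ⊕ Unit) (Fin n ⊕ Unit) ℤ := fromBlocks A (of fun i _ => b i) 0 1

lemma hom_lift {n : ℕ} (A : Matrix (Fin n) (Fin n) ℤ) (b z : Fin n → ℤ) (k : ℤ) :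
    hom A b *ᵥ lift z k = lift (A *ᵥ z + k • b) k := by
  funext j; rcases j with j | j <;> simp [hom, lift, mulVec, dotProduct, mul_comm]

lemma c_aff {n : ℕ} (A : Matrix (Fin n) (Fin n) ℤ) (b z : Fin n → ℤ) (k : ℤ) :
    c (A *ᵥ z + k • b) = (A.map (Int.cast : ℤ → ℝ)) *ᵥ c z + (k : ℝ) • c b := by
  funext i; simp [c, mulVec, dotProduct]

lemma c_inj {n : ℕ} {x y : Fin n → ℤ} (h : c x = c y) : x = y :=
  funext fun i => by have := congrFun h i; simpa [c] using this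

theorem main {n s : ℕ} (A : Matrix (Fin n) (Fin n) ℤ) (b : Fin n → ℤ) (r : ℕ) (hr : 0 < r)
    (hT : hom A b ^ r = 1) (v : Fin s → Fin n → ℤ) (P : Set (Fin n → ℝ))
    (hP : P = convexHull ℝ (Set.range fun i => c (v i))) (hsp : affineSpan ℝ P = ⊤)
    (hinv : ∀ x ∈ P, (A.map (Int.cast : ℤ → ℝ)) *ᵥ x + c b ∈ P) (Pg : Set (Fin n → ℝ))
    (hPg : Pg = {x | x ∈ P ∧ (A.map (Int.cast : ℤ → ℝ)) *ᵥ x + c b = x}) (ind : ℕ)
    (hind : ind = sInf {k : ℕ | 0 < k ∧ ∃ z : Fin n → ℤ, c z ∈ affineSpan ℝ ((k : ℝ) • Pg)})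
    (d : ℕ) (hd : d = Module.finrank ℝ (affineSpan ℝ Pg).direction) (D : ℤ)
    (hD : D = Polynomial.eval 1 (Polynomial.divByMonic A.charpoly
      ((Polynomial.X - Polynomial.C (1 : ℤ)) ^ (A.charpoly.rootMultiplicity 1)))) :
    ∃ N : ℕ, Tendsto (fun m : ℕ => (d.factorial : ℝ) *
      ((Set.ncard {z : Fin n → ℤ | c z ∈ (((m * ind : ℕ) : ℝ)) • Pg} : ℝ) /
        (((m * ind : ℕ) : ℝ)) ^ d) * (D : ℝ) / (ind : ℝ)) atTop (𝓝 (N : ℝ)) := by
  let w : Fin s → Fin n ⊕ Unit → ℤ := fun i => lift (v i) 1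
  have S : Setup (hom A b) r (Sum.inr ()) w := by
    refine ⟨hr, hT, fun y => ?_, fun _ => rfl, fun i => ?_, fun y => ?_⟩
    · rw [lift_eta y, hom_lift]; rfl
    · simp only [w]
      rw [hom_lift, c_lift, Int.cast_one, cone_iff v _ _ one_pos, c_aff, ← hP]
      simpa using hinv _ (hP ▸ subset_convexHull ℝ _ ⟨i, rfl⟩)
    · have key : ∀ x : Fin n → ℝ, ∃ μ : Fin s → ℝ, ∑ i, μ i = 1 ∧ x = ∑ i, μ i • c (v i) := by
        intro x
        have hx : x ∈ affineSpan ℝ (Set.range fun i => c (v i)) := by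
          rw [← affineSpan_convexHull, ← hP, hsp]; trivial
        obtain ⟨μ, h1, h2⟩ := eq_affineCombination_of_mem_affineSpan_of_fintype hx
        exact ⟨μ, h1, by rw [h2, affineCombination_eq_linear_combination _ _ _ h1]⟩
      obtain ⟨μ, h1, h2⟩ := key (c fun i => y (Sum.inl i))
      obtain ⟨ν, h3, h4⟩ := key 0
      refine ⟨fun i => μ i + (y (Sum.inr ()) - 1) * ν i, ?_⟩
      rw [sum_lift, lift_eta y, c_lift, lift_inj]
      constructor
      · simp only [add_smul, sum_add_distrib, ← smul_smul]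
        rw [← smul_sum, ← h4, ← h2]; simp
      · rw [sum_add_distrib, ← mul_sum, h1, h3]; simp [lift]
  have hs : 0 < s := by
    obtain ⟨μ, hμ⟩ := S.hs 1
    rcases Nat.eq_zero_or_pos s with rfl | h
    · simpa [c] using congrFun hμ (Sum.inr ())
    · exact h
  have hZ : ∀ (z : Fin n → ℤ) (k : ℕ), 0 < k →
      (c z ∈ (k : ℝ) • Pg ↔ lift z k ∈ Z (hom A b) (Sum.inr ()) w k) := by
    intro z k hk
    have hk' : (0 : ℝ) < k := by exact_mod_cast hk
    rw [Set.mem_smul_set_iff_inv_smul_mem₀ hk'.ne', hPg, Z, Set.mem_ofPred_eq, Set.mem_ofPred_eq,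
      c_lift, Int.cast_natCast, cone_iff v _ _ hk', ← hP, hom_lift, lift_inj]
    have : (A.map (Int.cast : ℤ → ℝ)) *ᵥ ((k : ℝ)⁻¹ • c z) + c b = (k : ℝ)⁻¹ • c z ↔
        A *ᵥ z + (k : ℤ) • b = z := by
      have e : (A.map (Int.cast : ℤ → ℝ)) *ᵥ ((k : ℝ)⁻¹ • c z) + c b =
          (k : ℝ)⁻¹ • c (A *ᵥ z + (k : ℤ) • b) := by
        rw [c_aff, smul_add, smul_smul, Int.cast_natCast, inv_mul_cancel₀ hk'.ne', one_smul,
          mulVec_smul]
      rw [e, smul_right_inj (inv_ne_zero hk'.ne')]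
      exact ⟨c_inj, fun h => by rw [h]⟩
    rw [this]
    exact ⟨fun h => ⟨⟨h.2, rfl⟩, rfl, h.1⟩, fun h => ⟨h.2.2, h.1.1⟩⟩
  have hk0 : hom A b *ᵥ k0 (hom A b) r w = k0 (hom A b) r w := S.fix _
  have hrs : 0 < r * s := Nat.mul_pos hr hs
  have hset : ∀ k : ℕ, 0 < k → ((∃ z : Fin n → ℤ, c z ∈ affineSpan ℝ ((k : ℝ) • Pg)) ↔
      ∃ κ, hom A b *ᵥ κ = κ ∧ κ (Sum.inr ()) = k) := by
    intro k hk
    have hk' : (0 : ℝ) < k := by exact_mod_cast hk
    constructor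
    · rintro ⟨z, hz⟩
      refine ⟨lift z k, ?_, rfl⟩
      rw [hom_lift, lift_inj]
      refine ⟨c_inj ?_, rfl⟩
      rw [c_aff, Int.cast_natCast]
      refine affineSpan_induction (p := fun x => (A.map (Int.cast : ℤ → ℝ)) *ᵥ x + (k : ℝ) • c b = x)
        hz ?_ ?_
      · rintro _ ⟨x, hx, rfl⟩
        rw [hPg] at hx
        simp only
        rw [mulVec_smul, ← smul_add, hx.2]
      · intro a x y u hx hy hu
        simp only [vsub_eq_sub, vadd_eq_add, mulVec_add, mulVec_smul, mulVec_sub]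
        linear_combination (norm := module) a • hx - a • hy + hu
    · rintro ⟨κ, h1, h2⟩
      obtain ⟨L, ⟨a1, a2⟩, a3⟩ := (((S.push κ).and (S.push 0)).and (eventually_gt_atTop 0)).exists
      have f1 : hom A b *ᵥ ((L : ℤ) • k0 (hom A b) r w) = (L : ℤ) • k0 (hom A b) r w := by
        rw [mulVec_smul, hk0]
      have f2 : hom A b *ᵥ (κ + (L : ℤ) • k0 (hom A b) r w) = κ + (L : ℤ) • k0 (hom A b) r w := by
        rw [mulVec_add, h1, f1]
      rw [zero_add, Sg_fix f1] at a2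
      rw [Sg_fix f2] at a1
      have g1 : ((L : ℤ) • k0 (hom A b) r w) (Sum.inr ()) = (L * (r * s) : ℕ) := by
        rw [Pi.smul_apply, S.k0_ht]; simp
      have g2 : (κ + (L : ℤ) • k0 (hom A b) r w) (Sum.inr ()) = (k + L * (r * s) : ℕ) := by
        rw [Pi.add_apply, g1, h2]; simp
      have hh : 0 < L * (r * s) := Nat.mul_pos a3 hrs
      obtain ⟨q, hq, e1⟩ := (hZ (fun i => ((L : ℤ) • k0 (hom A b) r w) (Sum.inl i)) _ hh).mpr (by
        rw [← g1, ← lift_eta]; exact ⟨f1, g1, S.unscale a2⟩)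
      obtain ⟨p, hp, e2⟩ := (hZ (fun i => (κ + (L : ℤ) • k0 (hom A b) r w) (Sum.inl i))
        (k + L * (r * s)) (by omega)).mpr (by rw [← g2, ← lift_eta]; exact ⟨f2, g2, S.unscale a1⟩)
      refine ⟨fun i => κ (Sum.inl i), ?_⟩
      have m1 : (k : ℝ) • p ∈ affineSpan ℝ ((k : ℝ) • Pg) := subset_affineSpan ℝ _ ⟨p, hp, rfl⟩
      have m2 : (k : ℝ) • q ∈ affineSpan ℝ ((k : ℝ) • Pg) := subset_affineSpan ℝ _ ⟨q, hq, rfl⟩
      convert AffineSubspace.smul_vsub_vadd_mem _ (((L * (r * s) : ℕ) : ℝ) / k) m1 m2 m1 using 1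
      funext i
      have e3 := congrFun e1 i
      have e4 := congrFun e2 i
      simp only [c, Pi.smul_apply, smul_eq_mul, Pi.add_apply, vsub_eq_sub, vadd_eq_add,
        Pi.sub_apply] at e3 e4 ⊢
      push_cast at e3 e4 ⊢
      field_simp
      linear_combination e3 - e4
  have hne : {k : ℕ | 0 < k ∧ ∃ z : Fin n → ℤ, c z ∈ affineSpan ℝ ((k : ℝ) • Pg)}.Nonempty :=
    ⟨r * s, hrs, (hset _ hrs).mpr ⟨_, hk0, S.k0_ht⟩⟩
  obtain ⟨hi, hi2⟩ := hind ▸ Nat.sInf_mem hne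
  obtain ⟨κ1, h1, h2⟩ := (hset _ hi).mp hi2
  have h3 : ∀ κ, hom A b *ᵥ κ = κ → (ind : ℤ) ∣ κ (Sum.inr ()) := by
    intro κ hκ
    by_contra hn
    have hi' : (0 : ℤ) < ind := by exact_mod_cast hi
    have a1 := Int.emod_nonneg (κ (Sum.inr ())) hi'.ne'
    have a2 := Int.emod_lt_of_pos (κ (Sum.inr ())) hi'
    have a3 : κ (Sum.inr ()) % ind ≠ 0 := fun h => hn (Int.dvd_of_emod_eq_zero h)
    obtain ⟨j, hj⟩ := Int.eq_ofNat_of_zero_le a1
    have a4 : j < sInf {k : ℕ | 0 < k ∧ ∃ z : Fin n → ℤ, c z ∈ affineSpan ℝ ((k : ℝ) • Pg)} := by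
      rw [← hind]; omega
    refine Nat.notMem_of_lt_sInf a4 ⟨by omega, (hset j (by omega)).mpr
      ⟨κ - (κ (Sum.inr ()) / ind) • κ1, by rw [mulVec_sub, mulVec_smul, hκ, h1], ?_⟩⟩
    rw [Pi.sub_apply, Pi.smul_apply, h2, ← hj, Int.emod_def, smul_eq_mul, mul_comm]
  have hrank : ∀ U : Finset (Fin s),
      LinearIndependent ℤ (fun i : U => Sg (hom A b) r *ᵥ w i) → U.card ≤ d + 1 := by
    intro U hU
    have hr' : (0 : ℝ) < r := by exact_mod_cast hr
    have hU' := Fintype.linearIndependent_iff.mp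
      ((linearIndependent_algebraMap_comp_iff (S := ℝ)).mpr hU)
    have hu : ∀ i, (Sg (hom A b) r *ᵥ w i) (Sum.inr ()) = r := fun i => by
      rw [S.ht, S.hw, mul_one]
    have hp : ∀ i, ∃ p ∈ Pg, (r : ℝ) • p = c fun j => (Sg (hom A b) r *ᵥ w i) (Sum.inl j) :=
      fun i => (hZ _ r hr).mpr (by
        rw [← hu i, ← lift_eta]; exact ⟨S.fix _, hu i, S.cone (InC_w w i)⟩)
    choose p hp1 hp2 using hp
    have ha : AffineIndependent ℝ fun i : U => p i := by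
      rw [affineIndependent_iff_of_fintype]
      intro μ a1 a2
      rw [weightedVSub_eq_linear_combination _ a1] at a2
      refine hU' μ ?_
      funext j
      rcases j with j | j
      · have := congrFun a2 j
        simp only [Finset.sum_apply, Pi.smul_apply, smul_eq_mul, Pi.zero_apply] at this ⊢
        rw [← mul_zero (r : ℝ), ← this, mul_sum]
        refine sum_congr rfl fun i _ => ?_
        have := congrFun (hp2 i) j
        simp only [c, Pi.smul_apply, smul_eq_mul] at this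
        simp [← this]; ring
      · simp [Finset.sum_apply, hu, ← sum_mul]
        exact Or.inl a1
    have := ha.card_le_finrank_succ
    rw [Fintype.card_coe] at this
    refine this.trans (Nat.succ_le_succ ?_)
    rw [hd, direction_affineSpan]
    exact Submodule.finrank_mono (vectorSpan_mono ℝ (by rintro _ ⟨i, rfl⟩; exact hp1 i))
  obtain ⟨e, q, H, q1, q2, q3, q4⟩ := det_part (hom A b) r hr hT
  have hDq : D = q.eval 1 := by
    rw [hD]
    refine eval_div _ _ A.charpoly_monic.ne_zero e ?_ q2.ne'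
    rw [← q1, hom, charpoly_fromBlocks_zero₂₁]
    congr 1
    simp [charpoly]
  obtain ⟨a, ha⟩ := q3
  have hH : H.index ≠ 0 := by
    intro h; rw [h] at ha; simp at ha; omega
  obtain ⟨a, rfl⟩ := Int.eq_ofNat_of_zero_le (show 0 ≤ a from
    nonneg_of_mul_nonneg_right (ha ▸ q2.le) (by exact_mod_cast Nat.pos_of_ne_zero hH))
  obtain ⟨N, hN⟩ := S.main d hrank ind hi κ1 h1 h2 h3 H hH q4
  refine ⟨N * a, ?_⟩
  rw [Nat.cast_mul]
  refine (hN.mul_const (a : ℝ)).congr' ?_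
  filter_upwards [eventually_gt_atTop 0] with m hm
  have : Z (hom A b) (Sum.inr ()) w (m * ind) = (fun z => lift z ((m * ind : ℕ) : ℤ)) ''
      {z : Fin n → ℤ | c z ∈ (((m * ind : ℕ) : ℝ)) • Pg} := by
    ext κ
    constructor
    · intro h
      have e1 : κ = lift (fun i => κ (Sum.inl i)) ((m * ind : ℕ) : ℤ) := by rw [← h.2.1, ← lift_eta]
      exact ⟨_, (hZ _ _ (Nat.mul_pos hm hi)).mpr (e1 ▸ h), e1.symm⟩
    · rintro ⟨z, hz, rfl⟩
      exact (hZ _ _ (Nat.mul_pos hm hi)).mp hz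
  rw [this, Set.ncard_image_of_injective _ fun x y h => (lift_inj.mp h).1, hDq, ha]
  push_cast; ring

end Pool.Agent.H12.Phi
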