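import Mathlib

set_option autoImplicit false

namespace Pool.Agent.H12.Ols

noncomputable def force {β : Type} (v : ℕ) (k : ℕ → β) : β :=
  Nat.rec (k 0) (fun n _ => k (Nat.succ n)) v

theorem force_eq {β : Type} (v : ℕ) (k : ℕ → β) : force v k = k v := by
  cases v <;> rfl

noncomputable def ext1 {β : Type} (m : ℕ) (E : List ℕ) : List ℕ → (List ℕ → β) → β :=
  List.rec (fun acc k => k acc)
    (fun e _ ih acc k => cond (Nat.beq (Nat.land m e) 0)
      (force (Nat.lor m e) fun x => ih (x :: acc) k) (ih acc k)) E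

noncomputable def extend {β : Type} (L E : List ℕ) : List ℕ → (List ℕ → β) → β :=
  List.rec (fun acc k => k acc) (fun m _ ih acc k => ext1 m E acc fun a => ih a k) L

noncomputable def filt {α β : Type} (p : α → Bool) (l : List α) : List α → (List α → β) → β :=
  List.rec (fun acc k => k acc)
    (fun r _ ih acc k => cond (p r) (ih (r :: acc) k) (ih acc k)) l

noncomputable def filts {β : Type} (R : ℕ) (cs : List (List (ℕ × List ℕ))) :
    (List (List (ℕ × List ℕ)) → β) → β :=
  List.rec (fun k => k [])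
    (fun c _ ih k => filt (fun r => Nat.beq (Nat.land r.1 R) 0) c [] fun c' =>
      ih fun t => k (c' :: t)) cs

noncomputable def lall {α : Type} (l : List α) (p : α → Bool) : Bool :=
  List.rec true (fun a _ ih => cond (p a) ih false) l

noncomputable def noCl (n : ℕ) : List ℕ → Bool :=
  Nat.rec (fun _ => false)
    (fun n ih L => lall L fun t => cond (Nat.testBit t (12 + n))
      (filt (fun s => Nat.ble (Nat.land s t) 4095) L [] ih) true) n

noncomputable def go (n : ℕ) : List (List (ℕ × List ℕ)) → List ℕ → Bool :=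
  Nat.rec (fun _ L => noCl 6 L)
    (fun _ ih cs L => List.rec false (fun c cs' _ => lall c fun r =>
      filts r.1 cs' fun ds => extend L r.2 [] fun L' => ih ds L') cs) n

theorem lall_iff {α : Type} (l : List α) (p : α → Bool) :
    lall l p = true → ∀ a ∈ l, p a = true := by
  induction l with
  | nil => simp
  | cons a l ih =>
    intro h
    change cond (p a) (lall l p) false = true at h
    cases hp : p a
    · simp [hp] at h
    · rw [hp] at h
      intro b hb
      rcases List.mem_cons.1 hb with rfl | hb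
      · exact hp
      · exact ih h b hb

theorem filt_spec {α β : Type} (p : α → Bool) (l : List α) : ∀ (acc : List α) (k : List α → β),
    ∃ o, filt p l acc k = k o ∧ (∀ a ∈ acc, a ∈ o) ∧ ∀ a ∈ l, p a = true → a ∈ o := by
  induction l with
  | nil => intro acc k; exact ⟨acc, rfl, fun _ h => h, by simp⟩
  | cons r l ih =>
    intro acc k
    change ∃ o, cond (p r) (filt p l (r :: acc) k) (filt p l acc k) = k o ∧ _
    cases hp : p r
    · obtain ⟨o, h1, h2, h3⟩ := ih acc k
      refine ⟨o, h1, h2, fun a ha hpa => ?_⟩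
      rcases List.mem_cons.1 ha with rfl | ha
      · simp [hp] at hpa
      · exact h3 a ha hpa
    · obtain ⟨o, h1, h2, h3⟩ := ih (r :: acc) k
      refine ⟨o, h1, fun a ha => h2 a (List.mem_cons_of_mem _ ha), fun a ha hpa => ?_⟩
      rcases List.mem_cons.1 ha with rfl | ha
      · exact h2 _ List.mem_cons_self
      · exact h3 a ha hpa

theorem ext1_spec {β : Type} (m : ℕ) (E : List ℕ) : ∀ (acc : List ℕ) (k : List ℕ → β),
    ∃ o, ext1 m E acc k = k o ∧ (∀ a ∈ acc, a ∈ o) ∧ ∀ e ∈ E, m &&& e = 0 → m ||| e ∈ o := by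
  induction E with
  | nil => intro acc k; exact ⟨acc, rfl, fun _ h => h, by simp⟩
  | cons e E ih =>
    intro acc k
    change ∃ o, cond (Nat.beq (m &&& e) 0)
      (force (m ||| e) fun x => ext1 m E (x :: acc) k) (ext1 m E acc k) = k o ∧ _
    rw [force_eq]
    cases hp : Nat.beq (m &&& e) 0
    · obtain ⟨o, h1, h2, h3⟩ := ih acc k
      refine ⟨o, h1, h2, fun a ha hpa => ?_⟩
      rcases List.mem_cons.1 ha with rfl | ha
      · simp [hpa] at hp
      · exact h3 a ha hpa
    · obtain ⟨o, h1, h2, h3⟩ := ih ((m ||| e) :: acc) k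
      refine ⟨o, h1, fun a ha => h2 a (List.mem_cons_of_mem _ ha), fun a ha hpa => ?_⟩
      rcases List.mem_cons.1 ha with rfl | ha
      · exact h2 _ List.mem_cons_self
      · exact h3 a ha hpa

theorem extend_spec {β : Type} (L E : List ℕ) : ∀ (acc : List ℕ) (k : List ℕ → β),
    ∃ o, extend L E acc k = k o ∧ (∀ a ∈ acc, a ∈ o) ∧
      ∀ m ∈ L, ∀ e ∈ E, m &&& e = 0 → m ||| e ∈ o := by
  induction L with
  | nil => intro acc k; exact ⟨acc, rfl, fun _ h => h, by simp⟩
  | cons m L ih =>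
    intro acc k
    change ∃ o, (ext1 m E acc fun a => extend L E a k) = k o ∧ _
    obtain ⟨o1, a1, a2, a3⟩ := ext1_spec m E acc fun a => extend L E a k
    obtain ⟨o, h1, h2, h3⟩ := ih o1 k
    refine ⟨o, a1.trans h1, fun a ha => h2 a (a2 a ha), fun x hx e he hxe => ?_⟩
    rcases List.mem_cons.1 hx with rfl | hx
    · exact h2 _ (a3 e he hxe)
    · exact h3 x hx e he hxe

theorem filts_spec {β : Type} (R : ℕ) (cs : List (List (ℕ × List ℕ))) :
    ∀ (k : List (List (ℕ × List ℕ)) → β), ∃ ds, filts R cs k = k ds ∧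
      ∀ rs, List.Forall₂ (· ∈ ·) rs cs → (∀ r ∈ rs, r.1 &&& R = 0) →
        List.Forall₂ (· ∈ ·) rs ds := by
  induction cs with
  | nil => intro k; exact ⟨[], rfl, fun _ h _ => h⟩
  | cons c cs ih =>
    intro k
    change ∃ ds, (filt (fun r => Nat.beq (r.1 &&& R) 0) c [] fun c' =>
      filts R cs fun t => k (c' :: t)) = k ds ∧ _
    obtain ⟨o, a1, -, a3⟩ := filt_spec (fun r : ℕ × List ℕ => Nat.beq (r.1 &&& R) 0) c []
      fun c' => filts R cs fun t => k (c' :: t)
    obtain ⟨ds, b1, b2⟩ := ih fun t => k (o :: t)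
    refine ⟨o :: ds, a1.trans b1, fun rs h1 h2 => ?_⟩
    cases h1 with
    | cons x y =>
      refine List.Forall₂.cons (a3 _ x ?_) (b2 _ y fun r hr => h2 r (List.mem_cons_of_mem _ hr))
      simp [h2 _ List.mem_cons_self]

theorem noCl_sound (F : ℕ → ℕ) : ∀ n L, (∀ b < n, F b ∈ L) → (∀ b < n, (F b).testBit (12 + b)) →
    (∀ b < n, ∀ c < b, F c &&& F b ≤ 4095) → noCl n L = true → False := by
  intro n
  induction n with
  | zero => intro L _ _ _ h; exact Bool.false_ne_true h
  | succ n ih =>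
    intro L h1 h2 h3 h
    have := lall_iff _ _ h (F n) (h1 n (by omega))
    rw [h2 n (by omega)] at this
    obtain ⟨o, a1, -, a3⟩ := filt_spec (fun s => Nat.ble (s &&& F n) 4095) L [] (noCl n)
    refine ih o (fun b hb => a3 _ (h1 b (by omega)) ?_) (fun b hb => h2 b (by omega))
      (fun b hb => h3 b (by omega)) (a1.symm.trans this)
    exact Nat.ble_eq_true_of_le (h3 n (by omega) b hb)

theorem go_sound (F : ℕ → ℕ) (h2 : ∀ b < 6, (F b).testBit (12 + b))
    (h3 : ∀ b < 6, ∀ c < b, F c &&& F b ≤ 4095) :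
    ∀ (rs : List (ℕ × List ℕ)) cs L, List.Forall₂ (· ∈ ·) rs cs →
      rs.Pairwise (fun a b => b.1 &&& a.1 = 0) →
      (∀ b < 6, ∃ t ∈ L, ∃ es : List ℕ, List.Forall₂ (fun e r => e ∈ r.2) es rs ∧
        (∀ e ∈ es, t &&& e = 0) ∧ es.Pairwise (fun a b => a &&& b = 0) ∧
        F b = es.foldl (· ||| ·) t) → go rs.length cs L = true → False := by
  intro rs
  induction rs with
  | nil =>
    intro cs L _ _ h4 h
    refine noCl_sound F 6 L (fun b hb => ?_) h2 h3 h
    obtain ⟨t, ht, es, e1, -, -, e4⟩ := h4 b hb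
    cases e1
    rw [e4]
    exact ht
  | cons r rs ih =>
    intro cs L h1 hp h4 h
    cases h1 with
    | @cons _ c _ cs x y =>
      have := lall_iff _ _ h r x
      obtain ⟨ds, a1, a2⟩ := filts_spec r.1 cs
        fun ds => extend L r.2 [] fun L' => go rs.length ds L'
      obtain ⟨o, b1, -, b3⟩ := extend_spec L r.2 [] fun L' => go rs.length ds L'
      rw [List.pairwise_cons] at hp
      refine ih ds o (a2 _ y hp.1) hp.2 (fun b hb => ?_) (b1.symm.trans (a1.symm.trans this))
      obtain ⟨t, ht, es, e1, e2, e3, e4⟩ := h4 b hb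
      cases e1 with
      | @cons e _ es _ u w =>
        rw [List.pairwise_cons] at e3
        refine ⟨t ||| e, b3 t ht e u (e2 e List.mem_cons_self), es, w, fun f hf => ?_, e3.2, e4⟩
        rw [Nat.and_or_distrib_right, e2 f (List.mem_cons_of_mem _ hf), e3.1 f hf]
        rfl

def ent (i j s : ℕ) : ℕ := 2 ^ j ||| 2 ^ (6 + s) ||| 2 ^ (12 + 6 * i + j)

def mk (i : ℕ) (p : List ℕ) : ℕ × List ℕ :=
  (2 ^ p.getD 0 0 ||| 2 ^ (6 + p.getD 1 0) ||| 2 ^ (12 + p.getD 2 0) ||| 2 ^ (18 + p.getD 3 0) |||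
    2 ^ (24 + p.getD 4 0) ||| 2 ^ (30 + p.getD 5 0),
   [ent i 0 (p.getD 0 0), ent i 1 (p.getD 1 0), ent i 2 (p.getD 2 0), ent i 3 (p.getD 3 0),
    ent i 4 (p.getD 4 0), ent i 5 (p.getD 5 0)])

def cand (i : ℕ) : List (ℕ × List ℕ) :=
  ([0, 1, 2, 3, 4, 5].permutations'.filter fun p => p.getD 0 0 == i).map (mk i)

end Pool.Agent.H12.Ols
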