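import Mathlib
import Pool.Agent.H12.OlsB

set_option autoImplicit false

namespace Pool.Agent.H12.Ols

def pl (p : Fin 6 → Fin 6) : List ℕ := [p 0, p 1, p 2, p 3, p 4, p 5]

theorem pl_perm {p : Fin 6 → Fin 6} (h : Function.Bijective p) :
    pl p ∈ [0, 1, 2, 3, 4, 5].permutations' := by
  rw [List.mem_permutations']
  have := Equiv.Perm.ofFn_comp_perm (Equiv.ofBijective p h) (fun i : Fin 6 => (i : ℕ))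
  simpa [List.ofFn_succ, pl] using this

theorem ent_and {i i' j j' s s' : Fin 6} (h1 : i ≠ i') (h2 : j ≠ j') (h3 : s ≠ s') :
    ent i j s &&& ent i' j' s' = 0 := by
  have := i.2; have := i'.2; have := j.2; have := j'.2; have := s.2; have := s'.2
  have := Fin.val_ne_of_ne h1; have := Fin.val_ne_of_ne h2; have := Fin.val_ne_of_ne h3
  apply Nat.eq_of_testBit_eq
  intro x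
  simp only [ent, Nat.testBit_and, Nat.testBit_or, Nat.testBit_two_pow, Nat.zero_testBit,
    Bool.and_eq_false_imp, Bool.or_eq_true, decide_eq_true_eq, Bool.or_eq_false_iff,
    decide_eq_false_iff_not]
  omega

theorem ent_hi {i j s : Fin 6} {x : ℕ} (hx : 12 ≤ x) :
    (ent i j s).testBit x = true ↔ x = 12 + 6 * i + j := by
  have := j.2; have := s.2
  simp only [ent, Nat.testBit_or, Nat.testBit_two_pow, Bool.or_eq_true, decide_eq_true_eq]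
  omega

theorem row_and {p q : Fin 6 → Fin 6} (i k : ℕ) (h : ∀ j, p j ≠ q j) :
    (mk i (pl p)).1 &&& (mk k (pl q)).1 = 0 := by
  have a0 := Fin.val_ne_of_ne (h 0); have a1 := Fin.val_ne_of_ne (h 1)
  have a2 := Fin.val_ne_of_ne (h 2); have a3 := Fin.val_ne_of_ne (h 3)
  have a4 := Fin.val_ne_of_ne (h 4); have a5 := Fin.val_ne_of_ne (h 5)
  have := (p 0).2; have := (p 1).2; have := (p 2).2; have := (p 3).2; have := (p 4).2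
  have := (p 5).2; have := (q 0).2; have := (q 1).2; have := (q 2).2; have := (q 3).2
  have := (q 4).2; have := (q 5).2
  apply Nat.eq_of_testBit_eq
  intro x
  simp only [mk, pl, List.getD_cons_zero, List.getD_cons_succ, Nat.testBit_and, Nat.testBit_or,
    Nat.testBit_two_pow, Nat.zero_testBit,
    Bool.and_eq_false_imp, Bool.or_eq_true, decide_eq_true_eq, Bool.or_eq_false_iff,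
    decide_eq_false_iff_not]
  omega

theorem ent_mem (i : ℕ) (p : Fin 6 → Fin 6) (j : Fin 6) : ent i j (p j) ∈ (mk i (pl p)).2 := by
  fin_cases j <;> simp [mk, pl]

theorem norm_false (A B : Fin 6 → Fin 6 → Fin 6) (h0 : ∀ j, A 0 j = j) (h1 : pl (A 1) ∈ reps)
    (hc : ∀ i, A i 0 = i) (ar : ∀ i, Function.Bijective (A i))
    (ac : ∀ i k j, A i j = A k j → i = k) (br : ∀ i, Function.Bijective (B i))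
    (bc : ∀ i k j, B i j = B k j → i = k)
    (o : ∀ i j k l, A i j = A k l → B i j = B k l → i = k) : False := by
  have ex : ∀ b i, ∃ j, B i j = B 0 b := fun b i => (br i).2 _
  choose σ hσ using ex
  have s0 : ∀ b, σ b 0 = b := fun b => (br 0).1 (hσ b 0)
  obtain ⟨e, he⟩ : ∃ e : Fin 6 → Fin 6 → ℕ, ∀ b i, e b i = ent i (σ b i) (A i (σ b i)) :=
    ⟨_, fun _ _ => rfl⟩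
  have eand : ∀ b i k, i ≠ k → e b i &&& e b k = 0 := by
    intro b i k h
    rw [he, he]
    refine ent_and h (fun hh => h ?_) fun hh => h ?_
    · apply bc i k (σ b i)
      rw [hσ, hh, hσ]
    · exact o _ _ _ _ hh (by rw [hσ, hσ])
  obtain ⟨G, hG⟩ : ∃ G : Fin 6 → ℕ, ∀ b,
      G b = [e b 1, e b 2, e b 3, e b 4, e b 5].foldl (· ||| ·) (e b 0) := ⟨_, fun _ => rfl⟩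
  have Ghi : ∀ b x, 12 ≤ x → ((G b).testBit x = true ↔ ∃ i : Fin 6, x = 12 + 6 * i + σ b i) := by
    intro b x hx
    simp only [hG, List.foldl, Nat.testBit_or, Bool.or_eq_true, he, ent_hi hx,
      Fin.exists_fin_succ, Finset.univ_eq_empty, IsEmpty.exists_iff, or_false, or_assoc]
    rfl
  have mem : ∀ i : Fin 6, i ≠ 0 → mk i (pl (A i)) ∈ cd i := by
    intro i hi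
    refine List.mem_map.2 ⟨_, List.mem_filter.2 ⟨pl_perm (ar i), ?_⟩, rfl⟩
    have ne : ∀ j : Fin 6, (A i j : ℕ) ≠ j := fun j h =>
      hi (ac i 0 j (by rw [h0]; exact Fin.ext h))
    have n1 := ne 1; have n2 := ne 2; have n3 := ne 3; have n4 := ne 4; have n5 := ne 5
    simp only [der, pl, List.getD_cons_zero, List.getD_cons_succ, hc, beq_self_eq_true,
      Bool.true_and, Bool.and_eq_true, bne_iff_ne]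
    exact ⟨⟨⟨⟨n1, n2⟩, n3⟩, n4⟩, n5⟩
  have rw' : ∀ (i k : Fin 6) (a b : ℕ), i ≠ k → (mk a (pl (A i))).1 &&& (mk b (pl (A k))).1 = 0 :=
    fun i k a b h => row_and a b fun j hh => h (ac _ _ _ hh)
  refine go_sound (fun b => G (Fin.ofNat 6 b)) (fun b hb => ?_) (fun b hb c hcb => ?_)
    [mk 1 (pl (A 1)), mk 2 (pl (A 2)), mk 3 (pl (A 3)), mk 4 (pl (A 4)), mk 5 (pl (A 5))]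
    [c1, c2, c3, c4, c5] l0 ?_ ?_ (fun b hb => ?_) go_true
  · rw [Ghi _ _ (by omega)]
    refine ⟨0, ?_⟩
    rw [s0]
    simp [Nat.mod_eq_of_lt hb]
  · refine Nat.le_of_lt_succ (Nat.lt_pow_two_of_testBit (n := 12) _ fun x hx => ?_)
    rw [Nat.testBit_and, Bool.and_eq_false_imp]
    intro u
    by_contra w
    rw [Bool.not_eq_false] at w
    obtain ⟨i, hi⟩ := (Ghi _ _ hx).1 u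
    obtain ⟨k, hk⟩ := (Ghi _ _ hx).1 w
    have := (σ (Fin.ofNat 6 c) i).2
    have := (σ (Fin.ofNat 6 b) k).2
    have hik : i = k := Fin.ext (by omega)
    subst hik
    have h2 : σ (Fin.ofNat 6 c) i = σ (Fin.ofNat 6 b) i := Fin.ext (by omega)
    have h3 : B 0 (Fin.ofNat 6 c) = B 0 (Fin.ofNat 6 b) := by rw [← hσ _ i, h2, hσ]
    have h4 := congrArg Fin.val ((br 0).1 h3)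
    simp only [Fin.val_ofNat] at h4
    omega
  · refine .cons ?_ (.cons ?_ (.cons ?_ (.cons ?_ (.cons ?_ .nil))))
    · rw [← cd1]; exact List.mem_map_of_mem h1
    · rw [← cd2]; exact mem 2 (by decide)
    · rw [← cd3]; exact mem 3 (by decide)
    · rw [← cd4]; exact mem 4 (by decide)
    · rw [← cd5]; exact mem 5 (by decide)
  · simp only [List.pairwise_cons, List.mem_cons, List.not_mem_nil, or_false, forall_eq_or_imp,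
      forall_eq, IsEmpty.forall_iff, implies_true, List.Pairwise.nil, and_true]
    refine ⟨⟨?_, ?_, ?_, ?_⟩, ⟨?_, ?_, ?_⟩, ⟨?_, ?_⟩, ?_⟩ <;> exact rw' _ _ _ _ (by decide)
  · refine ⟨e (Fin.ofNat 6 b) 0, ?_, _, ?_, ?_, ?_, hG _⟩
    · rw [he, s0, h0]
      generalize Fin.ofNat 6 b = y
      revert y
      decide +kernel
    · simp only [he]
      exact .cons (ent_mem 1 _ _) (.cons (ent_mem 2 _ _) (.cons (ent_mem 3 _ _)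
        (.cons (ent_mem 4 _ _) (.cons (ent_mem 5 _ _) .nil))))
    · simp only [List.mem_cons, List.not_mem_nil, or_false, forall_eq_or_imp, forall_eq]
      refine ⟨?_, ?_, ?_, ?_, ?_⟩ <;> exact eand _ _ _ (by decide)
    · simp only [List.pairwise_cons, List.mem_cons, List.not_mem_nil, or_false, forall_eq_or_imp,
        forall_eq, IsEmpty.forall_iff, implies_true, List.Pairwise.nil, and_true]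
      refine ⟨⟨?_, ?_, ?_, ?_⟩, ⟨?_, ?_, ?_⟩, ⟨?_, ?_⟩, ?_⟩ <;> exact eand _ _ _ (by decide)

def conj (p t r : List ℕ) : Bool :=
  (List.range 6).all fun j => p.getD (t.getD j 0) 0 == t.getD (r.getD j 0) 0

def tb : List (List ℕ × List ℕ × List ℕ) := [
([1, 2, 3, 4, 5, 0],[1, 2, 3, 4, 5, 0],[0, 1, 2, 3, 4, 5]),
([2, 3, 1, 4, 5, 0],[1, 2, 3, 4, 5, 0],[0, 2, 1, 3, 4, 5]),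
([2, 3, 4, 1, 5, 0],[1, 0, 3, 4, 5, 2],[1, 3, 0, 2, 4, 5]),
([2, 0, 3, 4, 5, 1],[1, 2, 3, 4, 5, 0],[0, 2, 3, 4, 5, 1]),
([2, 3, 0, 4, 5, 1],[1, 0, 3, 4, 5, 2],[0, 2, 1, 3, 4, 5]),
([2, 3, 4, 0, 5, 1],[1, 2, 3, 4, 5, 0],[0, 2, 4, 5, 1, 3]),
([2, 3, 4, 5, 0, 1],[1, 2, 0, 4, 5, 3],[0, 2, 4, 1, 3, 5]),
([2, 3, 4, 5, 1, 0],[1, 2, 3, 4, 5, 0],[0, 2, 4, 1, 3, 5]),
([3, 2, 1, 4, 5, 0],[1, 0, 3, 4, 5, 2],[1, 2, 0, 3, 4, 5]),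
([3, 2, 4, 1, 5, 0],[1, 2, 3, 4, 5, 0],[0, 3, 1, 2, 4, 5]),
([3, 2, 0, 4, 5, 1],[1, 2, 3, 4, 5, 0],[0, 3, 4, 5, 1, 2]),
([3, 2, 4, 0, 5, 1],[1, 0, 3, 4, 5, 2],[0, 3, 1, 2, 4, 5]),
([3, 2, 4, 5, 0, 1],[1, 2, 3, 4, 5, 0],[0, 3, 5, 1, 2, 4]),
([3, 2, 4, 5, 1, 0],[1, 2, 0, 4, 5, 3],[0, 3, 5, 1, 2, 4]),
([1, 3, 4, 2, 5, 0],[1, 2, 3, 4, 5, 0],[0, 1, 3, 2, 4, 5]),
([3, 4, 1, 2, 5, 0],[1, 2, 3, 4, 5, 0],[0, 3, 2, 1, 4, 5]),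
([3, 0, 4, 2, 5, 1],[1, 2, 3, 4, 5, 0],[0, 3, 2, 4, 5, 1]),
([3, 4, 0, 2, 5, 1],[1, 2, 0, 4, 5, 3],[0, 3, 2, 1, 4, 5]),
([1, 0, 3, 4, 5, 2],[1, 0, 3, 4, 5, 2],[0, 1, 2, 3, 4, 5]),
([1, 3, 0, 4, 5, 2],[1, 2, 3, 4, 5, 0],[0, 1, 3, 4, 5, 2]),
([1, 3, 4, 0, 5, 2],[1, 2, 0, 4, 5, 3],[0, 1, 3, 2, 4, 5]),
([1, 3, 4, 5, 0, 2],[1, 2, 3, 4, 5, 0],[0, 1, 3, 5, 2, 4]),
([1, 3, 4, 5, 2, 0],[1, 0, 3, 4, 5, 2],[2, 4, 0, 1, 3, 5]),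
([3, 0, 1, 4, 5, 2],[1, 2, 3, 4, 5, 0],[0, 3, 4, 5, 2, 1]),
([3, 0, 4, 1, 5, 2],[1, 2, 0, 4, 5, 3],[0, 3, 1, 2, 4, 5]),
([3, 4, 0, 1, 5, 2],[1, 2, 3, 4, 5, 0],[0, 3, 1, 4, 5, 2]),
([3, 4, 1, 0, 5, 2],[1, 0, 3, 4, 5, 2],[0, 3, 1, 4, 5, 2]),
([3, 4, 1, 5, 0, 2],[1, 2, 3, 4, 5, 0],[0, 3, 5, 2, 1, 4]),
([3, 4, 1, 5, 2, 0],[1, 2, 0, 4, 5, 3],[0, 3, 5, 1, 4, 2]),
([3, 0, 4, 5, 1, 2],[1, 2, 3, 4, 5, 0],[0, 3, 5, 2, 4, 1]),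
([3, 4, 0, 5, 1, 2],[1, 0, 3, 4, 5, 2],[1, 4, 0, 3, 5, 2]),
([3, 4, 5, 0, 1, 2],[1, 0, 3, 2, 5, 4],[0, 3, 1, 4, 2, 5]),
([3, 4, 5, 1, 0, 2],[1, 0, 3, 4, 5, 2],[2, 5, 0, 3, 1, 4]),
([3, 4, 5, 1, 2, 0],[1, 2, 3, 4, 5, 0],[0, 3, 1, 4, 2, 5]),
([3, 0, 4, 5, 2, 1],[1, 0, 3, 4, 5, 2],[2, 4, 0, 3, 5, 1]),
([3, 4, 0, 5, 2, 1],[1, 2, 3, 4, 5, 0],[0, 3, 5, 1, 4, 2]),
([3, 4, 5, 0, 2, 1],[1, 0, 3, 4, 5, 2],[0, 3, 1, 4, 2, 5]),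
([3, 4, 5, 2, 0, 1],[1, 2, 3, 4, 5, 0],[0, 3, 2, 5, 1, 4]),
([3, 4, 5, 2, 1, 0],[1, 0, 3, 4, 5, 2],[1, 4, 0, 3, 2, 5]),
([2, 4, 3, 1, 5, 0],[1, 2, 3, 4, 5, 0],[0, 2, 3, 1, 4, 5]),
([2, 4, 3, 0, 5, 1],[1, 2, 0, 4, 5, 3],[0, 2, 3, 1, 4, 5]),
([2, 4, 3, 5, 0, 1],[1, 2, 3, 4, 5, 0],[0, 2, 3, 5, 1, 4]),
([2, 4, 3, 5, 1, 0],[1, 0, 3, 4, 5, 2],[1, 4, 0, 2, 3, 5]),
([4, 2, 3, 1, 5, 0],[1, 2, 0, 4, 5, 3],[0, 4, 5, 1, 2, 3]),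
([4, 2, 3, 0, 5, 1],[1, 2, 3, 4, 5, 0],[0, 4, 5, 1, 2, 3]),
([4, 2, 3, 5, 0, 1],[1, 0, 3, 4, 5, 2],[0, 4, 1, 2, 3, 5]),
([4, 2, 3, 5, 1, 0],[1, 2, 3, 4, 5, 0],[0, 4, 1, 2, 3, 5]),
([1, 4, 3, 2, 5, 0],[1, 0, 3, 4, 5, 2],[2, 3, 0, 1, 4, 5]),
([4, 3, 1, 2, 5, 0],[1, 2, 0, 4, 5, 3],[0, 4, 5, 1, 3, 2]),
([4, 0, 3, 2, 5, 1],[1, 0, 3, 4, 5, 2],[2, 3, 0, 4, 5, 1]),
([4, 3, 0, 2, 5, 1],[1, 2, 3, 4, 5, 0],[0, 4, 5, 1, 3, 2]),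
([1, 4, 3, 0, 5, 2],[1, 2, 3, 4, 5, 0],[0, 1, 4, 5, 2, 3]),
([1, 4, 3, 5, 0, 2],[1, 2, 0, 4, 5, 3],[0, 1, 4, 2, 3, 5]),
([1, 4, 3, 5, 2, 0],[1, 2, 3, 4, 5, 0],[0, 1, 4, 2, 3, 5]),
([4, 0, 3, 1, 5, 2],[1, 2, 3, 4, 5, 0],[0, 4, 5, 2, 3, 1]),
([4, 3, 0, 1, 5, 2],[1, 0, 3, 4, 5, 2],[1, 3, 0, 4, 5, 2]),
([4, 3, 1, 0, 5, 2],[1, 2, 3, 4, 5, 0],[0, 4, 5, 2, 1, 3]),
([4, 3, 1, 5, 0, 2],[1, 0, 3, 4, 5, 2],[0, 4, 1, 3, 5, 2]),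
([4, 3, 1, 5, 2, 0],[1, 2, 3, 4, 5, 0],[0, 4, 2, 1, 3, 5]),
([4, 0, 3, 5, 1, 2],[1, 2, 0, 4, 5, 3],[0, 4, 1, 2, 3, 5]),
([4, 3, 0, 5, 1, 2],[1, 2, 3, 4, 5, 0],[0, 4, 1, 3, 5, 2]),
([4, 3, 5, 0, 1, 2],[1, 0, 3, 4, 5, 2],[2, 5, 0, 4, 1, 3]),
([4, 3, 5, 1, 0, 2],[1, 0, 3, 2, 5, 4],[0, 4, 1, 3, 2, 5]),
([4, 3, 5, 1, 2, 0],[1, 0, 3, 4, 5, 2],[1, 3, 0, 4, 2, 5]),
([4, 0, 3, 5, 2, 1],[1, 2, 3, 4, 5, 0],[0, 4, 2, 3, 5, 1]),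
([4, 3, 0, 5, 2, 1],[1, 2, 0, 4, 5, 3],[0, 4, 2, 1, 3, 5]),
([4, 3, 5, 0, 2, 1],[1, 2, 3, 4, 5, 0],[0, 4, 2, 5, 1, 3]),
([4, 3, 5, 2, 0, 1],[1, 0, 3, 4, 5, 2],[0, 4, 1, 3, 2, 5]),
([4, 3, 5, 2, 1, 0],[1, 2, 3, 4, 5, 0],[0, 4, 1, 3, 2, 5]),
([1, 2, 0, 4, 5, 3],[1, 2, 0, 4, 5, 3],[0, 1, 2, 3, 4, 5]),
([1, 2, 4, 0, 5, 3],[1, 2, 3, 4, 5, 0],[0, 1, 2, 4, 5, 3]),
([1, 2, 4, 5, 0, 3],[1, 0, 3, 4, 5, 2],[3, 5, 0, 1, 2, 4]),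
([1, 2, 4, 5, 3, 0],[1, 2, 3, 4, 5, 0],[0, 1, 2, 4, 3, 5]),
([2, 0, 1, 4, 5, 3],[1, 2, 0, 4, 5, 3],[0, 2, 1, 3, 4, 5]),
([2, 0, 4, 1, 5, 3],[1, 2, 3, 4, 5, 0],[0, 2, 4, 5, 3, 1]),
([2, 4, 0, 1, 5, 3],[1, 0, 3, 4, 5, 2],[0, 2, 1, 4, 5, 3]),
([2, 4, 1, 0, 5, 3],[1, 2, 3, 4, 5, 0],[0, 2, 1, 4, 5, 3]),
([2, 4, 1, 5, 0, 3],[1, 0, 3, 4, 5, 2],[3, 5, 0, 2, 1, 4]),
([2, 4, 1, 5, 3, 0],[1, 2, 3, 4, 5, 0],[0, 2, 1, 4, 3, 5]),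
([2, 0, 4, 5, 1, 3],[1, 0, 3, 4, 5, 2],[3, 5, 0, 2, 4, 1]),
([2, 4, 0, 5, 1, 3],[1, 0, 3, 2, 5, 4],[0, 2, 1, 4, 3, 5]),
([2, 4, 5, 0, 1, 3],[1, 0, 3, 4, 5, 2],[1, 4, 0, 2, 5, 3]),
([2, 4, 5, 1, 0, 3],[1, 2, 3, 4, 5, 0],[0, 2, 5, 3, 1, 4]),
([2, 4, 5, 1, 3, 0],[1, 2, 0, 4, 5, 3],[0, 2, 5, 1, 4, 3]),
([2, 0, 4, 5, 3, 1],[1, 2, 3, 4, 5, 0],[0, 2, 4, 3, 5, 1]),
([2, 4, 0, 5, 3, 1],[1, 0, 3, 4, 5, 2],[0, 2, 1, 4, 3, 5]),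
([2, 4, 5, 0, 3, 1],[1, 2, 3, 4, 5, 0],[0, 2, 5, 1, 4, 3]),
([1, 0, 4, 2, 5, 3],[1, 0, 3, 4, 5, 2],[0, 1, 2, 4, 5, 3]),
([1, 4, 0, 2, 5, 3],[1, 2, 3, 4, 5, 0],[0, 1, 4, 5, 3, 2]),
([4, 0, 1, 2, 5, 3],[1, 2, 3, 4, 5, 0],[0, 4, 5, 3, 2, 1]),
([4, 2, 0, 1, 5, 3],[1, 2, 3, 4, 5, 0],[0, 4, 5, 3, 1, 2]),
([4, 2, 1, 0, 5, 3],[1, 0, 3, 4, 5, 2],[1, 2, 0, 4, 5, 3]),
([4, 2, 1, 5, 0, 3],[1, 0, 3, 2, 5, 4],[0, 4, 1, 2, 3, 5]),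
([4, 2, 1, 5, 3, 0],[1, 0, 3, 4, 5, 2],[1, 2, 0, 4, 3, 5]),
([4, 2, 0, 5, 1, 3],[1, 0, 3, 4, 5, 2],[3, 5, 0, 4, 1, 2]),
([4, 2, 5, 0, 1, 3],[1, 2, 3, 4, 5, 0],[0, 4, 1, 2, 5, 3]),
([4, 2, 5, 1, 0, 3],[1, 0, 3, 4, 5, 2],[0, 4, 1, 2, 5, 3]),
([4, 2, 5, 1, 3, 0],[1, 2, 3, 4, 5, 0],[0, 4, 3, 1, 2, 5]),
([4, 2, 0, 5, 3, 1],[1, 2, 3, 4, 5, 0],[0, 4, 3, 5, 1, 2]),
([4, 2, 5, 0, 3, 1],[1, 2, 0, 4, 5, 3],[0, 4, 3, 1, 2, 5]),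
([1, 0, 4, 5, 2, 3],[1, 0, 3, 2, 5, 4],[0, 1, 2, 4, 3, 5]),
([1, 4, 0, 5, 2, 3],[1, 0, 3, 4, 5, 2],[3, 5, 0, 1, 4, 2]),
([1, 4, 5, 0, 2, 3],[1, 2, 3, 4, 5, 0],[0, 1, 4, 2, 5, 3]),
([1, 4, 5, 2, 0, 3],[1, 2, 0, 4, 5, 3],[0, 1, 4, 2, 5, 3]),
([1, 4, 5, 2, 3, 0],[1, 2, 3, 4, 5, 0],[0, 1, 4, 3, 2, 5]),
([4, 0, 1, 5, 2, 3],[1, 0, 3, 4, 5, 2],[3, 5, 0, 4, 2, 1]),
([4, 0, 5, 1, 2, 3],[1, 2, 3, 4, 5, 0],[0, 4, 2, 5, 3, 1]),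
([4, 5, 0, 1, 2, 3],[1, 2, 0, 4, 5, 3],[0, 4, 2, 1, 5, 3]),
([4, 5, 1, 0, 2, 3],[1, 2, 3, 4, 5, 0],[0, 4, 2, 1, 5, 3]),
([4, 5, 1, 2, 0, 3],[1, 0, 3, 4, 5, 2],[0, 4, 1, 5, 3, 2]),
([4, 5, 1, 2, 3, 0],[1, 2, 3, 4, 5, 0],[0, 4, 3, 2, 1, 5]),
([4, 0, 5, 2, 1, 3],[1, 2, 0, 4, 5, 3],[0, 4, 1, 2, 5, 3]),
([4, 5, 0, 2, 1, 3],[1, 2, 3, 4, 5, 0],[0, 4, 1, 5, 3, 2]),
([4, 0, 5, 2, 3, 1],[1, 2, 3, 4, 5, 0],[0, 4, 3, 2, 5, 1]),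
([4, 5, 0, 2, 3, 1],[1, 0, 3, 4, 5, 2],[1, 5, 0, 4, 3, 2]),
([1, 0, 4, 5, 3, 2],[1, 0, 3, 4, 5, 2],[0, 1, 2, 4, 3, 5]),
([1, 4, 0, 5, 3, 2],[1, 2, 3, 4, 5, 0],[0, 1, 4, 3, 5, 2]),
([1, 4, 5, 0, 3, 2],[1, 0, 3, 4, 5, 2],[2, 5, 0, 1, 4, 3]),
([4, 0, 1, 5, 3, 2],[1, 2, 3, 4, 5, 0],[0, 4, 3, 5, 2, 1]),
([4, 0, 5, 1, 3, 2],[1, 0, 3, 4, 5, 2],[2, 5, 0, 4, 3, 1]),
([4, 5, 0, 1, 3, 2],[1, 2, 3, 4, 5, 0],[0, 4, 3, 1, 5, 2]),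
([4, 5, 1, 0, 3, 2],[1, 2, 0, 4, 5, 3],[0, 4, 3, 1, 5, 2]),
([4, 5, 3, 0, 1, 2],[1, 2, 3, 4, 5, 0],[0, 4, 1, 5, 2, 3]),
([4, 5, 3, 1, 0, 2],[1, 0, 3, 4, 5, 2],[0, 4, 1, 5, 2, 3]),
([4, 5, 3, 1, 2, 0],[1, 2, 3, 4, 5, 0],[0, 4, 2, 3, 1, 5]),
([4, 5, 3, 0, 2, 1],[1, 0, 3, 4, 5, 2],[1, 5, 0, 4, 2, 3]),
([4, 5, 3, 2, 0, 1],[1, 0, 3, 2, 5, 4],[0, 4, 1, 5, 2, 3]),
([4, 5, 3, 2, 1, 0],[1, 0, 3, 4, 5, 2],[2, 3, 0, 4, 1, 5]),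
([1, 2, 3, 0, 5, 4],[1, 0, 3, 4, 5, 2],[4, 5, 0, 1, 2, 3]),
([1, 2, 3, 5, 0, 4],[1, 2, 3, 4, 5, 0],[0, 1, 2, 3, 5, 4]),
([2, 0, 3, 1, 5, 4],[1, 0, 3, 4, 5, 2],[4, 5, 0, 2, 3, 1]),
([2, 3, 0, 1, 5, 4],[1, 0, 3, 2, 5, 4],[0, 2, 1, 3, 4, 5]),
([2, 3, 1, 0, 5, 4],[1, 0, 3, 4, 5, 2],[4, 5, 0, 2, 1, 3]),
([2, 3, 1, 5, 0, 4],[1, 2, 3, 4, 5, 0],[0, 2, 1, 3, 5, 4]),
([2, 0, 3, 5, 1, 4],[1, 2, 3, 4, 5, 0],[0, 2, 3, 5, 4, 1]),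
([2, 3, 0, 5, 1, 4],[1, 0, 3, 4, 5, 2],[0, 2, 1, 3, 5, 4]),
([2, 3, 5, 0, 1, 4],[1, 2, 3, 4, 5, 0],[0, 2, 5, 4, 1, 3]),
([2, 3, 5, 1, 0, 4],[1, 0, 3, 4, 5, 2],[1, 3, 0, 2, 5, 4]),
([2, 3, 5, 4, 0, 1],[1, 2, 3, 4, 5, 0],[0, 2, 5, 1, 3, 4]),
([2, 3, 5, 4, 1, 0],[1, 2, 0, 4, 5, 3],[0, 2, 5, 1, 3, 4]),
([1, 0, 3, 2, 5, 4],[1, 0, 3, 2, 5, 4],[0, 1, 2, 3, 4, 5]),
([1, 3, 0, 2, 5, 4],[1, 0, 3, 4, 5, 2],[4, 5, 0, 1, 3, 2]),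
([3, 0, 1, 2, 5, 4],[1, 0, 3, 4, 5, 2],[4, 5, 0, 3, 2, 1]),
([3, 2, 0, 1, 5, 4],[1, 0, 3, 4, 5, 2],[4, 5, 0, 3, 1, 2]),
([3, 2, 1, 0, 5, 4],[1, 0, 3, 2, 5, 4],[0, 3, 1, 2, 4, 5]),
([3, 2, 1, 5, 0, 4],[1, 0, 3, 4, 5, 2],[1, 2, 0, 3, 5, 4]),
([3, 2, 0, 5, 1, 4],[1, 2, 3, 4, 5, 0],[0, 3, 5, 4, 1, 2]),
([3, 2, 5, 0, 1, 4],[1, 0, 3, 4, 5, 2],[0, 3, 1, 2, 5, 4]),
([3, 2, 5, 1, 0, 4],[1, 2, 3, 4, 5, 0],[0, 3, 1, 2, 5, 4]),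
([3, 2, 5, 4, 0, 1],[1, 2, 0, 4, 5, 3],[0, 3, 4, 1, 2, 5]),
([3, 2, 5, 4, 1, 0],[1, 2, 3, 4, 5, 0],[0, 3, 4, 1, 2, 5]),
([1, 0, 3, 5, 2, 4],[1, 0, 3, 4, 5, 2],[0, 1, 2, 3, 5, 4]),
([1, 3, 0, 5, 2, 4],[1, 2, 3, 4, 5, 0],[0, 1, 3, 5, 4, 2]),
([1, 3, 5, 0, 2, 4],[1, 2, 0, 4, 5, 3],[0, 1, 3, 2, 5, 4]),
([1, 3, 5, 2, 0, 4],[1, 2, 3, 4, 5, 0],[0, 1, 3, 2, 5, 4]),
([3, 0, 1, 5, 2, 4],[1, 2, 3, 4, 5, 0],[0, 3, 5, 4, 2, 1]),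
([3, 0, 5, 1, 2, 4],[1, 2, 0, 4, 5, 3],[0, 3, 1, 2, 5, 4]),
([3, 5, 0, 1, 2, 4],[1, 2, 3, 4, 5, 0],[0, 3, 1, 5, 4, 2]),
([3, 5, 1, 0, 2, 4],[1, 0, 3, 4, 5, 2],[0, 3, 1, 5, 4, 2]),
([3, 5, 1, 2, 0, 4],[1, 2, 3, 4, 5, 0],[0, 3, 2, 1, 5, 4]),
([3, 0, 5, 2, 1, 4],[1, 2, 3, 4, 5, 0],[0, 3, 2, 5, 4, 1]),
([3, 5, 0, 2, 1, 4],[1, 2, 0, 4, 5, 3],[0, 3, 2, 1, 5, 4]),
([1, 3, 5, 4, 0, 2],[1, 0, 3, 4, 5, 2],[2, 5, 0, 1, 3, 4]),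
([1, 3, 5, 4, 2, 0],[1, 2, 3, 4, 5, 0],[0, 1, 3, 4, 2, 5]),
([3, 5, 1, 4, 0, 2],[1, 2, 0, 4, 5, 3],[0, 3, 4, 1, 5, 2]),
([3, 5, 1, 4, 2, 0],[1, 2, 3, 4, 5, 0],[0, 3, 4, 2, 1, 5]),
([3, 0, 5, 4, 1, 2],[1, 0, 3, 4, 5, 2],[2, 5, 0, 3, 4, 1]),
([3, 5, 0, 4, 1, 2],[1, 2, 3, 4, 5, 0],[0, 3, 4, 1, 5, 2]),
([3, 5, 4, 0, 1, 2],[1, 0, 3, 4, 5, 2],[0, 3, 1, 5, 2, 4]),
([3, 5, 4, 1, 0, 2],[1, 2, 3, 4, 5, 0],[0, 3, 1, 5, 2, 4]),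
([3, 5, 4, 1, 2, 0],[1, 0, 3, 4, 5, 2],[2, 4, 0, 3, 1, 5]),
([3, 0, 5, 4, 2, 1],[1, 2, 3, 4, 5, 0],[0, 3, 4, 2, 5, 1]),
([3, 5, 0, 4, 2, 1],[1, 0, 3, 4, 5, 2],[1, 5, 0, 3, 4, 2]),
([3, 5, 4, 0, 2, 1],[1, 0, 3, 2, 5, 4],[0, 3, 1, 5, 2, 4]),
([3, 5, 4, 2, 0, 1],[1, 0, 3, 4, 5, 2],[1, 5, 0, 3, 2, 4]),
([3, 5, 4, 2, 1, 0],[1, 2, 3, 4, 5, 0],[0, 3, 2, 4, 1, 5]),
([1, 2, 0, 5, 3, 4],[1, 2, 0, 4, 5, 3],[0, 1, 2, 3, 5, 4]),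
([1, 2, 5, 0, 3, 4],[1, 2, 3, 4, 5, 0],[0, 1, 2, 5, 4, 3]),
([2, 0, 1, 5, 3, 4],[1, 2, 0, 4, 5, 3],[0, 2, 1, 3, 5, 4]),
([2, 0, 5, 1, 3, 4],[1, 2, 3, 4, 5, 0],[0, 2, 5, 4, 3, 1]),
([2, 5, 0, 1, 3, 4],[1, 0, 3, 4, 5, 2],[0, 2, 1, 5, 4, 3]),
([2, 5, 1, 0, 3, 4],[1, 2, 3, 4, 5, 0],[0, 2, 1, 5, 4, 3]),
([2, 5, 3, 0, 1, 4],[1, 2, 0, 4, 5, 3],[0, 2, 3, 1, 5, 4]),
([2, 5, 3, 1, 0, 4],[1, 2, 3, 4, 5, 0],[0, 2, 3, 1, 5, 4]),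
([2, 5, 3, 4, 0, 1],[1, 0, 3, 4, 5, 2],[1, 5, 0, 2, 3, 4]),
([2, 5, 3, 4, 1, 0],[1, 2, 3, 4, 5, 0],[0, 2, 3, 4, 1, 5]),
([1, 0, 5, 2, 3, 4],[1, 0, 3, 4, 5, 2],[0, 1, 2, 5, 4, 3]),
([1, 5, 0, 2, 3, 4],[1, 2, 3, 4, 5, 0],[0, 1, 5, 4, 3, 2]),
([5, 0, 1, 2, 3, 4],[1, 2, 3, 4, 5, 0],[0, 5, 4, 3, 2, 1]),
([5, 2, 0, 1, 3, 4],[1, 2, 3, 4, 5, 0],[0, 5, 4, 3, 1, 2]),
([5, 2, 1, 0, 3, 4],[1, 0, 3, 4, 5, 2],[1, 2, 0, 5, 4, 3]),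
([5, 2, 3, 0, 1, 4],[1, 2, 3, 4, 5, 0],[0, 5, 4, 1, 2, 3]),
([5, 2, 3, 1, 0, 4],[1, 2, 0, 4, 5, 3],[0, 5, 4, 1, 2, 3]),
([5, 2, 3, 4, 0, 1],[1, 2, 3, 4, 5, 0],[0, 5, 1, 2, 3, 4]),
([5, 2, 3, 4, 1, 0],[1, 0, 3, 4, 5, 2],[0, 5, 1, 2, 3, 4]),
([1, 5, 3, 0, 2, 4],[1, 2, 3, 4, 5, 0],[0, 1, 5, 4, 2, 3]),
([1, 5, 3, 2, 0, 4],[1, 0, 3, 4, 5, 2],[2, 3, 0, 1, 5, 4]),
([5, 0, 3, 1, 2, 4],[1, 2, 3, 4, 5, 0],[0, 5, 4, 2, 3, 1]),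
([5, 3, 0, 1, 2, 4],[1, 0, 3, 4, 5, 2],[1, 3, 0, 5, 4, 2]),
([5, 3, 1, 0, 2, 4],[1, 2, 3, 4, 5, 0],[0, 5, 4, 2, 1, 3]),
([5, 3, 1, 2, 0, 4],[1, 2, 0, 4, 5, 3],[0, 5, 4, 1, 3, 2]),
([5, 0, 3, 2, 1, 4],[1, 0, 3, 4, 5, 2],[2, 3, 0, 5, 4, 1]),
([5, 3, 0, 2, 1, 4],[1, 2, 3, 4, 5, 0],[0, 5, 4, 1, 3, 2]),
([1, 5, 3, 4, 0, 2],[1, 2, 3, 4, 5, 0],[0, 1, 5, 2, 3, 4]),
([1, 5, 3, 4, 2, 0],[1, 2, 0, 4, 5, 3],[0, 1, 5, 2, 3, 4]),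
([5, 3, 1, 4, 0, 2],[1, 2, 3, 4, 5, 0],[0, 5, 2, 1, 3, 4]),
([5, 3, 1, 4, 2, 0],[1, 0, 3, 4, 5, 2],[0, 5, 1, 3, 4, 2]),
([5, 0, 3, 4, 1, 2],[1, 2, 3, 4, 5, 0],[0, 5, 2, 3, 4, 1]),
([5, 3, 0, 4, 1, 2],[1, 2, 0, 4, 5, 3],[0, 5, 2, 1, 3, 4]),
([5, 3, 4, 0, 1, 2],[1, 2, 3, 4, 5, 0],[0, 5, 2, 4, 1, 3]),
([5, 3, 4, 1, 0, 2],[1, 0, 3, 4, 5, 2],[1, 3, 0, 5, 2, 4]),
([5, 3, 4, 1, 2, 0],[1, 0, 3, 2, 5, 4],[0, 5, 1, 3, 2, 4]),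
([5, 0, 3, 4, 2, 1],[1, 2, 0, 4, 5, 3],[0, 5, 1, 2, 3, 4]),
([5, 3, 0, 4, 2, 1],[1, 2, 3, 4, 5, 0],[0, 5, 1, 3, 4, 2]),
([5, 3, 4, 0, 2, 1],[1, 0, 3, 4, 5, 2],[2, 4, 0, 5, 1, 3]),
([5, 3, 4, 2, 0, 1],[1, 2, 3, 4, 5, 0],[0, 5, 1, 3, 2, 4]),
([5, 3, 4, 2, 1, 0],[1, 0, 3, 4, 5, 2],[0, 5, 1, 3, 2, 4]),
([1, 2, 5, 4, 0, 3],[1, 2, 3, 4, 5, 0],[0, 1, 2, 5, 3, 4]),
([1, 2, 5, 4, 3, 0],[1, 0, 3, 4, 5, 2],[3, 4, 0, 1, 2, 5]),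
([2, 5, 1, 4, 0, 3],[1, 2, 3, 4, 5, 0],[0, 2, 1, 5, 3, 4]),
([2, 5, 1, 4, 3, 0],[1, 0, 3, 4, 5, 2],[3, 4, 0, 2, 1, 5]),
([2, 0, 5, 4, 1, 3],[1, 2, 3, 4, 5, 0],[0, 2, 5, 3, 4, 1]),
([2, 5, 0, 4, 1, 3],[1, 0, 3, 4, 5, 2],[0, 2, 1, 5, 3, 4]),
([2, 5, 4, 0, 1, 3],[1, 2, 3, 4, 5, 0],[0, 2, 4, 1, 5, 3]),
([2, 5, 4, 1, 0, 3],[1, 2, 0, 4, 5, 3],[0, 2, 4, 1, 5, 3]),
([2, 5, 4, 1, 3, 0],[1, 2, 3, 4, 5, 0],[0, 2, 4, 3, 1, 5]),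
([2, 0, 5, 4, 3, 1],[1, 0, 3, 4, 5, 2],[3, 4, 0, 2, 5, 1]),
([2, 5, 0, 4, 3, 1],[1, 0, 3, 2, 5, 4],[0, 2, 1, 5, 3, 4]),
([2, 5, 4, 0, 3, 1],[1, 0, 3, 4, 5, 2],[1, 5, 0, 2, 4, 3]),
([5, 2, 1, 4, 0, 3],[1, 0, 3, 4, 5, 2],[1, 2, 0, 5, 3, 4]),
([5, 2, 1, 4, 3, 0],[1, 0, 3, 2, 5, 4],[0, 5, 1, 2, 3, 4]),
([5, 2, 0, 4, 1, 3],[1, 2, 3, 4, 5, 0],[0, 5, 3, 4, 1, 2]),
([5, 2, 4, 0, 1, 3],[1, 2, 0, 4, 5, 3],[0, 5, 3, 1, 2, 4]),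
([5, 2, 4, 1, 0, 3],[1, 2, 3, 4, 5, 0],[0, 5, 3, 1, 2, 4]),
([5, 2, 4, 1, 3, 0],[1, 0, 3, 4, 5, 2],[0, 5, 1, 2, 4, 3]),
([5, 2, 0, 4, 3, 1],[1, 0, 3, 4, 5, 2],[3, 4, 0, 5, 1, 2]),
([5, 2, 4, 0, 3, 1],[1, 2, 3, 4, 5, 0],[0, 5, 1, 2, 4, 3]),
([1, 0, 5, 4, 2, 3],[1, 0, 3, 4, 5, 2],[0, 1, 2, 5, 3, 4]),
([1, 5, 0, 4, 2, 3],[1, 2, 3, 4, 5, 0],[0, 1, 5, 3, 4, 2]),
([1, 5, 4, 0, 2, 3],[1, 0, 3, 4, 5, 2],[2, 4, 0, 1, 5, 3]),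
([1, 5, 4, 2, 0, 3],[1, 2, 3, 4, 5, 0],[0, 1, 5, 3, 2, 4]),
([1, 5, 4, 2, 3, 0],[1, 2, 0, 4, 5, 3],[0, 1, 5, 2, 4, 3]),
([5, 0, 1, 4, 2, 3],[1, 2, 3, 4, 5, 0],[0, 5, 3, 4, 2, 1]),
([5, 0, 4, 1, 2, 3],[1, 0, 3, 4, 5, 2],[2, 4, 0, 5, 3, 1]),
([5, 4, 0, 1, 2, 3],[1, 2, 3, 4, 5, 0],[0, 5, 3, 1, 4, 2]),
([5, 4, 1, 0, 2, 3],[1, 2, 0, 4, 5, 3],[0, 5, 3, 1, 4, 2]),
([5, 4, 1, 2, 0, 3],[1, 2, 3, 4, 5, 0],[0, 5, 3, 2, 1, 4]),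
([5, 4, 1, 2, 3, 0],[1, 0, 3, 4, 5, 2],[0, 5, 1, 4, 3, 2]),
([5, 0, 4, 2, 1, 3],[1, 2, 3, 4, 5, 0],[0, 5, 3, 2, 4, 1]),
([5, 4, 0, 2, 1, 3],[1, 0, 3, 4, 5, 2],[1, 4, 0, 5, 3, 2]),
([5, 0, 4, 2, 3, 1],[1, 2, 0, 4, 5, 3],[0, 5, 1, 2, 4, 3]),
([5, 4, 0, 2, 3, 1],[1, 2, 3, 4, 5, 0],[0, 5, 1, 4, 3, 2]),
([1, 0, 5, 4, 3, 2],[1, 0, 3, 2, 5, 4],[0, 1, 2, 5, 3, 4]),
([1, 5, 0, 4, 3, 2],[1, 0, 3, 4, 5, 2],[3, 4, 0, 1, 5, 2]),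
([1, 5, 4, 0, 3, 2],[1, 2, 3, 4, 5, 0],[0, 1, 5, 2, 4, 3]),
([5, 0, 1, 4, 3, 2],[1, 0, 3, 4, 5, 2],[3, 4, 0, 5, 2, 1]),
([5, 0, 4, 1, 3, 2],[1, 2, 3, 4, 5, 0],[0, 5, 2, 4, 3, 1]),
([5, 4, 0, 1, 3, 2],[1, 2, 0, 4, 5, 3],[0, 5, 2, 1, 4, 3]),
([5, 4, 1, 0, 3, 2],[1, 2, 3, 4, 5, 0],[0, 5, 2, 1, 4, 3]),
([5, 4, 3, 0, 1, 2],[1, 0, 3, 4, 5, 2],[1, 4, 0, 5, 2, 3]),
([5, 4, 3, 1, 0, 2],[1, 2, 3, 4, 5, 0],[0, 5, 2, 3, 1, 4]),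
([5, 4, 3, 1, 2, 0],[1, 0, 3, 4, 5, 2],[0, 5, 1, 4, 2, 3]),
([5, 4, 3, 0, 2, 1],[1, 2, 3, 4, 5, 0],[0, 5, 1, 4, 2, 3]),
([5, 4, 3, 2, 0, 1],[1, 0, 3, 4, 5, 2],[2, 3, 0, 5, 1, 4]),
([5, 4, 3, 2, 1, 0],[1, 0, 3, 2, 5, 4],[0, 5, 1, 4, 2, 3])]

def Good (t : List ℕ) : Prop :=
  Function.Injective (fun j : Fin 6 => Fin.ofNat 6 (t.getD j 0)) ∧
    pl (fun j : Fin 6 => Fin.ofNat 6 (t.getD j 0)) = t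

instance (t : List ℕ) : Decidable (Good t) := by unfold Good; infer_instance

theorem tb1 : ([0, 1, 2, 3, 4, 5].permutations'.filter fun p => p.getD 0 0 != 0 && der p) =
    tb.map (·.1) := by decide +kernel

theorem tb2 : ∀ x ∈ tb, x.2.1 ∈ reps ∧ Good x.2.2 ∧ conj x.1 x.2.2 x.2.1 = true := by
  decide +kernel

theorem conj_all : ∀ p ∈ [0, 1, 2, 3, 4, 5].permutations', p.getD 0 0 ≠ 0 → der p = true →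
    ∃ r ∈ reps, ∃ t, Good t ∧ conj p t r = true := by
  intro p hp h0 h1
  have : p ∈ tb.map (·.1) := by
    rw [← tb1]
    exact List.mem_filter.2 ⟨hp, by simp [h0, h1, -List.getD_eq_getElem?_getD]⟩
  obtain ⟨x, hx, rfl⟩ := List.mem_map.1 this
  exact ⟨_, (tb2 x hx).1, _, (tb2 x hx).2⟩

theorem pl_get (p : Fin 6 → Fin 6) (j : Fin 6) : (pl p).getD j 0 = p j := by
  fin_cases j <;> rfl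

theorem of_perm (t : List ℕ) (h : Good t) :
    ∃ τ : Fin 6 → Fin 6, Function.Bijective τ ∧ pl τ = t :=
  ⟨_, Finite.injective_iff_bijective.1 h.1, h.2⟩

theorem conj_ex (p : Fin 6 → Fin 6) (h : Function.Bijective p) (d : ∀ j, p j ≠ j) :
    ∃ τ : Equiv.Perm (Fin 6), pl (fun j => τ.symm (p (τ j))) ∈ reps := by
  have ne : ∀ j : Fin 6, (p j : ℕ) ≠ j := fun j => Fin.val_ne_of_ne (d j)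
  obtain ⟨r, hr, t, ht, hc⟩ := conj_all (pl p) (pl_perm h) (ne 0) (by
    have n1 := ne 1; have n2 := ne 2; have n3 := ne 3; have n4 := ne 4; have n5 := ne 5
    simp only [der, pl, List.getD_cons_zero, List.getD_cons_succ, Bool.and_eq_true, bne_iff_ne]
    exact ⟨⟨⟨⟨n1, n2⟩, n3⟩, n4⟩, n5⟩)
  obtain ⟨τ, b, rfl⟩ := of_perm t ht
  have : ∀ r ∈ reps, Good r := by decide +kernel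
  obtain ⟨ρ, -, rfl⟩ := of_perm r (this r hr)
  refine ⟨Equiv.ofBijective τ b, ?_⟩
  have : (fun j => (Equiv.ofBijective τ b).symm (p (Equiv.ofBijective τ b j))) = ρ := by
    funext j
    rw [Equiv.symm_apply_eq]
    have := List.all_eq_true.1 hc j (List.mem_range.2 j.2)
    rw [pl_get, pl_get, pl_get, pl_get] at this
    exact Fin.ext (by simpa using this)
  rw [this]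
  exact hr

/-- no pair of orthogonal Latin squares of order six -/
theorem no_ols (A B : Fin 6 → Fin 6 → Fin 6) (ar : ∀ i, Function.Bijective (A i))
    (ac : ∀ i k j, A i j = A k j → i = k) (br : ∀ i, Function.Bijective (B i))
    (bc : ∀ i k j, B i j = B k j → i = k)
    (o : ∀ i j k l, A i j = A k l → B i j = B k l → i = k) : False := by
  let π := Equiv.ofBijective _ (ar 0)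
  obtain ⟨τ, hτ⟩ := conj_ex (fun j => π.symm (A 1 j)) (π.symm.bijective.comp (ar 1)) fun j h => by
    rw [Equiv.symm_apply_eq] at h
    exact absurd (ac _ _ _ h) (by decide)
  let A' : Fin 6 → Fin 6 → Fin 6 := fun i j => τ.symm (π.symm (A i (τ j)))
  have inj : ∀ i j k l, A' i j = A' k l → A i (τ j) = A k (τ l) := fun i j k l h =>
    π.symm.injective (τ.symm.injective h)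
  have a0 : ∀ j, A' 0 j = j := fun j => by
    simp only [A']
    rw [show A 0 (τ j) = π (τ j) from rfl, Equiv.symm_apply_apply, Equiv.symm_apply_apply]
  have a1 : A' 1 0 = 1 := by
    have : ∀ r ∈ reps, r.getD 0 0 = 1 := by decide
    exact Fin.ext (this _ hτ)
  have cb : Function.Bijective fun i => A' i 0 :=
    Finite.injective_iff_bijective.1 fun i k h => ac _ _ _ (inj _ _ _ _ h)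
  let ρ := Equiv.ofBijective _ cb
  have r0 : ρ.symm 0 = 0 := by rw [Equiv.symm_apply_eq]; exact (a0 0).symm
  have r1 : ρ.symm 1 = 1 := by rw [Equiv.symm_apply_eq]; exact a1.symm
  refine norm_false (fun i j => A' (ρ.symm i) j) (fun i j => B (ρ.symm i) (τ j))
    (fun j => by rw [r0, a0]) (by rw [r1]; exact hτ) (fun i => ρ.apply_symm_apply i)
    (fun i => τ.symm.bijective.comp (π.symm.bijective.comp ((ar _).comp τ.bijective)))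
    (fun i k j h => ρ.symm.injective (ac _ _ _ (inj _ _ _ _ h)))
    (fun i => (br _).comp τ.bijective) (fun i k j h => ρ.symm.injective (bc _ _ _ h))
    fun i j k l h g => ρ.symm.injective (o _ _ _ _ (inj _ _ _ _ h) g)

end Pool.Agent.H12.Ols
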