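import Mathlib
import Pool.Agent.H12.Generic

set_option autoImplicit false

namespace Pool.Agent.H12.PolyNorm

variable {V : Type} [AddCommGroup V] [Module ℝ V] {ι : Type} [Fintype ι]

lemma chain (ℓ : ι → V →ₗ[ℝ] ℝ) (N : V → ℝ) (h1 : ∀ p x, ℓ p x ≤ N x)
    (h2 : ∀ x, ∃ p, ℓ p x = N x) (S : Finset ι) (x : ℕ → V)
    (hx : ∀ k l, k < l → ∃ p ∈ S, ℓ p (x l - x k) = N (x l - x k)) :
    ∃ (g : ℕ ↪o ℕ) (p : ι), ∀ k l, k < l →
      ℓ p (x (g l) - x (g k)) = N (x (g l) - x (g k)) := by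
  classical
  induction S using Finset.induction_on generalizing x with
  | empty => obtain ⟨p, hp, _⟩ := hx 0 1 one_pos; simp at hp
  | insert p S hp ih =>
    let r : V → V → Prop := fun u v => ℓ p (v - u) = N (v - u)
    have : IsTrans V r := ⟨fun u v w huv hvw => by
      apply le_antisymm (h1 _ _)
      obtain ⟨q, hq⟩ := h2 (w - u)
      have e : w - u = (w - v) + (v - u) := by abel
      rw [← hq]
      calc ℓ q (w - u) = ℓ q (w - v) + ℓ q (v - u) := by rw [e, map_add]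
        _ ≤ N (w - v) + N (v - u) := add_le_add (h1 _ _) (h1 _ _)
        _ = ℓ p (w - v) + ℓ p (v - u) := by rw [huv, hvw]
        _ = ℓ p (w - u) := by rw [← map_add, ← e]⟩
    obtain ⟨g, hg | hg⟩ := exists_increasing_or_nonincreasing_subseq r x
    · exact ⟨g, p, hg⟩
    · obtain ⟨g', q, hq⟩ := ih (fun k => x (g k)) (fun k l hkl => by
        obtain ⟨q, hq, h⟩ := hx (g k) (g l) (g.strictMono hkl)
        rcases Finset.mem_insert.mp hq with h' | h'
        · subst h'; exact absurd h (hg k l hkl)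
        · exact ⟨q, h', h⟩)
      exact ⟨g'.trans g, q, hq⟩

lemma copy (ℓ : ι → V →ₗ[ℝ] ℝ) (N : V → ℝ) (h1 : ∀ p x, ℓ p x ≤ N x)
    (h2 : ∀ x, ∃ p, ℓ p x = N x) (y : ℕ → V) (s : ℕ → ℝ)
    (hy : ∀ k l, k ≤ l → N (y l - y k) = s l - s k) :
    ∃ p, ∀ k, ℓ p (y k) = (ℓ p (y 0) - s 0) + s k := by
  choose P hP using h2
  obtain ⟨p, hp⟩ := Finite.exists_infinite_fiber (fun l : ℕ => P (y l - y 0))
  refine ⟨p, fun k => ?_⟩
  have hinf : Set.Infinite ((fun l : ℕ => P (y l - y 0)) ⁻¹' {p}) := Set.infinite_coe_iff.mp hp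
  obtain ⟨l, hl, hkl⟩ := hinf.exists_gt k
  have hl' : P (y l - y 0) = p := hl
  have a1 := hP (y l - y 0)
  rw [hl', hy 0 l (Nat.zero_le _), map_sub] at a1
  have a2 := h1 p (y l - y k)
  rw [hy k l hkl.le, map_sub] at a2
  have a3 := h1 p (y k - y 0)
  rw [hy 0 k (Nat.zero_le _), map_sub] at a3
  linarith

theorem main (n : ℕ) (ℓ : ι → (Fin n → ℝ) →ₗ[ℝ] ℝ) (N : (Fin n → ℝ) → ℝ)
    (h1 : ∀ p x, ℓ p x ≤ N x) (h2 : ∀ x, ∃ p, ℓ p x = N x) (h3 : ∀ x, x ≠ 0 → 0 < N x)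
    (M : Set (Fin n → ℝ)) (hM : M.Infinite) :
    ∃ c : (Fin n → ℝ) → Fin (n + 1), ∀ f : (Fin n → ℝ) → (Fin n → ℝ),
      (∀ x ∈ M, ∀ y ∈ M, N (f x - f y) = N (x - y)) →
      ¬ ∃ k : Fin (n + 1), ∀ x ∈ M, c (f x) = k := by
  classical
  let x0 : ℕ → (Fin n → ℝ) := fun k => (hM.natEmbedding M k : Fin n → ℝ)
  have hx0 : ∀ k, x0 k ∈ M := fun k => (hM.natEmbedding M k).2
  have hx0i : Function.Injective x0 := fun a b h =>
    (hM.natEmbedding M).injective (Subtype.ext h)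
  obtain ⟨g, p0, hg⟩ := chain ℓ N h1 h2 Finset.univ x0 (fun k l _ => by
    obtain ⟨p, hp⟩ := h2 (x0 l - x0 k); exact ⟨p, Finset.mem_univ _, hp⟩)
  let s : ℕ → ℝ := fun k => ℓ p0 (x0 (g k))
  have hN0 : N 0 = 0 := by obtain ⟨p, hp⟩ := h2 0; rw [← hp, map_zero]
  have hs : ∀ k l, k ≤ l → N (x0 (g l) - x0 (g k)) = s l - s k := by
    intro k l hkl
    rcases hkl.lt_or_eq with h | h
    · rw [← hg k l h, map_sub]
    · subst h; simp [hN0]
  have hsm : StrictMono s := fun k l hkl => by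
    have := h3 (x0 (g l) - x0 (g k)) (sub_ne_zero.mpr fun h =>
      (ne_of_gt hkl) (g.injective (hx0i h)))
    rw [hs k l hkl.le] at this
    linarith
  have hrel : ∀ P : Fin (n + 1) → ι, ∃ μ : Fin (n + 1) → ℝ,
      ∑ c, μ c • ℓ (P c) = 0 ∧ ∃ c, μ c ≠ 0 := by
    intro P
    apply Fintype.not_linearIndependent_iff.mp
    intro hli
    have := hli.fintype_card_le_finrank
    rw [Fintype.card_fin, Module.finrank_linearMap_self, Module.finrank_fin_fun] at this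
    omega
  choose μ hμ1 hμ2 using hrel
  obtain ⟨T, hT1, hT2⟩ := Generic.generic μ hμ2 s hsm.injective
  have hcol : ∀ x : Fin n → ℝ, ∃ c : Fin (n + 1), ∀ p, ℓ p x ∉ T c := by
    intro x
    by_contra hcon
    push Not at hcon
    choose P hP using hcon
    apply hT2 P (fun c => ℓ (P c) x) hP
    have := LinearMap.congr_fun (hμ1 P) x
    simpa [LinearMap.sum_apply] using this
  choose c hc using hcol
  refine ⟨c, fun f hf ⟨k, hk⟩ => ?_⟩
  obtain ⟨p, hp⟩ := copy ℓ N h1 h2 (fun j => f (x0 (g j))) s (fun a b hab => by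
    rw [hf _ (hx0 _) _ (hx0 _), hs a b hab])
  obtain ⟨j, hj⟩ := hT1 k (ℓ p (f (x0 (g 0))) - s 0)
  rw [← hp j] at hj
  have := hc (f (x0 (g j))) p
  rw [hk _ (hx0 _)] at this
  exact this hj

end Pool.Agent.H12.PolyNorm
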