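import Mathlib

set_option autoImplicit false

namespace Pool.Agent.H12.Qf

open Polynomial

noncomputable def pr (K : Type) [Field K] (A : List ℕ) : K[X] := (A.map fun k => 1 - X ^ k).prod

theorem one_sub_ne (K : Type) [Field K] {k : ℕ} (hk : 0 < k) : (1 - X ^ k : K[X]) ≠ 0 := by
  intro h
  have := congrArg (Polynomial.eval 0) h
  simp [hk.ne'] at this

theorem pr_ne (K : Type) [Field K] (A : List ℕ) (hA : ∀ k ∈ A, 0 < k) : pr K A ≠ 0 := by
  apply List.prod_ne_zero
  intro h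
  obtain ⟨k, hk, e⟩ := List.mem_map.1 h
  exact one_sub_ne K (hA k hk) e

theorem mult_one (z : ℂ) {k : ℕ} (hk : 0 < k) :
    rootMultiplicity z (1 - X ^ k : ℂ[X]) = if orderOf z ∣ k then 1 else 0 := by
  have hs : (X ^ k - C 1 : ℂ[X]).Separable :=
    separable_X_pow_sub_C 1 (by exact_mod_cast hk.ne') one_ne_zero
  have hs' : (1 - X ^ k : ℂ[X]).Separable := by
    have e : (1 - X ^ k : ℂ[X]) = (X ^ k - C 1) * C (-1) := by simp
    rw [e]
    exact hs.mul_unit (isUnit_C.2 (by simp))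
  have h1 := rootMultiplicity_le_one_of_separable hs' z
  split_ifs with h
  · have : 0 < rootMultiplicity z (1 - X ^ k : ℂ[X]) := by
      rw [rootMultiplicity_pos (one_sub_ne ℂ hk)]
      simp [IsRoot, orderOf_dvd_iff_pow_eq_one.1 h]
    omega
  · apply rootMultiplicity_eq_zero
    intro hr
    apply h
    rw [orderOf_dvd_iff_pow_eq_one]
    simp only [IsRoot, eval_sub, eval_one, eval_pow, eval_X] at hr
    exact (sub_eq_zero.1 hr).symm

theorem mult_pr (z : ℂ) (A : List ℕ) (hA : ∀ k ∈ A, 0 < k) :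
    rootMultiplicity z (pr ℂ A) = A.countP fun k => decide (orderOf z ∣ k) := by
  induction A with
  | nil => simp [pr]
  | cons a A ih =>
    have h1 : ∀ k ∈ A, 0 < k := fun k hk => hA k (by simp [hk])
    have e : pr ℂ (a :: A) = (1 - X ^ a) * pr ℂ A := by simp [pr]
    rw [e, rootMultiplicity_mul (by rw [← e]; exact pr_ne ℂ _ hA), ih h1,
      mult_one z (hA a (by simp)), List.countP_cons]
    by_cases h : orderOf z ∣ a <;> simp [h, add_comm]

theorem map_pr (A : List ℕ) : (pr ℚ A).map (algebraMap ℚ ℂ) = pr ℂ A := by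
  induction A with
  | nil => simp [pr]
  | cons a A ih =>
    have e : ∀ (K : Type) [Field K], pr K (a :: A) = (1 - X ^ a) * pr K A := by
      intro K _; simp [pr]
    rw [e, e, Polynomial.map_mul, ih]; simp

theorem dvd_iff (A B : List ℕ) (hA : ∀ k ∈ A, 0 < k) (hB : ∀ k ∈ B, 0 < k)
    (h : ∀ d, B.countP (fun k => decide (d ∣ k)) ≤ A.countP fun k => decide (d ∣ k)) :
    pr ℚ B ∣ pr ℚ A := by
  rw [← Polynomial.map_dvd_map' (algebraMap ℚ ℂ), map_pr, map_pr]
  apply (IsAlgClosed.splits _).dvd_of_roots_le_roots (pr_ne ℂ B hB)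
  rw [Multiset.le_iff_count]
  intro z
  rw [count_roots, count_roots, mult_pr z A hA, mult_pr z B hB]
  exact h _

theorem not_dvd (A B : List ℕ) (hA : ∀ k ∈ A, 0 < k) (hB : ∀ k ∈ B, 0 < k)
    (h : A.countP (fun k => decide (9 ∣ k)) < B.countP fun k => decide (9 ∣ k)) :
    ¬ pr ℚ B ∣ pr ℚ A := by
  rw [← Polynomial.map_dvd_map' (algebraMap ℚ ℂ), map_pr, map_pr]
  rintro ⟨G, hG⟩
  have hz := Complex.isPrimitiveRoot_exp 9 (by norm_num)
  have h1 := mult_pr (Complex.exp (2 * Real.pi * Complex.I / (9 : ℕ))) A hA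
  rw [hG, rootMultiplicity_mul (by rw [← hG]; exact pr_ne ℂ A hA), mult_pr _ B hB,
    ← hz.eq_orderOf] at h1
  omega

theorem neg_coeff (A B : List ℕ) (hA : ∀ k ∈ A, 0 < k) (hB : ∀ k ∈ B, 0 < k)
    (h : ∀ d, (3 :: B).countP (fun k => decide (d ∣ k)) ≤ (9 :: A).countP fun k => decide (d ∣ k))
    (h9 : A.countP (fun k => decide (9 ∣ k)) < B.countP fun k => decide (9 ∣ k))
    (P : PowerSeries ℚ) (hP : P * (pr ℚ B : PowerSeries ℚ) = (pr ℚ A : PowerSeries ℚ)) :
    (∀ Q : ℚ[X], P ≠ Q) ∧ ∃ k, PowerSeries.coeff k P < 0 := by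
  have np : ∀ Q : ℚ[X], P ≠ Q := by
    rintro Q rfl
    apply not_dvd A B hA hB h9
    refine ⟨Q, ?_⟩
    rw [← Polynomial.coe_mul, Polynomial.coe_inj] at hP
    rw [← hP, mul_comm]
  refine ⟨np, ?_⟩
  by_contra hc
  push Not at hc
  obtain ⟨G, hG⟩ := dvd_iff (9 :: A) (3 :: B) (by simpa using hA) (by simpa using hB) h
  have e : ∀ a (L : List ℕ), pr ℚ (a :: L) = (1 - X ^ a) * pr ℚ L := by
    intro a L; simp [pr]
  rw [e, e] at hG
  have hne : (((1 - X ^ 3) * pr ℚ B : ℚ[X]) : PowerSeries ℚ) ≠ 0 := by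
    rw [Ne, Polynomial.coe_eq_zero_iff]
    exact mul_ne_zero (one_sub_ne ℚ (by norm_num)) (pr_ne ℚ B hB)
  have hG' := congrArg (fun p : ℚ[X] => (p : PowerSeries ℚ)) hG
  have key : P + P * PowerSeries.X ^ 3 + P * PowerSeries.X ^ 6 = (G : PowerSeries ℚ) := by
    apply mul_left_cancel₀ hne
    simp only [Polynomial.coe_mul, Polynomial.coe_sub, Polynomial.coe_one, Polynomial.coe_pow,
      Polynomial.coe_X] at hG' ⊢
    rw [← hG', ← hP]; ring
  apply np (PowerSeries.trunc (G.natDegree + 1) P)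
  ext k
  rw [Polynomial.coeff_coe, PowerSeries.coeff_trunc]
  split_ifs with hk
  · rfl
  · have h1 := congrArg (PowerSeries.coeff k) key
    rw [Polynomial.coeff_coe, coeff_eq_zero_of_natDegree_lt (by omega), map_add, map_add,
      PowerSeries.coeff_mul_X_pow', PowerSeries.coeff_mul_X_pow'] at h1
    have a1 := hc k
    have a2 := hc (k - 3)
    have a3 := hc (k - 6)
    split_ifs at h1 <;> linarith

theorem all_d (A B : List ℕ) (hB : ∀ k ∈ B, 0 < k ∧ k ≤ 60)
    (h : ∀ d ∈ List.range 61,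
      B.countP (fun k => decide (d ∣ k)) ≤ A.countP fun k => decide (d ∣ k)) (d : ℕ) :
    B.countP (fun k => decide (d ∣ k)) ≤ A.countP fun k => decide (d ∣ k) := by
  by_cases hd : d < 61
  · exact h d (List.mem_range.2 hd)
  · rw [List.countP_eq_zero.2]
    · exact Nat.zero_le _
    · intro k hk
      have := hB k hk
      simp only [decide_eq_true_eq]
      intro h2
      have := Nat.le_of_dvd this.1 h2
      omega

end Pool.Agent.H12.Qf
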