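import Mathlib

set_option autoImplicit false

namespace Pool.Agent.H12.Ruler

/-- two-adic valuation -/
def v (m : ℕ) : ℕ := padicValNat 2 m

theorem v_dvd (m : ℕ) : 2 ^ v m ∣ m := pow_padicValNat_dvd

theorem le_v {m s : ℕ} (hm : m ≠ 0) : s ≤ v m ↔ 2 ^ s ∣ m :=
  (padicValNat_dvd_iff_le hm).symm

theorem v_eq {m s : ℕ} (hm : m ≠ 0) (h1 : 2 ^ s ∣ m) (h2 : ¬ 2 ^ (s + 1) ∣ m) : v m = s := by
  have a := (le_v hm).2 h1
  have b : ¬ s + 1 ≤ v m := fun h => h2 ((le_v hm).1 h)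
  omega

theorem v_ndvd {m : ℕ} (hm : m ≠ 0) : ¬ 2 ^ (v m + 1) ∣ m := fun h => by
  have := (le_v hm).2 h
  omega

theorem v_lt {m k : ℕ} (hm : m ≠ 0) (h : m < 2 ^ k) : v m < k := by
  have h1 : 2 ^ v m ≤ m := Nat.le_of_dvd (Nat.pos_of_ne_zero hm) (v_dvd m)
  exact (Nat.pow_lt_pow_iff_right (by norm_num : 1 < 2)).1 (lt_of_le_of_lt h1 h)

theorem v_pow (k : ℕ) : v (2 ^ k) = k := padicValNat.prime_pow k

theorem v_add' {B h : ℕ} (h0 : h ≠ 0) (hB : 2 ^ (v h + 1) ∣ B) : v (B + h) = v h := by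
  refine v_eq (by omega) ?_ ?_
  · exact dvd_add (dvd_trans (pow_dvd_pow 2 (by omega)) hB) (v_dvd h)
  · intro hh
    exact v_ndvd h0 ((Nat.dvd_add_right hB).1 hh)

theorem v_add {B h b : ℕ} (hB : 2 ^ b ∣ B) (h0 : h ≠ 0) (hh : h < 2 ^ b) : v (B + h) = v h :=
  v_add' h0 (dvd_trans (pow_dvd_pow 2 (v_lt h0 hh)) hB)

theorem v_sub' {B h : ℕ} (h0 : h ≠ 0) (hB : 2 ^ (v h + 1) ∣ B) (hl : h < B) :
    v (B - h) = v h := by
  refine v_eq (by omega) ?_ ?_
  · exact Nat.dvd_sub (dvd_trans (pow_dvd_pow 2 (by omega)) hB) (v_dvd h)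
  · intro hh
    have : 2 ^ (v h + 1) ∣ B - (B - h) := Nat.dvd_sub hB hh
    rw [show B - (B - h) = h by omega] at this
    exact v_ndvd h0 this

theorem v_sub {B h b : ℕ} (hB : 2 ^ b ∣ B) (h0 : h ≠ 0) (hh : h < 2 ^ b) (hl : h < B) :
    v (B - h) = v h :=
  v_sub' h0 (dvd_trans (pow_dvd_pow 2 (v_lt h0 hh)) hB) hl

theorem mism {A B : ℕ} (h : v A < v B) (hA : 2 ^ v A < A) (hB : 2 ^ v A < B) :
    v (A - 2 ^ v A) ≠ v (B - 2 ^ v A) := by
  have hp : (2 : ℕ) ^ v A ≠ 0 := by positivity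
  have e1 : v (B - 2 ^ v A) = v A := by
    rw [v_sub' hp _ hB, v_pow]
    rw [v_pow]
    exact dvd_trans (pow_dvd_pow 2 h) (v_dvd B)
  rw [e1]
  have hA0 : A ≠ 0 := Nat.ne_zero_of_lt hA
  obtain ⟨c, hc⟩ := v_dvd A
  have hodd : ¬ 2 ∣ c := by
    rintro ⟨d, hd⟩
    apply v_ndvd hA0
    refine ⟨d, ?_⟩
    rw [pow_succ, mul_assoc, ← hd]
    exact hc
  have : v A + 1 ≤ v (A - 2 ^ v A) := by
    rw [le_v (m := A - 2 ^ v A) (by omega)]
    refine ⟨c / 2, ?_⟩
    have h2 : c = 2 * (c / 2) + 1 := by omega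
    have : A = 2 ^ (v A + 1) * (c / 2) + 2 ^ v A := by
      conv_lhs => rw [hc, h2]
      ring
    omega
  omega

/-- junction bound -/
theorem junc {A B l : ℕ} (hA : l < A) (hB : l < B) (hne : v A ≠ v B)
    (hm : ∀ h, 1 ≤ h → h ≤ l → v (A - h) = v (B - h)) : l < 2 ^ min (v A) (v B) := by
  by_contra hc
  push Not at hc
  rcases lt_or_gt_of_ne hne with h | h
  · rw [min_eq_left h.le] at hc
    exact mism h (by omega) (by omega) (hm _ Nat.one_le_two_pow hc)
  · rw [min_eq_right h.le] at hc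
    exact mism h (by omega) (by omega) (hm _ Nat.one_le_two_pow hc).symm

theorem step (Y : ℕ → ℕ) (k : ℕ)
    (SQ : ∀ a p, 0 < p → (∀ h, 1 ≤ h → h ≤ p → Y (a + h) = Y (a + p + h)) → False)
    (REP : ∀ n, 1 ≤ n → ∃ i j, i < j ∧ j ≤ 2 * n ∧ ∀ h, 1 ≤ h → h ≤ n → Y (i + h) = Y (j + h))
    (F : ∀ m m', 1 ≤ m → m ≤ 2 ^ (k + 1) → 1 ≤ m' → m' ≤ 2 ^ (k + 1) →
      (Y m = Y m' ↔ v m = v m')) :
    ∀ m, 1 ≤ m → m < 2 ^ (k + 1) → Y (2 ^ (k + 1) + m) = Y m := by
  obtain ⟨M, hM⟩ : ∃ M, M = 2 ^ k := ⟨_, rfl⟩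
  obtain ⟨N, hN⟩ : ∃ N, N = 2 ^ (k + 1) := ⟨_, rfl⟩
  have hNM : N = 2 * M := by rw [hN, hM, pow_succ]; ring
  have hM1 : 1 ≤ M := by rw [hM]; exact Nat.one_le_two_pow
  rw [← hN] at F ⊢
  have vN : v N = k + 1 := by rw [hN, v_pow]
  have vlt : ∀ m, 1 ≤ m → m < N → v m < k + 1 := fun m h1 h2 => v_lt (by omega) (hN ▸ h2)
  have neN : ∀ m, 1 ≤ m → m < N → Y m ≠ Y N := fun m h1 h2 h => by
    have := (F m N h1 h2.le (by omega) le_rfl).1 h
    have := vlt m h1 h2
    omega
  have dN : ∀ s, s < k + 1 → 2 ^ s ∣ M ∧ 2 ^ s ∣ N ∧ 2 ^ s ≤ M := fun s hs => by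
    have : 2 ^ s ∣ M := hM ▸ pow_dvd_pow 2 (by omega)
    exact ⟨this, hNM ▸ Dvd.dvd.mul_left this 2, Nat.le_of_dvd (by omega) this⟩
  have REP' : ∀ n, M ≤ n → ∃ i j, i + n < j ∧ j ≤ 2 * n ∧ N ≤ j ∧
      ∀ h, 1 ≤ h → h ≤ n → Y (i + h) = Y (j + h) := by
    intro n hn
    obtain ⟨i, j, hij, hj, hm⟩ := REP n (by omega)
    have h1 : i + n < j := by
      by_contra hc
      refine SQ i (j - i) (by omega) fun h h1 h2 => ?_
      rw [hm h h1 (by omega)]
      congr 1
      omega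
    refine ⟨i, j, h1, hj, ?_, hm⟩
    by_contra hc
    have := hm (N - j) (by omega) (by omega)
    rw [show j + (N - j) = N by omega] at this
    exact neN _ (by omega) (by omega) this
  obtain ⟨i0, j0, h01, h02, h03, hm0⟩ := REP' M le_rfl
  have hj0 : j0 = N := by omega
  subst hj0
  have ex1 : ∃ h, 1 ≤ h ∧ Y (i0 + h) ≠ Y (j0 + h) := by
    by_contra hc
    push Not at hc
    refine SQ i0 (j0 - i0) (by omega) fun h h1 h2 => ?_
    rw [hc h h1]
    congr 1
    omega
  classical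
  obtain ⟨h1, hh1, hne1, hmin1⟩ : ∃ h1, 1 ≤ h1 ∧ Y (i0 + h1) ≠ Y (j0 + h1) ∧
      ∀ h, 1 ≤ h → h < h1 → Y (i0 + h) = Y (j0 + h) := by
    refine ⟨Nat.find ex1, (Nat.find_spec ex1).1, (Nat.find_spec ex1).2, fun h a b => ?_⟩
    by_contra hc
    exact Nat.find_min ex1 b ⟨a, hc⟩
  have hA : i0 + h1 ≤ j0 := by
    by_contra hc
    refine SQ i0 (j0 - i0) (by omega) fun h a b => ?_
    rw [hmin1 h a (by omega)]
    congr 1
    omega
  have hMh : M < h1 := by
    by_contra hc
    exact hne1 (hm0 h1 hh1 (by omega))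
  by_cases hdone : h1 = j0
  · intro m a b
    have := hmin1 m a (by omega)
    rw [show i0 = 0 by omega, zero_add] at this
    exact this.symm
  exfalso
  -- first junction, for any long repeat
  have J1 : ∀ i j n, h1 ≤ n → i + n < j → j0 ≤ j → j < j0 + h1 →
      (∀ h, 1 ≤ h → h ≤ n → Y (i + h) = Y (j + h)) →
      v (i0 + h1) ≠ v (j0 + h1 - j + i) ∧
      j0 + h1 - 1 - j < 2 ^ min (v (i0 + h1)) (v (j0 + h1 - j + i)) := by
    intro i j n a b c d e
    have e0 := e (j0 + h1 - j) (by omega) (by omega)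
    rw [show j + (j0 + h1 - j) = j0 + h1 by omega, add_comm i] at e0
    have ne : v (i0 + h1) ≠ v (j0 + h1 - j + i) := fun hh => by
      apply hne1
      rw [← e0]
      exact (F _ _ (by omega) (by omega) (by omega) (by omega)).2 hh
    refine ⟨ne, junc (by omega) (by omega) ne fun h x y => ?_⟩
    apply (F _ _ (by omega) (by omega) (by omega) (by omega)).1
    have e1 := e (j0 + h1 - j - h) (by omega) (by omega)
    have e2 := hmin1 (h1 - h) (by omega) (by omega)
    rw [show i0 + h1 - h = i0 + (h1 - h) by omega, e2,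
      show j0 + h1 - j + i - h = i + (j0 + h1 - j - h) by omega, e1]
    congr 1
    omega
  obtain ⟨i, j, hi1, hi2, hi3, hm⟩ := REP' h1 hMh.le
  obtain ⟨ne, hl⟩ := J1 i j h1 le_rfl hi1 hi3 (by omega) hm
  obtain ⟨B, hB⟩ : ∃ B, B = j0 + h1 - j + i := ⟨_, rfl⟩
  rw [← hB] at ne hl
  have hB1 : 1 ≤ B := by omega
  have hB2 : B < j0 := by omega
  have vB := vlt B hB1 hB2
  have right : ∀ h, j0 + h ≤ j → Y (j0 + h1 + h) = Y (B + h) := fun h a => by
    have := hm (j0 + h1 - j + h) (by omega) (by omega)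
    rw [show j0 + h1 + h = j + (j0 + h1 - j + h) by omega, ← this]
    congr 1
    omega
  obtain ⟨μ, hμ⟩ : ∃ μ, μ = min (v (i0 + h1)) (v B) := ⟨_, rfl⟩
  rw [← hμ] at hl
  have hμA : 2 ^ μ ∣ i0 + h1 := dvd_trans (pow_dvd_pow 2 (by omega)) (v_dvd _)
  obtain ⟨dM, dNμ, lM⟩ := dN μ (by omega)
  have hp : 0 < 2 ^ μ := by positivity
  have hcase : i0 + h1 = j0 ∨ i0 + h1 + 2 ^ μ = j0 := by
    have hd : 2 ^ μ ∣ j0 - (i0 + h1) := Nat.dvd_sub dNμ hμA
    by_cases h0 : j0 - (i0 + h1) = 0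
    · left; omega
    · have := Nat.le_of_dvd (by omega) hd
      right; omega
  rcases hcase with hc | hc
  · have vBμ : v B = μ := by rw [hc] at hμ; omega
    have left : ∀ h, 1 ≤ h → h < h1 → Y (j0 + h1 - h) = Y (j0 - h) := fun h a b => by
      have := hmin1 (h1 - h) (by omega) (by omega)
      rw [show j0 + h1 - h = j0 + (h1 - h) by omega, ← this]
      congr 1
      omega
    by_cases hk : μ < k
    · obtain ⟨-, d2, l2⟩ := dN (μ + 1) (by omega)
      rw [pow_succ] at l2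
      refine SQ (j0 + h1 - 2 * 2 ^ μ) (2 ^ μ) hp fun h a b => ?_
      rw [show j0 + h1 - 2 * 2 ^ μ + h = j0 + h1 - (2 * 2 ^ μ - h) by omega,
        left _ (by omega) (by omega)]
      by_cases hb : h = 2 ^ μ
      · have r := right 0 (by omega)
        rw [show j0 + h1 - 2 * 2 ^ μ + 2 ^ μ + h = j0 + h1 + 0 by omega, r]
        apply (F _ _ (by omega) (by omega) (by omega) (by omega)).2
        rw [add_zero, vBμ, show 2 * 2 ^ μ - h = 2 ^ μ by omega,
          v_sub d2 (by omega) (by rw [pow_succ]; omega) (by omega), v_pow]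
      · rw [show j0 + h1 - 2 * 2 ^ μ + 2 ^ μ + h = j0 + h1 - (2 ^ μ - h) by omega,
          left _ (by omega) (by omega)]
        apply (F _ _ (by omega) (by omega) (by omega) (by omega)).2
        rw [show j0 - (2 * 2 ^ μ - h) = (j0 - 2 * 2 ^ μ) + h by omega,
          show j0 - (2 ^ μ - h) = (j0 - 2 ^ μ) + h by omega,
          v_add (b := μ) (Nat.dvd_sub dNμ (Dvd.intro_left 2 rfl)) (by omega) (by omega),
          v_add (b := μ) (Nat.dvd_sub dNμ dvd_rfl) (by omega) (by omega)]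
    · have hμk : μ = k := by omega
      have h2μ : 2 ^ μ = M := by rw [hμk, hM]
      have hBM : B = M := by
        have hd : M ∣ B := by rw [← h2μ, ← vBμ]; exact v_dvd B
        obtain ⟨c, hc'⟩ := hd
        have : c = 1 := by
          rcases c with _ | _ | c
          · omega
          · rfl
          · exfalso; nlinarith
        rw [hc', this, mul_one]
      have dMM : 2 ^ k ∣ M := by rw [hM]
      obtain ⟨js, hjs⟩ : ∃ js, js = j0 + h1 - M := ⟨_, rfl⟩
      have m2 : ∀ h, 1 ≤ h → h ≤ h1 → Y (js + h) = Y h := by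
        intro h a b
        by_cases hh : h < M
        · rw [show js + h = j0 + h1 - (M - h) by omega, left _ (by omega) (by omega)]
          apply (F _ _ (by omega) (by omega) (by omega) (by omega)).2
          rw [show j0 - (M - h) = M + h by omega, v_add dMM (by omega) (by omega)]
        · rw [show js + h = j0 + h1 + (h - M) by omega, right _ (by omega)]
          congr 1
          omega
      have sq2 : ¬ ∀ h, 1 ≤ h → h + h1 ≤ j0 + M → Y (js + h) = Y h := by
        intro hc2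
        refine SQ j0 M (by omega) fun h a b => ?_
        rw [← hmin1 h a (by omega)]
        by_cases hh : M + h < h1
        · rw [add_assoc, ← hmin1 _ (by omega) hh]
          apply (F _ _ (by omega) (by omega) (by omega) (by omega)).2
          rw [show i0 + (M + h) = M + (i0 + h) by omega, v_add dMM (by omega) (by omega)]
        · rw [show j0 + M + h = js + (i0 + h) by omega, hc2 _ (by omega) (by omega)]
      have ex2 : ∃ h, 1 ≤ h ∧ Y (js + h) ≠ Y h := by
        by_contra hc2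
        push Not at hc2
        exact sq2 fun h a _ => hc2 h a
      obtain ⟨h2, hh2, hne2, hmin2⟩ : ∃ h2, 1 ≤ h2 ∧ Y (js + h2) ≠ Y h2 ∧
          ∀ h, 1 ≤ h → h < h2 → Y (js + h) = Y h := by
        refine ⟨Nat.find ex2, (Nat.find_spec ex2).1, (Nat.find_spec ex2).2, fun h a b => ?_⟩
        by_contra hc
        exact Nat.find_min ex2 b ⟨a, hc⟩
      have u2 : h2 + h1 ≤ j0 + M := by
        by_contra hc2
        exact sq2 fun h a b => hmin2 h a (by omega)
      have l2 : h1 < h2 := by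
        by_contra hc2
        exact hne2 (m2 h2 hh2 (by omega))
      obtain ⟨i', j', a1, a2, a3, hm'⟩ := REP' h2 (by omega)
      have hj' : js ≤ j' := by
        by_contra hc2
        obtain ⟨-, b⟩ := J1 i' j' h2 l2.le a1 a3 (by omega) hm'
        have v2 := vlt (j0 + h1 - j' + i') (by omega) (by omega)
        obtain ⟨-, -, l3⟩ := dN (min (v (i0 + h1)) (v (j0 + h1 - j' + i'))) (by omega)
        omega
      obtain ⟨B', hB'⟩ : ∃ B', B' = js + h2 - j' + i' := ⟨_, rfl⟩
      have r2 : ∀ h, j' + h < js + h2 → Y (js + h2 - h) = Y (B' - h) := fun h a => by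
        have := hm' (js + h2 - j' - h) (by omega) (by omega)
        rw [show js + h2 - h = j' + (js + h2 - j' - h) by omega, ← this]
        congr 1
        omega
      by_cases hBN : B' ≤ j0
      · have ne2 : v h2 ≠ v B' := fun hh => by
          apply hne2
          have := r2 0 (by omega)
          rw [Nat.sub_zero, Nat.sub_zero] at this
          rw [this]
          exact (F _ _ (by omega) (by omega) (by omega) (by omega)).2 hh.symm
        have jn := junc (l := js + h2 - 1 - j') (by omega) (by omega) ne2 fun h a b => by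
          apply (F _ _ (by omega) (by omega) (by omega) (by omega)).1
          rw [← r2 h (by omega), ← hmin2 (h2 - h) (by omega) (by omega)]
          congr 1
          omega
        have v2 := vlt h2 hh2 (by omega)
        obtain ⟨-, d3, -⟩ := dN (min (v h2) (v B')) (by omega)
        have d4 : 2 ^ min (v h2) (v B') ∣ h2 :=
          dvd_trans (pow_dvd_pow 2 (min_le_left _ _)) (v_dvd _)
        have := Nat.le_of_dvd (by omega) (Nat.dvd_sub d3 d4)
        omega
      · have := r2 (B' - j0) (by omega)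
        rw [show B' - (B' - j0) = j0 by omega,
          show js + h2 - (B' - j0) = js + (h2 - (B' - j0)) by omega,
          hmin2 _ (by omega) (by omega)] at this
        exact neN _ (by omega) (by omega) this
  · have hi0 : i0 = 0 := by omega
    subst hi0
    rw [zero_add] at *
    have vA : v h1 = μ := by
      rw [show h1 = j0 - 2 ^ μ by omega,
        v_sub (b := k + 1) (by rw [hN]) (by omega) (by omega) (by omega), v_pow]
    have hβ : μ < v B := by omega
    obtain ⟨-, d2, l2⟩ := dN (v B) vB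
    have lt2 : 2 ^ μ < 2 ^ v B := Nat.pow_lt_pow_right (by norm_num) hβ
    have hBb : B + 2 ^ v B ≤ j0 := by
      have := Nat.le_of_dvd (by omega) (Nat.dvd_sub d2 (v_dvd B))
      omega
    refine SQ (j0 + h1 - (2 ^ v B - 2 ^ μ) - 1) (2 ^ v B - 2 ^ μ) (by omega) fun h a b => ?_
    have e1 := hmin1 (h1 - (2 ^ v B - 2 ^ μ) - 1 + h) (by omega) (by omega)
    rw [show j0 + h1 - (2 ^ v B - 2 ^ μ) - 1 + h = j0 + (h1 - (2 ^ v B - 2 ^ μ) - 1 + h) by omega,
      ← e1, show j0 + h1 - (2 ^ v B - 2 ^ μ) - 1 + (2 ^ v B - 2 ^ μ) + h = j0 + h1 + (h - 1) by omega,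
      right _ (by omega)]
    apply (F _ _ (by omega) (by omega) (by omega) (by omega)).2
    rw [show 0 + (h1 - (2 ^ v B - 2 ^ μ) - 1 + h) = (j0 - 2 ^ v B) + (h - 1) by omega]
    by_cases hh : h = 1
    · subst hh
      rw [Nat.sub_self, add_zero, add_zero,
        v_sub (b := k + 1) (by rw [hN]) (by omega) (by omega) (by omega), v_pow]
    · rw [v_add (Nat.dvd_sub d2 dvd_rfl) (by omega) (by omega),
        v_add (v_dvd B) (by omega) (by omega)]

theorem main (Y : ℕ → ℕ)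
    (SQ : ∀ a p, 0 < p → (∀ h, 1 ≤ h → h ≤ p → Y (a + h) = Y (a + p + h)) → False)
    (REP : ∀ n, 1 ≤ n → ∃ i j, i < j ∧ j ≤ 2 * n ∧ ∀ h, 1 ≤ h → h ≤ n → Y (i + h) = Y (j + h))
    (k : ℕ) : ∀ m m', 1 ≤ m → m < 2 ^ k → 1 ≤ m' → m' < 2 ^ k → (Y m = Y m' ↔ v m = v m') := by
  have ext : ∀ k, (∀ m m', 1 ≤ m → m < 2 ^ k → 1 ≤ m' → m' < 2 ^ k → (Y m = Y m' ↔ v m = v m')) →
      ∀ m m', 1 ≤ m → m ≤ 2 ^ k → 1 ≤ m' → m' ≤ 2 ^ k → (Y m = Y m' ↔ v m = v m') := by
    intro k H
    have new : ∀ m, 1 ≤ m → m < 2 ^ k → Y m ≠ Y (2 ^ k) := by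
      intro m a b c
      have hv := v_lt (by omega) b
      have hp : 0 < 2 ^ v m := by positivity
      have d2 : 2 ^ (v m + 1) ∣ 2 ^ k := pow_dvd_pow 2 hv
      have d1 : 2 ^ v m ∣ 2 ^ k := pow_dvd_pow 2 hv.le
      have l2 := Nat.le_of_dvd (by positivity) d2
      rw [pow_succ] at l2
      refine SQ (2 ^ k - 2 * 2 ^ v m) (2 ^ v m) hp fun h x y => ?_
      by_cases hb : h = 2 ^ v m
      · rw [show 2 ^ k - 2 * 2 ^ v m + 2 ^ v m + h = 2 ^ k by omega, ← c]
        apply (H _ _ (by omega) (by omega) a b).2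
        rw [show 2 ^ k - 2 * 2 ^ v m + h = 2 ^ k - 2 ^ v m by omega,
          v_sub d2 (by omega) (by rw [pow_succ]; omega) (by omega), v_pow]
      · apply (H _ _ (by omega) (by omega) (by omega) (by omega)).2
        rw [v_add (b := v m) (Nat.dvd_sub d1 (Dvd.intro_left 2 rfl)) (by omega) (by omega),
          show 2 ^ k - 2 * 2 ^ v m + 2 ^ v m = 2 ^ k - 2 ^ v m by omega,
          v_add (b := v m) (Nat.dvd_sub d1 dvd_rfl) (by omega) (by omega)]
    intro m m' a b c d
    rcases b.lt_or_eq with b | b <;> rcases d.lt_or_eq with d | d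
    · exact H m m' a b c d
    · have := v_lt (by omega) b
      rw [d, v_pow]
      exact ⟨fun h => (new m a b h).elim, fun h => by omega⟩
    · have := v_lt (by omega) d
      rw [b, v_pow]
      exact ⟨fun h => (new m' c d h.symm).elim, fun h => by omega⟩
    · rw [b, d]
      simp
  induction k with
  | zero => intro m m' a b; omega
  | succ k ih =>
    have E := ext k ih
    have S : ∀ m, 1 ≤ m → m < 2 ^ k → Y (2 ^ k + m) = Y m := by
      rcases k with _ | k
      · intro m a b; omega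
      · exact step Y k SQ REP E
    have red : ∀ m, 1 ≤ m → m < 2 ^ (k + 1) → ∃ r, 1 ≤ r ∧ r ≤ 2 ^ k ∧ Y m = Y r ∧ v m = v r := by
      intro m a b
      by_cases h : m ≤ 2 ^ k
      · exact ⟨m, a, h, rfl, rfl⟩
      · rw [pow_succ] at b
        refine ⟨m - 2 ^ k, by omega, by omega, ?_, ?_⟩
        · have := S (m - 2 ^ k) (by omega) (by omega)
          rw [show 2 ^ k + (m - 2 ^ k) = m by omega] at this
          exact this
        · have := v_add (B := 2 ^ k) (h := m - 2 ^ k) (b := k) dvd_rfl (by omega) (by omega)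
          rw [show 2 ^ k + (m - 2 ^ k) = m by omega] at this
          exact this
    intro m m' a b c d
    obtain ⟨r, r1, r2, r3, r4⟩ := red m a b
    obtain ⟨s, s1, s2, s3, s4⟩ := red m' c d
    rw [r3, r4, s3, s4]
    exact E r s r1 r2 s1 s2

end Pool.Agent.H12.Ruler
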