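import Mathlib
import Pool.Agent.H12.LinExt

set_option autoImplicit false

namespace Pool.Agent.H12.SignGr

open Polynomial Finset Pool.Agent.H12.LinExt

def ix (k : ℕ) : ℕ := if k < 26 then k - k % 2 else k - 25 - k % 2
def la (i : ℕ) : ℕ := if i % 2 = 0 then i else 25 + i
def lb (i : ℕ) : ℕ := if i % 2 = 0 then i + 1 else 26 + i

def leN (a b : ℕ) : Prop := (a % 2 = b % 2 ∧ ix a ≤ ix b) ∨ (a % 2 = 0 ∧ b % 2 = 1 ∧ ix a < ix b) ∨
  (a % 2 = 1 ∧ b % 2 = 0 ∧ ix a + 7 ≤ ix b)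

instance (a b : ℕ) : Decidable (leN a b) := by unfold leN; infer_instance

def le (a b : Fin 50) : Prop := leN a.val b.val

instance (a b : Fin 50) : Decidable (le a b) := by unfold le; infer_instance

def S (x y : ℕ) : Finset (Fin 50) := univ.filter fun k => if k.val % 2 = 0 then x ≤ ix k else y ≤ ix k

lemma mem_S (x y : ℕ) (k : Fin 50) :
    k ∈ S x y ↔ (k.val % 2 = 0 ∧ x ≤ ix k) ∨ (k.val % 2 = 1 ∧ y ≤ ix k) := by
  simp only [S, mem_filter, mem_univ, true_and]; split_ifs <;> omega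

lemma fa : ∀ x < 25, la x < 50 ∧ la x % 2 = 0 ∧ ix (la x) = x := by decide
lemma fb : ∀ x < 25, lb x < 50 ∧ lb x % 2 = 1 ∧ ix (lb x) = x := by decide
lemma fc : ∀ k : Fin 50, ix k < 25 ∧ (k.val % 2 = 0 → la (ix k) = k) ∧ (k.val % 2 = 1 → lb (ix k) = k) := by
  decide

lemma min_iff (x y : ℕ) (a : Fin 50) : (a ∈ S x y ∧ ∀ b ∈ S x y, le b a → b = a) ↔
    ((x < 25 ∧ (x < y + 7 ∨ 25 ≤ y)) ∧ a.val = la x) ∨ ((y < 25 ∧ (y ≤ x)) ∧ a.val = lb y) := by
  have ha := fc a
  constructor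
  · rintro ⟨h1, h2⟩
    rw [mem_S] at h1
    have A : x < 25 → leN (la x) a → la x = a := fun hx h => congrArg Fin.val
      (h2 ⟨la x, (fa x hx).1⟩ ((mem_S _ _ _).mpr (Or.inl ⟨(fa x hx).2.1, (fa x hx).2.2.ge⟩)) h)
    have B : y < 25 → leN (lb y) a → lb y = a := fun hx h => congrArg Fin.val
      (h2 ⟨lb y, (fb y hx).1⟩ ((mem_S _ _ _).mpr (Or.inr ⟨(fb y hx).2.1, (fb y hx).2.2.ge⟩)) h)
    have h3 := ha.1
    clear ha h2
    rcases h1 with ⟨h1, h4⟩ | ⟨h1, h4⟩
    · have hx : x < 25 := by omega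
      have a1 := (fa x hx).2
      refine Or.inl ⟨⟨hx, ?_⟩, (A hx (Or.inl ⟨by omega, by omega⟩)).symm⟩
      by_contra hc
      have hy : y < 25 := by omega
      have b1 := (fb y hy).2
      have a2 : la x = a := A hx (Or.inl ⟨by omega, by omega⟩)
      have := B hy (Or.inr (Or.inr ⟨b1.1, h1, by rw [b1.2, ← a2, a1.2]; omega⟩))
      omega
    · have hy : y < 25 := by omega
      have b1 := (fb y hy).2
      refine Or.inr ⟨⟨hy, ?_⟩, (B hy (Or.inl ⟨by omega, by omega⟩)).symm⟩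
      by_contra hc
      have hx : x < 25 := by omega
      have a1 := (fa x hx).2
      have b2 : lb y = a := B hy (Or.inl ⟨by omega, by omega⟩)
      have := A hx (Or.inr (Or.inl ⟨a1.1, h1, by rw [a1.2, ← b2, b1.2]; omega⟩))
      omega
  · clear ha
    rintro (⟨h1, h2⟩ | ⟨h1, h2⟩)
    · have a1 := (fa x h1.1).2
      refine ⟨(mem_S _ _ _).mpr (Or.inl (by rw [h2]; omega)), fun b hb h => Fin.ext ?_⟩
      have := (fc b).1
      rw [mem_S] at hb
      unfold le leN at h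
      rw [h2] at h ⊢
      rw [a1.1, a1.2] at h
      have h5 : b.val % 2 = 0 ∧ ix b = x := by clear a1 h2; omega
      rw [← h5.2, (fc b).2.1 h5.1]
    · have a1 := (fb y h1.1).2
      refine ⟨(mem_S _ _ _).mpr (Or.inr (by rw [h2]; omega)), fun b hb h => Fin.ext ?_⟩
      have := (fc b).1
      rw [mem_S] at hb
      unfold le leN at h
      rw [h2] at h ⊢
      rw [a1.1, a1.2] at h
      have h5 : b.val % 2 = 1 ∧ ix b = y := by clear a1 h2; omega
      rw [← h5.2, (fc b).2.2 h5.1]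

lemma erase_a (x y : ℕ) (a : Fin 50) (hx : x < 25) (h : a.val = la x) : (S x y).erase a = S (x + 1) y := by
  ext b
  have := fa x hx
  have : b.val % 2 = 0 → ix b = x → la x = b := fun h1 h2 => h2 ▸ (fc b).2.1 h1
  have : b.val = la x → ix b = x := fun h => h ▸ (fa x hx).2.2
  simp only [mem_erase, mem_S, ne_eq, Fin.ext_iff, h]; omega

lemma erase_b (x y : ℕ) (a : Fin 50) (hx : y < 25) (h : a.val = lb y) : (S x y).erase a = S x (y + 1) := by
  ext b
  have := fb y hx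
  have : b.val % 2 = 1 → ix b = y → lb y = b := fun h1 h2 => h2 ▸ (fc b).2.2 h1
  have : b.val = lb y → ix b = y := fun h => h ▸ (fb y hx).2.2
  simp only [mem_erase, mem_S, ne_eq, Fin.ext_iff, h]; omega

lemma step (n x y v : ℕ) : E le (n + 1) (S x y) v =
    (if x < 25 ∧ (x < y + 7 ∨ 25 ≤ y) then
      X ^ (if la x < v then 1 else 0) * E le n (S (x + 1) y) (la x) else 0) +
    (if y < 25 ∧ y ≤ x then X ^ (if lb y < v then 1 else 0) * E le n (S x (y + 1)) (lb y) else 0) := by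
  have A : ∀ (c : Prop) [Decidable c] (k : ℕ) (g : ℝ[X]), (c → k < 50) →
      (if c then g else 0) = ∑ a : Fin 50, if c ∧ a.val = k then g else 0 := by
    intro c _ k g h
    by_cases hc : c
    · rw [sum_eq_single ⟨k, h hc⟩ (fun b _ hb => if_neg fun h' => hb (Fin.ext h'.2)) (by simp)]
      simp
    · simp [hc]
  rw [E_succ, A _ (la x) _ fun h => (fa x h.1).1, A _ (lb y) _ fun h => (fb y h.1).1, ← sum_add_distrib]
  refine sum_congr rfl fun a _ => ?_
  have := fa x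
  have := fb y
  by_cases h1 : (x < 25 ∧ (x < y + 7 ∨ 25 ≤ y)) ∧ a.val = la x
  · rw [if_pos ((min_iff x y a).mpr (Or.inl h1)), if_pos h1, if_neg (c := _ ∧ a.val = lb y) (by omega),
      add_zero, erase_a x y a h1.1.1 h1.2, h1.2]
  · rw [if_neg h1, zero_add]
    by_cases h2 : (y < 25 ∧ y ≤ x) ∧ a.val = lb y
    · rw [if_pos ((min_iff x y a).mpr (Or.inr h2)), if_pos h2, erase_b x y a h2.1.1 h2.2, h2.2]
    · rw [if_neg h2, if_neg fun h => ((min_iff x y a).mp h).elim h1 h2]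

abbrev T := ℤ × ℤ × ℤ

def R (q : ℝ[X]) (t : T) : Prop := q.eval (-44) = t.1 ∧ q.derivative.eval (-44) = t.2.1 ∧
  q.derivative.derivative.eval (-44) = t.2.2

def mu (c : Prop) [Decidable c] (t : T) : T :=
  if c then (-44 * t.1, t.1 - 44 * t.2.1, 2 * t.2.1 - 44 * t.2.2) else t

lemma R_mu (c : Prop) [Decidable c] {q : ℝ[X]} {t : T} (h : R q t) :
    R (X ^ (if c then 1 else 0) * q) (mu c t) := by
  unfold mu
  split_ifs
  · obtain ⟨h1, h2, h3⟩ := h
    refine ⟨?_, ?_, ?_⟩ <;> simp [h1, h2, h3] <;> ring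
  · simpa using h

lemma R_add {q q' : ℝ[X]} {t t' : T} (h : R q t) (h' : R q' t') : R (q + q') (t + t') := by
  refine ⟨?_, ?_, ?_⟩ <;> simp [h.1, h.2.1, h.2.2, h'.1, h'.2.1, h'.2.2]

lemma R_ite (c : Prop) [Decidable c] {q : ℝ[X]} {t : T} (h : c → R q t) :
    R (if c then q else 0) (if c then t else 0) := by
  split_ifs with hc
  · exact h hc
  · simp [R]

def nxt (w : List (T × T)) (x y v : ℕ) : T :=
  (if x < 25 ∧ (x < y + 7 ∨ 25 ≤ y) then mu (la x < v) (w.getD (x + 1) 0).1 else 0) +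
  (if y < 25 ∧ y ≤ x then mu (lb y < v) (w.getD x 0).2 else 0)

def V : ℕ → List (T × T)
  | 0 => (List.range 26).map fun _ => ((1, 0, 0), (1, 0, 0))
  | k + 1 => (List.range 26).map fun x =>
      (nxt (V k) x (49 - k - x) (la (x - 1)), nxt (V k) x (49 - k - x) (lb (49 - k - x - 1)))

def H (k : ℕ) : Prop := ∀ x y, x + y + k = 50 → x ≤ 25 → y ≤ 25 →
  R (E le k (S x y) (la (x - 1))) ((V k).getD x 0).1 ∧ R (E le k (S x y) (lb (y - 1))) ((V k).getD x 0).2

lemma H_step (k : ℕ) (h : H k) (x y v : ℕ) (h1 : x + y + k + 1 = 50) (hx : x ≤ 25) (hy : y ≤ 25) :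
    R (E le (k + 1) (S x y) v) (nxt (V k) x y v) := by
  rw [step]
  exact R_add (R_ite _ fun c => R_mu _ (h (x + 1) y (by omega) c.1 hy).1)
    (R_ite _ fun c => R_mu _ (h x (y + 1) (by omega) hx c.1).2)

lemma H_all (k : ℕ) : H k := by
  induction k with
  | zero =>
    intro x y h1 hx hy
    obtain rfl : x = 25 := by omega
    obtain rfl : y = 25 := by omega
    rw [show S 25 25 = ∅ by decide, E_zero, E_zero]
    simp [R, V]
  | succ k ih =>
    intro x y h1 hx hy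
    have : (V (k + 1)).getD x 0 = (nxt (V k) x y (la (x - 1)), nxt (V k) x y (lb (y - 1))) := by
      rw [show y = 49 - k - x by omega]
      simp [V, List.getD_eq_getElem?_getD, show x < 26 by omega]
    rw [this]
    exact ⟨H_step k ih x y _ (by omega) hx hy, H_step k ih x y _ (by omega) hx hy⟩

lemma num : (nxt (V 49) 0 0 0).2.1 ^ 2 < (nxt (V 49) 0 0 0).1 * (nxt (V 49) 0 0 0).2.2 := by
  decide +kernel

theorem nonreal : ¬ ∀ z : ℂ, aeval z (E le 50 univ 0) = 0 → z.im = 0 := by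
  intro h
  have h1 := laguerre (-44) _ _ rfl h
  obtain ⟨a, b, c⟩ := H_step 49 (H_all 49) 0 0 0 rfl (by omega) (by omega)
  rw [show S 0 0 = univ by decide] at a b c
  rw [a, b, c] at h1
  exact absurd num (not_lt.mpr (by exact_mod_cast h1))

def rk (a : Fin 50) : ℤ := if a.val < 26 then 0 else 1

lemma cov : ∀ a b : Fin 50, le a b → a ≠ b → (∀ z, le a z → le z b → z = a ∨ z = b) →
    (if a < b then (1 : ℤ) else -1) = rk b - rk a := by decide +kernel
lemma mn : ∀ a : Fin 50, (∀ y, le y a → y = a) → rk a = 0 := by decide +kernel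
lemma mx : ∀ a : Fin 50, (∀ y, le a y → y = a) → rk a = 0 := by decide +kernel
lemma rfl' (a : Fin 50) : le a a := Or.inl ⟨rfl, le_rfl⟩
lemma anti : ∀ a b : Fin 50, le a b → le b a → a = b := by decide +kernel
lemma tr (a b c : Fin 50) : le a b → le b c → le a c := by unfold le leN; omega

end Pool.Agent.H12.SignGr
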