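import Mathlib

set_option autoImplicit false

namespace Pool.Agent.H12.SpChar

open Finset AddMonoidAlgebra

/-- The group ring of the weight lattice `ℤ^r` of type `C_r`. -/
abbrev R (r : ℕ) := AddMonoidAlgebra ℤ (Fin r → ℤ)

/-- The alternant of `v`: the signed sum of `e^{w v}` over the Weyl group of signed permutations. -/
noncomputable def alt {r : ℕ} (v : Fin r → ℤ) : R r :=
  ∑ σ : Equiv.Perm (Fin r), ∑ s : Fin r → ℤˣ,
    single (fun i => s i * v (σ i)) ((Equiv.Perm.sign σ * ∏ i, s i : ℤˣ) : ℤ)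

/-- The half sum of the positive roots, `(r, r-1, ..., 1)`. -/
def rho (r : ℕ) : Fin r → ℤ := fun i => (r : ℤ) - i

/-- Dominant integral weights of type `C_r`. -/
def Dom {r : ℕ} (v : Fin r → ℤ) : Prop := Antitone v ∧ ∀ i, 0 ≤ v i

/-! ### Weyl group action -/

noncomputable def act {r : ℕ} (τ : Equiv.Perm (Fin r)) (u : Fin r → ℤˣ) :
    (Fin r → ℤ) ≃+ (Fin r → ℤ) where
  toFun v := fun i => u i * v (τ i)
  invFun v := fun i => u (τ.symm i) * v (τ.symm i)
  left_inv v := by
    funext i; simp [← mul_assoc, ← Units.val_mul, Int.units_mul_self]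
  right_inv v := by
    funext i; simp [← mul_assoc, ← Units.val_mul, Int.units_mul_self]
  map_add' a b := by funext i; simp [mul_add]

noncomputable def T {r : ℕ} (τ : Equiv.Perm (Fin r)) (u : Fin r → ℤˣ) : R r ≃+* R r :=
  mapDomainRingEquiv ℤ (act τ u)

def eps {r : ℕ} (τ : Equiv.Perm (Fin r)) (u : Fin r → ℤˣ) : ℤ :=
  ((Equiv.Perm.sign τ * ∏ i, u i : ℤˣ) : ℤ)

theorem T_single {r : ℕ} (τ : Equiv.Perm (Fin r)) (u : Fin r → ℤˣ) (v : Fin r → ℤ) (c : ℤ) :
    T τ u (single v c) = single (fun i => u i * v (τ i)) c := by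
  simp [T, act]

theorem T_coeff {r : ℕ} (τ : Equiv.Perm (Fin r)) (u : Fin r → ℤˣ) (f : R r) (v : Fin r → ℤ) :
    (T τ u f).coeff (fun i => u i * v (τ i)) = f.coeff v := by
  have : (fun i => u i * v (τ i)) = act τ u v := rfl
  rw [this, T, coeff_mapDomainRingEquiv]
  simp

theorem T_alt {r : ℕ} (τ : Equiv.Perm (Fin r)) (u : Fin r → ℤˣ) (v : Fin r → ℤ) :
    T τ u (alt v) = eps τ u • alt v := by
  simp only [alt, map_sum, T_single, smul_sum]
  refine Fintype.sum_equiv (Equiv.mulRight τ) _ _ fun σ => ?_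
  let e : (Fin r → ℤˣ) ≃ (Fin r → ℤˣ) :=
    (Equiv.arrowCongr τ.symm (Equiv.refl ℤˣ)).trans (Equiv.mulLeft u)
  refine Fintype.sum_equiv e _ _ fun s => ?_
  have h1 : ∀ i, e s i = u i * s (τ i) := fun i => rfl
  rw [smul_single]
  congr 1
  · funext i; simp [h1, mul_assoc]
  · simp only [h1, prod_mul_distrib, Equiv.prod_comp τ s, eps, Equiv.coe_mulRight, map_mul,
      smul_eq_mul, ← Units.val_mul]
    congr 1
    have a := Int.units_mul_self (Equiv.Perm.sign τ)
    have b := Int.units_mul_self (∏ i, u i)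
    calc Equiv.Perm.sign σ * ∏ i, s i
        = (Equiv.Perm.sign τ * Equiv.Perm.sign τ) * ((∏ i, u i) * ∏ i, u i) *
          (Equiv.Perm.sign σ * ∏ i, s i) := by rw [a, b]; simp
      _ = _ := by simp only [mul_comm, mul_left_comm, mul_assoc]

/-- strictly dominant -/
def SDom {r : ℕ} (v : Fin r → ℤ) : Prop := StrictAnti v ∧ ∀ i, 0 < v i

theorem alt_coeff {r : ℕ} {a b : Fin r → ℤ} (ha : SDom a) (hb : SDom b) :
    (alt a).coeff b = if a = b then 1 else 0 := by
  classical
  have key : ∀ (σ : Equiv.Perm (Fin r)) (s : Fin r → ℤˣ), (fun i => s i * a (σ i)) = b →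
      σ = 1 ∧ s = 1 := by
    intro σ s h
    have hs : s = 1 := by
      funext i
      have h1 := congrFun h i
      have h2 := ha.2 (σ i)
      have h3 := hb.2 i
      rcases Int.units_eq_one_or (s i) with h4 | h4
      · exact h4
      · rw [h4] at h1; simp at h1; omega
    refine ⟨?_, hs⟩
    subst hs
    have hm : StrictMono σ := by
      intro i j hij
      have := hb.1 hij
      rw [← h] at this
      simp only [Pi.one_apply, Units.val_one, one_mul] at this
      exact ha.1.lt_iff_gt.1 this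
    have := Subsingleton.elim (StrictMono.orderIsoOfSurjective σ hm σ.surjective)
      (OrderIso.refl (Fin r))
    ext i
    have h2 := congrArg (fun e : Fin r ≃o Fin r => (e i).val) this
    simpa using h2
  simp only [alt, coeff_sum, Finsupp.finsetSum_apply, coeff_single, Finsupp.single_apply]
  rw [Fintype.sum_eq_single 1, Fintype.sum_eq_single 1]
  · simp
  · intro s hs
    rw [if_neg]; intro h; exact hs (key _ _ h).2
  · intro σ hσ
    refine sum_eq_zero fun s _ => ?_
    rw [if_neg]; intro h; exact hσ (key _ _ h).1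

/-- anti-invariant elements -/
def Anti {r : ℕ} (f : R r) : Prop := ∀ τ u, T τ u f = eps τ u • f

theorem Anti.coeff {r : ℕ} {f : R r} (h : Anti f) (τ : Equiv.Perm (Fin r)) (u : Fin r → ℤˣ)
    (v : Fin r → ℤ) : f.coeff v = eps τ u * f.coeff (fun i => u i * v (τ i)) := by
  rw [← T_coeff τ u f v, h τ u, coeff_smul_apply, smul_eq_mul]

theorem Anti.eq_zero {r : ℕ} {f : R r} (h : Anti f) (h0 : ∀ b, SDom b → f.coeff b = 0) :
    f = 0 := by
  classical
  have hd : ∀ b, Dom b → f.coeff b = 0 := by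
    intro b hb
    by_cases h1 : SDom b
    · exact h0 b h1
    by_cases h2 : ∀ i, 0 < b i
    · have h3 : ¬ StrictAnti b := fun h3 => h1 ⟨h3, h2⟩
      unfold StrictAnti at h3
      push Not at h3
      obtain ⟨i, j, hij, h4⟩ := h3
      have h5 : b i = b j := le_antisymm h4 (hb.1 hij.le)
      have h6 := h.coeff (Equiv.swap i j) 1 b
      have h7 : (fun k => ((1 : Fin r → ℤˣ) k : ℤ) * b (Equiv.swap i j k)) = b := by
        funext k
        simp only [Pi.one_apply, Units.val_one, one_mul, Equiv.swap_apply_def]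
        split_ifs with e1 e2
        · rw [e1, h5]
        · rw [e2, h5]
        · rfl
      rw [h7] at h6
      simp [eps, Equiv.Perm.sign_swap hij.ne] at h6
      omega
    · push Not at h2
      obtain ⟨i, hi⟩ := h2
      have h5 : b i = 0 := le_antisymm hi (hb.2 i)
      have h6 := h.coeff 1 (Pi.mulSingle i (-1)) b
      have h7 : (fun k => ((Pi.mulSingle i (-1) : Fin r → ℤˣ) k : ℤ) *
          b ((1 : Equiv.Perm (Fin r)) k)) = b := by
        funext k
        by_cases e : k = i
        · subst e; simp [h5]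
        · simp [e]
      rw [h7] at h6
      simp [eps] at h6
      omega
  ext v
  let τ := Tuple.sort (fun i => -|v i|)
  let u : Fin r → ℤˣ := fun i => if 0 ≤ v (τ i) then 1 else -1
  have e : (fun i => (u i : ℤ) * v (τ i)) = fun i => |v (τ i)| := by
    funext i
    simp only [u]
    split_ifs with h1
    · simp [abs_of_nonneg h1]
    · simp [abs_of_neg (not_le.1 h1)]
  rw [h.coeff τ u v, e, hd]
  · simp
  · refine ⟨fun i j hij => ?_, fun i => abs_nonneg _⟩
    have := Tuple.monotone_sort (fun i => -|v i|) hij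
    simpa [τ] using this

theorem Anti.expand {r : ℕ} {f : R r} (h : Anti f) [DecidablePred (SDom (r := r))] :
    f = ∑ b ∈ f.coeff.support.filter SDom, f.coeff b • alt b := by
  classical
  rw [← sub_eq_zero]
  apply Anti.eq_zero
  · intro τ u
    simp only [map_sub, map_sum, map_zsmul, T_alt, h τ u, smul_sub, smul_sum, smul_smul, mul_comm]
  · intro b hb
    simp only [coeff_sub, coeff_sum, Finsupp.coe_sub, Pi.sub_apply, Finsupp.finsetSum_apply,
      coeff_smul, Finsupp.smul_apply, smul_eq_mul]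
    rw [sum_congr rfl (g := fun a => if a = b then f.coeff a else 0)
      (fun a ha => by rw [alt_coeff (mem_filter.1 ha).2 hb]; simp)]
    simp only [sum_ite_eq', mem_filter, Finsupp.mem_support_iff, hb, and_true]
    split_ifs with h1
    · simp
    · simpa using h1

/-! ### Rank three: the Weyl quotient exists -/

/-- monomial -/
noncomputable def mono (v : Fin 3 → ℤ) : R 3 := single v 1

theorem mono_add (a b : Fin 3 → ℤ) : mono (a + b) = mono a * mono b := by
  simp [mono, single_mul_single]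

theorem mono_zero : mono 0 = 1 := rfl

noncomputable def x (i : Fin 3) : R 3 := mono (Pi.single i 1)
noncomputable def y (i : Fin 3) : R 3 := mono (Pi.single i (-1))

theorem xy (i : Fin 3) : x i * y i = 1 := by
  rw [x, y, ← mono_add, ← Pi.single_add]; simp [mono_zero]

noncomputable def DD (i : Fin 3) (n : ℤ) : R 3 := mono (Pi.single i n) - mono (Pi.single i (-n))

theorem alt_det (v : Fin 3 → ℤ) : alt v = (Matrix.of fun k i => DD i (v k)).det := by
  rw [Matrix.det_apply, alt]
  refine sum_congr rfl fun σ _ => ?_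
  have h1 : ∀ i, (Matrix.of fun k i => DD i (v k)) (σ i) i =
      ∑ s : ℤˣ, (single (Pi.single i ((s : ℤ) * v (σ i))) (s : ℤ) : R 3) := by
    intro i
    have : (univ : Finset ℤˣ) = {1, -1} := by decide
    rw [this, sum_pair (by decide)]
    simp [DD, mono, single_neg, sub_eq_add_neg]
  simp only [h1]
  rw [prod_univ_sum, Fintype.piFinset_univ, smul_sum]
  refine sum_congr rfl fun s _ => ?_
  rw [prod_single, Units.smul_def, smul_single]
  congr 1
  funext j; simp [Finset.sum_apply, Pi.single_apply]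

theorem DD_rec (i : Fin 3) (n : ℤ) : DD i (n + 2) = (x i + y i) * DD i (n + 1) - DD i n := by
  have h1 : mono (Pi.single i (n + 2)) = x i * mono (Pi.single i (n + 1)) := by
    rw [x, ← mono_add, ← Pi.single_add]; congr 2; ring
  have h2 : mono (Pi.single i (-(n + 2))) = y i * mono (Pi.single i (-(n + 1))) := by
    rw [y, ← mono_add, ← Pi.single_add]; congr 2; ring
  have h3 : mono (Pi.single i n) = y i * mono (Pi.single i (n + 1)) := by
    rw [y, ← mono_add, ← Pi.single_add]; congr 2; ring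
  have h4 : mono (Pi.single i (-n)) = x i * mono (Pi.single i (-(n + 1))) := by
    rw [x, ← mono_add, ← Pi.single_add]; congr 2; ring
  rw [DD, DD, DD, h1, h2, h3, h4]; ring

theorem DD_zero (i : Fin 3) : DD i 0 = 0 := by simp [DD]
theorem DD_one (i : Fin 3) : DD i 1 = x i - y i := rfl
theorem DD_two (i : Fin 3) : DD i 2 = (x i + y i) * (x i - y i) := by
  have := DD_rec i 0
  simpa [DD_zero, DD_one] using this
theorem DD_three (i : Fin 3) : DD i 3 = ((x i + y i) ^ 2 - 1) * (x i - y i) := by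
  have := DD_rec i 1
  norm_num at this
  rw [this, DD_two, DD_one]; ring

theorem divided (n : ℕ) : ∃ a b c : R 3, DD 0 n = (x 0 - y 0) * a ∧
    DD 1 n = (x 1 - y 1) * (a + (x 1 + y 1 - (x 0 + y 0)) * b) ∧
    DD 2 n = (x 2 - y 2) * (a + (x 2 + y 2 - (x 0 + y 0)) * b +
      (x 2 + y 2 - (x 0 + y 0)) * (x 2 + y 2 - (x 1 + y 1)) * c) := by
  induction n using Nat.twoStepInduction with
  | zero => exact ⟨0, 0, 0, by simp [DD_zero]⟩
  | one => exact ⟨1, 0, 0, by simp [DD_one]⟩
  | more n h0 h1 =>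
    obtain ⟨a, b, c, e0, e1, e2⟩ := h0
    obtain ⟨a', b', c', f0, f1, f2⟩ := h1
    push_cast at f0 f1 f2 ⊢
    refine ⟨(x 0 + y 0) * a' - a, a' + (x 1 + y 1) * b' - b, b' + (x 2 + y 2) * c' - c, ?_, ?_, ?_⟩
    · rw [DD_rec, e0, f0]; ring
    · rw [DD_rec, e1, f1]; ring
    · rw [DD_rec, e2, f2]; ring

theorem alt_rho : alt (rho 3) = (x 0 - y 0) * (x 1 - y 1) * (x 2 - y 2) *
    ((x 0 + y 0 - (x 1 + y 1)) * (x 0 + y 0 - (x 2 + y 2)) * (x 1 + y 1 - (x 2 + y 2))) := by
  have r0 : rho 3 0 = 3 := rfl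
  have r1 : rho 3 1 = 2 := rfl
  have r2 : rho 3 2 = 1 := rfl
  rw [alt_det, Matrix.det_fin_three]
  simp only [Matrix.of_apply, r0, r1, r2, DD_one, DD_two, DD_three]
  ring

theorem exists_char (v : Fin 3 → ℤ) (hv : ∀ i, 0 ≤ v i) : ∃ χ, alt (rho 3) * χ = alt v := by
  obtain ⟨a0, b0, c0, e0, f0, g0⟩ := divided (v 0).toNat
  obtain ⟨a1, b1, c1, e1, f1, g1⟩ := divided (v 1).toNat
  obtain ⟨a2, b2, c2, e2, f2, g2⟩ := divided (v 2).toNat
  rw [Int.toNat_of_nonneg (hv _)] at e0 f0 g0 e1 f1 g1 e2 f2 g2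
  refine ⟨-(a0 * b1 * c2 - a0 * c1 * b2 - b0 * a1 * c2 + b0 * c1 * a2 + c0 * a1 * b2
    - c0 * b1 * a2), ?_⟩
  rw [alt_rho, alt_det v, Matrix.det_fin_three]
  simp only [Matrix.of_apply, e0, f0, g0, e1, f1, g1, e2, f2, g2]
  ring

theorem sdom_rho : SDom (rho 3) := by
  refine ⟨fun i j h => ?_, fun i => ?_⟩
  · simp only [rho]; have : (i : ℕ) < j := h; omega
  · simp only [rho]; have := i.2; omega

theorem alt_rho_ne : alt (rho 3) ≠ 0 := by
  intro h
  have := alt_coeff sdom_rho sdom_rho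
  rw [h] at this
  simp at this

theorem eps_sq (τ : Equiv.Perm (Fin 3)) (u : Fin 3 → ℤˣ) : eps τ u * eps τ u = 1 := by
  rw [eps, ← Units.val_mul, Int.units_mul_self]; rfl

theorem char_inv {χ : R 3} {v : Fin 3 → ℤ} (h : alt (rho 3) * χ = alt v)
    (τ : Equiv.Perm (Fin 3)) (u : Fin 3 → ℤˣ) : T τ u χ = χ := by
  have h1 := congrArg (T τ u) h
  rw [map_mul, T_alt, T_alt, ← h, smul_mul_assoc] at h1
  have h2 := congrArg (fun f => eps τ u • f) h1
  simp only [smul_smul, eps_sq, one_smul] at h2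
  exact mul_left_cancel₀ alt_rho_ne h2

theorem dom_sub {b : Fin 3 → ℤ} (h : SDom b) : Dom (b - rho 3) := by
  have h1 := h.1 (show (0 : Fin 3) < 1 by decide)
  have h2 := h.1 (show (1 : Fin 3) < 2 by decide)
  have h3 := h.2 2
  refine ⟨fun i j hij => ?_, fun i => ?_⟩
  · fin_cases i <;> fin_cases j <;> simp [rho] at hij ⊢ <;> omega
  · fin_cases i <;> simp [rho] <;> omega

theorem sdom_add {b : Fin 3 → ℤ} (h : Dom b) : SDom (b + rho 3) := by
  refine ⟨fun i j hij => ?_, fun i => ?_⟩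
  · have := h.1 hij.le
    have := sdom_rho.1 hij
    simp only [Pi.add_apply]; omega
  · have := h.2 i
    have := sdom_rho.2 i
    simp only [Pi.add_apply]; omega

/-- decomposition of a product of two characters -/
theorem decomp (χ : (Fin 3 → ℤ) → R 3) (hχ : ∀ κ, Dom κ → alt (rho 3) * χ κ = alt (κ + rho 3))
    {a b : Fin 3 → ℤ} (ha : Dom a) (hb : Dom b) :
    ∃ m : (Fin 3 → ℤ) →₀ ℤ, (∀ κ ∈ m.support, Dom κ) ∧
      χ a * χ b = m.sum (fun κ c => c • χ κ) := by
  classical
  set Z := alt (rho 3) * (χ a * χ b) with hZ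
  have hA : Anti Z := by
    intro τ u
    rw [hZ, map_mul, map_mul, T_alt, char_inv (hχ a ha), char_inv (hχ b hb), smul_mul_assoc]
  refine ⟨Finsupp.mapDomain (fun β => β - rho 3) (Z.coeff.filter SDom), ?_, ?_⟩
  · intro κ hκ
    obtain ⟨β, hβ, rfl⟩ := mem_image.1 (Finsupp.mapDomain_support hκ)
    rw [Finsupp.support_filter] at hβ
    exact dom_sub (mem_filter.1 hβ).2
  · apply mul_left_cancel₀ alt_rho_ne
    rw [← hZ, Finsupp.sum_mapDomain_index (by simp) (by simp [add_smul]), Finsupp.sum,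
      Finsupp.support_filter, mul_sum, hA.expand]
    refine sum_congr ?_ fun β hβ => ?_
    · rw [← hA.expand]
    · have h1 := (mem_filter.1 hβ).2
      rw [← hA.expand, Finsupp.filter_apply_pos _ _ h1, mul_smul_comm, hχ _ (dom_sub h1),
        sub_add_cancel]

theorem mult_eq (χ : (Fin 3 → ℤ) → R 3) (hχ : ∀ κ, Dom κ → alt (rho 3) * χ κ = alt (κ + rho 3))
    {f : R 3} {m : (Fin 3 → ℤ) →₀ ℤ} (h1 : ∀ κ ∈ m.support, Dom κ)
    (h2 : f = m.sum (fun κ c => c • χ κ)) {ν : Fin 3 → ℤ} (hν : Dom ν) :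
    m ν = (alt (rho 3) * f).coeff (ν + rho 3) := by
  classical
  rw [h2, Finsupp.sum, mul_sum, coeff_sum, Finsupp.finsetSum_apply,
    sum_congr rfl (g := fun κ => if κ = ν then m κ else 0)]
  · simp only [sum_ite_eq', Finsupp.mem_support_iff]
    split_ifs with h
    · rfl
    · simpa using h
  · intro κ hκ
    rw [mul_smul_comm, hχ κ (h1 κ hκ), coeff_smul_apply,
      alt_coeff (sdom_add (h1 κ hκ)) (sdom_add hν)]
    simp

end Pool.Agent.H12.SpChar
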