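import Pool.Agent.H12.SpChar

set_option autoImplicit false

namespace Pool.Agent.H12.SpChar

open Finset AddMonoidAlgebra

/-- partition function of the simple roots together with a list of further roots -/
def K : List (ℤ × ℤ × ℤ) → ℤ → ℤ → ℤ → ℤ
  | [], a, b, c => if 0 ≤ a ∧ 0 ≤ a + b ∧ 0 ≤ a + b + c ∧ (a + b + c) % 2 = 0 then 1 else 0
  | p :: L, a, b, c => if 0 ≤ a ∧ 0 ≤ a + b ∧ 0 ≤ a + b + c then
      ∑ n ∈ range ((a + b).toNat + 1), K L (a - n * p.1) (b - n * p.2.1) (c - n * p.2.2) else 0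

theorem K_out (L : List (ℤ × ℤ × ℤ)) {a b c : ℤ} (h : ¬ (0 ≤ a ∧ 0 ≤ a + b ∧ 0 ≤ a + b + c)) :
    K L a b c = 0 := by
  cases L with
  | nil => simp only [K]; rw [if_neg]; tauto
  | cons p L => simp only [K]; rw [if_neg h]

theorem K_sum (p : ℤ × ℤ × ℤ) (L : List (ℤ × ℤ × ℤ)) (h1 : 0 ≤ p.1) (h2 : 1 ≤ p.1 + p.2.1)
    (h3 : 0 ≤ p.1 + p.2.1 + p.2.2) (a b c : ℤ) (N : ℕ) (hN : (a + b).toNat + 1 ≤ N) :
    K (p :: L) a b c = ∑ n ∈ range N, K L (a - n * p.1) (b - n * p.2.1) (c - n * p.2.2) := by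
  simp only [K]
  split_ifs with h
  · refine sum_subset (range_subset_range.2 hN) fun n _ hn => K_out _ ?_
    simp only [mem_range, not_lt] at hn
    rintro ⟨-, h4, -⟩
    have : (n : ℤ) * 1 ≤ n * (p.1 + p.2.1) := mul_le_mul_of_nonneg_left h2 (by positivity)
    have h5 : a + b < n := by omega
    nlinarith
  · refine (sum_eq_zero fun n _ => K_out _ ?_).symm
    rintro ⟨h4, h5, h6⟩
    have hn : (0 : ℤ) ≤ n := by positivity
    exact h ⟨by nlinarith, by nlinarith, by nlinarith⟩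

theorem K_step (p : ℤ × ℤ × ℤ) (L : List (ℤ × ℤ × ℤ)) (h1 : 0 ≤ p.1) (h2 : 1 ≤ p.1 + p.2.1)
    (h3 : 0 ≤ p.1 + p.2.1 + p.2.2) (a b c : ℤ) :
    K (p :: L) a b c - K (p :: L) (a - p.1) (b - p.2.1) (c - p.2.2) = K L a b c := by
  rw [K_sum p L h1 h2 h3 a b c ((a + b).toNat + 1 + 1) (by omega),
    K_sum p L h1 h2 h3 _ _ _ ((a + b).toNat + 1) (by omega), sum_range_succ']
  have : ∀ n : ℕ, K L (a - ((n + 1 : ℕ) : ℤ) * p.1) (b - ((n + 1 : ℕ) : ℤ) * p.2.1)
      (c - ((n + 1 : ℕ) : ℤ) * p.2.2) =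
      K L (a - p.1 - n * p.1) (b - p.2.1 - n * p.2.1) (c - p.2.2 - n * p.2.2) := by
    intro n; push_cast; congr 1 <;> ring
  simp only [this]
  simp

/-- pairing of a function with a group ring element -/
noncomputable def pr (G : ℤ → ℤ → ℤ → ℤ) : R 3 →+ ℤ :=
  (Finsupp.linearCombination ℤ fun v : Fin 3 → ℤ => G (v 0) (v 1) (v 2)).toAddMonoidHom.comp
    coeffAddEquiv.toAddMonoidHom

theorem pr_single (G : ℤ → ℤ → ℤ → ℤ) (v : Fin 3 → ℤ) (c : ℤ) :
    pr G (single v c) = c * G (v 0) (v 1) (v 2) := by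
  simp [pr]

theorem pr_mono (G : ℤ → ℤ → ℤ → ℤ) (w : Fin 3 → ℤ) (f : R 3) :
    pr G (mono w * f) = pr (fun a b c => G (a + w 0) (b + w 1) (c + w 2)) f := by
  induction f using AddMonoidAlgebra.induction_linear with
  | zero => simp
  | add f g hf hg => rw [mul_add, map_add, map_add, hf, hg]
  | single v c => simp [mono, single_mul_single, pr_single, add_comm]

theorem pr_sub (G H : ℤ → ℤ → ℤ → ℤ) (f : R 3) :
    pr G f - pr H f = pr (fun a b c => G a b c - H a b c) f := by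
  induction f using AddMonoidAlgebra.induction_linear with
  | zero => simp
  | add f g hf hg => simp only [map_add, ← hf, ← hg]; ring
  | single v c => simp [pr_single, mul_sub]

theorem pr_delta (w : Fin 3 → ℤ) (f : R 3) :
    pr (fun a b c => if a = w 0 ∧ b = w 1 ∧ c = w 2 then 1 else 0) f = f.coeff w := by
  induction f using AddMonoidAlgebra.induction_linear with
  | zero => simp
  | add f g hf hg => simp [hf, hg]
  | single v c =>
    have : (v 0 = w 0 ∧ v 1 = w 1 ∧ v 2 = w 2) ↔ v = w := by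
      constructor
      · rintro ⟨h0, h1, h2⟩; funext i; fin_cases i <;> assumption
      · rintro rfl; simp
    simp [pr_single, this, Finsupp.single_apply]

theorem pr_one_sub (G : ℤ → ℤ → ℤ → ℤ) (p q r : ℤ) (f : R 3) :
    pr G ((1 - mono ![-p, -q, -r]) * f) =
      pr (fun a b c => G a b c - G (a - p) (b - q) (c - r)) f := by
  rw [sub_mul, one_mul, map_sub, pr_mono, pr_sub]
  simp [sub_eq_add_neg]

theorem pr_gen (p q r : ℤ) (G H : ℤ → ℤ → ℤ → ℤ)
    (h : ∀ a b c, G a b c - G (a - p) (b - q) (c - r) = H a b c) (d e g : ℤ) (f : R 3) :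
    pr (fun a b c => G (a - d) (b - e) (c - g)) ((1 - mono ![-p, -q, -r]) * f) =
      pr (fun a b c => H (a - d) (b - e) (c - g)) f := by
  rw [pr_one_sub]
  congr 2
  funext a b c
  rw [← h]
  congr 2 <;> ring

theorem pr_step (p q r : ℤ) (L : List (ℤ × ℤ × ℤ)) (h1 : 0 ≤ p) (h2 : 1 ≤ p + q)
    (h3 : 0 ≤ p + q + r) (d e g : ℤ) (f : R 3) :
    pr (fun a b c => K ((p, q, r) :: L) (a - d) (b - e) (c - g)) ((1 - mono ![-p, -q, -r]) * f) =
      pr (fun a b c => K L (a - d) (b - e) (c - g)) f :=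
  pr_gen p q r _ _ (K_step (p, q, r) L h1 h2 h3) d e g f

theorem mono_xy (a b c : ℤ) : mono ![a, b, c] =
    mono (Pi.single 0 a) * mono (Pi.single 1 b) * mono (Pi.single 2 c) := by
  rw [← mono_add, ← mono_add]
  congr 1; funext i; fin_cases i <;> simp

theorem m_two (i : Fin 3) : mono (Pi.single i 2) = x i * x i := by
  rw [x, ← mono_add, ← Pi.single_add]; rfl
theorem m_three (i : Fin 3) : mono (Pi.single i 3) = x i * x i * x i := by
  rw [x, ← mono_add, ← mono_add, ← Pi.single_add, ← Pi.single_add]; rfl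
theorem m_ntwo (i : Fin 3) : mono (Pi.single i (-2)) = y i * y i := by
  rw [y, ← mono_add, ← Pi.single_add]; rfl

/-- the non simple positive roots -/
def roots : List (ℤ × ℤ × ℤ) := [(2, 0, 0), (0, 2, 0), (1, 1, 0), (1, 0, 1), (1, 0, -1), (0, 1, 1)]

theorem alt_rho_prod : alt (rho 3) =
    (1 - mono ![-2, -0, -0]) * ((1 - mono ![-0, -2, -0]) * ((1 - mono ![-1, -1, -0]) *
    ((1 - mono ![-1, -0, -1]) * ((1 - mono ![-1, -0, - -1]) * ((1 - mono ![-0, -1, -1]) *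
    ((1 - mono ![-1, - -1, -0]) * ((1 - mono ![-0, -1, - -1]) * ((1 - mono ![-0, -0, -2]) *
      mono ![3, 2, 1])))))))) := by
  have hx : ∀ i, mono (Pi.single i 1) = x i := fun _ => rfl
  have hy : ∀ i, mono (Pi.single i (-1)) = y i := fun _ => rfl
  simp only [mono_xy, neg_zero, neg_neg, Pi.single_zero, mono_zero, m_two, m_three, m_ntwo, hx, hy,
    mul_one, one_mul]
  have e0 : x 0 * (1 - y 0 * y 0) = x 0 - y 0 := by linear_combination (-y 0) * xy 0
  have e1 : x 1 * (1 - y 1 * y 1) = x 1 - y 1 := by linear_combination (-y 1) * xy 1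
  have e2 : x 2 * (1 - y 2 * y 2) = x 2 - y 2 := by linear_combination (-y 2) * xy 2
  have f : ∀ i j, x i * (1 - y i * x j) * (1 - y i * y j) = x i + y i - (x j + y j) := by
    intro i j
    linear_combination (y i * x j * y j - x j - y j) * xy i + y i * xy j
  rw [alt_rho, ← e0, ← e1, ← e2, ← f 0 1, ← f 0 2, ← f 1 2]
  ring

def B1 (a b c : ℤ) : ℤ :=
  if a = 0 ∧ 0 ≤ a + b ∧ 0 ≤ a + b + c ∧ (a + b + c) % 2 = 0 then 1 else 0
def B2 (a b c : ℤ) : ℤ :=
  if a = 0 ∧ a + b = 0 ∧ 0 ≤ a + b + c ∧ (a + b + c) % 2 = 0 then 1 else 0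
def B3 (a b c : ℤ) : ℤ := if a = 0 ∧ b = 0 ∧ c = 0 then 1 else 0

theorem base1 (a b c : ℤ) : K [] a b c - K [] (a - 1) (b - -1) (c - 0) = B1 a b c := by
  have e1 : a - 1 + (b - -1) = a + b := by ring
  simp only [K, B1, e1, sub_zero]
  split_ifs <;> omega

theorem base2 (a b c : ℤ) : B1 a b c - B1 (a - 0) (b - 1) (c - -1) = B2 a b c := by
  have e1 : a + (b - 1) + (c - -1) = a + b + c := by ring
  simp only [B1, B2, e1, sub_zero]
  split_ifs <;> omega

theorem base3 (a b c : ℤ) : B2 a b c - B2 (a - 0) (b - 0) (c - 2) = B3 a b c := by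
  simp only [B2, B3, sub_zero]
  split_ifs <;> omega

theorem coeff_eq (f : R 3) (w : Fin 3 → ℤ) : f.coeff w =
    pr (fun a b c => K roots (a - (w 0 + 3)) (b - (w 1 + 2)) (c - (w 2 + 1)))
      (alt (rho 3) * f) := by
  rw [alt_rho_prod]
  simp only [mul_assoc, roots]
  rw [pr_step _ _ _ _ (by norm_num) (by norm_num) (by norm_num),
    pr_step _ _ _ _ (by norm_num) (by norm_num) (by norm_num),
    pr_step _ _ _ _ (by norm_num) (by norm_num) (by norm_num),
    pr_step _ _ _ _ (by norm_num) (by norm_num) (by norm_num),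
    pr_step _ _ _ _ (by norm_num) (by norm_num) (by norm_num),
    pr_step _ _ _ _ (by norm_num) (by norm_num) (by norm_num),
    pr_gen _ _ _ _ _ base1, pr_gen _ _ _ _ _ base2, pr_gen _ _ _ _ _ base3, pr_mono, ← pr_delta]
  congr 2
  funext a b c
  have e0 : (![3, 2, 1] : Fin 3 → ℤ) 0 = 3 := rfl
  have e1 : (![3, 2, 1] : Fin 3 → ℤ) 1 = 2 := rfl
  have e2 : (![3, 2, 1] : Fin 3 → ℤ) 2 = 1 := rfl
  simp only [B3, e0, e1, e2]
  split_ifs <;> omega

/-- Steinberg type double sum -/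
def St (l m w : Fin 3 → ℤ) : ℤ :=
  ∑ σ : Equiv.Perm (Fin 3), ∑ s : Fin 3 → ℤˣ, ∑ τ : Equiv.Perm (Fin 3), ∑ u : Fin 3 → ℤˣ,
    eps σ s * eps τ u * K roots (s 0 * l (σ 0) + u 0 * m (τ 0) - (w 0 + 3))
      (s 1 * l (σ 1) + u 1 * m (τ 1) - (w 1 + 2)) (s 2 * l (σ 2) + u 2 * m (τ 2) - (w 2 + 1))

theorem steinberg {f g : R 3} {l m : Fin 3 → ℤ} (hf : alt (rho 3) * f = alt l)
    (hg : alt (rho 3) * g = alt m) (w : Fin 3 → ℤ) :
    (alt (rho 3) * (f * g)).coeff w = St l m w := by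
  have : alt (rho 3) * (alt (rho 3) * (f * g)) = alt l * alt m := by rw [← hf, ← hg]; ring
  rw [coeff_eq, this]
  simp only [alt, sum_mul]
  simp only [mul_sum, map_sum, single_mul_single, pr_single, St, eps, Pi.add_apply]

theorem St1 : St ![6, 5, 3] ![6, 5, 4] ![8, 5, 2] = 0 := by decide +kernel

theorem St3 : St ![12, 11, 7] ![12, 11, 10] ![18, 11, 4] = 1 := by decide +kernel

end Pool.Agent.H12.SpChar
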