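import Mathlib

set_option autoImplicit false

namespace Pool.Agent.H12.Weyl

open Finset

lemma one_sub_pow_le (β : ℂ) (hβ : ‖β‖ = 1) (k : ℕ) : ‖1 - β ^ k‖ ≤ k * ‖1 - β‖ := by
  induction k with
  | zero => simp
  | succ k ih =>
    have e : 1 - β ^ (k + 1) = (1 - β ^ k) + β ^ k * (1 - β) := by ring
    rw [e]
    refine (norm_add_le _ _).trans ?_
    rw [norm_mul, norm_pow, hβ, one_pow, one_mul]
    push_cast; linarith

lemma le_one_sub_pow (β : ℂ) (hβ : ‖β‖ = 1) (k : ℕ) (hk : k * ‖1 - β‖ ≤ 1) :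
    k / 2 * ‖1 - β‖ ≤ ‖1 - β ^ k‖ := by
  have e : 1 - β ^ k = (∑ j ∈ range k, β ^ j) * (1 - β) := (geom_sum_mul_neg β k).symm
  rw [e, norm_mul]
  refine mul_le_mul_of_nonneg_right ?_ (norm_nonneg _)
  have h1 : ‖(k : ℂ) - ∑ j ∈ range k, β ^ j‖ ≤ k / 2 := by
    have e2 : (k : ℂ) - ∑ j ∈ range k, β ^ j = ∑ j ∈ range k, (1 - β ^ j) := by
      rw [sum_sub_distrib]; simp
    rw [e2]
    refine (norm_sum_le _ _).trans ?_
    refine (sum_le_sum fun j _ => one_sub_pow_le β hβ j).trans ?_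
    rw [← sum_mul]
    have h2 : ∑ j ∈ range k, (j : ℝ) ≤ k * k / 2 := by
      have : ∀ n : ℕ, ∑ j ∈ range n, (j : ℝ) = n * (n - 1) / 2 := by
        intro n
        induction n with
        | zero => simp
        | succ n ih => rw [sum_range_succ, ih]; push_cast; ring
      rw [this]; nlinarith [(Nat.cast_nonneg k : (0 : ℝ) ≤ k)]
    have h3 := norm_nonneg (1 - β)
    have h4 : (0 : ℝ) ≤ k := Nat.cast_nonneg k
    nlinarith
  have h2 := norm_sub_norm_le (k : ℂ) (∑ j ∈ range k, β ^ j)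
  rw [Complex.norm_natCast] at h2
  linarith

lemma geom_le (γ : ℂ) (hγ : ‖γ‖ = 1) (L : ℕ) : ‖∑ x ∈ range L, γ ^ x‖ * ‖1 - γ‖ ≤ 2 := by
  rw [← norm_mul, geom_sum_mul_neg]
  refine (norm_sub_le _ _).trans ?_
  rw [norm_pow, hγ]; norm_num

lemma shift_le (φ : ℕ → ℂ) (hφ : ∀ x, ‖φ x‖ ≤ 1) (L h : ℕ) :
    ‖∑ x ∈ range L, φ (x + h) - ∑ x ∈ range L, φ x‖ ≤ 2 * h := by
  have e1 := sum_range_add φ h L
  have e2 := sum_range_add φ L h
  have e3 : ∑ x ∈ range L, φ (x + h) - ∑ x ∈ range L, φ x =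
      ∑ x ∈ range h, φ (L + x) - ∑ x ∈ range h, φ x := by
    rw [add_comm h L] at e1
    simp only [add_comm h] at e1
    linear_combination e2 - e1
  rw [e3]
  refine (norm_sub_le _ _).trans ?_
  have b : ∀ ψ : ℕ → ℂ, (∀ x, ‖ψ x‖ ≤ 1) → ‖∑ x ∈ range h, ψ x‖ ≤ h := fun ψ hψ =>
    (norm_sum_le _ _).trans ((sum_le_sum fun x _ => hψ x).trans (by simp))
  linarith [b (fun x => φ (L + x)) (fun x => hφ _), b φ hφ]

noncomputable def S (L : ℕ) (z w : ℂ) : ℂ := ∑ x ∈ range L, z ^ x * w ^ (x ^ 2)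

lemma corr (z w : ℂ) (hz : ‖z‖ = 1) (hw : ‖w‖ = 1) (L a d : ℕ) :
    ‖∑ x ∈ range L, (z ^ (x + (a + d)) * w ^ ((x + (a + d)) ^ 2)) *
      (starRingEnd ℂ) (z ^ (x + a) * w ^ ((x + a) ^ 2))‖ = ‖∑ x ∈ range L, (w ^ (2 * d)) ^ x‖ := by
  have hz' : z * (starRingEnd ℂ) z = 1 := by rw [Complex.mul_conj, Complex.normSq_eq_norm_sq, hz]; simp
  have hw' : w * (starRingEnd ℂ) w = 1 := by rw [Complex.mul_conj, Complex.normSq_eq_norm_sq, hw]; simp
  have e : ∀ x, (z ^ (x + (a + d)) * w ^ ((x + (a + d)) ^ 2)) *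
      (starRingEnd ℂ) (z ^ (x + a) * w ^ ((x + a) ^ 2)) =
      (z ^ d * w ^ (2 * a * d + d ^ 2)) * (w ^ (2 * d)) ^ x := by
    intro x
    rw [map_mul, map_pow, map_pow]
    calc _ = (z * (starRingEnd ℂ) z) ^ (x + a) * (w * (starRingEnd ℂ) w) ^ ((x + a) ^ 2) *
          ((z ^ d * w ^ (2 * a * d + d ^ 2)) * (w ^ (2 * d)) ^ x) := by ring
      _ = _ := by rw [hz', hw']; simp
  simp only [e]
  rw [← mul_sum, norm_mul, norm_mul, norm_pow, norm_pow, hz, hw]; simp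

lemma vdc (z w : ℂ) (hz : ‖z‖ = 1) (hw : ‖w‖ = 1) (L H c : ℕ) (hH : 0 < H) (hL : 0 < L)
    (K θ : ℝ) (hK : 0 < K) (hθ : 0 ≤ θ) (hHK : 1 / (H : ℝ) + 2 / K ≤ θ ^ 2)
    (h : ∀ d, 1 ≤ d → d < H → K / L ≤ ‖1 - w ^ (2 * (c * d))‖) :
    ‖S L z w‖ ≤ θ * L + 2 * (c * H) := by
  let φ : ℕ → ℂ := fun x => z ^ x * w ^ (x ^ 2)
  have hφ : ∀ x, ‖φ x‖ = 1 := fun x => by simp [φ, hz, hw]
  have hL' : (0 : ℝ) < L := by exact_mod_cast hL
  have hH' : (0 : ℝ) < H := by exact_mod_cast hH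
  let U : ℂ := ∑ x ∈ range L, ∑ i ∈ range H, φ (x + c * i)
  have h1 : ‖U - H * S L z w‖ ≤ H * (2 * (c * H)) := by
    have e : U - H * S L z w =
        ∑ i ∈ range H, (∑ x ∈ range L, φ (x + c * i) - ∑ x ∈ range L, φ x) := by
      rw [sum_sub_distrib, sum_const, card_range, nsmul_eq_mul]
      simp only [U]; rw [sum_comm]; rfl
    rw [e]
    refine (norm_sum_le _ _).trans ?_
    refine (sum_le_sum (g := fun _ => 2 * ((c : ℝ) * H)) fun i hi => ?_).trans (by simp)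
    refine (shift_le φ (fun x => (hφ x).le) L _).trans ?_
    have : (i : ℝ) ≤ H := by exact_mod_cast (mem_range.mp hi).le
    push_cast; gcongr
  have hpair : ∀ i ∈ range H, ∀ j ∈ range H,
      ‖∑ x ∈ range L, φ (x + c * i) * (starRingEnd ℂ) (φ (x + c * j))‖ ≤
        (if i = j then (L : ℝ) else 0) + 2 * L / K := by
    have key : ∀ i j, j < i → i < H →
        ‖∑ x ∈ range L, φ (x + c * i) * (starRingEnd ℂ) (φ (x + c * j))‖ ≤ 2 * L / K := by
      intro i j hji hi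
      obtain ⟨d, rfl⟩ : ∃ d, i = j + d := ⟨i - j, by omega⟩
      have a1 := corr z w hz hw L (c * j) (c * d)
      rw [← mul_add] at a1
      simp only [φ]
      rw [a1]
      have a2 := geom_le (w ^ (2 * (c * d))) (by rw [norm_pow, hw, one_pow]) L
      have a3 := h d (by omega) (by omega)
      rw [le_div_iff₀ hK]
      rw [div_le_iff₀ hL'] at a3
      have a4 := norm_nonneg (∑ x ∈ range L, (w ^ (2 * (c * d))) ^ x)
      nlinarith
    intro i hi j hj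
    rcases lt_trichotomy i j with hij | hij | hij
    · rw [if_neg hij.ne, zero_add]
      have := key j i hij (mem_range.mp hj)
      rw [← Complex.norm_conj, map_sum]
      simp only [map_mul, Complex.conj_conj]
      simpa only [mul_comm] using this
    · subst hij
      rw [if_pos rfl]
      refine le_trans ((norm_sum_le _ _).trans (le_of_eq ?_)) (le_add_of_nonneg_right (by positivity))
      simp [hφ]
    · rw [if_neg hij.ne', zero_add]
      exact key i j hij (mem_range.mp hi)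
  have h2 : ‖U‖ ^ 2 ≤ (θ * L * H) ^ 2 := by
    have a1 : ‖U‖ ≤ ∑ x ∈ range L, ‖∑ i ∈ range H, φ (x + c * i)‖ := norm_sum_le _ _
    have a2 := sq_sum_le_card_mul_sum_sq (s := range L)
      (f := fun x => ‖∑ i ∈ range H, φ (x + c * i)‖)
    rw [card_range] at a2
    have a3 : ((∑ x ∈ range L, ‖∑ i ∈ range H, φ (x + c * i)‖ ^ 2 : ℝ) : ℂ) =
        ∑ i ∈ range H, ∑ j ∈ range H, ∑ x ∈ range L,
          φ (x + c * i) * (starRingEnd ℂ) (φ (x + c * j)) := by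
      push_cast
      have : ∀ x, ((‖∑ i ∈ range H, φ (x + c * i)‖ : ℝ) : ℂ) ^ 2 =
          ∑ i ∈ range H, ∑ j ∈ range H, φ (x + c * i) * (starRingEnd ℂ) (φ (x + c * j)) := by
        intro x
        rw [← sum_mul_sum, ← map_sum, Complex.mul_conj, Complex.normSq_eq_norm_sq]
        push_cast; rfl
      simp only [this]
      rw [sum_comm]
      exact sum_congr rfl fun i _ => sum_comm
    have a4 : ∑ x ∈ range L, ‖∑ i ∈ range H, φ (x + c * i)‖ ^ 2 ≤
        H * (L + H * (2 * L / K)) := by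
      have b1 : ∑ x ∈ range L, ‖∑ i ∈ range H, φ (x + c * i)‖ ^ 2 ≤
          ‖((∑ x ∈ range L, ‖∑ i ∈ range H, φ (x + c * i)‖ ^ 2 : ℝ) : ℂ)‖ := by
        rw [Complex.norm_real]; exact le_abs_self _
      rw [a3] at b1
      refine b1.trans ((norm_sum_le _ _).trans ?_)
      refine (sum_le_sum (g := fun _ => (L : ℝ) + H * (2 * L / K)) fun i hi => ?_).trans
        (by rw [sum_const, card_range, nsmul_eq_mul])
      refine (norm_sum_le _ _).trans ((sum_le_sum fun j hj => hpair i hi j hj).trans ?_)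
      rw [sum_add_distrib, sum_ite_eq, if_pos hi]; simp
    have a5 : (L : ℝ) * (H * (L + H * (2 * L / K))) = (L * H) ^ 2 * (1 / (H : ℝ) + 2 / K) := by
      field_simp
    calc ‖U‖ ^ 2 ≤ (∑ x ∈ range L, ‖∑ i ∈ range H, φ (x + c * i)‖) ^ 2 := by gcongr
      _ ≤ L * (H * (L + H * (2 * L / K))) := a2.trans (by gcongr)
      _ ≤ (L * H) ^ 2 * θ ^ 2 := by rw [a5]; gcongr
      _ = _ := by ring
  have h3 : ‖U‖ ≤ θ * L * H := (pow_le_pow_iff_left₀ (norm_nonneg _) (by positivity) two_ne_zero).mp h2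
  have h4 : ‖(H : ℂ) * S L z w‖ ≤ ‖U‖ + ‖U - H * S L z w‖ := by
    have := norm_sub_le U (U - H * S L z w)
    rwa [sub_sub_cancel] at this
  rw [norm_mul, Complex.norm_natCast] at h4
  have h5 : (H : ℝ) * ‖S L z w‖ ≤ H * (θ * L + 2 * (c * H)) := by nlinarith
  exact le_of_mul_le_mul_left h5 hH'

theorem weyl (ε : ℝ) (hε : 0 < ε) : ∃ Q : ℕ, 0 < Q ∧ ∃ L0 : ℕ, ∀ L ≥ L0, ∀ z w : ℂ,
    ‖z‖ = 1 → ‖w‖ = 1 → ‖S L z w‖ * ‖1 - z ^ Q‖ ≤ ε * L := by
  obtain ⟨H, hH⟩ := exists_nat_gt (48 / ε ^ 2)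
  have hH' : (0 : ℝ) < H := lt_trans (by positivity) hH
  have hH0 : 0 < H := by exact_mod_cast hH'
  have hHK : 1 / (H : ℝ) + 2 / H ≤ (ε / 4) ^ 2 := by
    rw [div_lt_iff₀ (by positivity)] at hH
    rw [← add_div, div_le_iff₀ hH']; nlinarith
  obtain ⟨D, hD⟩ := exists_nat_gt (12 * H / ε)
  have hD' : (0 : ℝ) < D := lt_trans (by positivity) hD
  set F := H.factorial with hF
  have hF0 : 0 < F := Nat.factorial_pos H
  have hF' : (1 : ℝ) ≤ F := by exact_mod_cast hF0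
  obtain ⟨L0, hL0⟩ := exists_nat_gt (8 * (F * D * H) / ε + 8 * H / ε + 8 * F / ε + 2 * F +
    D * H * (F * H))
  refine ⟨2 * F, by omega, L0, fun L hL z w hz hw => ?_⟩
  have hL1 : (L0 : ℝ) ≤ L := by exact_mod_cast hL
  have p1 : (0 : ℝ) < 8 * (F * D * H) / ε := by positivity
  have p2 : (0 : ℝ) < 8 * H / ε := by positivity
  have p3 : (0 : ℝ) < 8 * F / ε := by positivity
  have p4 : (0 : ℝ) < D * H * (F * H) := by positivity
  have hL' : (0 : ℝ) < L := by linarith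
  have hLp : 0 < L := by exact_mod_cast hL'
  have q1 : 8 * ((F : ℝ) * D * H) ≤ L * ε := by rw [← div_le_iff₀ hε]; linarith
  have q2 : 8 * (H : ℝ) ≤ L * ε := by rw [← div_le_iff₀ hε]; linarith
  have q3 : 8 * (F : ℝ) ≤ L * ε := by rw [← div_le_iff₀ hε]; linarith
  have hz2 : ‖1 - z ^ (2 * F)‖ ≤ 2 := by
    refine (norm_sub_le _ _).trans ?_
    rw [norm_pow, hz]; norm_num
  have fin : ‖S L z w‖ ≤ ε / 2 * L → ‖S L z w‖ * ‖1 - z ^ (2 * F)‖ ≤ ε * L := fun h => by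
    calc _ ≤ (ε / 2 * L) * 2 := mul_le_mul h hz2 (norm_nonneg _) (by positivity)
      _ = _ := by ring
  by_cases hA : ∀ d, 1 ≤ d → d < H → (H : ℝ) / L ≤ ‖1 - w ^ (2 * (1 * d))‖
  · apply fin
    have := vdc z w hz hw L H 1 hH0 hLp H (ε / 4) hH' (by positivity) hHK hA
    push_cast at this
    nlinarith
  push Not at hA
  obtain ⟨d, hd1, hdH, hd⟩ := hA
  obtain ⟨e, he⟩ : d ∣ F := Nat.dvd_factorial hd1 hdH.le
  have hβ : ‖w ^ (2 * F)‖ = 1 := by rw [norm_pow, hw, one_pow]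
  have hβ1 : ‖1 - w ^ (2 * F)‖ ≤ F * H / L := by
    have a1 := one_sub_pow_le (w ^ (2 * (1 * d))) (by rw [norm_pow, hw, one_pow]) e
    have a2 : (w ^ (2 * (1 * d))) ^ e = w ^ (2 * F) := by rw [← pow_mul, he]; ring_nf
    rw [a2] at a1
    have a3 : (e : ℝ) ≤ F := by
      have : e ≤ F := by rw [he]; exact Nat.le_mul_of_pos_left e hd1
      exact_mod_cast this
    calc _ ≤ e * ‖1 - w ^ (2 * (1 * d))‖ := a1
      _ ≤ F * (H / L) := by gcongr
      _ = _ := by ring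
  by_cases hB : ε / 6 / L ≤ ‖1 - w ^ (2 * F)‖
  · apply fin
    have := vdc z w hz hw L H (F * D) hH0 hLp H (ε / 4) hH' (by positivity) hHK (by
      intro d' h1 h2
      have a2 : w ^ (2 * (F * D * d')) = (w ^ (2 * F)) ^ (D * d') := by rw [← pow_mul]; ring_nf
      rw [a2]
      have h1' : (1 : ℝ) ≤ d' := by exact_mod_cast h1
      have h2' : (d' : ℝ) ≤ H := by exact_mod_cast h2.le
      refine le_trans ?_ (le_one_sub_pow _ hβ (D * d') ?_)
      · calc (H : ℝ) / L ≤ D * 1 / 2 * (ε / 6 / L) := by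
              rw [div_lt_iff₀ hε] at hD
              rw [div_le_iff₀ hL']; field_simp; linarith
          _ ≤ _ := by push_cast; gcongr
      · calc _ ≤ (D * H : ℝ) * (F * H / L) := by push_cast; gcongr
          _ ≤ 1 := by rw [← mul_div_assoc, div_le_one hL']; linarith)
    push_cast at this
    nlinarith
  push Not at hB
  let φ : ℕ → ℂ := fun x => z ^ x * w ^ (x ^ 2)
  have hφ : ∀ x, ‖φ x‖ = 1 := fun x => by simp [φ, hz, hw]
  have c1 := shift_le φ (fun x => (hφ x).le) L (2 * F)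
  have c2 : ‖z ^ (2 * F) * S L z w - ∑ x ∈ range L, φ (x + 2 * F)‖ ≤ L * (ε / 2) := by
    rw [S, mul_sum, ← sum_sub_distrib]
    refine (norm_sum_le _ _).trans ?_
    refine (sum_le_sum (g := fun _ => ε / 2) fun x hx => ?_).trans (by simp)
    have e1 : z ^ (2 * F) * (z ^ x * w ^ (x ^ 2)) - φ (x + 2 * F) =
        z ^ (2 * F) * φ x * (1 - (w ^ (2 * F)) ^ (2 * x + 2 * F)) := by
      simp only [φ]; ring
    rw [e1, norm_mul, norm_mul, norm_pow, hz, hφ, one_pow, one_mul, one_mul]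
    refine (one_sub_pow_le _ hβ _).trans ?_
    have hx' : (x : ℝ) ≤ L := by exact_mod_cast (mem_range.mp hx).le
    calc _ ≤ (3 * L : ℝ) * (ε / 6 / L) := by
          push_cast
          exact mul_le_mul (by linarith) hB.le (norm_nonneg _) (by positivity)
      _ = ε / 2 := by field_simp; ring
  rw [← norm_mul]
  have e2 : S L z w * (1 - z ^ (2 * F)) =
      -(∑ x ∈ range L, φ (x + 2 * F) - ∑ x ∈ range L, φ x) -
        (z ^ (2 * F) * S L z w - ∑ x ∈ range L, φ (x + 2 * F)) := by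
    simp only [S, φ]; ring
  rw [e2]
  refine (norm_sub_le _ _).trans ?_
  rw [norm_neg]
  push_cast at c1
  nlinarith

end Pool.Agent.H12.Weyl
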