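import Mathlib
import Pool.Agent.H12.Weyl
import Pool.Agent.H12.Energy

set_option autoImplicit false

namespace Pool.Agent.H12.Sphere

open Finset Pool.Agent.H12.Weyl Pool.Agent.H12.Energy

lemma orth {G : Type} [AddCommGroup G] [Fintype G] [DecidableEq G] {ι κ : Type}
    (s : Finset ι) (t : Finset κ) (u : ι → ℂ) (u' : κ → ℂ) (N : ι → G) (N' : κ → G) :
    ∑ ψ : AddChar G ℂ, (∑ i ∈ s, u i * ψ (N i)) * (starRingEnd ℂ) (∑ j ∈ t, u' j * ψ (N' j)) =
      Fintype.card G * ∑ i ∈ s, ∑ j ∈ t, if N i = N' j then u i * (starRingEnd ℂ) (u' j) else 0 := by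
  have e : ∀ ψ : AddChar G ℂ, (∑ i ∈ s, u i * ψ (N i)) * (starRingEnd ℂ) (∑ j ∈ t, u' j * ψ (N' j)) =
      ∑ i ∈ s, ∑ j ∈ t, u i * (starRingEnd ℂ) (u' j) * ψ (N i - N' j) := by
    intro ψ
    rw [map_sum, sum_mul_sum]
    refine sum_congr rfl fun i _ => sum_congr rfl fun j _ => ?_
    rw [map_mul, ← AddChar.map_neg_eq_conj, sub_eq_add_neg, AddChar.map_add_eq_mul]; ring
  simp only [e]
  rw [sum_comm, mul_sum]
  refine sum_congr rfl fun i _ => ?_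
  rw [sum_comm, mul_sum]
  refine sum_congr rfl fun j _ => ?_
  rw [← mul_sum, AddChar.sum_apply_eq_ite]
  by_cases h : N i = N' j
  · simp [h]; ring
  · simp [h, sub_eq_zero]

lemma cast_inj {M a b : ℕ} (ha : a < M) (hb : b < M) (h : (a : ZMod M) = b) : a = b := by
  have := congrArg ZMod.val h
  rwa [ZMod.val_cast_of_lt ha, ZMod.val_cast_of_lt hb] at this

lemma char_nat {M : ℕ} [NeZero M] (χ : AddChar (ZMod M) ℂ) (n : ℕ) : χ n = χ 1 ^ n := by
  rw [← AddChar.map_nsmul_eq_pow, nsmul_eq_mul, mul_one]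

lemma triple (L M : ℕ) [NeZero M] (hM : 3 * L ^ 2 < M) (z1 z2 z3 : ℂ) (h1 : ‖z1‖ = 1)
    (h2 : ‖z2‖ = 1) (h3 : ‖z3‖ = 1) :
    ∑ χ : AddChar (ZMod M) ℂ, ‖S L z1 (χ 1) * S L z2 (χ 1) * S L z3 (χ 1)‖ ^ 2 ≤
      M * (433 * L ^ 4) := by
  let u : T3 → ℂ := fun x => z1 ^ x.1 * z2 ^ x.2.1 * z3 ^ x.2.2
  have hu : ∀ x, ‖u x‖ = 1 := fun x => by simp [u, h1, h2, h3]
  have e : ∀ χ : AddChar (ZMod M) ℂ, S L z1 (χ 1) * S L z2 (χ 1) * S L z3 (χ 1) =
      ∑ x ∈ Energy.box L, u x * χ (sq3 x : ℕ) := by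
    intro χ
    rw [mul_assoc, S, S, S, sum_mul_sum (range L) (range L), sum_mul]
    simp only [Energy.box, sum_product, mul_sum]
    refine sum_congr rfl fun a _ => sum_congr rfl fun b _ => sum_congr rfl fun c _ => ?_
    rw [char_nat]; simp only [u, sq3]; ring
  have h4 := orth (Energy.box L) (Energy.box L) u u (fun x => ((sq3 x : ℕ) : ZMod M)) (fun x => ((sq3 x : ℕ) : ZMod M))
  simp only [← e, Complex.mul_conj, Complex.normSq_eq_norm_sq, ZMod.card] at h4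
  have h5 := congrArg norm h4
  rw [← Complex.ofReal_sum, Complex.norm_real, norm_mul, Complex.norm_natCast] at h5
  refine (le_abs_self _).trans (h5.le.trans ?_)
  gcongr
  refine le_trans ?_ (energy L)
  rw [← sum_product', En, card_filter]
  refine (norm_sum_le _ _).trans ?_
  push_cast
  refine sum_le_sum fun p hp => ?_
  have hb : ∀ x ∈ Energy.box L, sq3 x < M := by
    intro x hx
    simp only [Energy.box, mem_product, mem_range] at hx
    have a1 : x.1 ^ 2 ≤ L ^ 2 := Nat.pow_le_pow_left hx.1.le 2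
    have a2 : x.2.1 ^ 2 ≤ L ^ 2 := Nat.pow_le_pow_left hx.2.1.le 2
    have a3 : x.2.2 ^ 2 ≤ L ^ 2 := Nat.pow_le_pow_left hx.2.2.le 2
    simp only [sq3]; omega
  split_ifs with c1 c2 c2
  · rw [norm_mul, Complex.norm_conj, hu, hu]; simp
  · exact absurd (cast_inj (hb _ (mem_product.mp hp).1) (hb _ (mem_product.mp hp).2) c1) c2
  · simp
  · simp

def sph (L lam : ℕ) : Finset (Fin 7 → ℕ) :=
  (Fintype.piFinset fun _ => range L).filter fun x => ∑ c, x c ^ 2 = lam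

lemma sumsq_lt (L : ℕ) (x : Fin 7 → ℕ) (hx : x ∈ Fintype.piFinset fun _ : Fin 7 => range L) :
    ∑ c, x c ^ 2 < 7 * L ^ 2 := by
  have h : ∀ c, x c ^ 2 < L ^ 2 := fun c =>
    Nat.pow_lt_pow_left (mem_range.mp (Fintype.mem_piFinset.mp hx c)) two_ne_zero
  calc ∑ c, x c ^ 2 < ∑ _c : Fin 7, L ^ 2 := sum_lt_sum_of_nonempty univ_nonempty fun c _ => h c
    _ = _ := by simp

lemma sph_bound (L lam Q : ℕ) (hlam : lam < 7 * L ^ 2) (ε : ℝ) (hε : 0 ≤ ε)
    (hW : ∀ z w : ℂ, ‖z‖ = 1 → ‖w‖ = 1 → ‖S L z w‖ * ‖1 - z ^ Q‖ ≤ ε * L)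
    (z : Fin 7 → ℂ) (hz : ∀ c, ‖z c‖ = 1) (c0 : Fin 7) :
    ‖∑ x ∈ sph L lam, ∏ c, z c ^ x c‖ * ‖1 - z c0 ^ Q‖ ≤ ε * L * (433 * L ^ 4) := by
  set M := 7 * L ^ 2 + 1 with hM
  have : NeZero M := ⟨by omega⟩
  have h1 := orth (Fintype.piFinset fun _ : Fin 7 => range L) (univ : Finset Unit)
    (fun x => ∏ c, z c ^ x c) (fun _ => 1) (fun x => ((∑ c, x c ^ 2 : ℕ) : ZMod M))
    (fun _ => ((lam : ℕ) : ZMod M))
  have e1 : ∀ χ : AddChar (ZMod M) ℂ, ∑ x ∈ Fintype.piFinset fun _ : Fin 7 => range L,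
      (∏ c, z c ^ x c) * χ ((∑ c, x c ^ 2 : ℕ) : ZMod M) = ∏ c, S L (z c) (χ 1) := by
    intro χ
    simp only [S]
    rw [prod_univ_sum]
    refine sum_congr rfl fun x _ => ?_
    rw [char_nat, prod_mul_distrib, prod_pow_eq_pow_sum]
  have e2 : (∑ x ∈ Fintype.piFinset fun _ : Fin 7 => range L, ∑ _j : Unit,
      if ((∑ c, x c ^ 2 : ℕ) : ZMod M) = ((lam : ℕ) : ZMod M) then
        (∏ c, z c ^ x c) * (starRingEnd ℂ) 1 else 0) = ∑ x ∈ sph L lam, ∏ c, z c ^ x c := by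
    rw [sph, sum_filter]
    refine sum_congr rfl fun x hx => ?_
    have := sumsq_lt L x hx
    rw [Fintype.sum_unique, map_one, mul_one]
    refine if_congr ⟨fun h => cast_inj (by omega) (by omega) h, fun h => by rw [h]⟩ rfl rfl
  simp only [e1] at h1
  rw [e2, ZMod.card] at h1
  have hM' : (0 : ℝ) < M := by exact_mod_cast (by omega : 0 < M)
  apply le_of_mul_le_mul_left _ hM'
  rw [← mul_assoc, ← Complex.norm_natCast M, ← norm_mul, ← h1, Complex.norm_natCast]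
  refine (mul_le_mul_of_nonneg_right (norm_sum_le _ _) (norm_nonneg _)).trans ?_
  rw [sum_mul]
  let y : Fin 6 → ℂ := fun j => z (c0.succAbove j)
  have t1 := triple L M (by omega) (y 0) (y 1) (y 2) (hz _) (hz _) (hz _)
  have t2 := triple L M (by omega) (y 3) (y 4) (y 5) (hz _) (hz _) (hz _)
  refine (sum_le_sum (g := fun χ : AddChar (ZMod M) ℂ => ε * L / 2 *
    (‖S L (y 0) (χ 1) * S L (y 1) (χ 1) * S L (y 2) (χ 1)‖ ^ 2 +
      ‖S L (y 3) (χ 1) * S L (y 4) (χ 1) * S L (y 5) (χ 1)‖ ^ 2)) fun χ _ => ?_).trans ?_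
  · rw [Fintype.sum_unique, norm_mul, Complex.norm_conj, one_mul, AddChar.norm_apply, mul_one,
      Fin.prod_univ_succAbove _ c0, Fin.prod_univ_six]
    have b1 := hW (z c0) (χ 1) (hz c0) (AddChar.norm_apply _ _)
    set a := ‖S L (y 0) (χ 1) * S L (y 1) (χ 1) * S L (y 2) (χ 1)‖ with ha
    set b := ‖S L (y 3) (χ 1) * S L (y 4) (χ 1) * S L (y 5) (χ 1)‖ with hb
    have b2 : a * b ≤ (a ^ 2 + b ^ 2) / 2 := by nlinarith [sq_nonneg (a - b)]
    have hab : 0 ≤ a * b := mul_nonneg (norm_nonneg _) (norm_nonneg _)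
    calc _ = (‖S L (z c0) (χ 1)‖ * ‖1 - z c0 ^ Q‖) * (a * b) := by
          simp only [ha, hb, norm_mul, y]; ring
      _ ≤ (ε * L) * ((a ^ 2 + b ^ 2) / 2) := mul_le_mul b1 b2 hab (by positivity)
      _ = _ := by ring
  · rw [← mul_sum, sum_add_distrib]
    calc _ ≤ ε * L / 2 * (M * (433 * L ^ 4) + M * (433 * L ^ 4)) := by gcongr
      _ = _ := by ring

theorem sphere (ε : ℝ) (hε : 0 < ε) : ∃ Q L lam : ℕ, 0 < Q ∧ 0 < lam ∧ 0 < (sph L lam).card ∧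
    ∀ z : Fin 7 → ℂ, (∀ c, ‖z c‖ = 1) → ∀ c0,
      ‖∑ x ∈ sph L lam, ∏ c, z c ^ x c‖ * ‖1 - z c0 ^ Q‖ ≤ ε * (sph L lam).card := by
  obtain ⟨Q, hQ, L0, hW⟩ := weyl (ε / (7 * 433)) (by positivity)
  set L := L0 + 2 with hL
  have hL' : (2 : ℝ) ≤ L := by exact_mod_cast (by omega : 2 ≤ L)
  obtain ⟨lam, h1, h2⟩ := exists_le_card_fiber_of_nsmul_le_card_of_maps_to (M := ℝ)
    (s := Fintype.piFinset fun _ : Fin 7 => range L) (t := range (7 * L ^ 2))
    (f := fun x => ∑ c, x c ^ 2) (b := (L : ℝ) ^ 5 / 7)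
    (fun x hx => mem_range.mpr (sumsq_lt L x hx)) ⟨0, mem_range.mpr (by positivity)⟩
    (by simp; apply le_of_eq; ring)
  change _ ≤ ((sph L lam).card : ℝ) at h2
  have h3 : (32 : ℝ) ≤ (L : ℝ) ^ 5 := by
    calc (32 : ℝ) = 2 ^ 5 := by norm_num
      _ ≤ _ := by gcongr
  have h4 : 1 < (sph L lam).card := by
    have : (1 : ℝ) < (sph L lam).card := by linarith
    exact_mod_cast this
  refine ⟨Q, L, lam, hQ, ?_, by omega, fun z hz c0 => ?_⟩
  · rcases Nat.eq_zero_or_pos lam with rfl | h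
    · exfalso
      obtain ⟨x, hx, y, hy, hxy⟩ := one_lt_card.mp h4
      have k : ∀ x ∈ sph L 0, x = 0 := by
        intro x hx
        have := (mem_filter.mp hx).2
        rw [sum_eq_zero_iff] at this
        funext c
        simpa using this c (mem_univ _)
      exact hxy ((k x hx).trans (k y hy).symm)
    · exact h
  · refine (sph_bound L lam Q (mem_range.mp h1) _ (by positivity) (hW L (by omega)) z hz c0).trans ?_
    calc _ = ε * ((L : ℝ) ^ 5 / 7) := by ring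
      _ ≤ _ := by gcongr

end Pool.Agent.H12.Sphere
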