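import Mathlib

set_option autoImplicit false

namespace Pool.Agent.H12.SubCount

open Finset Module Submodule
open Classical

/-- number of points of a projective space of vector dimension `m` -/
def up (q : ℕ) : ℕ → ℕ
  | 0 => 0
  | m + 1 => up q m + q ^ m

/-- Gaussian binomial -/
def gb (q : ℕ) : ℕ → ℕ → ℕ
  | _, 0 => 1
  | n, j + 1 => up q n * gb q (n - 1) j / up q (j + 1)

theorem up_mul (q : ℕ) (m : ℕ) : up q m * q + 1 = up q m + q ^ m := by
  induction m with
  | zero => simp [up]
  | succ m ih =>
    simp only [up]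
    have : (up q m + q ^ m) * q + 1 = (up q m * q + 1) + q ^ m * q := by ring
    rw [this, ih]; ring

theorem up_pos {q : ℕ} (hq : 0 < q) (m : ℕ) : 0 < up q (m + 1) := by
  simp only [up]; have := pow_pos hq m; omega

variable {F V : Type*} [Field F] [Fintype F] [AddCommGroup V] [Module F V] [Fintype V]

/-- dimension -/
noncomputable abbrev d (W : Submodule F V) : ℕ := finrank F W

/-- interval of subspaces -/
noncomputable def I (K G : Submodule F V) : Finset (Submodule F V) :=
  univ.filter fun W => K ≤ W ∧ W ≤ G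

omit [Fintype F] in
@[simp] theorem mem_I {K G W : Submodule F V} : W ∈ I K G ↔ K ≤ W ∧ W ≤ G := by simp [I]

theorem card_sub (W : Submodule F V) :
    (univ.filter fun v : V => v ∈ W).card = Fintype.card F ^ d W := by
  rw [← Module.card_eq_pow_finrank (K := F) (V := W), Fintype.card_subtype]

theorem card_diff {K W : Submodule F V} (h : K ≤ W) :
    (univ.filter fun v : V => v ∈ W ∧ v ∉ K).card + Fintype.card F ^ d K
      = Fintype.card F ^ d W := by
  rw [← card_sub K, ← card_sub W, ← card_union_of_disjoint]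
  · congr 1; ext v; simp only [mem_union, mem_filter, mem_univ, true_and]
    constructor
    · rintro (h1 | h1)
      · exact h1.1
      · exact h h1
    · intro h1; by_cases h2 : v ∈ K
      · exact Or.inr h2
      · exact Or.inl ⟨h1, h2⟩
  · rw [disjoint_left]; intro v h1 h2
    simp only [mem_filter, mem_univ, true_and] at h1 h2
    exact h1.2 h2

omit [Fintype F] in
theorem d_mono {K W : Submodule F V} (h : K ≤ W) : d K ≤ d W := Submodule.finrank_mono h

omit [Fintype F] in
theorem eq_of_d {K W : Submodule F V} (h : K ≤ W) (h2 : d W ≤ d K) : K = W :=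
  Submodule.eq_of_le_of_finrank_le h h2

omit [Fintype F] in
theorem d_sup {K : Submodule F V} {v : V} (hv : v ∉ K) : d (K ⊔ span F {v}) = d K + 1 :=
  Submodule.finrank_sup_span_singleton hv

theorem count_one {K G : Submodule F V} (h : K ≤ G) :
    ((I K G).filter fun W => d W = d K + 1).card = up (Fintype.card F) (d G - d K) := by
  set q := Fintype.card F with hq
  have hq1 : 1 < q := Fintype.one_lt_card
  set T := univ.filter fun v : V => v ∈ G ∧ v ∉ K with hT
  have hmap : Set.MapsTo (fun v : V => K ⊔ span F {v}) (T : Set V)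
      (((I K G).filter fun W => d W = d K + 1 : Finset _) : Set (Submodule F V)) := by
    intro v hv
    simp only [hT, coe_filter, mem_univ, true_and, Set.mem_setOf_eq] at hv
    simp only [coe_filter, mem_I, Set.mem_setOf_eq]
    refine ⟨⟨le_sup_left, sup_le h ?_⟩, d_sup hv.2⟩
    rw [span_le]; simpa using hv.1
  have h1 := card_eq_sum_card_fiberwise hmap
  have h2 : ∀ W ∈ (I K G).filter fun W => d W = d K + 1,
      (T.filter fun v => K ⊔ span F {v} = W).card = q ^ d K * (q - 1) := by
    intro W hW
    simp only [mem_filter, mem_I] at hW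
    have h3 := card_diff hW.1.1
    have : (T.filter fun v => K ⊔ span F {v} = W) = univ.filter fun v : V => v ∈ W ∧ v ∉ K := by
      ext v
      simp only [hT, mem_filter, mem_univ, true_and]
      constructor
      · rintro ⟨⟨-, h5⟩, h6⟩
        refine ⟨?_, h5⟩
        rw [← h6]; exact mem_sup_right (subset_span rfl)
      · rintro ⟨h5, h6⟩
        refine ⟨⟨hW.1.2 h5, h6⟩, eq_of_d (sup_le hW.1.1 ?_) ?_⟩
        · rw [span_le]; simpa using h5
        · rw [d_sup h6, hW.2]
    rw [this]
    rw [hW.2, ← hq, pow_succ] at h3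
    rw [Nat.mul_sub, mul_one]; omega
  rw [sum_congr rfl h2, sum_const, smul_eq_mul] at h1
  have h4 := card_diff h
  rw [← hT, ← hq, h1] at h4
  obtain ⟨n, hn⟩ := Nat.exists_eq_add_of_le (d_mono h)
  rw [hn, Nat.add_sub_cancel_left]
  rw [hn, pow_add] at h4
  have h5 := up_mul q n
  set c := ((I K G).filter fun W => d W = d K + 1).card
  have hp : 0 < q ^ d K := pow_pos (by omega) _
  obtain ⟨r, hr⟩ : ∃ r, q = r + 1 := ⟨q - 1, by omega⟩
  have hr0 : 0 < r := by omega
  have h6 : c * r + 1 = q ^ n := by
    apply Nat.eq_of_mul_eq_mul_left hp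
    rw [← h4, hr]; simp only [Nat.add_sub_cancel]; ring
  have h7 : up q n * r + 1 = q ^ n := by
    have : up q n * q = up q n * r + up q n := by rw [hr]; ring
    omega
  exact Nat.eq_of_mul_eq_mul_right hr0 (by omega)

theorem count (j : ℕ) : ∀ {K G : Submodule F V}, K ≤ G →
    ((I K G).filter fun W => d W = d K + j).card = gb (Fintype.card F) (d G - d K) j := by
  induction j with
  | zero =>
    intro K G h
    simp only [gb, add_zero]
    rw [card_eq_one]
    refine ⟨K, ?_⟩
    ext W; simp only [mem_filter, mem_I, mem_singleton]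
    constructor
    · rintro ⟨⟨h1, -⟩, h2⟩; exact (eq_of_d h1 h2.le).symm
    · rintro rfl; exact ⟨⟨le_rfl, h⟩, rfl⟩
  | succ j ih =>
    intro K G h
    set q := Fintype.card F with hq
    have hq1 : 0 < q := Fintype.card_pos
    have key := card_mul_eq_card_mul (s := (I K G).filter fun W => d W = d K + (j + 1))
      (t := (I K G).filter fun W => d W = d K + 1) (fun W P => P ≤ W)
      (m := up q (j + 1)) (n := gb q (d G - d K - 1) j) ?_ ?_
    · rw [count_one h] at key
      simp only [gb]
      rw [← key, Nat.mul_div_cancel _ (up_pos hq1 j)]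
    · intro W hW
      simp only [mem_filter, mem_I] at hW
      have := count_one hW.1.1
      rw [hW.2, Nat.add_sub_cancel_left] at this
      rw [← this]; congr 1; ext P
      simp only [mem_bipartiteAbove, mem_filter, mem_I]
      constructor
      · rintro ⟨⟨⟨h1, -⟩, h2⟩, h3⟩; exact ⟨⟨h1, h3⟩, h2⟩
      · rintro ⟨⟨h1, h3⟩, h2⟩; exact ⟨⟨⟨h1, h3.trans hW.1.2⟩, h2⟩, h3⟩
    · intro P hP
      simp only [mem_filter, mem_I] at hP
      have := ih hP.1.2
      rw [hP.2, ← Nat.sub_sub] at this
      rw [← this]; congr 1; ext W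
      simp only [mem_bipartiteBelow, mem_filter, mem_I]
      constructor
      · rintro ⟨⟨⟨-, h1⟩, h2⟩, h3⟩; exact ⟨⟨h3, h1⟩, by omega⟩
      · rintro ⟨⟨h1, h3⟩, h2⟩; exact ⟨⟨⟨hP.1.1.trans h1, h3⟩, by omega⟩, h1⟩

theorem sum_I {R : Type*} [CommSemiring R] {K G : Submodule F V} (h : K ≤ G) (f : ℕ → R) :
    ∑ W ∈ I K G, f (d W) =
      ∑ j ∈ range (d G - d K + 1), (gb (Fintype.card F) (d G - d K) j : R) * f (d K + j) := by
  rw [← sum_fiberwise_of_maps_to (s := I K G) (t := range (d G - d K + 1))
    (g := fun W => d W - d K)]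
  · refine sum_congr rfl fun j _ => ?_
    rw [← count j h, ← nsmul_eq_mul, ← sum_const]
    refine sum_congr ?_ ?_
    · ext W; simp only [mem_filter, mem_I]
      constructor
      · rintro ⟨h1, h2⟩; have := d_mono h1.1; exact ⟨h1, by omega⟩
      · rintro ⟨h1, h2⟩; exact ⟨h1, by omega⟩
    · intro W hW
      simp only [mem_filter] at hW
      rw [hW.2]
  · intro W hW
    simp only [mem_I] at hW
    have := d_mono hW.2
    simp only [mem_range]; omega

end Pool.Agent.H12.SubCount
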