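import Mathlib

set_option autoImplicit false

namespace Pool.Agent.H12.Upc

/-- the window of the cyclic word `u` (wildcard `none`) at position `i` covers `w` -/
def Covers {a n N : ℕ} (u : ZMod N → Option (Fin a)) (i : ZMod N) (w : Fin n → Fin a) : Prop :=
  ∀ j : Fin n, u (i + (j : ℕ)) = none ∨ u (i + (j : ℕ)) = some (w j)

/-- every word of length `n` is covered by exactly one window -/
def IsUpcycle {a N : ℕ} (n : ℕ) (u : ZMod N → Option (Fin a)) : Prop :=
  ∀ w : Fin n → Fin a, ∃! i : ZMod N, Covers u i w

/-- at least one wildcard and at least one letter -/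
def NonTrivial {a N : ℕ} (u : ZMod N → Option (Fin a)) : Prop :=
  (∃ i, u i = none) ∧ ∃ i, u i ≠ none

/-- every window of length `n` contains exactly `d` wildcards -/
def Diamondicity {a N : ℕ} (n : ℕ) (u : ZMod N → Option (Fin a)) (d : ℕ) : Prop :=
  ∀ i : ZMod N, (Finset.univ.filter fun j : Fin n => u (i + (j : ℕ)) = none).card = d

def bits : ℕ := 2415772383143440381756989279245772361507036552078025619440456483511859118486093387072369217452546554422081548161086597750816046734969867431457399533136896

def g (m : ℕ) : Option (Fin 2) :=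
  if m % 4 = 0 then none else if bits.testBit (m % 512) then some 1 else some 0

def U (x : ZMod 512) : Option (Fin 2) := g x.val

def ok (j : ℕ) (c : Fin 2) (i : ℕ) : Bool := g (i + j) == none || g (i + j) == some c

def chk : ℕ → ℕ → List ℕ → Bool
  | 0, _, L => L.length == 1
  | r + 1, j, L => chk r (j + 1) (L.filter (ok j 0)) && chk r (j + 1) (L.filter (ok j 1))

theorem chk_spec (w : ℕ → Fin 2) : ∀ r j L, chk r j L = true →
    ∃ i, ∀ x, (x ∈ L ∧ ∀ t < r, ok (j + t) (w (j + t)) x = true) ↔ x = i := by
  intro r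
  induction r with
  | zero =>
    intro j L h
    obtain ⟨i, rfl⟩ := List.length_eq_one_iff.1 (by simpa [chk] using h)
    exact ⟨i, by simp⟩
  | succ r ih =>
    intro j L h
    simp only [chk, Bool.and_eq_true] at h
    have h' : chk r (j + 1) (L.filter (ok j (w j))) = true := by
      rcases Fin.exists_fin_two.1 ⟨w j, rfl⟩ with e | e
      · rw [e]; exact h.1
      · rw [e]; exact h.2
    obtain ⟨i, hi⟩ := ih _ _ h'
    refine ⟨i, fun x => ?_⟩
    rw [← hi x, List.mem_filter]
    constructor
    · rintro ⟨a, b⟩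
      refine ⟨⟨a, b 0 (by omega)⟩, fun t ht => ?_⟩
      have := b (t + 1) (by omega)
      rwa [show j + (t + 1) = j + 1 + t by omega] at this
    · rintro ⟨⟨a, b⟩, c⟩
      refine ⟨a, fun t ht => ?_⟩
      rcases t with _ | t
      · exact b
      · have := c t (by omega)
        rwa [show j + 1 + t = j + (t + 1) by omega] at this

theorem chk_true : chk 12 0 (List.range 512) = true := by decide +kernel

theorem g_mod (m : ℕ) : g (m % 512) = g m := by
  unfold g
  rw [Nat.mod_mod, Nat.mod_mod_of_dvd _ (by norm_num)]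

theorem U_add (i : ZMod 512) (j : ℕ) : U (i + j) = g (i.val + j) := by
  rw [U, ZMod.val_add, g_mod, ZMod.val_natCast, ← g_mod, Nat.add_mod_mod, g_mod]

theorem U_up : IsUpcycle 12 U := by
  intro w
  obtain ⟨i, hi⟩ := chk_spec (fun t => if h : t < 12 then w ⟨t, h⟩ else 0) 12 0 _ chk_true
  have key : ∀ x : ZMod 512, Covers U x w ↔ x.val = i := by
    intro x
    rw [← hi, List.mem_range]
    constructor
    · intro h
      refine ⟨ZMod.val_lt x, fun t ht => ?_⟩
      have := h ⟨t, ht⟩
      rw [U_add] at this
      simpa [ok, ht] using this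
    · rintro ⟨-, h⟩ j
      have := h j j.2
      rw [U_add]
      simpa [ok, j.2] using this
  have hlt : i < 512 := by simpa using ((hi i).2 rfl).1
  refine ⟨(i : ZMod 512), (key _).2 (ZMod.val_cast_of_lt hlt), fun y hy => ?_⟩
  rw [← (key y).1 hy, ZMod.natCast_zmod_val]

theorem U_nt : NonTrivial U := ⟨⟨0, by decide +kernel⟩, 1, by decide +kernel⟩

theorem g_none (m : ℕ) : g m = none ↔ m % 4 = 0 := by
  unfold g
  split_ifs <;> simp [*]

theorem U_d : Diamondicity 12 U 3 := by
  intro i
  simp only [U_add, g_none]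
  have : ∀ r < 4, (Finset.univ.filter fun j : Fin 12 => (r + (j : ℕ)) % 4 = 0).card = 3 := by
    decide
  rw [← this (i.val % 4) (Nat.mod_lt _ (by norm_num))]
  simp only [Nat.mod_add_mod]

end Pool.Agent.H12.Upc
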