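import Mathlib
import Pool.Agent.H12.Sphere

set_option autoImplicit false

namespace Pool.Agent.H12.UpperChrom

open Finset Pool.Agent.H12.Weyl Pool.Agent.H12.Sphere

lemma shiftC {G : Type} [AddCommGroup G] [Fintype G] [DecidableEq G] {ι : Type} (X : Finset ι)
    (s : ι → G) (g : G → ℝ) (hg : ∀ h, g h ^ 2 ≤ 1) (v : G) (η : ℝ) (hη0 : 0 ≤ η)
    (hη : ∀ ψ : AddChar G ℂ, ‖∑ x ∈ X, ψ (s x)‖ * ‖1 - ψ v‖ ≤ η) :
    ∑ h, ∑ x ∈ X, g h * g (h + s x + v) ≤ ∑ h, ∑ x ∈ X, g h * g (h + s x + 0) +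
      η * Fintype.card G := by
  let F : AddChar G ℂ → ℂ := fun ψ => ∑ h, (g h : ℂ) * ψ h
  have key : ∀ v : G, ∑ ψ : AddChar G ℂ, (F ψ * (starRingEnd ℂ) (F ψ)) * ((∑ x ∈ X, ψ (s x)) * ψ v) =
      Fintype.card G * ((∑ h, ∑ x ∈ X, g h * g (h + s x + v) : ℝ) : ℂ) := by
    intro v
    have h1 := orth (univ ×ˢ X) univ (fun q : G × ι => (g q.1 : ℂ)) (fun h : G => (g h : ℂ))
      (fun q => q.1 + s q.2 + v) id
    simp only [sum_ite_eq, id, mem_univ, if_true, Complex.conj_ofReal] at h1
    rw [sum_product] at h1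
    push_cast
    rw [← h1]
    refine sum_congr rfl fun ψ _ => ?_
    rw [sum_product]
    have e : ∑ x : G, ∑ y ∈ X, (g x : ℂ) * ψ (x + s y + v) = F ψ * ((∑ x ∈ X, ψ (s x)) * ψ v) := by
      simp only [F]
      rw [sum_mul (s := X), sum_mul_sum]
      refine sum_congr rfl fun x _ => sum_congr rfl fun y _ => ?_
      rw [AddChar.map_add_eq_mul, AddChar.map_add_eq_mul]; ring
    rw [e]; ring
  have par : ∑ ψ : AddChar G ℂ, ‖F ψ‖ ^ 2 ≤ Fintype.card G * Fintype.card G := by
    have h1 := orth univ univ (fun h : G => (g h : ℂ)) (fun h : G => (g h : ℂ)) id id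
    simp only [sum_ite_eq, id, mem_univ, if_true, Complex.conj_ofReal, Complex.mul_conj,
      Complex.normSq_eq_norm_sq] at h1
    have h2 : ∑ ψ : AddChar G ℂ, ‖F ψ‖ ^ 2 = Fintype.card G * ∑ h, g h * g h := by
      simp only [F]
      exact_mod_cast h1
    rw [h2]
    gcongr
    calc ∑ h, g h * g h ≤ ∑ _h : G, (1 : ℝ) := sum_le_sum fun h _ => by nlinarith [hg h]
      _ = _ := by simp
  have hN : (0 : ℝ) < Fintype.card G := by exact_mod_cast Fintype.card_pos
  have h3 : ‖(Fintype.card G : ℂ) * (((∑ h, ∑ x ∈ X, g h * g (h + s x + 0) : ℝ) : ℂ) -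
      ((∑ h, ∑ x ∈ X, g h * g (h + s x + v) : ℝ) : ℂ))‖ ≤ η * (Fintype.card G * Fintype.card G) := by
    rw [mul_sub, ← key, ← key, ← sum_sub_distrib]
    refine (norm_sum_le _ _).trans ?_
    refine (sum_le_sum (g := fun ψ => η * ‖F ψ‖ ^ 2) fun ψ _ => ?_).trans ?_
    · rw [← mul_sub, ← mul_sub, AddChar.map_zero_eq_one, norm_mul, norm_mul, norm_mul,
        Complex.norm_conj, ← sq, mul_comm]
      exact mul_le_mul_of_nonneg_right (hη ψ) (by positivity)
    · rw [← mul_sum]; gcongr
  rw [norm_mul, Complex.norm_natCast, ← Complex.ofReal_sub, Complex.norm_real, Real.norm_eq_abs] at h3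
  have h4 := neg_abs_le (∑ h, ∑ x ∈ X, g h * g (h + s x + 0) - ∑ h, ∑ x ∈ X, g h * g (h + s x + v))
  have h5 : |∑ h, ∑ x ∈ X, g h * g (h + s x + 0) - ∑ h, ∑ x ∈ X, g h * g (h + s x + v)| ≤
      η * Fintype.card G := le_of_mul_le_mul_left (by linarith) hN
  linarith

lemma one_sub_prod_le {ι : Type} (s : Finset ι) (f : ι → ℂ) (hf : ∀ i, ‖f i‖ = 1) :
    ‖1 - ∏ i ∈ s, f i‖ ≤ ∑ i ∈ s, ‖1 - f i‖ := by
  classical
  induction s using Finset.induction_on with
  | empty => simp
  | insert a s ha ih =>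
    rw [prod_insert ha, sum_insert ha]
    have e : 1 - f a * ∏ i ∈ s, f i = (1 - f a) + f a * (1 - ∏ i ∈ s, f i) := by ring
    rw [e]
    refine (norm_add_le _ _).trans ?_
    rw [norm_mul, hf, one_mul]; linarith

def Avoid (A : Set (Fin 7 → ℕ)) (lam : ℕ) : Prop :=
  ∀ y x : Fin 7 → ℕ, y ∈ A → y + x ∈ A → ∑ c, x c ^ 2 ≠ lam

def cst (M : ℕ) (x : Fin 7 → ℕ) : Fin 7 → ZMod M := fun c => (x c : ZMod M)

lemma char_cst {M : ℕ} [NeZero M] (ψ : AddChar (Fin 7 → ZMod M) ℂ) (x : Fin 7 → ℕ) :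
    ψ (cst M x) = ∏ c, ψ (Pi.single c 1) ^ x c := by
  have e : cst M x = ∑ c, x c • (Pi.single c 1 : Fin 7 → ZMod M) := by
    funext d
    simp [cst, Finset.sum_apply, Pi.single_apply]
  rw [e]
  simp only [← AddChar.map_nsmul_eq_pow]
  generalize (univ : Finset (Fin 7)) = s
  induction s using Finset.induction_on with
  | empty => simp
  | insert a s ha ih => rw [prod_insert ha, sum_insert ha, AddChar.map_add_eq_mul, ih]

lemma dense_le {G ι κ : Type} [AddCommGroup G] [Fintype G] [DecidableEq G] (X : Finset κ)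
    (hX : 0 < X.card) (s : κ → G) (f : G → ℝ) (hf : ∀ h, 0 ≤ f h) (t : ℝ) (ht : 0 < t)
    (h : ∑ h, ∑ x ∈ X, f h * f (h + s x) ≤ t ^ 2 / 4 * X.card * Fintype.card G) :
    ((univ.filter fun h => t < f h).card : ℝ) ≤ 5 / 8 * Fintype.card G := by
  set B := univ.filter fun h => t < f h with hB
  have h1 : ∀ x ∈ X, t ^ 2 * (2 * B.card - Fintype.card G) ≤ ∑ h, f h * f (h + s x) := by
    intro x _
    let b : G → ℝ := fun h => if t < f h then 1 else 0
    have hb : ∑ h, b h = B.card := by simp [b, hB]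
    have hb' : ∑ h, b (h + s x) = B.card := by
      rw [← hb]; exact Fintype.sum_equiv (Equiv.addRight (s x)) _ _ fun _ => rfl
    calc t ^ 2 * (2 * B.card - Fintype.card G) = ∑ h, t ^ 2 * (b h + b (h + s x) - 1) := by
          rw [← mul_sum, sum_sub_distrib, sum_add_distrib, hb, hb', sum_const, card_univ,
            nsmul_eq_mul]; ring
      _ ≤ _ := by
          refine sum_le_sum fun h _ => ?_
          have a1 := hf h
          have a2 := hf (h + s x)
          have a3 := mul_nonneg a1 a2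
          simp only [b]
          split_ifs with c1 c2 c2 <;> nlinarith
  rw [sum_comm] at h
  have h2 := (sum_le_sum h1).trans h
  rw [sum_const, nsmul_eq_mul] at h2
  have hX' : (0 : ℝ) < X.card := by exact_mod_cast hX
  have h3 : (X.card * t ^ 2) * (2 * B.card - Fintype.card G) ≤
      (X.card * t ^ 2) * (Fintype.card G / 4 : ℝ) := by linarith
  have := le_of_mul_le_mul_left h3 (by positivity)
  linarith

lemma good_card (M R : ℕ) [NeZero M] (hM : 56 * R ≤ M) :
    7 / 8 * (Fintype.card (Fin 7 → ZMod M) : ℝ) ≤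
      (univ.filter fun h : Fin 7 → ZMod M => ∀ c, (h c).val + R ≤ M).card := by
  have h1 : (Fintype.piFinset fun _ : Fin 7 => range (M - R)).card ≤
      (univ.filter fun h : Fin 7 → ZMod M => ∀ c, (h c).val + R ≤ M).card := by
    refine card_le_card_of_injOn (cst M) ?_ ?_
    · intro x hx
      simp only [coe_filter, mem_univ, true_and, Set.mem_ofPred_eq]
      intro c
      have := mem_range.mp (Fintype.mem_piFinset.mp hx c)
      simp only [cst]
      rw [ZMod.val_cast_of_lt (by omega)]; omega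
    · intro x hx y hy e
      funext c
      have h1 := mem_range.mp (Fintype.mem_piFinset.mp hx c)
      have h2 := mem_range.mp (Fintype.mem_piFinset.mp hy c)
      exact cast_inj (M := M) (by omega) (by omega) (congrFun e c)
  simp only [Fintype.card_piFinset, card_range, prod_const, card_univ, Fintype.card_fin] at h1
  have h2 : (((M - R) ^ 7 : ℕ) : ℝ) ≤ _ := Nat.cast_le.mpr h1
  refine le_trans ?_ h2
  rw [Fintype.card_fun, ZMod.card, Fintype.card_fin]
  push_cast [Nat.cast_sub (by omega : R ≤ M)]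
  have hM' : 56 * (R : ℝ) ≤ M := by exact_mod_cast hM
  calc (7 / 8 * (M : ℝ) ^ 7 : ℝ) ≤ (55 / 56) ^ 7 * (M : ℝ) ^ 7 := by gcongr; norm_num
    _ = (55 / 56 * (M : ℝ)) ^ 7 := by ring
    _ ≤ _ := by gcongr; linarith

open Classical in
lemma sparse (δ : ℝ) (hδ : 0 < δ) (ι : Type) [Fintype ι] [Nonempty ι] (p : ι → Fin 7 → ℕ) :
    ∃ Q lam : ℕ, 0 < Q ∧ 0 < lam ∧ ∃ (κ : Type) (_ : Fintype κ) (_ : Nonempty κ)
      (w : κ → Fin 7 → ℕ), ∀ A : Set (Fin 7 → ℕ), Avoid A lam →
        (Fintype.card κ : ℝ) / 4 ≤ (univ.filter fun h : κ =>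
          ((univ.filter fun i : ι => w h + Q • p i ∈ A).card : ℝ) ≤ δ * Fintype.card ι).card := by
  set T := ∑ i, ∑ c, p i c + 1 with hT
  have hT1 : ∀ i, ∑ c, p i c ≤ T := fun i =>
    (single_le_sum (f := fun i => ∑ c, p i c) (fun _ _ => Nat.zero_le _) (mem_univ i)).trans
      (Nat.le_succ _)
  have hT0 : (0 : ℝ) < T := by exact_mod_cast Nat.succ_pos _
  obtain ⟨Q, L, lam, hQ, hlam, hX, hS⟩ := sphere (δ ^ 2 / (8 * T)) (by positivity)
  set M := 56 * (Q * T + L) + 1 with hM
  have : NeZero M := ⟨by omega⟩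
  refine ⟨Q, lam, hQ, hlam, Fin 7 → ZMod M, inferInstance, inferInstance,
    fun h c => (h c).val, fun A hA => ?_⟩
  let g : (Fin 7 → ZMod M) → ℝ := fun h =>
    if (fun c => (h c).val) ∈ A ∧ ∀ c, (h c).val + L ≤ M then 1 else 0
  have hg0 : ∀ h, 0 ≤ g h := fun h => by simp only [g]; split_ifs <;> norm_num
  have hg1 : ∀ h, g h ^ 2 ≤ 1 := fun h => by simp only [g]; split_ifs <;> norm_num
  have hval : ∀ (h : Fin 7 → ZMod M) (x : Fin 7 → ℕ), (∀ c, (h c).val + x c < M) →
      ∀ c, ((h + cst M x) c).val = (h c).val + x c := by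
    intro h x hx c
    have := hx c
    simp only [Pi.add_apply, cst]
    rw [ZMod.val_add, ZMod.val_cast_of_lt (by omega), Nat.mod_eq_of_lt this]
  have hC0 : ∑ h, ∑ x ∈ sph L lam, g h * g (h + cst M x + 0) = 0 := by
    refine sum_eq_zero fun h _ => sum_eq_zero fun x hx => ?_
    obtain ⟨hx1, hx2⟩ := mem_filter.mp hx
    simp only [g, add_zero]
    split_ifs with c1 c2
    · exfalso
      have hv := hval h x fun c => by
        have := mem_range.mp (Fintype.mem_piFinset.mp hx1 c)
        have := c1.2 c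
        omega
      refine hA _ x c1.1 ?_ hx2
      convert c2.1 using 1
      funext c
      exact (hv c).symm
    all_goals simp
  have hψ : ∀ (ψ : AddChar (Fin 7 → ZMod M) ℂ) (i : ι),
      ‖∑ x ∈ sph L lam, ψ (cst M x)‖ * ‖1 - ψ (cst M (Q • p i))‖ ≤
        δ ^ 2 / 8 * (sph L lam).card := by
    intro ψ i
    have hz : ∀ c, ‖ψ (Pi.single c 1)‖ = 1 := fun c => AddChar.norm_apply _ _
    have a1 := hS _ hz
    simp only [char_cst]
    have a2 : ‖1 - ∏ c, ψ (Pi.single c 1) ^ (Q • p i) c‖ ≤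
        ∑ c, p i c * ‖1 - ψ (Pi.single c 1) ^ Q‖ := by
      refine (one_sub_prod_le _ _ fun c => by rw [norm_pow, hz, one_pow]).trans
        (sum_le_sum fun c _ => ?_)
      rw [Pi.smul_apply, smul_eq_mul, pow_mul]
      exact one_sub_pow_le _ (by rw [norm_pow, hz, one_pow]) _
    refine (mul_le_mul_of_nonneg_left a2 (norm_nonneg _)).trans ?_
    rw [mul_sum]
    refine (sum_le_sum (g := fun c => (p i c : ℝ) * (δ ^ 2 / (8 * T) * (sph L lam).card))
      fun c _ => ?_).trans ?_
    · rw [mul_left_comm]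
      exact mul_le_mul_of_nonneg_left (a1 c) (Nat.cast_nonneg _)
    · rw [← sum_mul]
      have a3 : ∑ c, (p i c : ℝ) ≤ T := by exact_mod_cast hT1 i
      calc _ ≤ (T : ℝ) * (δ ^ 2 / (8 * T) * (sph L lam).card) := by gcongr
        _ = _ := by field_simp
  have hC : ∀ i j : ι, ∑ h, ∑ x ∈ sph L lam, g (h + cst M (Q • p i)) *
      g (h + cst M x + cst M (Q • p j)) ≤
        δ ^ 2 / 4 * (sph L lam).card * Fintype.card (Fin 7 → ZMod M) := by
    intro i j
    have a1 := shiftC (sph L lam) (cst M) g hg1 (cst M (Q • p j) - cst M (Q • p i))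
      (δ ^ 2 / 4 * (sph L lam).card) (by positivity) (by
        intro ψ
        have b1 : ‖1 - ψ (cst M (Q • p j) - cst M (Q • p i))‖ ≤
            ‖1 - ψ (cst M (Q • p j))‖ + ‖1 - ψ (cst M (Q • p i))‖ := by
          have e : 1 - ψ (cst M (Q • p j) - cst M (Q • p i)) = (1 - ψ (cst M (Q • p j))) +
              ψ (cst M (Q • p j)) * (starRingEnd ℂ) (1 - ψ (cst M (Q • p i))) := by
            rw [sub_eq_add_neg (cst M (Q • p j)), AddChar.map_add_eq_mul, AddChar.map_neg_eq_conj,
              map_sub, map_one]; ring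
          rw [e]
          refine (norm_add_le _ _).trans ?_
          rw [norm_mul, AddChar.norm_apply, one_mul, Complex.norm_conj]
        have b2 := mul_le_mul_of_nonneg_left b1 (norm_nonneg (∑ x ∈ sph L lam, ψ (cst M x)))
        linarith [hψ ψ i, hψ ψ j])
    rw [hC0, zero_add] at a1
    refine le_trans (le_of_eq ?_) a1
    refine Fintype.sum_equiv (Equiv.addRight (cst M (Q • p i))) _ _ fun h => ?_
    refine sum_congr rfl fun x _ => ?_
    simp only [Equiv.coe_addRight]
    congr 2; abel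
  have hι : (0 : ℝ) < Fintype.card ι := by exact_mod_cast Fintype.card_pos
  let f : (Fin 7 → ZMod M) → ℝ := fun h => ∑ i, g (h + cst M (Q • p i))
  have hB := dense_le (ι := ι) (sph L lam) hX (cst M) f (fun h => sum_nonneg fun i _ => hg0 _)
    (δ * Fintype.card ι) (by positivity) (by
      simp only [f, sum_mul_sum]
      have e : ∑ h, ∑ x ∈ sph L lam, ∑ i, ∑ j, g (h + cst M (Q • p i)) *
          g (h + cst M x + cst M (Q • p j)) = ∑ i, ∑ j, ∑ h, ∑ x ∈ sph L lam,
            g (h + cst M (Q • p i)) * g (h + cst M x + cst M (Q • p j)) := by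
        simp only [sum_comm (s := sph L lam) (t := (univ : Finset ι))]
        rw [sum_comm]
        exact sum_congr rfl fun i _ => sum_comm
      rw [e]
      refine (sum_le_sum fun i _ => sum_le_sum fun j _ => hC i j).trans (le_of_eq ?_)
      simp only [sum_const, card_univ, nsmul_eq_mul]; ring)
  have hG := good_card M (Q * T + L) (by omega)
  have hsub : (univ.filter fun h : Fin 7 → ZMod M => ∀ c, (h c).val + (Q * T + L) ≤ M) ⊆
      (univ.filter fun h => δ * Fintype.card ι < f h) ∪ (univ.filter fun h : Fin 7 → ZMod M =>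
        ((univ.filter fun i : ι => (fun c => (h c).val) + Q • p i ∈ A).card : ℝ) ≤
          δ * Fintype.card ι) := by
    intro h hh
    have hh' := (mem_filter.mp hh).2
    rw [mem_union, mem_filter, mem_filter]
    by_cases c1 : δ * Fintype.card ι < f h
    · exact Or.inl ⟨mem_univ _, c1⟩
    refine Or.inr ⟨mem_univ _, le_trans ?_ (not_lt.mp c1)⟩
    rw [card_filter]
    push_cast
    refine sum_le_sum fun i _ => ?_
    have hL0 : 0 < L := by
      obtain ⟨x, hx⟩ := card_pos.mp hX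
      have := mem_range.mp (Fintype.mem_piFinset.mp (mem_filter.mp hx).1 0)
      omega
    have hq : ∀ c, (Q • p i) c ≤ Q * T := fun c => Nat.mul_le_mul_left Q
      ((single_le_sum (f := fun c => p i c) (fun _ _ => Nat.zero_le _) (mem_univ c)).trans (hT1 i))
    have hv := hval h (Q • p i) fun c => by have := hh' c; have := hq c; omega
    split_ifs with c2
    · simp only [g]
      rw [if_pos]
      refine ⟨?_, fun c => by have := hh' c; have := hq c; have := hv c; omega⟩
      convert c2 using 1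
      funext c
      exact hv c
    · exact hg0 _
  have h5 := (card_le_card hsub).trans (card_union_le _ _)
  have h6 := (Nat.cast_le (α := ℝ)).mpr h5
  push_cast at h6
  linarith

open Classical in
theorem stack (j : ℕ) : ∃ (ι : Type) (_ : Fintype ι) (_ : Nonempty ι) (p : ι → Fin 7 → ℕ)
    (lam : Fin j → ℕ) (c : ℝ), (∀ k, 0 < lam k) ∧ 0 < c ∧
      ∀ A : Fin j → Set (Fin 7 → ℕ), (∀ k, Avoid (A k) (lam k)) →
        c * Fintype.card ι ≤ (univ.filter fun i => ∀ k, p i ∉ A k).card := by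
  induction j with
  | zero => exact ⟨Unit, inferInstance, inferInstance, fun _ => 0, Fin.elim0, 1, fun k => k.elim0,
      one_pos, fun A _ => by simp⟩
  | succ j ih =>
    obtain ⟨ι, _, _, p, lam, c, hlam, hc, hA⟩ := ih
    obtain ⟨Q, l0, hQ, hl0, κ, _, _, w, hw⟩ := sparse (c / 2) (by positivity) ι p
    refine ⟨κ × ι, inferInstance, inferInstance, fun q => w q.1 + Q • p q.2,
      Fin.cons l0 fun k => Q ^ 2 * lam k, c / 8, ?_, by positivity, fun A hav => ?_⟩
    · intro k
      refine Fin.cases hl0 (fun k => ?_) k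
      simp only [Fin.cons_succ]
      exact Nat.mul_pos (by positivity) (hlam k)
    have h1 := hw (A 0) (hav 0)
    have h2 : ∀ h : κ, c * Fintype.card ι ≤
        (univ.filter fun i : ι => ∀ k : Fin j, w h + Q • p i ∉ A k.succ).card := by
      intro h
      refine hA (fun k => {y | w h + Q • y ∈ A k.succ}) fun k y x hy hx e => ?_
      refine hav k.succ (w h + Q • y) (Q • x) hy ?_ ?_
      · rw [add_assoc, ← smul_add]; exact hx
      · simp only [Fin.cons_succ, Pi.smul_apply, smul_eq_mul, mul_pow]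
        rw [← mul_sum, e]
    have h3 : ((univ.filter fun q : κ × ι => ∀ k, w q.1 + Q • p q.2 ∉ A k).card : ℝ) =
        ∑ h : κ, ((univ.filter fun i : ι => ∀ k, w h + Q • p i ∉ A k).card : ℝ) := by
      simp only [card_filter]
      push_cast
      rw [Fintype.sum_prod_type]
    rw [h3]
    refine le_trans ?_ (sum_le_sum_of_subset_of_nonneg (filter_subset (fun h : κ =>
      ((univ.filter fun i : ι => w h + Q • p i ∈ A 0).card : ℝ) ≤ c / 2 * Fintype.card ι) univ)
      fun _ _ _ => Nat.cast_nonneg _)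
    refine le_trans ?_ (sum_le_sum (f := fun _ => c / 2 * (Fintype.card ι : ℝ)) fun h hh => ?_)
    · rw [sum_const, nsmul_eq_mul, Fintype.card_prod]
      push_cast
      calc _ = (Fintype.card κ : ℝ) / 4 * (c / 2 * Fintype.card ι) := by ring
        _ ≤ _ := by gcongr
    · have a1 := (mem_filter.mp hh).2
      have a2 := h2 h
      have a3 : (univ.filter fun i : ι => ∀ k : Fin j, w h + Q • p i ∉ A k.succ) ⊆
          (univ.filter fun i : ι => w h + Q • p i ∈ A 0) ∪
            (univ.filter fun i : ι => ∀ k, w h + Q • p i ∉ A k) := by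
        intro i hi
        rw [mem_union, mem_filter, mem_filter]
        by_cases c1 : w h + Q • p i ∈ A 0
        · exact Or.inl ⟨mem_univ _, c1⟩
        · exact Or.inr ⟨mem_univ _, fun k => Fin.cases c1 (mem_filter.mp hi).2 k⟩
      have a4 := (Nat.cast_le (α := ℝ)).mpr ((card_le_card a3).trans (card_union_le _ _))
      push_cast at a4
      linarith

theorem main (m : ℕ) : ∃ D : Fin m → ℝ, (∀ j, 0 < D j) ∧
    ∀ T : EuclideanSpace ℝ (Fin 7) → Fin m, ∃ j x y, dist x y = D j ∧ T x = j ∧ T y = j := by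
  classical
  obtain ⟨ι, _, _, p, lam, c, hlam, hc, hA⟩ := stack m
  refine ⟨fun j => √(lam j), fun j => Real.sqrt_pos.mpr (by exact_mod_cast hlam j), fun T => ?_⟩
  by_contra hcon
  push Not at hcon
  let e : (Fin 7 → ℕ) → EuclideanSpace ℝ (Fin 7) := fun y => WithLp.toLp 2 fun c => (y c : ℝ)
  have h1 := hA (fun k => {y | T (e y) = k}) fun k y x hy hx h => by
    refine hcon k (e y) (e (y + x)) ?_ hy hx
    rw [EuclideanSpace.dist_eq, ← h]
    congr 1
    push_cast
    refine sum_congr rfl fun c _ => ?_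
    simp [e]
  have hι : (0 : ℝ) < Fintype.card ι := by exact_mod_cast Fintype.card_pos
  obtain ⟨i, hi⟩ := card_pos.mp (Nat.cast_pos.mp (lt_of_lt_of_le (mul_pos hc hι) h1))
  simp only [mem_filter] at hi
  exact hi.2 (T (e (p i))) rfl

end Pool.Agent.H12.UpperChrom
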