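import Mathlib

set_option autoImplicit false

namespace Pool.Agent.H12.Walk

open Finset

def L : ℕ → ℕ → Finset (List ℤ)
  | 0, 0 => {[]}
  | k + 1, 0 => (L k 0).image (List.cons (-2))
  | 0, q + 1 => (L 0 q).image (List.cons 4)
  | k + 1, q + 1 => (L k (q + 1)).image (List.cons (-2)) ∪ (L (k + 1) q).image (List.cons 4)

lemma mem_L (x : List ℤ) : ∀ k q, x ∈ L k q ↔
    (∀ s ∈ x, s = -2 ∨ s = 4) ∧ x.count (-2) = k ∧ x.count 4 = q := by
  induction x with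
  | nil => intro k q; cases k <;> cases q <;> simp [L]
  | cons s x ih =>
    intro k q
    by_cases h1 : s = -2
    · subst h1
      cases k <;> cases q <;> simp [L, ih]
    by_cases h2 : s = 4
    · subst h2
      cases k <;> cases q <;> simp [L, ih]
    have h1' : -2 ≠ s := fun h => h1 h.symm
    have h2' : 4 ≠ s := fun h => h2 h.symm
    cases k <;> cases q <;> simp [L, h1, h2, h1', h2']

lemma sum_of (x : List ℤ) (h : ∀ s ∈ x, s = -2 ∨ s = 4) :
    x.sum = 4 * x.count 4 - 2 * x.count (-2) ∧ x.length = x.count 4 + x.count (-2) := by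
  induction x with
  | nil => simp
  | cons s x ih =>
    obtain ⟨h1, h2⟩ := ih fun t ht => h t (List.mem_cons_of_mem _ ht)
    rcases h s List.mem_cons_self with rfl | rfl <;> simp [h1, h2] <;> omega

noncomputable def w (n : ℕ) (j : ℤ) : ℝ := 1 / ((n : ℝ) ^ 2 - (j : ℝ) ^ 2)

noncomputable def P (n : ℕ) (x : List ℤ) : ℝ :=
  ∏ t ∈ range x.length, w n (n - x.sum + (x.take t).sum)

lemma P_cons (n : ℕ) (s : ℤ) (x : List ℤ) : P n (s :: x) = w n (n - (s + x.sum)) * P n x := by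
  simp only [P, List.length_cons, prod_range_succ', List.take_succ_cons, List.sum_cons,
    List.take_zero, List.sum_nil, add_zero]
  rw [mul_comm]
  congr 1
  exact prod_congr rfl fun t _ => by congr 1; ring

noncomputable def u (n k q : ℕ) : ℝ := ∑ x ∈ L k q, P n x

lemma sum_cons (n k q : ℕ) (s : ℤ) (F : List ℤ → ℝ) (c : ℝ)
    (hF : ∀ x ∈ L k q, F (s :: x) = c * P n x) :
    ∑ x ∈ (L k q).image (List.cons s), F x = c * u n k q := by
  rw [sum_image fun _ _ _ _ h => List.cons_injective h, u, mul_sum]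
  exact sum_congr rfl hF

lemma L_sum {k q : ℕ} {x : List ℤ} (h : x ∈ L k q) : x.sum = 4 * q - 2 * k := by
  obtain ⟨h1, h2, h3⟩ := (mem_L x k q).mp h
  rw [(sum_of x h1).1, h2, h3]

lemma disj (A B : Finset (List ℤ)) :
    Disjoint (A.image (List.cons (-2))) (B.image (List.cons 4)) := by
  rw [disjoint_left]
  intro x h1 h2
  obtain ⟨a, _, rfl⟩ := mem_image.mp h1
  obtain ⟨b, _, h⟩ := mem_image.mp h2
  simp at h

lemma u00 (n : ℕ) : u n 0 0 = 1 := by simp [u, L, P]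

lemma u0s (n q : ℕ) : u n 0 (q + 1) = w n (n - 4 * (q + 1)) * u n 0 q := by
  rw [u, L]
  refine sum_cons n 0 q 4 _ _ fun x hx => ?_
  rw [P_cons, L_sum hx]; congr 2; push_cast; ring

lemma us0 (n k : ℕ) : u n (k + 1) 0 = w n (n + 2 * (k + 1)) * u n k 0 := by
  rw [u, L]
  refine sum_cons n k 0 (-2) _ _ fun x hx => ?_
  rw [P_cons, L_sum hx]; congr 2; push_cast; ring

lemma uss (n k q : ℕ) : u n (k + 1) (q + 1) =
    w n (n + 2 * (k + 1) - 4 * (q + 1)) * (u n k (q + 1) + u n (k + 1) q) := by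
  rw [u, L, sum_union (disj _ _), mul_add]
  congr 1
  · refine sum_cons n _ _ (-2) _ _ fun x hx => ?_
    rw [P_cons, L_sum hx]; congr 2; push_cast; ring
  · refine sum_cons n _ _ 4 _ _ fun x hx => ?_
    rw [P_cons, L_sum hx]; congr 2; push_cast; ring

lemma w_neg (n : ℕ) (j j' : ℤ) (h : j = -j') : w n j = w n j' := by simp [w, h]

lemma dual3 (m : ℕ) : u (2 * m + 1) 2 (m + 2) + u (2 * m + 1) 3 (m + 1) =
    ∑ q ∈ range (m + 3), u (2 * m + 1) 2 q * u (2 * m + 1) 0 (m + 2 - q) := by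
  have : ∀ q r, q + r = m + 1 → u (2 * m + 1) 3 q * u (2 * m + 1) 0 r =
      ∑ i ∈ range (q + 1), u (2 * m + 1) 2 i * u (2 * m + 1) 0 (m + 2 - i) := by
    intro q
    induction q with
    | zero =>
      intro r hr
      rw [sum_range_one, Nat.sub_zero, show m + 2 = r + 1 by omega, u0s, us0,
        w_neg _ _ (((2 * m + 1 : ℕ) : ℤ) - 4 * (r + 1)) (by push_cast; omega)]
      ring
    | succ q ih =>
      intro r hr
      rw [sum_range_succ, ← ih (r + 1) (by omega), show m + 2 - (q + 1) = r + 1 by omega, u0s, uss,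
        w_neg _ _ (((2 * m + 1 : ℕ) : ℤ) - 4 * (r + 1)) (by push_cast; omega)]
      ring
  rw [sum_range_succ, ← this (m + 1) 0 rfl, Nat.sub_self, u00]; ring

lemma dual2 (m : ℕ) : ∑ q ∈ range (m + 3), u (2 * m + 1) 2 q * u (2 * m + 1) 0 (m + 2 - q) =
    ∑ q ∈ range (m + 3), u (2 * m + 1) 1 q * u (2 * m + 1) 1 (m + 2 - q) := by
  have : ∀ q r, q + r = m + 1 → u (2 * m + 1) 2 q * u (2 * m + 1) 1 r +
      ∑ i ∈ range (q + 1), u (2 * m + 1) 2 i * u (2 * m + 1) 0 (m + 2 - i) =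
      ∑ i ∈ range (q + 1), u (2 * m + 1) 1 i * u (2 * m + 1) 1 (m + 2 - i) := by
    intro q
    induction q with
    | zero =>
      intro r hr
      rw [sum_range_one, sum_range_one, Nat.sub_zero, show m + 2 = r + 1 by omega, us0 _ 1, uss _ 0,
        w_neg _ _ (((2 * m + 1 : ℕ) : ℤ) + 2 * ((0 : ℕ) + 1) - 4 * (r + 1)) (by push_cast; omega)]
      ring
    | succ q ih =>
      intro r hr
      rw [sum_range_succ, sum_range_succ _ (q + 1), ← ih (r + 1) (by omega),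
        show m + 2 - (q + 1) = r + 1 by omega, uss _ 1, uss _ 0 r,
        w_neg _ _ (((2 * m + 1 : ℕ) : ℤ) + 2 * ((0 : ℕ) + 1) - 4 * (r + 1)) (by push_cast; omega)]
      ring
  rw [sum_range_succ, sum_range_succ _ (m + 2), ← this (m + 1) 0 rfl, Nat.sub_self, u00, uss _ 1,
    us0 _ 0, u00,
    w_neg _ _ (((2 * m + 1 : ℕ) : ℤ) + 2 * ((0 : ℕ) + 1)) (by push_cast; omega)]
  ring

lemma odd_ne (m q : ℕ) : (2 * (m : ℝ) - 1 - 2 * q) ≠ 0 := by
  have : (2 * (m : ℤ) - 1 - 2 * q) ≠ 0 := by omega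
  exact_mod_cast this

lemma u0_rec (m q : ℕ) : u (2 * m + 1) 0 q =
    8 * (q + 1) * (2 * m - 1 - 2 * q) * u (2 * m + 1) 0 (q + 1) := by
  rw [u0s, w]
  have h := odd_ne m q
  have e : (((2 * m + 1 : ℕ) : ℝ)) ^ 2 - ((((2 * m + 1 : ℕ) : ℤ) - 4 * (q + 1) : ℤ) : ℝ) ^ 2 =
      8 * (q + 1) * (2 * m - 1 - 2 * q) := by push_cast; ring
  rw [e, ← mul_assoc, mul_one_div_cancel (mul_ne_zero (by positivity) h), one_mul]

lemma w1 (m q : ℕ) : w (2 * m + 1) (((2 * m + 1 : ℕ) : ℤ) + 2 * ((0 : ℕ) + 1) - 4 * (q + 1)) =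
    1 / (8 * (2 * q + 1) * (m - q)) := by
  rw [w]; congr 1; push_cast; ring

lemma u1_eq (m : ℕ) (hm : 1 ≤ m) (q : ℕ) (hq : q ≤ m) :
    u (2 * m + 1) 1 q = (2 * q - m) / (8 * m * (m + 1)) * u (2 * m + 1) 0 q := by
  have hm' : (0 : ℝ) < m := by exact_mod_cast hm
  induction q with
  | zero =>
    rw [us0, w]
    have e : (((2 * m + 1 : ℕ) : ℝ)) ^ 2 - ((((2 * m + 1 : ℕ) : ℤ) + 2 * ((0 : ℕ) + 1) : ℤ) : ℝ) ^ 2 =
      -(8 * (m + 1)) := by push_cast; ring
    rw [e]; push_cast; field_simp; ring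
  | succ q ih =>
    rw [uss, w1, ih (by omega), u0_rec m q]
    have : (0 : ℝ) < m - q := by
      have : (q : ℝ) + 1 ≤ m := by exact_mod_cast hq
      linarith
    push_cast; field_simp; ring

lemma gosper (m k : ℕ) (hk : k ≤ m + 2) (N : ℝ) (hN : N = m + 2) :
    3 * N * (N - 1) * (N - 2) * (N - 3) * ∑ q ∈ range k,
      (4 - (2 * q - N) ^ 2) * (u (2 * m + 1) 0 q * u (2 * m + 1) 0 (m + 2 - q)) =
    k * (2 * N - 3 - 2 * k) * ((N ^ 5 - 11 * N ^ 3 + 42 * N ^ 2 + 28 * N - 24) +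
      (-6 * N ^ 4 + 6 * N ^ 3 + 8 * N ^ 2 - 156 * N + 16) * k +
      (12 * N ^ 3 - 24 * N ^ 2 + 60 * N + 96) * k ^ 2 + (-8 * N ^ 2 + 24 * N - 64) * k ^ 3) *
      (u (2 * m + 1) 0 k * u (2 * m + 1) 0 (m + 2 - k)) := by
  induction k with
  | zero => simp
  | succ k ih =>
    rw [sum_range_succ, mul_add, ih (by omega)]
    obtain ⟨r, hr⟩ : ∃ r, m + 1 = k + r := ⟨m + 1 - k, by omega⟩
    have hr' : (r : ℝ) = m + 1 - k := by
      have : (m : ℝ) + 1 = k + r := by exact_mod_cast hr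
      linarith
    rw [show m + 2 - k = r + 1 by omega, show m + 2 - (k + 1) = r by omega, u0_rec m k, u0_rec m r,
      hr', hN]
    push_cast; ring

lemma u0_top (m : ℕ) : u (2 * m + 1) 0 m = 1 / (4 ^ m * (2 * m).factorial) := by
  have : ∀ q r, q + r = m → u (2 * m + 1) 0 q * (4 ^ q * (2 * m).factorial * q.factorial * r.factorial)
      = (2 * r).factorial * m.factorial := by
    intro q
    induction q with
    | zero => intro r hr; simp at hr; subst hr; simp [u00]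
    | succ q ih =>
      intro r hr
      have h1 := ih (r + 1) (by omega)
      have h2 : (m : ℝ) = q + 1 + r := by exact_mod_cast hr.symm
      rw [u0_rec m q, show 2 * (r + 1) = 2 * r + 1 + 1 by ring, Nat.factorial_succ (2 * r + 1),
        Nat.factorial_succ (2 * r), Nat.factorial_succ r] at h1
      rw [Nat.factorial_succ q]
      push_cast at h1 ⊢
      have h3 : (2 * (r : ℝ) + 1) * (2 * r + 2) ≠ 0 := by positivity
      apply mul_left_cancel₀ h3
      rw [show (2 * (m : ℝ) - 1 - 2 * q) = 2 * r + 1 by rw [h2]; ring] at h1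
      linear_combination h1
  have h := this m 0 rfl
  have h1 : (0 : ℝ) < m.factorial := by exact_mod_cast m.factorial_pos
  have h2 : (0 : ℝ) < (2 * m).factorial := by exact_mod_cast (2 * m).factorial_pos
  simp only [Nat.factorial_zero, mul_zero, Nat.cast_one, mul_one, one_mul] at h
  rw [eq_div_iff (by positivity)]
  apply mul_right_cancel₀ h1.ne'
  linear_combination h

theorem closed (m : ℕ) (hm : 2 ≤ m) : u (2 * m + 1) 2 (m + 2) + u (2 * m + 1) 3 (m + 1) =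
    3 * (m + 2) / (4 ^ (m + 5) * m ^ 2 * (m + 1) ^ 3 * (2 * m - 1) * (2 * m + 3) *
      (2 * m).factorial) := by
  rw [dual3, dual2]
  have hg := gosper m (m + 2) le_rfl _ rfl
  have hm' : (2 : ℝ) ≤ m := by exact_mod_cast hm
  have hz : ∑ q ∈ range (m + 3), (4 - (2 * q - (m + 2 : ℝ)) ^ 2) *
      (u (2 * m + 1) 0 q * u (2 * m + 1) 0 (m + 2 - q)) = 0 := by
    have h0 : 3 * (m + 2 : ℝ) * (m + 2 - 1) * (m + 2 - 2) * (m + 2 - 3) ≠ 0 := by
      have : (0 : ℝ) < m + 2 - 3 := by linarith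
      have : (0 : ℝ) < m + 2 - 2 := by linarith
      have : (0 : ℝ) < m + 2 - 1 := by linarith
      positivity
    apply mul_left_cancel₀ h0
    rw [sum_range_succ, mul_add, hg]
    push_cast; ring
  obtain ⟨k, rfl⟩ : ∃ k, m = k + 1 := ⟨m - 1, by omega⟩
  rw [show k + 1 + 3 = k + 2 + 1 + 1 by ring, sum_range_succ, sum_range_succ,
    sum_range_succ', sum_range_succ'] at hz ⊢
  have hmid : ∑ i ∈ range k, u (2 * (k + 1) + 1) 1 (i + 1 + 1) *
      u (2 * (k + 1) + 1) 1 (k + 1 + 2 - (i + 1 + 1)) = 1 / (8 * (k + 1) * (k + 2) : ℝ) ^ 2 *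
        ∑ i ∈ range k, (4 - (2 * ((i + 1 + 1 : ℕ) : ℝ) - (((k + 1 : ℕ) : ℝ) + 2)) ^ 2) *
          (u (2 * (k + 1) + 1) 0 (i + 1 + 1) * u (2 * (k + 1) + 1) 0 (k + 1 + 2 - (i + 1 + 1))) := by
    rw [mul_sum]
    refine sum_congr rfl fun i hi => ?_
    have hi' := mem_range.mp hi
    rw [u1_eq _ (by omega) _ (by omega), u1_eq _ (by omega) _ (by omega)]
    rw [Nat.cast_sub (by omega)]
    push_cast; field_simp; ring
  rw [add_assoc, add_assoc, add_assoc] at hz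
  rw [hmid, eq_neg_of_add_eq_zero_left hz]
  have v1 : u (2 * (k + 1) + 1) 1 (k + 1 + 1) = 0 := by
    rw [uss, w1]; simp
  have v2 : u (2 * (k + 1) + 1) 1 (k + 1 + 1 + 1) =
      -(1 / (8 * (2 * k + 5))) * u (2 * (k + 1) + 1) 0 (k + 1 + 1 + 1) := by
    rw [uss, w1, v1]; push_cast; field_simp; ring
  have v3 := u1_eq (k + 1) (by omega) 0 (by omega)
  have v4 := u0_rec (k + 1) 0
  have v5 := u0_rec (k + 1) (k + 1)
  have v6 := u0_rec (k + 1) (k + 1 + 1)
  have v7 := u0_top (k + 1)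
  simp only [show k + 1 + 2 - (0 + 1) = k + 1 + 1 by omega, show k + 1 + 2 - 0 = k + 1 + 1 + 1 by omega,
    show k + 1 + 2 - (k + 2) = 0 + 1 by omega, show k + 1 + 2 - (k + 2 + 1) = 0 by omega,
    show k + 2 = k + 1 + 1 by omega, v1, v2, v3, u00] at v4 ⊢
  have hk : (1 : ℝ) ≤ k := by exact_mod_cast (by omega : 1 ≤ k)
  have f0 : (0 : ℝ) < (2 * (k + 1)).factorial := by exact_mod_cast Nat.factorial_pos _
  push_cast at v4 v5 v6 ⊢
  have x1 : u (2 * (k + 1) + 1) 0 (0 + 1) = 1 / (8 * (2 * k + 1)) := by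
    rw [eq_div_iff (by positivity)]; linear_combination -v4
  have x2 : u (2 * (k + 1) + 1) 0 (k + 1 + 1) =
      -(1 / (8 * (k + 2) * (4 ^ (k + 1) * (2 * (k + 1)).factorial))) := by
    rw [v7] at v5
    have : u (2 * (k + 1) + 1) 0 (k + 1 + 1) =
      -(1 / (8 * (k + 2)) * (1 / (4 ^ (k + 1) * (2 * (k + 1)).factorial))) := by
      rw [v5]; field_simp; ring
    rw [this]; field_simp
  have x3 : u (2 * (k + 1) + 1) 0 (k + 1 + 1 + 1) =
      1 / (24 * (k + 3) * (8 * (k + 2) * (4 ^ (k + 1) * (2 * (k + 1)).factorial))) := by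
    have : u (2 * (k + 1) + 1) 0 (k + 1 + 1 + 1) =
      -(1 / (24 * (k + 3))) * u (2 * (k + 1) + 1) 0 (k + 1 + 1) := by
      rw [v6]; field_simp; ring
    rw [this, x2]; field_simp
  have e1 : (2 * ((k : ℝ) + 1) - 1) = 2 * k + 1 := by ring
  rw [x1, x2, x3, e1]
  field_simp
  ring

def vtx (n : ℕ) (x : List ℤ) (t : ℕ) : ℤ := -(n : ℤ) + (x.take t).sum

def X (n κ : ℕ) : Set (List ℤ) :=
  {x | 2 ≤ x.length ∧ (∀ s ∈ x, s = -2 ∨ s = 4) ∧ x.count (-2) = κ ∧ x.sum = 2 * n ∧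
    ∀ t, 1 ≤ t → t < x.length → vtx n x t ≠ n ∧ vtx n x t ≠ -n}

noncomputable def h1 (n : ℕ) (x : List ℤ) : ℝ :=
  ∏ t ∈ Finset.Ico 1 x.length, 1 / ((n : ℝ) ^ 2 - (vtx n x t : ℝ) ^ 2)

lemma X_sub (m : ℕ) : X (2 * m + 1) 3 ⊆ (L 3 (m + 2) : Set (List ℤ)) := by
  rintro x ⟨-, h2, h3, h4, -⟩
  have := (sum_of x h2).1
  refine (mem_L x _ _).mpr ⟨h2, h3, ?_⟩
  rw [h3, h4] at this
  push_cast at this
  omega

lemma X_finite (m : ℕ) : (X (2 * m + 1) 3).Finite := (Finset.finite_toSet _).subset (X_sub m)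

lemma h1_cons (n : ℕ) (s : ℤ) (x : List ℤ) (h : s + x.sum = 2 * n) : h1 n (s :: x) = 1 * P n x := by
  rw [h1, prod_Ico_eq_prod_range, one_mul, P]
  refine prod_congr rfl fun t _ => ?_
  rw [w, vtx, add_comm 1 t, List.take_succ_cons, List.sum_cons]
  congr 4
  omega

lemma B_eq (m : ℕ) : ∑ᶠ x ∈ X (2 * m + 1) 3, h1 (2 * m + 1) x =
    u (2 * m + 1) 2 (m + 2) + u (2 * m + 1) 3 (m + 1) := by
  rw [finsum_mem_eq_sum_of_inter_support_eq (t := L 3 (m + 2))]
  · rw [L, sum_union (disj _ _), sum_cons _ _ _ _ _ 1, sum_cons _ _ _ _ _ 1, one_mul, one_mul]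
    all_goals
      intro x hx
      refine h1_cons _ _ _ ?_
      rw [L_sum hx]; push_cast; ring
  · ext x
    refine ⟨fun h => ⟨X_sub m h.1, h.2⟩, fun h => ⟨?_, h.2⟩⟩
    obtain ⟨a1, a2, a3⟩ := (mem_L x _ _).mp h.1
    obtain ⟨b1, b2⟩ := sum_of x a1
    refine ⟨by omega, a1, a2, by rw [b1, a2, a3]; push_cast; ring, fun t c1 c2 => ?_⟩
    have := prod_ne_zero_iff.mp h.2 t (mem_Ico.mpr ⟨c1, c2⟩)
    constructor <;> intro e <;> rw [e] at this <;> apply this <;> push_cast <;> ring_nf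

noncomputable def cf (m : ℕ) : ℝ :=
  3 * (m + 2) / (4 ^ (m + 5) * m ^ 2 * (m + 1) ^ 3 * (2 * m - 1) * (2 * m + 3) * (2 * m).factorial)

lemma cf_pos (m : ℕ) (hm : 2 ≤ m) : 0 < cf m := by
  have hm' : (2 : ℝ) ≤ m := by exact_mod_cast hm
  have : (0 : ℝ) < 2 * m - 1 := by linarith
  have h2 : (0 : ℝ) < (2 * m).factorial := by exact_mod_cast (2 * m).factorial_pos
  unfold cf; positivity

lemma cf_le (m : ℕ) (hm : 2 ≤ m) : cf m ≤ 1 / (m.factorial * m.factorial) := by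
  have hm' : (2 : ℝ) ≤ m := by exact_mod_cast hm
  have h0 : (1 : ℝ) ≤ 2 * m - 1 := by linarith
  have h1 : (0 : ℝ) < m.factorial := by exact_mod_cast m.factorial_pos
  have h2 : (m.factorial : ℝ) * m.factorial ≤ (2 * m).factorial := by
    have := Nat.le_of_dvd (Nat.factorial_pos _) (Nat.factorial_mul_factorial_dvd_factorial_add m m)
    rw [two_mul]; exact_mod_cast this
  have h3 : (4 : ℝ) ≤ 4 ^ (m + 5) := le_self_pow₀ (by norm_num) (by omega)
  unfold cf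
  rw [div_le_div_iff₀ (by positivity) (by positivity), one_mul]
  calc _ ≤ 4 * 1 ^ 2 * 1 ^ 3 * 1 * (2 * m + 3) * (m.factorial * m.factorial : ℝ) := by
        have : 3 * ((m : ℝ) + 2) ≤ 4 * 1 ^ 2 * 1 ^ 3 * 1 * (2 * m + 3) := by linarith
        gcongr
    _ ≤ _ := by gcongr <;> linarith

lemma le_cf (m : ℕ) (hm : 2 ≤ m) : (1 / 2 ^ 20) ^ m / (m.factorial : ℝ) ^ 2 ≤ cf m := by
  have hm' : (2 : ℝ) ≤ m := by exact_mod_cast hm
  have h0 : (1 : ℝ) ≤ 2 * m - 1 := by linarith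
  have h1 : (0 : ℝ) < m.factorial := by exact_mod_cast m.factorial_pos
  have h2 : ((2 * m).factorial : ℝ) ≤ 4 ^ m * m.factorial ^ 2 := by
    have a1 := Nat.choose_mul_factorial_mul_factorial (by omega : m ≤ 2 * m)
    have a2 := Nat.choose_le_two_pow (2 * m) m
    rw [show 2 * m - m = m by omega] at a1
    have : (2 * m).factorial ≤ 4 ^ m * m.factorial ^ 2 := by
      rw [← a1, pow_mul] at *
      calc _ ≤ (2 ^ 2) ^ m * m.factorial * m.factorial := by gcongr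
        _ = _ := by ring
    exact_mod_cast this
  have h3 : (m : ℝ) + 1 ≤ 2 ^ m := by exact_mod_cast Nat.lt_two_pow_self
  have h4 : (4 : ℝ) ≤ 2 ^ m := by
    calc (4 : ℝ) = 2 ^ 2 := by norm_num
      _ ≤ _ := by gcongr; norm_num
  have h5 : (4 : ℝ) ^ m = (2 ^ m) ^ 2 := by rw [← pow_mul, mul_comm, pow_mul]; norm_num
  have h6 : ((2 : ℝ) ^ 20) ^ m = (2 ^ m) ^ 20 := by rw [← pow_mul, mul_comm, pow_mul]
  have f0 : (0 : ℝ) < (2 * m).factorial := by exact_mod_cast Nat.factorial_pos _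
  unfold cf
  rw [one_div_pow, div_div, div_le_div_iff₀ (by positivity) (by positivity), one_mul, h6, pow_add,
    h5]
  rw [h5] at h2
  set y : ℝ := 2 ^ m
  calc _ ≤ y ^ 2 * y ^ 5 * y ^ 2 * y ^ 3 * (y * y) * (y * y) * (y ^ 2 * m.factorial ^ 2) := by
        have b1 : (m : ℝ) ≤ y := by linarith
        have b2 : 2 * (m : ℝ) - 1 ≤ y * y := by nlinarith
        have b3 : 2 * (m : ℝ) + 3 ≤ y * y := by nlinarith
        gcongr
    _ = 1 * (y ^ 18 * m.factorial ^ 2) := by ring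
    _ ≤ _ := by gcongr <;> linarith

open Filter in
lemma small (C : ℝ) (hC : 0 < C) : ∀ᶠ m : ℕ in atTop, cf m < C ^ m / m.factorial := by
  have h := FloorSemiring.tendsto_pow_div_factorial_atTop (1 / C)
  filter_upwards [h.eventually (gt_mem_nhds one_pos), eventually_ge_atTop 2] with m h1 h2
  have h3 : (0 : ℝ) < m.factorial := by exact_mod_cast m.factorial_pos
  refine (cf_le m h2).trans_lt ?_
  rw [one_div_pow, div_div, div_lt_one (by positivity)] at h1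
  rw [div_lt_div_iff₀ (by positivity) h3]
  nlinarith

open Filter Topology in
lemma asym : Tendsto (fun m : ℕ => cf m / (3 / (4 ^ (m + 6) * (m : ℝ) ^ 6 * (2 * m).factorial)))
    atTop (𝓝 1) := by
  have h0 : Tendsto (fun m : ℕ => ((m : ℝ))⁻¹) atTop (𝓝 0) := tendsto_inv_atTop_nhds_zero_nat
  have h1 : Tendsto (fun m : ℕ => 4 * (1 + 2 * (m : ℝ)⁻¹) /
      ((1 + (m : ℝ)⁻¹) ^ 3 * (2 - (m : ℝ)⁻¹) * (2 + 3 * (m : ℝ)⁻¹))) atTop
      (𝓝 (4 * (1 + 2 * 0) / ((1 + 0) ^ 3 * (2 - 0) * (2 + 3 * 0)))) := by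
    refine Tendsto.div ?_ ?_ (by norm_num)
    · exact ((h0.const_mul 2).const_add 1).const_mul 4
    · exact (((h0.const_add 1).pow 3).mul (h0.const_sub 2)).mul ((h0.const_mul 3).const_add 2)
  norm_num at h1
  refine h1.congr' ?_
  filter_upwards [eventually_ge_atTop 2] with m hm
  have hm' : (2 : ℝ) ≤ m := by exact_mod_cast hm
  have a1 : (2 * m - 1 : ℝ) ≠ 0 := by linarith
  have a2 : (m * 2 - 1 : ℝ) ≠ 0 := by linarith
  have f0 : (0 : ℝ) < (2 * m).factorial := by exact_mod_cast Nat.factorial_pos _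
  unfold cf
  field_simp
  ring

end Pool.Agent.H12.Walk
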