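import Pool.Agent.H12.Zono2

set_option autoImplicit false
set_option linter.unusedSectionVars false

namespace Pool.Agent.H12.Zono

open Finset

variable {E : Type} [Fintype E] [DecidableEq E] {V : Type} [Fintype V] [DecidableEq V]

theorem sum_bd (s t : E → V) (g : E → ℝ) : ∑ v, bd s t g v = 0 := by
  simp only [bd, Finset.sum_sub_distrib]
  rw [Finset.sum_fiberwise_of_maps_to (fun e _ => Finset.mem_univ (s e)),
    Finset.sum_fiberwise_of_maps_to (fun e _ => Finset.mem_univ (t e)), sub_self]

theorem bd_congr (s t : E → V) (x y : E → ℝ) (v : V)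
    (h : ∀ e, s e = v ∨ t e = v → x e = y e) : bd s t x v = bd s t y v := by
  unfold bd
  congr 1
  · exact Finset.sum_congr rfl fun e he => h e (Or.inl (by simpa using he))
  · exact Finset.sum_congr rfl fun e he => h e (Or.inr (by simpa using he))

theorem bd_single (s t : E → V) (e : E) (c : ℝ) (v : V) :
    bd s t (Pi.single e c) v = (if s e = v then c else 0) - (if t e = v then c else 0) := by
  simp only [bd, Pi.single_apply, Finset.sum_ite_eq', Finset.mem_filter, Finset.mem_univ, true_and]

theorem exists_dir (s t : E → V) (F : Finset E) (hF : F.Nonempty)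
    (hdeg : ∀ e ∈ F, s e ≠ t e → ∀ v, (s e = v ∨ t e = v) →
      ∃ e' ∈ F, e' ≠ e ∧ (s e' = v ∨ t e' = v)) :
    ∃ d : E → ℝ, d ≠ 0 ∧ (∀ e, e ∉ F → d e = 0) ∧ ∀ v, bd s t d v = 0 := by
  classical
  by_cases hl : ∃ e ∈ F, s e = t e
  · obtain ⟨e, he, hst⟩ := hl
    refine ⟨Pi.single e 1, fun h => by simpa using congrFun h e, fun f hf => ?_, fun v => ?_⟩
    · rw [Pi.single_apply, if_neg]; rintro rfl; exact hf he
    · rw [bd_single, hst, sub_self]
  push Not at hl
  set U := univ.filter (fun v => ∃ e ∈ F, s e = v ∨ t e = v) with hU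
  have hcount : U.card * 2 ≤ F.card * 2 := by
    refine Finset.card_mul_le_card_mul (fun v e => s e = v ∨ t e = v) ?_ ?_
    · intro v hv
      obtain ⟨e, he, hev⟩ : ∃ e ∈ F, s e = v ∨ t e = v := by simpa [hU] using hv
      obtain ⟨e', he', hne, hev'⟩ := hdeg e he (hl e he) v hev
      have : ({e', e} : Finset E) ⊆ F.bipartiteAbove (fun v e => s e = v ∨ t e = v) v := by
        intro f hf
        simp only [Finset.mem_insert, Finset.mem_singleton] at hf
        rcases hf with rfl | rfl <;> simp [Finset.mem_bipartiteAbove, *]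
      have h2 := Finset.card_le_card this
      rwa [Finset.card_pair hne] at h2
    · intro e _
      have : U.bipartiteBelow (fun v e => s e = v ∨ t e = v) e ⊆ {s e, t e} := by
        intro v hv
        have := (Finset.mem_bipartiteBelow _).1 hv
        simp only [Finset.mem_insert, Finset.mem_singleton]
        rcases this.2 with h | h <;> simp [h]
      exact (Finset.card_le_card this).trans Finset.card_le_two
  obtain ⟨e0, he0⟩ := hF
  have hu0 : s e0 ∈ U := by simp only [hU, Finset.mem_filter, Finset.mem_univ, true_and]; exact ⟨e0, he0, Or.inl rfl⟩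
  let X : (F → ℝ) → E → ℝ := fun d e => if h : e ∈ F then d ⟨e, h⟩ else 0
  let Φ : (F → ℝ) →ₗ[ℝ] (U.erase (s e0) → ℝ) :=
    { toFun := fun d v => bd s t (X d) v
      map_add' := fun x y => by
        funext v
        rw [Pi.add_apply, ← bd_add]
        exact bd_congr _ _ _ _ _ fun e _ => by by_cases h : e ∈ F <;> simp [X, h]
      map_smul' := fun c x => by
        funext v
        rw [Pi.smul_apply, RingHom.id_apply, smul_eq_mul, ← bd_mul]
        exact bd_congr _ _ _ _ _ fun e _ => by by_cases h : e ∈ F <;> simp [X, h] }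
  have hlt : Module.finrank ℝ (U.erase (s e0) → ℝ) < Module.finrank ℝ (F → ℝ) := by
    rw [Module.finrank_fintype_fun_eq_card, Module.finrank_fintype_fun_eq_card, Fintype.card_coe,
      Fintype.card_coe, Finset.card_erase_of_mem hu0]
    have := Finset.card_pos.2 ⟨_, hu0⟩
    omega
  obtain ⟨d, hd, hd0⟩ := (Submodule.ne_bot_iff _).1 (LinearMap.ker_ne_bot_of_finrank_lt (f := Φ) hlt)
  have hother : ∀ v, v ≠ s e0 → bd s t (X d) v = 0 := by
    intro v hv
    by_cases hvU : v ∈ U
    · exact congrFun (LinearMap.mem_ker.1 hd) ⟨v, Finset.mem_erase.2 ⟨hv, hvU⟩⟩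
    · rw [bd_congr s t _ (fun _ => 0) v]
      · simp [bd]
      · intro e he
        have : e ∉ F := fun h => hvU (by
          simp only [hU, Finset.mem_filter, Finset.mem_univ, true_and]; exact ⟨e, h, he⟩)
        simp [X, this]
  refine ⟨X d, fun h => hd0 ?_, fun e he => by simp [X, he], fun v => ?_⟩
  · funext e
    have := congrFun h e
    simpa [X] using this
  · by_cases hv : v = s e0
    · have h1 := sum_bd s t (X d)
      rw [← Finset.add_sum_erase _ _ (Finset.mem_univ (s e0)),
        Finset.sum_eq_zero (fun u hu => hother u (Finset.ne_of_mem_erase hu)), add_zero] at h1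
      rw [hv, h1]
    · exact hother v hv

theorem round_aux (s t : E → V) (l u : E → ℤ) : ∀ (n : ℕ) (x : E → ℝ),
    (univ.filter (fun e => ((⌊x e⌋ : ℤ) : ℝ) ≠ x e)).card ≤ n →
    (∀ e, (l e : ℝ) ≤ x e ∧ x e ≤ u e) → (∀ v, ∃ m : ℤ, bd s t x v = m) →
    ∃ y : E → ℤ, (∀ e, l e ≤ y e ∧ y e ≤ u e) ∧ ∀ v, bd s t (fun e => (y e : ℝ)) v = bd s t x v := by
  have base : ∀ x : E → ℝ, (∀ e, ((⌊x e⌋ : ℤ) : ℝ) = x e) → (∀ e, (l e : ℝ) ≤ x e ∧ x e ≤ u e) →
      ∃ y : E → ℤ, (∀ e, l e ≤ y e ∧ y e ≤ u e) ∧
        ∀ v, bd s t (fun e => (y e : ℝ)) v = bd s t x v := by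
    intro x hx hb
    refine ⟨fun e => ⌊x e⌋, fun e => ?_, fun v => bd_congr _ _ _ _ _ fun e _ => hx e⟩
    have := hb e
    rw [← hx e] at this
    exact ⟨by exact_mod_cast this.1, by exact_mod_cast this.2⟩
  intro n
  induction n with
  | zero =>
    intro x hc hb _
    refine base x (fun e => ?_) hb
    by_contra hne
    have : e ∈ univ.filter (fun e => ((⌊x e⌋ : ℤ) : ℝ) ≠ x e) := by simpa using hne
    have := Finset.card_pos.2 ⟨e, this⟩
    omega
  | succ n ih =>
    intro x hc hb hint
    set F := univ.filter (fun e => ((⌊x e⌋ : ℤ) : ℝ) ≠ x e) with hF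
    by_cases hne : F.Nonempty
    swap
    · refine base x (fun e => ?_) hb
      by_contra h
      exact hne ⟨e, by simpa [hF] using h⟩
    obtain ⟨d, hd0, hdF, hd⟩ := exists_dir s t F hne (by
      intro e he hst v hv
      by_contra hno
      push Not at hno
      obtain ⟨m, hm⟩ := hint v
      obtain ⟨m', hm'⟩ := bd_int s t (fun f => ⌊x f⌋) v
      have h1 : bd s t (fun f => x f - (⌊x f⌋ : ℝ)) v
          = bd s t (Pi.single e (x e - (⌊x e⌋ : ℝ))) v := by
        refine bd_congr _ _ _ _ _ fun f hf => ?_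
        by_cases hfe : f = e
        · subst hfe; simp
        · rw [Pi.single_apply, if_neg hfe]
          by_contra h2
          have hfF : f ∈ F := by
            simp only [hF, Finset.mem_filter, Finset.mem_univ, true_and]
            intro h3; exact h2 (by rw [h3, sub_self])
          have := hno f hfF hfe
          tauto
      rw [bd_sub, hm, hm', bd_single] at h1
      have he' : ((⌊x e⌋ : ℤ) : ℝ) ≠ x e := by simpa [hF] using he
      apply he'
      rcases hv with hv | hv
      · rw [if_pos hv, if_neg (fun h => hst (hv.trans h.symm))] at h1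
        have h4 : x e = ((⌊x e⌋ + m - m' : ℤ) : ℝ) := by push_cast; linarith
        rw [h4, Int.floor_intCast]
      · rw [if_pos hv, if_neg (fun h => hst (h.trans hv.symm))] at h1
        have h4 : x e = ((⌊x e⌋ - m + m' : ℤ) : ℝ) := by push_cast; linarith
        rw [h4, Int.floor_intCast])
    set S := univ.filter (fun e => d e ≠ 0) with hS
    have hSne : S.Nonempty := by
      by_contra h
      apply hd0
      funext e
      by_contra h2
      exact h ⟨e, by simpa [hS] using h2⟩
    let r : E → ℝ := fun e => if 0 < d e then ((⌊x e⌋ : ℝ) + 1 - x e) / d e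
      else (x e - (⌊x e⌋ : ℝ)) / (- d e)
    obtain ⟨e0, he0, hmin⟩ := Finset.exists_min_image S r hSne
    have hd1 : d e0 ≠ 0 := by simpa [hS] using he0
    have hr0 : 0 ≤ r e0 := by
      simp only [r]; split_ifs with h
      · exact div_nonneg (by linarith [Int.lt_floor_add_one (x e0)]) h.le
      · exact div_nonneg (by linarith [Int.floor_le (x e0)]) (by linarith)
    set x' : E → ℝ := fun e => x e + r e0 * d e with hx'
    have hbetween : ∀ e, d e ≠ 0 → (⌊x e⌋ : ℝ) ≤ x' e ∧ x' e ≤ ⌊x e⌋ + 1 := by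
      intro e he
      have h1 := hmin e (by simpa [hS] using he)
      have h2 := Int.floor_le (x e)
      have h3 := Int.lt_floor_add_one (x e)
      simp only [hx']
      by_cases h : 0 < d e
      · have h4 : r e = ((⌊x e⌋ : ℝ) + 1 - x e) / d e := if_pos h
        rw [h4, le_div_iff₀ h] at h1
        constructor <;> nlinarith [mul_nonneg hr0 h.le]
      · have h5 : 0 < - d e := by
          rcases lt_or_gt_of_ne he with h6 | h6
          · linarith
          · exact absurd h6 h
        have h4 : r e = (x e - (⌊x e⌋ : ℝ)) / (- d e) := if_neg h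
        rw [h4, le_div_iff₀ h5] at h1
        constructor <;> nlinarith [mul_nonneg hr0 h5.le]
    have hsub : univ.filter (fun e => ((⌊x' e⌋ : ℤ) : ℝ) ≠ x' e) ⊆ F.erase e0 := by
      intro e he
      have he' : ((⌊x' e⌋ : ℤ) : ℝ) ≠ x' e := by simpa using he
      refine Finset.mem_erase.2 ⟨?_, ?_⟩
      · rintro rfl
        apply he'
        by_cases h : 0 < d e
        · have h4 : x' e = ((⌊x e⌋ + 1 : ℤ) : ℝ) := by
            have h5 : r e = ((⌊x e⌋ : ℝ) + 1 - x e) / d e := if_pos h
            simp only [hx']; rw [h5]; push_cast; field_simp; ring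
          rw [h4, Int.floor_intCast]
        · have h4 : x' e = ((⌊x e⌋ : ℤ) : ℝ) := by
            have h5 : r e = (x e - (⌊x e⌋ : ℝ)) / (- d e) := if_neg h
            simp only [hx']; rw [h5]; field_simp; ring
          rw [h4, Int.floor_intCast]
      · by_contra hn
        apply he'
        have h1 : ((⌊x e⌋ : ℤ) : ℝ) = x e := by simpa [hF] using hn
        have h2 : x' e = x e := by simp [hx', hdF e hn]
        rw [h2, h1]
    have he0F : e0 ∈ F := by
      by_contra h; exact hd1 (hdF e0 h)
    have hbd : ∀ v, bd s t x' v = bd s t x v := by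
      intro v
      simp only [hx']
      rw [bd_add, bd_mul, hd, mul_zero, add_zero]
    obtain ⟨y, hy1, hy2⟩ := ih x' (by
      have := Finset.card_le_card hsub
      rw [Finset.card_erase_of_mem he0F] at this
      omega) (fun e => by
      by_cases he : d e = 0
      · have h2 : x' e = x e := by simp [hx', he]
        rw [h2]; exact hb e
      · have heF : e ∈ F := by
          by_contra h; exact he (hdF e h)
        have h1 : ((⌊x e⌋ : ℤ) : ℝ) ≠ x e := by simpa [hF] using heF
        have h2 := hbetween e he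
        have h3 : l e ≤ ⌊x e⌋ := Int.le_floor.2 (hb e).1
        have h4 : ((⌊x e⌋ : ℤ) : ℝ) < u e :=
          lt_of_lt_of_le (lt_of_le_of_ne (Int.floor_le _) h1) (hb e).2
        have h5 : ⌊x e⌋ + 1 ≤ u e := by exact_mod_cast h4
        have h6 : ((l e : ℤ) : ℝ) ≤ ⌊x e⌋ := by exact_mod_cast h3
        have h7 : ((⌊x e⌋ : ℤ) : ℝ) + 1 ≤ u e := by exact_mod_cast h5
        exact ⟨by linarith [h2.1], by linarith [h2.2]⟩) (fun v => by rw [hbd]; exact hint v)
    exact ⟨y, hy1, fun v => (hy2 v).trans (hbd v)⟩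

theorem round (s t : E → V) (l u : E → ℤ) (x : E → ℝ)
    (hb : ∀ e, (l e : ℝ) ≤ x e ∧ x e ≤ u e) (hint : ∀ v, ∃ m : ℤ, bd s t x v = m) :
    ∃ y : E → ℤ, (∀ e, l e ≤ y e ∧ y e ≤ u e) ∧ ∀ v, bd s t (fun e => (y e : ℝ)) v = bd s t x v :=
  round_aux s t l u _ x le_rfl hb hint

/-- real circular flow: values of absolute value between `κ - 1` and `κ + 1` -/
theorem real_flow (s t : E → V) (κ : ℝ) (hκ : 1 ≤ κ) (h : PartConn s t κ) :
    ∃ f : E → ℝ, (∀ e, κ - 1 ≤ |f e| ∧ |f e| ≤ κ + 1) ∧ ∀ v, bd s t f v = 0 := by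
  have hκ0 : 0 < κ := by linarith
  obtain ⟨g, hg, hint⟩ := flow_cover s t κ hκ0 h (fun _ => - (1 / 2))
  have hk2 : (2 * κ)⁻¹ ≤ 1 / 2 := by
    rw [inv_eq_one_div]; exact one_div_le_one_div_of_le two_pos (by linarith)
  obtain ⟨y, hy1, hy2⟩ := round s t (fun _ => 0) (fun _ => 1) (fun e => g e - - (1 / 2))
    (fun e => by
      have := abs_le.1 ((hg e).trans hk2)
      push_cast; constructor <;> linarith [this.1, this.2])
    (fun v => by
      obtain ⟨m, hm⟩ := hint v
      exact ⟨m, by rw [bd_sub, hm]; ring⟩)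
  refine ⟨fun e => (2 * κ) * ((g e - - (1 / 2)) - y e), fun e => ?_, fun v => ?_⟩
  · have h1 := abs_le.1 (hg e)
    have h2 : (2 * κ) * (2 * κ)⁻¹ = 1 := mul_inv_cancel₀ (by positivity)
    have h3 : - 1 ≤ 2 * κ * g e := by nlinarith [h1.1]
    have h4 : 2 * κ * g e ≤ 1 := by nlinarith [h1.2]
    have h5 : y e = 0 ∨ y e = 1 := by have := hy1 e; omega
    rcases h5 with h5 | h5
    · simp only [h5]; push_cast
      rw [abs_of_nonneg (by nlinarith)]
      constructor <;> nlinarith
    · simp only [h5]; push_cast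
      rw [abs_of_nonpos (by nlinarith)]
      constructor <;> nlinarith
  · rw [bd_mul, bd_sub, hy2, sub_self, mul_zero]

end Pool.Agent.H12.Zono
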