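import Pool.Agent.H12.Zono3

set_option autoImplicit false
set_option linter.unusedSectionVars false

namespace Pool.Agent.H12.Zono

open Finset

variable {E : Type} [Fintype E] [DecidableEq E] {V : Type} [Fintype V] [DecidableEq V]

theorem partConn_of_cuts (s t : E → V) (l : ℕ)
    (h : ∀ S : Finset V, S.Nonempty → S ≠ univ →
      l ≤ (univ.filter (fun e => (s e ∈ S ∧ t e ∉ S) ∨ (s e ∉ S ∧ t e ∈ S))).card) :
    PartConn s t ((l : ℝ) / 2) := by
  classical
  intro f
  set I := univ.image f with hI
  set C := univ.filter (fun e => f (s e) ≠ f (t e)) with hC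
  by_cases h1 : I.card ≤ 1
  · have : (I.card : ℝ) - 1 ≤ 0 := by
      have : (I.card : ℝ) ≤ 1 := by exact_mod_cast h1
      linarith
    have h2 : (0 : ℝ) ≤ (l : ℝ) / 2 := by positivity
    have h3 : (0 : ℝ) ≤ C.card := by positivity
    nlinarith
  push Not at h1
  have hcount : I.card * l ≤ C.card * 2 := by
    refine Finset.card_mul_le_card_mul (fun c e => f (s e) = c ∨ f (t e) = c) ?_ ?_
    · intro c hc
      obtain ⟨v, _, hv⟩ := Finset.mem_image.1 hc
      obtain ⟨c', hc', hne⟩ := Finset.exists_mem_ne h1 c
      obtain ⟨v', _, hv'⟩ := Finset.mem_image.1 hc'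
      refine (h (univ.filter (fun x => f x = c)) ⟨v, by simpa using hv⟩ (fun he => ?_)).trans
        (Finset.card_le_card fun e he => ?_)
      · have : v' ∈ univ.filter (fun x => f x = c) := by rw [he]; exact Finset.mem_univ _
        simp only [Finset.mem_filter, Finset.mem_univ, true_and] at this
        exact hne (hv'.symm.trans this)
      · simp only [Finset.mem_filter, Finset.mem_univ, true_and] at he
        simp only [Finset.mem_bipartiteAbove, hC, Finset.mem_filter, Finset.mem_univ, true_and]
        rcases he with ⟨h2, h3⟩ | ⟨h2, h3⟩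
        · exact ⟨fun h4 => h3 (h4.symm.trans h2), Or.inl h2⟩
        · exact ⟨fun h4 => h2 (h4.trans h3), Or.inr h3⟩
    · intro e _
      have : I.bipartiteBelow (fun c e => f (s e) = c ∨ f (t e) = c) e ⊆ {f (s e), f (t e)} := by
        intro v hv
        have := (Finset.mem_bipartiteBelow _).1 hv
        simp only [Finset.mem_insert, Finset.mem_singleton]
        rcases this.2 with h | h <;> simp [h]
      exact (Finset.card_le_card this).trans Finset.card_le_two
  have h2 : (I.card : ℝ) * l ≤ C.card * 2 := by exact_mod_cast hcount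
  have h3 : (0 : ℝ) ≤ l := by positivity
  nlinarith

/-- integer circular flow -/
theorem int_flow (s t : E → V) (k : ℕ) (h : PartConn s t ((k : ℝ) + 1)) :
    ∃ f : E → ℤ, (∀ e, (k : ℤ) ≤ |f e| ∧ |f e| ≤ (k : ℤ) + 2) ∧
      ∀ v, ∑ e ∈ univ.filter (fun e => s e = v), f e = ∑ e ∈ univ.filter (fun e => t e = v), f e := by
  have hk : (0 : ℝ) ≤ k := by positivity
  obtain ⟨f, hf, hb⟩ := real_flow s t ((k : ℝ) + 1) (by linarith) h
  obtain ⟨y, hy1, hy2⟩ := round s t (fun e => if 0 ≤ f e then (k : ℤ) else -((k : ℤ) + 2))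
    (fun e => if 0 ≤ f e then (k : ℤ) + 2 else -(k : ℤ)) f (fun e => by
      have := hf e
      by_cases h0 : 0 ≤ f e
      · rw [abs_of_nonneg h0] at this
        simp only [if_pos h0]; push_cast; constructor <;> linarith [this.1, this.2]
      · rw [abs_of_neg (not_le.1 h0)] at this
        simp only [if_neg h0]; push_cast; constructor <;> linarith [this.1, this.2])
    (fun v => ⟨0, by rw [hb]; simp⟩)
  refine ⟨y, fun e => ?_, fun v => ?_⟩
  · have := hy1 e
    by_cases h0 : 0 ≤ f e
    · simp only [if_pos h0] at this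
      rw [abs_of_nonneg (by omega)]; exact this
    · simp only [if_neg h0] at this
      rw [abs_of_nonpos (by omega)]; omega
  · have := hy2 v
    rw [hb, bd, sub_eq_zero] at this
    exact_mod_cast this

end Pool.Agent.H12.Zono
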