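import Pool.Agent.H12.Zono4

set_option autoImplicit false
set_option linter.unusedSectionVars false

namespace Pool.Agent.H12.Zono

open Finset

variable {V : Type} [Fintype V] [DecidableEq V]

theorem tree_cross (T : SimpleGraph V) (hT : T.Connected) (f : V → V) :
    (univ.image f).card ≤ (T.edgeSet ∩ {e | ¬ (e.map f).IsDiag}).ncard + 1 := by
  classical
  let I := {c // c ∈ univ.image f}
  let f' : V → I := fun v => ⟨f v, Finset.mem_image_of_mem _ (Finset.mem_univ v)⟩
  have hsurj : Function.Surjective f' := by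
    rintro ⟨c, hc⟩
    obtain ⟨v, _, rfl⟩ := Finset.mem_image.1 hc
    exact ⟨v, rfl⟩
  have hreach : ∀ u v, T.Reachable u v → (T.map f').Reachable (f' u) (f' v) := by
    intro u v h
    rw [SimpleGraph.reachable_iff_reflTransGen] at h
    induction h with
    | refl => exact SimpleGraph.Reachable.refl _
    | @tail b c _ hbc ih =>
      by_cases he : f' b = f' c
      · rw [← he]; exact ih
      · exact ih.trans (SimpleGraph.Adj.reachable ⟨he, b, c, hbc, rfl, rfl⟩)
  have hne : Nonempty I := hT.nonempty.map f'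
  have hconn : (T.map f').Connected := ⟨fun a b => by
    obtain ⟨u, rfl⟩ := hsurj a
    obtain ⟨v, rfl⟩ := hsurj b
    exact hreach u v (hT.preconnected u v)⟩
  have h1 := hconn.card_vert_le_card_edgeSet_add_one
  rw [Nat.card_eq_fintype_card, Fintype.card_coe, Nat.card_coe_set_eq] at h1
  have h2 : (T.map f').edgeSet ⊆ Sym2.map f' '' (T.edgeSet ∩ {e | ¬ (e.map f).IsDiag}) := by
    intro e he
    induction e using Sym2.ind with
    | _ a b =>
      obtain ⟨hne, u, v, huv, rfl, rfl⟩ := (SimpleGraph.mem_edgeSet _).1 he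
      refine ⟨s(u, v), ⟨huv, ?_⟩, rfl⟩
      simp only [Set.mem_ofPred_eq, Sym2.map_mk, Sym2.mk_isDiag_iff]
      intro h; exact hne (Subtype.ext h)
  have h3 := (Set.ncard_le_ncard h2 (Set.toFinite _)).trans (Set.ncard_image_le (Set.toFinite _))
  omega

/-- first end of an edge -/
noncomputable def e1 (G : SimpleGraph V) (e : G.edgeSet) : V := (Quot.out e.1).1
/-- second end of an edge -/
noncomputable def e2 (G : SimpleGraph V) (e : G.edgeSet) : V := (Quot.out e.1).2

theorem e12 (G : SimpleGraph V) (e : G.edgeSet) : s(e1 G e, e2 G e) = e.1 := Quot.out_eq e.1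

theorem e_adj (G : SimpleGraph V) (e : G.edgeSet) : G.Adj (e1 G e) (e2 G e) := by
  have := e.2
  rw [← e12] at this
  exact this

theorem partConn_of_trees (G : SimpleGraph V) [Fintype G.edgeSet] (k : ℕ)
    (F : Fin k → SimpleGraph V) (hF : ∀ i, F i ≤ G ∧ (F i).IsTree)
    (hd : Pairwise (fun i j => Disjoint (F i) (F j))) : PartConn (e1 G) (e2 G) (k : ℝ) := by
  classical
  intro f
  set C := univ.filter (fun e : G.edgeSet => f (e1 G e) ≠ f (e2 G e)) with hC
  let A : Fin k → Finset G.edgeSet := fun i => C.filter (fun e => e.1 ∈ (F i).edgeSet)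
  have hA : ∀ i, (univ.image f).card ≤ (A i).card + 1 := by
    intro i
    have h1 := tree_cross (F i) (hF i).2.connected f
    have h2 : (F i).edgeSet ∩ {e | ¬ (e.map f).IsDiag} ⊆ Subtype.val '' (A i : Set G.edgeSet) := by
      rintro e ⟨he1, he2⟩
      have heG : e ∈ G.edgeSet := SimpleGraph.edgeSet_mono (hF i).1 he1
      refine ⟨⟨e, heG⟩, ?_, rfl⟩
      simp only [A, hC, Finset.coe_filter, Finset.mem_filter, Finset.mem_univ, true_and,
        Set.mem_ofPred_eq]
      refine ⟨fun h => he2 ?_, he1⟩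
      have := e12 G ⟨e, heG⟩
      simp only at this
      rw [← this]
      simpa using h
    have h3 := (Set.ncard_le_ncard h2 (Set.toFinite _)).trans (Set.ncard_image_le (Set.toFinite _))
    rw [Set.ncard_coe_finset] at h3
    omega
  have hdisj : ∀ i ∈ (univ : Finset (Fin k)), ∀ j ∈ (univ : Finset (Fin k)), i ≠ j →
      Disjoint (A i) (A j) := by
    intro i _ j _ hij
    rw [Finset.disjoint_left]
    intro e hi hj
    have h1 := (Finset.mem_filter.1 hi).2
    have h2 := (Finset.mem_filter.1 hj).2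
    have h3 := SimpleGraph.disjoint_edgeSet.2 (hd hij)
    exact Set.disjoint_left.1 h3 h1 h2
  have hsum : ∑ i, (A i).card ≤ C.card := by
    rw [← Finset.card_biUnion hdisj]
    exact Finset.card_le_card (Finset.biUnion_subset.2 fun i _ => Finset.filter_subset _ _)
  have h4 : ∑ _i : Fin k, (((univ.image f).card : ℝ) - 1) ≤ ∑ i, ((A i).card : ℝ) :=
    Finset.sum_le_sum fun i _ => by
      have : ((univ.image f).card : ℝ) ≤ (A i).card + 1 := by exact_mod_cast hA i
      linarith
  have h5 : ∑ i, ((A i).card : ℝ) ≤ C.card := by exact_mod_cast hsum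
  rw [Finset.sum_const, Finset.card_univ, Fintype.card_fin, nsmul_eq_mul] at h4
  linarith

theorem exists_bd (G : SimpleGraph V) [Fintype G.edgeSet] (hG : G.Connected) (β : V → ℝ)
    (hβ : ∑ v, β v = 0) : ∃ x : G.edgeSet → ℝ, ∀ v, bd (e1 G) (e2 G) x v = β v := by
  classical
  have hadj : ∀ a b, G.Adj a b → ∃ x : G.edgeSet → ℝ, ∀ v, bd (e1 G) (e2 G) x v =
      (if a = v then 1 else 0) - (if b = v then 1 else 0) := by
    intro a b hab
    have h := e12 G ⟨s(a, b), hab⟩
    rcases Sym2.eq_iff.1 h with ⟨h1, h2⟩ | ⟨h1, h2⟩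
    · exact ⟨Pi.single ⟨s(a, b), hab⟩ 1, fun v => by rw [bd_single, h1, h2]⟩
    · refine ⟨Pi.single ⟨s(a, b), hab⟩ (-1), fun v => ?_⟩
      rw [bd_single, h1, h2]; split_ifs <;> ring
  have hreach : ∀ a b, ∃ x : G.edgeSet → ℝ, ∀ v, bd (e1 G) (e2 G) x v =
      (if a = v then 1 else 0) - (if b = v then 1 else 0) := by
    intro a b
    have h := hG.preconnected a b
    rw [SimpleGraph.reachable_iff_reflTransGen] at h
    induction h with
    | refl => exact ⟨fun _ => 0, fun v => by simp [bd]⟩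
    | @tail b c _ hbc ih =>
      obtain ⟨x, hx⟩ := ih
      obtain ⟨y, hy⟩ := hadj b c hbc
      exact ⟨fun e => x e + y e, fun v => by rw [bd_add, hx, hy]; ring⟩
  obtain ⟨r⟩ := hG.nonempty
  choose X hX using fun a => hreach a r
  refine ⟨fun e => ∑ a, β a * X a e, fun v => ?_⟩
  have h1 : bd (e1 G) (e2 G) (fun e => ∑ a, β a * X a e) v
      = ∑ a, β a * bd (e1 G) (e2 G) (X a) v := by
    simp only [bd, mul_sub, Finset.sum_sub_distrib, Finset.mul_sum]
    rw [Finset.sum_comm, Finset.sum_comm (s := univ.filter (fun e => e2 G e = v))]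
  rw [h1]
  simp only [hX, mul_sub, Finset.sum_sub_distrib, mul_ite, mul_one, mul_zero,
    Finset.sum_ite_eq', Finset.mem_univ, if_true]
  split_ifs <;> simp [hβ]

/-- assignment of the edges to one of their ends with prescribed counts modulo `k` -/
theorem exists_centers (G : SimpleGraph V) [Fintype G.edgeSet] (hG : G.Connected) (k : ℕ)
    (hk : 0 < k) (hp : PartConn (e1 G) (e2 G) (k : ℝ)) (hdvd : k ∣ Fintype.card G.edgeSet) :
    ∃ c : G.edgeSet → V, (∀ e, c e = e1 G e ∨ c e = e2 G e) ∧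
      ∀ v, k ∣ (univ.filter (fun e => c e = v)).card := by
  classical
  have hk' : (0 : ℝ) < k := by exact_mod_cast hk
  obtain ⟨q, hq⟩ := hdvd
  obtain ⟨r⟩ := hG.nonempty
  let dt : V → ℝ := fun v => ((univ.filter (fun e => e2 G e = v)).card : ℝ)
  have hdt : ∑ v, dt v = k * q := by
    have := Finset.card_eq_sum_card_fiberwise (s := (univ : Finset G.edgeSet)) (t := univ)
      (f := e2 G) (fun e _ => Finset.mem_univ _)
    rw [Finset.card_univ, hq] at this
    simp only [dt]
    exact_mod_cast this.symm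
  obtain ⟨x0, hx0⟩ := exists_bd G hG (fun v => (if r = v then (q : ℝ) else 0)
      - (k : ℝ)⁻¹ * (dt v + bd (e1 G) (e2 G) (fun _ => 1 / 2) v)) (by
    rw [Finset.sum_sub_distrib, ← Finset.mul_sum, Finset.sum_add_distrib, sum_bd, hdt]
    simp only [Finset.sum_ite_eq, Finset.mem_univ, if_true]
    field_simp; ring)
  obtain ⟨g, hg, hint⟩ := flow_cover (e1 G) (e2 G) k hk' hp x0
  have hb : ∀ v, ∃ m : ℤ, bd (e1 G) (e2 G) (fun e => k * g e + 1 / 2) v = k * m - dt v := by
    intro v
    obtain ⟨m, hm⟩ := hint v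
    refine ⟨m + if r = v then q else 0, ?_⟩
    rw [bd_add, bd_mul, hm, hx0]
    split_ifs <;> push_cast <;> field_simp <;> ring
  obtain ⟨y, hy1, hy2⟩ := round (e1 G) (e2 G) (fun _ => 0) (fun _ => 1) (fun e => k * g e + 1 / 2)
    (fun e => by
      have h1 := abs_le.1 (hg e)
      have h2 : (k : ℝ) * (2 * (k : ℝ))⁻¹ = 1 / 2 := by field_simp
      push_cast
      constructor <;> nlinarith [h1.1, h1.2])
    (fun v => by
      obtain ⟨m, hm⟩ := hb v
      exact ⟨k * m - ((univ.filter (fun e => e2 G e = v)).card : ℕ), by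
        rw [hm]; simp [dt]⟩)
  refine ⟨fun e => if y e = 1 then e1 G e else e2 G e, fun e => by by_cases h : y e = 1 <;> simp [h], fun v => ?_⟩
  obtain ⟨m, hm⟩ := hb v
  have h1 : ((univ.filter (fun e => (if y e = 1 then e1 G e else e2 G e) = v)).card : ℝ)
      = bd (e1 G) (e2 G) (fun e => (y e : ℝ)) v + dt v := by
    simp only [bd, dt, Finset.card_filter, Finset.sum_filter, Nat.cast_sum,
      ← Finset.sum_sub_distrib, ← Finset.sum_add_distrib]
    refine Finset.sum_congr rfl fun e _ => ?_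
    have h5 : y e = 0 ∨ y e = 1 := by have := hy1 e; omega
    have h6 := (e_adj G e).ne
    rcases h5 with h5 | h5
    · simp only [h5]; split_ifs <;> simp_all
    · simp only [h5]; split_ifs <;> simp_all
  rw [hy2, hm] at h1
  have h2 : (((univ.filter (fun e => (if y e = 1 then e1 G e else e2 G e) = v)).card : ℕ) : ℤ)
      = k * m := by
    have : (((univ.filter (fun e => (if y e = 1 then e1 G e else e2 G e) = v)).card : ℕ) : ℝ)
      = ((k * m : ℤ) : ℝ) := by rw [h1]; push_cast; ring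
    exact_mod_cast this
  exact Int.natCast_dvd_natCast.1 ⟨m, h2⟩

theorem star_decomp (G : SimpleGraph V) [DecidableRel G.Adj]
    {W : Type} [Fintype W] [DecidableEq W] (T : SimpleGraph W) [DecidableRel T.Adj]
    (c0 : W) (hT : ∀ a b, T.Adj a b ↔ a ≠ b ∧ (a = c0 ∨ b = c0))
    (F : Fin T.edgeFinset.card → SimpleGraph V) (hF : ∀ i, F i ≤ G ∧ (F i).IsTree)
    (hd : Pairwise (fun i j => Disjoint (F i) (F j)))
    (hdvd : T.edgeFinset.card ∣ G.edgeFinset.card) :
    ∃ (n : ℕ) (H : Fin n → G.Subgraph),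
        (∀ i, Nonempty (T ≃g (H i).coe)) ∧
        Pairwise (fun i j => Disjoint (H i).edgeSet (H j).edgeSet) ∧
        (∀ e ∈ G.edgeSet, ∃ i, e ∈ (H i).edgeSet) := by
  classical
  rcases Nat.eq_zero_or_pos T.edgeFinset.card with h0 | hk
  · refine ⟨0, Fin.elim0, fun i => i.elim0, fun i => i.elim0, fun e he => ?_⟩
    rw [h0, Nat.zero_dvd, Finset.card_eq_zero] at hdvd
    have : e ∈ G.edgeFinset := SimpleGraph.mem_edgeFinset.2 he
    rw [hdvd] at this
    exact absurd this (Finset.notMem_empty _)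
  have hG : G.Connected := (hF ⟨0, hk⟩).2.connected.mono (hF ⟨0, hk⟩).1
  have hcard : T.edgeFinset.card = Fintype.card {w // w ≠ c0} := by
    have h1 : T.edgeFinset = (univ : Finset {w // w ≠ c0}).image (fun w => s(c0, w.1)) := by
      ext e
      induction e using Sym2.ind with
      | _ a b =>
        simp only [SimpleGraph.mem_edgeFinset, SimpleGraph.mem_edgeSet, hT, Finset.mem_image,
          Finset.mem_univ, true_and]
        constructor
        · rintro ⟨hab, rfl | rfl⟩
          · exact ⟨⟨b, hab.symm⟩, rfl⟩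
          · exact ⟨⟨a, hab⟩, Sym2.eq_swap⟩
        · rintro ⟨w, hw⟩
          rcases Sym2.eq_iff.1 hw with ⟨rfl, rfl⟩ | ⟨rfl, rfl⟩
          · exact ⟨w.2.symm, Or.inl rfl⟩
          · exact ⟨w.2, Or.inr rfl⟩
    rw [h1, Finset.card_image_of_injective, Finset.card_univ]
    intro x y hxy
    exact Subtype.ext (Sym2.congr_right.1 hxy)
  obtain ⟨c, hc, hdiv⟩ := exists_centers G hG _ hk (partConn_of_trees G _ F hF hd) (by
    rw [← SimpleGraph.edgeFinset_card]; exact hdvd)
  choose m hm using hdiv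
  have hσ : ∀ v, Nonempty (Fin (m v) × {w // w ≠ c0} ≃ {e // c e = v}) := fun v =>
    ⟨Fintype.equivOfCardEq (by
      rw [Fintype.card_prod, Fintype.card_fin, ← hcard, Fintype.card_subtype, hm, mul_comm])⟩
  let σ := fun v => (hσ v).some
  have hoth : ∀ e : G.edgeSet, ∃ u, s(c e, u) = e.1 := fun e => by
    rcases hc e with h | h
    · exact ⟨e2 G e, by rw [h, e12]⟩
    · exact ⟨e1 G e, by rw [h, Sym2.eq_swap, e12]⟩
  choose o ho using hoth
  have hso : ∀ v (p : Fin (m v) × {w // w ≠ c0}), s(v, o (σ v p).1) = (σ v p).1.1 := fun v p => by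
    have := ho (σ v p).1
    rwa [(σ v p).2] at this
  have hadj : ∀ v (p : Fin (m v) × {w // w ≠ c0}), G.Adj v (o (σ v p).1) := fun v p => by
    rw [← SimpleGraph.mem_edgeSet, hso]; exact (σ v p).1.2
  let ψ : (Σ v, Fin (m v)) → W → V := fun i w =>
    if h : w = c0 then i.1 else o (σ i.1 (i.2, ⟨w, h⟩)).1
  have hψ0 : ∀ i, ψ i c0 = i.1 := fun i => dif_pos rfl
  have hψ1 : ∀ i (w : {w // w ≠ c0}), ψ i w = o (σ i.1 (i.2, w)).1 := fun i w => dif_neg w.2
  let K : (Σ v, Fin (m v)) → SimpleGraph.Copy T G := fun i =>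
    { toHom :=
        { toFun := ψ i
          map_rel' := fun {a b} hab => by
            obtain ⟨hne, rfl | rfl⟩ := (hT a b).1 hab
            · rw [hψ0, hψ1 i ⟨b, hne.symm⟩]; exact hadj _ _
            · rw [hψ0, hψ1 i ⟨a, hne⟩]; exact (hadj _ _).symm }
      injective' := fun a b hab => by
        change ψ i a = ψ i b at hab
        by_cases ha : a = c0 <;> by_cases hb : b = c0
        · rw [ha, hb]
        · rw [ha, hψ0, hψ1 i ⟨b, hb⟩] at hab
          exact absurd hab (hadj _ _).ne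
        · rw [hb, hψ0, hψ1 i ⟨a, ha⟩] at hab
          exact absurd hab.symm (hadj _ _).ne
        · rw [hψ1 i ⟨a, ha⟩, hψ1 i ⟨b, hb⟩] at hab
          have h1 : (σ i.1 (i.2, ⟨a, ha⟩)).1.1 = (σ i.1 (i.2, ⟨b, hb⟩)).1.1 := by
            rw [← hso, ← hso, hab]
          have h2 := (σ i.1).injective (Subtype.ext (Subtype.ext h1))
          exact congrArg Subtype.val (Prod.ext_iff.1 h2).2 }
  have hedge : ∀ i e, e ∈ (K i).toSubgraph.edgeSet ↔
      ∃ w : {w // w ≠ c0}, e = (σ i.1 (i.2, w)).1.1 := by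
    intro i e
    rw [SimpleGraph.Subgraph.edgeSet_map, SimpleGraph.Subgraph.edgeSet_top]
    constructor
    · rintro ⟨d, hd1, rfl⟩
      induction d using Sym2.ind with
      | _ a b =>
        obtain ⟨hne, rfl | rfl⟩ := (hT a b).1 hd1
        · refine ⟨⟨b, hne.symm⟩, ?_⟩
          change s(ψ i a, ψ i b) = _
          rw [hψ0, hψ1 i ⟨b, hne.symm⟩, hso]
        · refine ⟨⟨a, hne⟩, ?_⟩
          change s(ψ i a, ψ i b) = _
          rw [hψ0, hψ1 i ⟨a, hne⟩, Sym2.eq_swap, hso]
    · rintro ⟨w, rfl⟩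
      refine ⟨s(c0, w.1), (hT _ _).2 ⟨w.2.symm, Or.inl rfl⟩, ?_⟩
      change s(ψ i c0, ψ i w) = _
      rw [hψ0, hψ1, hso]
  let τ := (Fintype.equivFin (Σ v, Fin (m v))).symm
  refine ⟨_, fun i => (K (τ i)).toSubgraph, fun i => ⟨(K (τ i)).isoToSubgraph⟩, fun i j hij => ?_,
    fun e he => ?_⟩
  · refine Set.disjoint_left.2 fun e h1 h2 => ?_
    obtain ⟨w, hw⟩ := (hedge _ _).1 h1
    obtain ⟨w', hw'⟩ := (hedge _ _).1 h2
    apply hij
    apply τ.injective
    generalize τ i = a at hw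
    generalize τ j = b at hw'
    obtain ⟨v, x⟩ := a
    obtain ⟨v', x'⟩ := b
    have h3 : (σ v (x, w)).1 = (σ v' (x', w')).1 := Subtype.ext (hw.symm.trans hw')
    have h4 : v = v' := by rw [← (σ v (x, w)).2, h3, (σ v' (x', w')).2]
    subst h4
    have h5 := (σ v).injective (Subtype.ext h3)
    have h6 : x = x' := (Prod.ext_iff.1 h5).1
    rw [h6]
  · obtain ⟨⟨x, w⟩, hp⟩ := (σ (c ⟨e, he⟩)).surjective ⟨⟨e, he⟩, rfl⟩
    refine ⟨τ.symm ⟨c ⟨e, he⟩, x⟩, (hedge _ _).2 ⟨w, ?_⟩⟩
    rw [Equiv.apply_symm_apply]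
    simp only [hp]

end Pool.Agent.H12.Zono
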