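import Pool.Agent.H12.Zono5

set_option autoImplicit false
set_option linter.unusedSectionVars false

namespace Pool.Agent.H12.Zono

open Finset

variable {E : Type} [Fintype E] [DecidableEq E] {V : Type} [Fintype V] [DecidableEq V]

/-- boundary as a linear map -/
noncomputable def bdL (s t : E → V) : (E → ℝ) →ₗ[ℝ] (V → ℝ) where
  toFun g := bd s t g
  map_add' x y := by funext v; exact bd_add s t x y v
  map_smul' c x := by funext v; exact bd_mul s t c x v

theorem finrank_supp_le (F : Finset E) : Module.finrank ℝ (supp F) ≤ F.card := by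
  let R : supp F →ₗ[ℝ] (F → ℝ) :=
    { toFun := fun y e => y.1 e
      map_add' := fun _ _ => rfl
      map_smul' := fun _ _ => rfl }
  have hR : Function.Injective R := by
    intro x y h
    apply Subtype.ext
    funext e
    by_cases he : e ∈ F
    · exact congrFun h ⟨e, he⟩
    · rw [x.2 e he, y.2 e he]
  have := LinearMap.finrank_le_finrank_of_injective hR
  rwa [Module.finrank_fintype_fun_eq_card, Fintype.card_coe] at this

/-- every nonempty vertex set `S` spans at most `κ (|S| - 1) / (κ - 1)` edges -/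
def Sparse (s t : E → V) (κ : ℝ) : Prop :=
  ∀ S : Finset V, S.Nonempty →
    (κ - 1) * (univ.filter (fun e => s e ∈ S ∧ t e ∈ S)).card ≤ κ * ((S.card : ℝ) - 1)

theorem cyc_rank (s t : E → V) (κ : ℝ) (hκ : 1 ≤ κ) (h : Sparse s t κ) (F : Finset E) :
    κ * Module.finrank ℝ (LinearMap.ker (bdL s t) ⊓ supp F : Submodule ℝ (E → ℝ)) ≤ F.card := by
  classical
  let Q : V → V → Prop := fun u v => ∃ x ∈ supp F, ∀ w, bd s t x w =
    (if u = w then 1 else 0) - (if v = w then 1 else 0)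
  have hQ : Equivalence Q := by
    refine ⟨fun u => ⟨0, zero_mem _, fun w => by simp [bd]⟩, ?_, ?_⟩
    · rintro u v ⟨x, hx, hb⟩
      refine ⟨(-1 : ℝ) • x, Submodule.smul_mem _ _ hx, fun w => ?_⟩
      have := bd_mul s t (-1) x w
      rw [hb] at this
      refine Eq.trans this ?_; ring
    · rintro u v w ⟨x, hx, hb⟩ ⟨y, hy, hc⟩
      refine ⟨x + y, add_mem hx hy, fun w => ?_⟩
      have := bd_add s t x y w
      rw [hb, hc] at this
      refine Eq.trans this ?_; ring
  let S : Setoid V := ⟨Q, hQ⟩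
  let ρ : V → V := fun v => (Quotient.mk S v).out
  have hρ : ∀ v, Q (ρ v) v := fun v => Quotient.mk_out (s := S) v
  have hρρ : ∀ v, ρ (ρ v) = ρ v := fun v => by simp only [ρ]; rw [Quotient.out_eq]
  have hedge : ∀ e ∈ F, ρ (s e) = ρ (t e) := by
    intro e he
    have : Q (s e) (t e) := ⟨Pi.single e 1, fun f hf => by
      rw [Pi.single_apply, if_neg]; rintro rfl; exact hf he, fun w => bd_single s t e 1 w⟩
    simp only [ρ]; rw [Quotient.sound (s := S) this]
  set I := univ.image ρ with hI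
  let L : supp F →ₗ[ℝ] (V → ℝ) := bdL s t ∘ₗ (supp F).subtype
  have hrank : Iᶜ.card ≤ Module.finrank ℝ (LinearMap.range L) := by
    choose X hX1 hX2 using fun v => hQ.symm (hρ v)
    let y : (Iᶜ : Finset V) → LinearMap.range L := fun v => ⟨L ⟨X v, hX1 v⟩, _, rfl⟩
    let P : LinearMap.range L →ₗ[ℝ] ((Iᶜ : Finset V) → ℝ) :=
      { toFun := fun z v => z.1 v
        map_add' := fun _ _ => rfl
        map_smul' := fun _ _ => rfl }
    have hli : LinearIndependent ℝ y := by
      apply LinearIndependent.of_comp P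
      have h1 : P ∘ y = fun v => Pi.single v 1 := by
        funext v w
        have h2 : ρ v ≠ w := by
          intro h3
          have h4 := Finset.mem_compl.1 w.2
          exact h4 (h3 ▸ Finset.mem_image_of_mem _ (Finset.mem_univ _))
        change bd s t (X v) w = _
        rw [hX2, if_neg h2, sub_zero, Pi.single_apply]
        simp only [Subtype.ext_iff, eq_comm]
      rw [h1]
      exact Pi.linearIndependent_single_one _ _
    have := hli.fintype_card_le_finrank
    rwa [Fintype.card_coe] at this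
  have hker : Module.finrank ℝ (LinearMap.ker (bdL s t) ⊓ supp F : Submodule ℝ (E → ℝ))
      = Module.finrank ℝ (LinearMap.ker L) := by
    have h1 : (LinearMap.ker L).map (supp F).subtype = LinearMap.ker (bdL s t) ⊓ supp F := by
      rw [LinearMap.ker_comp, Submodule.map_comap_subtype, inf_comm]
    rw [← h1, Submodule.finrank_map_subtype_eq]
  have hrn := LinearMap.finrank_range_add_finrank_ker L
  have hF := finrank_supp_le F
  have hcount : (κ - 1) * F.card ≤ κ * (Iᶜ.card : ℝ) := by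
    have h1 : F.card = ∑ r ∈ I, (F.filter (fun e => ρ (s e) = r)).card :=
      Finset.card_eq_sum_card_fiberwise (fun e _ => Finset.mem_image_of_mem _ (Finset.mem_univ _))
    have h2 : (univ : Finset V).card = ∑ r ∈ I, (univ.filter (fun v => ρ v = r)).card :=
      Finset.card_eq_sum_card_fiberwise (fun e _ => Finset.mem_image_of_mem _ (Finset.mem_univ _))
    have h3 : ∀ r ∈ I, (κ - 1) * ((F.filter (fun e => ρ (s e) = r)).card : ℝ)
        ≤ κ * (((univ.filter (fun v => ρ v = r)).card : ℝ) - 1) := by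
      intro r hr
      obtain ⟨v, _, hv⟩ := Finset.mem_image.1 hr
      refine le_trans (mul_le_mul_of_nonneg_left ?_ (by linarith)) (h _ ⟨v, by simpa using hv⟩)
      have : F.filter (fun e => ρ (s e) = r) ⊆ univ.filter (fun e =>
          s e ∈ univ.filter (fun v => ρ v = r) ∧ t e ∈ univ.filter (fun v => ρ v = r)) := by
        intro e he
        obtain ⟨h4, h5⟩ := Finset.mem_filter.1 he
        simp only [Finset.mem_filter, Finset.mem_univ, true_and]
        exact ⟨h5, (hedge e h4).symm.trans h5⟩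
      exact_mod_cast Finset.card_le_card this
    have h4 := Finset.sum_le_sum h3
    rw [← Finset.mul_sum, ← Finset.mul_sum, Finset.sum_sub_distrib, ← Nat.cast_sum, ← Nat.cast_sum,
      ← h1, ← h2, Finset.sum_const, nsmul_eq_mul, mul_one] at h4
    have h5 : (Iᶜ.card : ℝ) = (univ : Finset V).card - I.card := by
      have := Finset.card_add_card_compl I
      rw [← Finset.card_univ] at this
      have h6 : (I.card : ℝ) + Iᶜ.card = (univ : Finset V).card := by exact_mod_cast this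
      linarith
    rw [h5]; exact h4
  have h7 : (Module.finrank ℝ (LinearMap.ker L) : ℝ) + Iᶜ.card ≤ F.card := by
    have : Module.finrank ℝ (LinearMap.ker L) + Iᶜ.card ≤ F.card := by omega
    exact_mod_cast this
  rw [hker]
  nlinarith

theorem mem_range_cob (s t : E → V) (x : E → ℝ)
    (hx : ∀ y ∈ LinearMap.ker (bdL s t), ∑ e, y e * x e = 0) : x ∈ LinearMap.range (cob s t) := by
  by_contra hn
  obtain ⟨f, hf, hle⟩ := Submodule.exists_le_ker_of_notMem hn
  have hf2 : ∀ v : E → ℝ, f v = ∑ e, f (Pi.single e 1) * v e := by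
    intro v
    conv_lhs => rw [← Finset.univ_sum_single v]
    rw [map_sum]
    refine Finset.sum_congr rfl fun i _ => ?_
    have : (Pi.single i (v i) : E → ℝ) = v i • Pi.single i 1 := by
      rw [← Pi.single_smul']; simp
    rw [this, map_smul, smul_eq_mul, mul_comm]
  apply hf
  rw [hf2]
  refine hx (fun e => f (Pi.single e 1)) (LinearMap.mem_ker.2 ?_)
  funext v
  change bd s t _ v = 0
  have h1 : f (cob s t (Pi.single v 1)) = 0 := hle ⟨_, rfl⟩
  rw [bd_eq, ← h1, hf2]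
  exact Finset.sum_congr rfl fun e _ => mul_comm _ _

/-- exact covering for tensions, given the rank condition on cycles -/
theorem tension_cover (s t : E → V) (κ : ℝ) (hκ : 0 < κ)
    (h : ∀ F : Finset E,
      κ * Module.finrank ℝ (LinearMap.ker (bdL s t) ⊓ supp F : Submodule ℝ (E → ℝ)) ≤ F.card)
    (x0 : E → ℝ) :
    ∃ (φ : V → ℝ) (z : E → ℤ), ∀ e, |φ (s e) - φ (t e) + x0 e + z e| ≤ (2 * κ)⁻¹ := by
  set A : Set (E → ℝ) := (fun φ : V → ℝ => cob s t φ + x0) '' Set.Icc 0 1 with hA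
  set B : Set (E → ℝ) := Set.pi Set.univ (fun _ => Set.range ((↑) : ℤ → ℝ)) with hB
  have hAc : IsCompact A := isCompact_Icc.image (by
    refine Continuous.add ?_ continuous_const
    exact (cob s t).continuous_of_finiteDimensional)
  have hBc : IsClosed B :=
    isClosed_set_pi fun _ _ => Int.isClosedEmbedding_coe_real.isClosed_range
  have hcl := hBc.add_left_of_isCompact hAc
  have happ : ∀ ε > 0, ∃ g, g ∈ Set.image2 (· + ·) A B ∧ ‖g‖ ≤ (2 * κ)⁻¹ + ε := by
    intro ε hε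
    obtain ⟨z, g, hg, hy⟩ := cover_sub _ κ hκ h ε hε x0
    obtain ⟨φ, hφ⟩ := mem_range_cob s t _ hy
    refine ⟨g, ⟨cob s t (fun v => Int.fract (φ v)) + x0, ⟨_, ⟨fun v => Int.fract_nonneg _,
      fun v => (Int.fract_lt_one _).le⟩, rfl⟩,
      fun e => ((z e + ⌊φ (s e)⌋ - ⌊φ (t e)⌋ : ℤ) : ℝ), fun e _ => ⟨_, rfl⟩, ?_⟩,
      (pi_norm_le_iff_of_nonneg (by positivity)).2 hg⟩
    funext e
    have := congrFun hφ e
    simp only [cob_apply, Pi.add_apply, Int.fract] at this ⊢
    push_cast; linarith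
  obtain ⟨g0, hg0, _⟩ := happ 1 one_pos
  obtain ⟨g, hg, hd⟩ := hcl.exists_infDist_eq_dist ⟨g0, hg0⟩ 0
  have h1 : ‖g‖ ≤ (2 * κ)⁻¹ := by
    refine le_of_forall_pos_le_add fun ε hε => ?_
    obtain ⟨g1, hg1, hn⟩ := happ ε hε
    have := Metric.infDist_le_dist_of_mem (x := 0) hg1
    rw [dist_zero_left] at this
    rw [dist_zero_left] at hd
    have h2 : ‖g‖ ≤ ‖g1‖ := hd ▸ this
    linarith
  obtain ⟨_, ⟨φ, _, rfl⟩, b, hb, rfl⟩ := hg
  choose z hz using fun e => hb e (Set.mem_univ e)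
  refine ⟨φ, z, fun e => ?_⟩
  have := (norm_le_pi_norm _ e).trans h1
  rw [hz e]
  exact this

theorem int_tension (s t : E → V) (k : ℕ)
    (h : ∀ F : Finset E, (2 * (k : ℝ) + 1) *
      Module.finrank ℝ (LinearMap.ker (bdL s t) ⊓ supp F : Submodule ℝ (E → ℝ)) ≤ F.card) :
    ∃ C : V → ℤ, ∀ e, (2 * (k : ℤ) + 1) ∣ C (s e) - C (t e) - 1 ∨
      (2 * (k : ℤ) + 1) ∣ C (t e) - C (s e) - 1 := by
  have hp : (0 : ℝ) < 2 * k + 1 := by positivity
  obtain ⟨φ, z, hz⟩ := tension_cover s t _ hp h (fun _ => - (1 / 2))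
  refine ⟨fun v => 2 * ⌊(2 * (k : ℝ) + 1) * φ v⌋, fun e => ?_⟩
  have h1 := abs_le.1 (hz e)
  have h2 : (2 * (k : ℝ) + 1) * (2 * (2 * (k : ℝ) + 1))⁻¹ = 1 / 2 := by field_simp
  have h3 : (k : ℝ) ≤ (2 * k + 1) * φ (s e) - (2 * k + 1) * φ (t e) + (2 * k + 1) * z e := by
    nlinarith [h1.1]
  have h4 : (2 * k + 1) * φ (s e) - (2 * k + 1) * φ (t e) + (2 * k + 1) * z e ≤ (k : ℝ) + 1 := by
    nlinarith [h1.2]
  set a := (2 * (k : ℝ) + 1) * φ (s e)
  set b := (2 * (k : ℝ) + 1) * φ (t e)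
  have ha1 := Int.floor_le a
  have ha2 := Int.lt_floor_add_one a
  have hb1 := Int.floor_le b
  have hb2 := Int.lt_floor_add_one b
  have h5 : (k : ℤ) - 1 < ⌊a⌋ - ⌊b⌋ + (2 * k + 1) * z e := by
    have : ((k : ℤ) : ℝ) - 1 < ⌊a⌋ - ⌊b⌋ + (2 * (k : ℤ) + 1) * z e := by push_cast; linarith
    exact_mod_cast this
  have h6 : ⌊a⌋ - ⌊b⌋ + (2 * k + 1) * z e < (k : ℤ) + 2 := by
    have : (⌊a⌋ : ℝ) - ⌊b⌋ + (2 * (k : ℤ) + 1) * z e < ((k : ℤ) : ℝ) + 2 := by push_cast; linarith
    exact_mod_cast this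
  have h7 : ⌊a⌋ - ⌊b⌋ + (2 * k + 1) * z e = k ∨ ⌊a⌋ - ⌊b⌋ + (2 * k + 1) * z e = k + 1 := by omega
  rcases h7 with h7 | h7
  · exact Or.inr ⟨2 * z e - 1, by linear_combination (-2) * h7⟩
  · exact Or.inl ⟨1 - 2 * z e, by linear_combination 2 * h7⟩

theorem hom_of_int (G : SimpleGraph V) (j : ℕ) (C : V → ℤ)
    (h : ∀ e : G.edgeSet, (2 * ((j + 1 : ℕ) : ℤ) + 1) ∣ C (e1 G e) - C (e2 G e) - 1 ∨
      (2 * ((j + 1 : ℕ) : ℤ) + 1) ∣ C (e2 G e) - C (e1 G e) - 1) :
    Nonempty (G →g SimpleGraph.cycleGraph (2 * (j + 1) + 1)) := by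
  have key : ∀ a b : V, (2 * ((j + 1 : ℕ) : ℤ) + 1) ∣ C a - C b - 1 →
      ((C a : ZMod (2 * j + 1 + 2)) - (C b : ZMod (2 * j + 1 + 2)) = 1) := by
    intro a b hab
    have h1 : ((C a - C b - 1 : ℤ) : ZMod (2 * j + 1 + 2)) = 0 := by
      rw [ZMod.intCast_zmod_eq_zero_iff_dvd]
      have : ((2 * j + 1 + 2 : ℕ) : ℤ) = 2 * ((j + 1 : ℕ) : ℤ) + 1 := by push_cast; ring
      rw [this]; exact hab
    push_cast at h1
    exact sub_eq_zero.1 h1
  refine ⟨⟨fun v => (C v : ZMod (2 * j + 1 + 2)), fun {a b} hab => ?_⟩⟩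
  refine (SimpleGraph.cycleGraph_adj (n := 2 * j + 1)).2 ?_
  have h0 := h ⟨s(a, b), hab⟩
  rcases Sym2.eq_iff.1 (e12 G ⟨s(a, b), hab⟩) with ⟨h1, h2⟩ | ⟨h1, h2⟩
  · rw [h1, h2] at h0
    exact h0.imp (key a b) (key b a)
  · rw [h1, h2] at h0
    exact h0.symm.imp (key a b) (key b a)

end Pool.Agent.H12.Zono
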